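import Pool.Agent.H2.PD.Stm

/-!
# S_dig: replacing one digit (helper828, for helper2)
-/

namespace Pool.Agent.H828.PDdig

open Pool.Agent.H2.PD

/-- the digits of `hi * B ^ (e + 1) + c * B ^ e + lo` -/
theorem digit (B hi c lo e : ℕ) (hc : c < B) (hlo : lo < B ^ e) (e' : ℕ) :
    (hi * B ^ (e + 1) + c * B ^ e + lo) / B ^ e' % B =
      if e' = e then c else if e' < e then lo / B ^ e' % B else hi / B ^ (e' - (e + 1)) % B := by
  have hB : 0 < B := by omega
  rcases lt_trichotomy e' e with h | h | h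
  · rw [if_neg (by omega), if_pos h]
    obtain ⟨k, rfl⟩ : ∃ k, e = e' + (k + 1) := ⟨e - e' - 1, by omega⟩
    have h1 : hi * B ^ (e' + (k + 1) + 1) + c * B ^ (e' + (k + 1)) + lo =
        lo + B ^ e' * (B * ((hi * B + c) * B ^ k)) := by ring
    rw [h1, Nat.add_mul_div_left _ _ (pow_pos hB e'), Nat.add_mul_mod_self_left]
  · subst h
    rw [if_pos rfl]
    have h1 : hi * B ^ (e' + 1) + c * B ^ e' + lo = lo + B ^ e' * (c + B * hi) := by ring
    rw [h1, Nat.add_mul_div_left _ _ (pow_pos hB e'), Nat.div_eq_of_lt hlo, zero_add,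
      Nat.add_mul_mod_self_left, Nat.mod_eq_of_lt hc]
  · rw [if_neg (by omega), if_neg (by omega)]
    obtain ⟨k, rfl⟩ : ∃ k, e' = (e + 1) + k := ⟨e' - (e + 1), by omega⟩
    have h1 : e + 1 + k - (e + 1) = k := by omega
    have h2 : c * B ^ e + lo < B ^ (e + 1) := by
      have h3 : (c + 1) * B ^ e ≤ B * B ^ e := Nat.mul_le_mul_right _ hc
      have h4 : B ^ (e + 1) = B * B ^ e := by ring
      have h5 : (c + 1) * B ^ e = c * B ^ e + B ^ e := by ring
      omega
    have h3 : hi * B ^ (e + 1) + c * B ^ e + lo = (c * B ^ e + lo) + B ^ (e + 1) * hi := by ring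
    rw [h1, pow_add B (e + 1) k, ← Nat.div_div_eq_div_mul, h3,
      Nat.add_mul_div_left _ _ (pow_pos hB (e + 1)), Nat.div_eq_of_lt h2, zero_add]

theorem split (B s e : ℕ) :
    s = s / B ^ (e + 1) * B ^ (e + 1) + (s / B ^ e % B) * B ^ e + s % B ^ e := by
  have h1 : s / B ^ (e + 1) = s / B ^ e / B := by
    rw [pow_succ, Nat.div_div_eq_div_mul]
  have h2 := Nat.div_add_mod (s / B ^ e) B
  have h3 := Nat.div_add_mod s (B ^ e)
  calc s = B ^ e * (s / B ^ e) + s % B ^ e := h3.symm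
    _ = B ^ e * (B * (s / B ^ e / B) + s / B ^ e % B) + s % B ^ e := by rw [h2]
    _ = _ := by rw [h1]; ring

theorem dig : S_dig := by
  intro s e n hn e'
  have h0 : (s - (s / 65536 ^ e % 65536) * 65536 ^ e + n * 65536 ^ e) =
      s / 65536 ^ (e + 1) * 65536 ^ (e + 1) + n * 65536 ^ e + s % 65536 ^ e := by
    have h := split 65536 s e
    generalize s / 65536 ^ (e + 1) * 65536 ^ (e + 1) = a at h ⊢
    generalize (s / 65536 ^ e % 65536) * 65536 ^ e = b at h ⊢
    generalize s % 65536 ^ e = c at h ⊢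
    omega
  rw [h0, digit 65536 _ n _ e hn (Nat.mod_lt _ (by positivity)) e']
  by_cases h1 : e' = e
  · rw [if_pos h1, if_pos h1]
  · rw [if_neg h1, if_neg h1]
    have h2 := digit 65536 (s / 65536 ^ (e + 1)) (s / 65536 ^ e % 65536) (s % 65536 ^ e) e
      (Nat.mod_lt _ (by norm_num)) (Nat.mod_lt _ (by positivity)) e'
    rw [← split 65536 s e, if_neg h1] at h2
    exact h2.symm

end Pool.Agent.H828.PDdig
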