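import Pool.Agent.H252.EL.Iface

/-!
# EL project, task TISO: the trace spaces of two nearby systems (helper828, for helper252)
-/

set_option autoImplicit false
set_option linter.unusedSectionVars false

noncomputable section

namespace Pool.Agent.H828.ELTISO

open Filter Topology
open scoped ENNReal NNReal Matrix.Norms.L2Operator ComplexOrder
open Pool.Agent.H188R3 (IsLim norm_map_inj norm_map_le')
open Pool.Agent.H252.EL

/-! ## Bounds for tracial states -/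

section bd

variable {B : Type} [CStarAlgebra B]

theorem sa_bd {τ : WeakDual ℂ B} (hτ : τ ∈ TracialStates B) {x : B} (hx : IsSelfAdjoint x) :
    ‖τ x‖ ≤ ‖x‖ := by
  let _ : PartialOrder B := CStarAlgebra.spectralOrder B
  have _ : StarOrderedRing B := CStarAlgebra.spectralOrderedRing B
  have hnn : ∀ y : B, 0 ≤ y → 0 ≤ (τ y).re ∧ (τ y).im = 0 := by
    intro y hy
    obtain ⟨z, rfl⟩ := (CStarAlgebra.nonneg_iff_eq_star_mul_self).1 hy
    exact hτ.2.1 z
  have h1 := hnn _ (sub_nonneg.2 hx.le_algebraMap_norm_self)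
  have h2 := hnn _ (sub_nonneg.2 hx.neg_algebraMap_norm_le_self)
  have e1 : τ (algebraMap ℝ B ‖x‖) = (‖x‖ : ℂ) := by
    have : (algebraMap ℝ B ‖x‖) = ((‖x‖ : ℝ) : ℂ) • (1 : B) := by
      rw [Algebra.algebraMap_eq_smul_one]
      simp
    rw [this, map_smul, hτ.1, smul_eq_mul, mul_one]
  rw [map_sub, e1] at h1
  rw [map_sub, map_neg, e1] at h2
  simp only [Complex.sub_re, Complex.ofReal_re, Complex.sub_im, Complex.ofReal_im, Complex.neg_re]
    at h1 h2
  have him : (τ x).im = 0 := by linarith [h1.2]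
  have h3 : τ x = (((τ x).re : ℝ) : ℂ) := by
    apply Complex.ext
    · simp
    · simp [him]
  rw [h3, Complex.norm_real, Real.norm_eq_abs, abs_le]
  constructor <;> linarith [h1.1, h2.1]

theorem tr_bd {τ : WeakDual ℂ B} (hτ : τ ∈ TracialStates B) (y : B) : ‖τ y‖ ≤ 2 * ‖y‖ := by
  have h1 := realPart_add_I_smul_imaginaryPart y
  have h2 := sa_bd hτ (realPart y).2
  have h3 := sa_bd hτ (imaginaryPart y).2
  have h4 := realPart.norm_le y
  have h5 := imaginaryPart.norm_le y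
  have h6 : τ y = τ (realPart y : B) + Complex.I * τ (imaginaryPart y : B) := by
    conv_lhs => rw [← h1]
    rw [map_add, map_smul, smul_eq_mul]
  rw [h6]
  refine (norm_add_le _ _).trans ?_
  rw [norm_mul, Complex.norm_I, one_mul]
  have h7 : ‖(realPart y : B)‖ ≤ ‖y‖ := h4
  have h8 : ‖(imaginaryPart y : B)‖ ≤ ‖y‖ := h5
  linarith

end bd


/-! ## Traces on the limit from approximate traces on the stages -/

section ext

variable {A : ℕ → Type} [∀ n, CStarAlgebra (A n)] {φ : ∀ n, A n →⋆ₐ[ℂ] A (n + 1)}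
variable {L : Type} [CStarAlgebra L] {j : ∀ n, A n →⋆ₐ[ℂ] L}

/-- a property preserved by the connecting maps can be pushed forward -/
theorem push (hL : IsLim φ j) {n0 : ℕ} (Pr : ∀ n, A n → Prop)
    (hP : ∀ n x, n0 ≤ n → Pr n x → Pr (n + 1) (φ n x))
    {x : A n0} (hx : Pr n0 x) (n : ℕ) (hn : n0 ≤ n) :
    ∃ x' : A n, j n x' = j n0 x ∧ Pr n x' := by
  induction n, hn using Nat.le_induction with
  | base => exact ⟨x, rfl, hx⟩
  | succ n hn ih =>
    obtain ⟨x', h1, h2⟩ := ih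
    exact ⟨φ n x', by rw [hL.comp, h1], hP n x' hn h2⟩

theorem norm_j (hL : IsLim φ j) (n : ℕ) (x : A n) : ‖j n x‖ = ‖x‖ :=
  norm_map_inj (j n) (hL.inj n) x

/-- approximating sequences -/
theorem exists_approx (hL : IsLim φ j) (y : L) : ∃ a : ∀ n, A n,
    Tendsto (fun n => ‖y - j n (a n)‖) atTop (𝓝 0) ∧ ∀ n, ‖a n‖ ≤ 2 * ‖y‖ + 1 := by
  have hb : ∀ n, BddBelow (Set.range fun x : A n => ‖y - j n x‖) := fun n =>
    ⟨0, by rintro _ ⟨x, rfl⟩; exact norm_nonneg _⟩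
  have h1 : ∀ n : ℕ, ∃ x : A n, ‖y - j n x‖ < (⨅ x : A n, ‖y - j n x‖) + 1 / ((n : ℝ) + 1) := by
    intro n
    have h2 : (⨅ x : A n, ‖y - j n x‖) < (⨅ x : A n, ‖y - j n x‖) + 1 / ((n : ℝ) + 1) := by
      have : (0 : ℝ) < 1 / ((n : ℝ) + 1) := by positivity
      linarith
    exact exists_lt_of_ciInf_lt h2
  choose a ha using h1
  refine ⟨a, ?_, ?_⟩
  · rw [Metric.tendsto_atTop]
    intro ε hε
    obtain ⟨n0, x0, hx0⟩ := hL.dense y (ε / 2) (by positivity)
    obtain ⟨N, hN⟩ := exists_nat_one_div_lt (half_pos hε)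
    refine ⟨max n0 N, fun n hn => ?_⟩
    obtain ⟨x', hx', _⟩ := push hL (fun _ _ => True) (fun _ _ _ _ => trivial) (x := x0) trivial n
      ((le_max_left _ _).trans hn)
    rw [Real.dist_eq, sub_zero, abs_of_nonneg (norm_nonneg _)]
    have h3 : (⨅ x : A n, ‖y - j n x‖) ≤ ‖y - j n x'‖ := ciInf_le (hb n) x'
    rw [hx'] at h3
    have h4 : 1 / ((n : ℝ) + 1) ≤ 1 / ((N : ℝ) + 1) := by
      have : (N : ℝ) ≤ n := by exact_mod_cast (le_max_right _ _).trans hn
      exact one_div_le_one_div_of_le (by positivity) (by linarith)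
    have := ha n
    linarith
  · intro n
    have h3 : (⨅ x : A n, ‖y - j n x‖) ≤ ‖y - j n 0‖ := ciInf_le (hb n) 0
    rw [map_zero, sub_zero] at h3
    have h4 : 1 / ((n : ℝ) + 1) ≤ 1 := by
      rw [div_le_one (by positivity)]
      have : (0 : ℝ) ≤ n := Nat.cast_nonneg n
      linarith
    have h5 : ‖j n (a n)‖ ≤ ‖y‖ + ‖y - j n (a n)‖ := by
      have : j n (a n) = y - (y - j n (a n)) := by abel
      calc ‖j n (a n)‖ = ‖y - (y - j n (a n))‖ := by rw [← this]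
        _ ≤ _ := norm_sub_le _ _
    rw [norm_j hL] at h5
    have := ha n
    linarith

/-- limits along an ultrafilter -/
theorem exists_ulim (s : ℕ → ℂ) (C : ℝ) (hs : ∀ n, ‖s n‖ ≤ C) :
    ∃ z, Tendsto s (hyperfilter ℕ : Filter ℕ) (𝓝 z) := by
  obtain ⟨z, _, hz⟩ := (isCompact_closedBall (0 : ℂ) C).ultrafilter_le_nhds
    ((hyperfilter ℕ).map s) (by
      rw [Filter.le_principal_iff]
      refine Filter.mem_map.2 ?_
      filter_upwards with n
      simpa using hs n)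
  exact ⟨z, hz⟩

theorem exists_trace (hL : IsLim φ j) (ω : ∀ n, A n → ℂ)
    (hadd : ∀ n x y, ω n (x + y) = ω n x + ω n y) (hsmul : ∀ n (c : ℂ) x, ω n (c • x) = c * ω n x)
    (hle : ∀ n x, ‖ω n x‖ ≤ 2 * ‖x‖) (h1 : ∀ n, ω n 1 = 1)
    (hpos : ∀ n x, 0 ≤ (ω n (star x * x)).re ∧ (ω n (star x * x)).im = 0)
    (htr : ∀ n x y, ω n (x * y) = ω n (y * x)) : ∃ τ ∈ TracialStates L,
    ∀ (y : L) (x : ∀ n, A n), Tendsto (fun n => ‖y - j n (x n)‖) atTop (𝓝 0) →
      Tendsto (fun n => ω n (x n)) (hyperfilter ℕ : Filter ℕ) (𝓝 (τ y)) := by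
  choose a ha hab using exists_approx hL
  have hbd : ∀ y n, ‖ω n (a y n)‖ ≤ 2 * (2 * ‖y‖ + 1) := fun y n =>
    (hle n _).trans (mul_le_mul_of_nonneg_left (hab y n) (by norm_num))
  choose τ hτ using fun y => exists_ulim (fun n => ω n (a y n)) _ (hbd y)
  have hU : (hyperfilter ℕ : Filter ℕ) ≤ atTop := by
    rw [← Nat.cofinite_eq_atTop]; exact hyperfilter_le_cofinite
  have hsub : ∀ n x y, ω n (x - y) = ω n x - ω n y := by
    intro n x y
    have h2 := hadd n (x - y) y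
    rw [sub_add_cancel] at h2
    rw [h2]; ring
  have key : ∀ (y : L) (x : ∀ n, A n), Tendsto (fun n => ‖y - j n (x n)‖) atTop (𝓝 0) →
      Tendsto (fun n => ω n (x n)) (hyperfilter ℕ : Filter ℕ) (𝓝 (τ y)) := by
    intro y x hx
    have h2 : Tendsto (fun n => ω n (x n) - ω n (a y n)) (hyperfilter ℕ : Filter ℕ) (𝓝 0) := by
      rw [tendsto_zero_iff_norm_tendsto_zero]
      have h3 : Tendsto (fun n => 2 * (‖y - j n (x n)‖ + ‖y - j n (a y n)‖))
          (hyperfilter ℕ : Filter ℕ) (𝓝 0) := by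
        have h4 := ((hx.add (ha y)).const_mul 2).mono_left hU
        simpa using h4
      refine squeeze_zero (fun n => norm_nonneg _) (fun n => ?_) h3
      rw [← hsub]
      refine (hle n _).trans ?_
      refine mul_le_mul_of_nonneg_left ?_ (by norm_num)
      rw [← norm_j hL, map_sub]
      have : j n (x n) - j n (a y n) = -(y - j n (x n)) + (y - j n (a y n)) := by abel
      rw [this]
      refine (norm_add_le _ _).trans ?_
      rw [norm_neg]
    have h4 := h2.add (hτ y)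
    simpa using h4
  have tadd : ∀ x y, τ (x + y) = τ x + τ y := by
    intro x y
    refine tendsto_nhds_unique (key (x + y) (fun n => a x n + a y n) ?_) ?_
    · have h3 : Tendsto (fun n => ‖x - j n (a x n)‖ + ‖y - j n (a y n)‖) atTop (𝓝 0) := by
        simpa using (ha x).add (ha y)
      refine squeeze_zero (fun n => norm_nonneg _) (fun n => ?_) h3
      rw [map_add]
      have : x + y - (j n (a x n) + j n (a y n)) = (x - j n (a x n)) + (y - j n (a y n)) := by abel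
      rw [this]; exact norm_add_le _ _
    · simp only [hadd]
      exact (hτ x).add (hτ y)
  have tsmul : ∀ (c : ℂ) x, τ (c • x) = c * τ x := by
    intro c x
    refine tendsto_nhds_unique (key (c • x) (fun n => c • a x n) ?_) ?_
    · have h3 : Tendsto (fun n => ‖c‖ * ‖x - j n (a x n)‖) atTop (𝓝 0) := by
        simpa using (ha x).const_mul ‖c‖
      refine squeeze_zero (fun n => norm_nonneg _) (fun n => ?_) h3
      rw [map_smul, ← smul_sub, norm_smul]
    · simp only [hsmul]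
      exact (hτ x).const_mul c
  have tone : τ 1 = 1 := by
    refine tendsto_nhds_unique (key 1 (fun n => 1) ?_) ?_
    · simp
    · simp only [h1]; exact tendsto_const_nhds
  have hmul : ∀ x y : L, Tendsto (fun n => ‖x * y - j n (a x n * a y n)‖) atTop (𝓝 0) := by
    intro x y
    have h3 : Tendsto (fun n => ‖x - j n (a x n)‖ * ‖y‖ + (2 * ‖x‖ + 1) * ‖y - j n (a y n)‖) atTop
        (𝓝 0) := by
      simpa using ((ha x).mul_const ‖y‖).add ((ha y).const_mul (2 * ‖x‖ + 1))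
    refine squeeze_zero (fun n => norm_nonneg _) (fun n => ?_) h3
    rw [map_mul]
    have : x * y - j n (a x n) * j n (a y n) =
        (x - j n (a x n)) * y + j n (a x n) * (y - j n (a y n)) := by noncomm_ring
    rw [this]
    refine (norm_add_le _ _).trans (add_le_add (norm_mul_le _ _) ?_)
    refine (norm_mul_le _ _).trans ?_
    refine mul_le_mul_of_nonneg_right ?_ (norm_nonneg _)
    rw [norm_j hL]; exact hab x n
  have ttr : ∀ x y, τ (x * y) = τ (y * x) := by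
    intro x y
    refine tendsto_nhds_unique (key (x * y) (fun n => a x n * a y n) (hmul x y)) ?_
    simp only [htr _ (a x _)]
    exact key (y * x) (fun n => a y n * a x n) (hmul y x)
  have tpos : ∀ x, 0 ≤ (τ (star x * x)).re ∧ (τ (star x * x)).im = 0 := by
    intro x
    have h2 : Tendsto (fun n => ‖star x * x - j n (star (a x n) * a x n)‖) atTop (𝓝 0) := by
      have h3 : Tendsto (fun n => ‖x - j n (a x n)‖ * ‖x‖ + (2 * ‖x‖ + 1) * ‖x - j n (a x n)‖)
          atTop (𝓝 0) := by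
        simpa using ((ha x).mul_const ‖x‖).add ((ha x).const_mul (2 * ‖x‖ + 1))
      refine squeeze_zero (fun n => norm_nonneg _) (fun n => ?_) h3
      rw [map_mul, map_star]
      have : star x * x - star (j n (a x n)) * j n (a x n) =
          star (x - j n (a x n)) * x + star (j n (a x n)) * (x - j n (a x n)) := by
        rw [star_sub]; noncomm_ring
      rw [this]
      refine (norm_add_le _ _).trans (add_le_add ?_ ?_)
      · refine (norm_mul_le _ _).trans ?_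
        rw [norm_star]
      · refine (norm_mul_le _ _).trans ?_
        refine mul_le_mul_of_nonneg_right ?_ (norm_nonneg _)
        rw [norm_star, norm_j hL]; exact hab x n
    have h4 := key _ _ h2
    have h5 := (Complex.continuous_re.tendsto _).comp h4
    have h6 := (Complex.continuous_im.tendsto _).comp h4
    refine ⟨ge_of_tendsto' h5 fun n => (hpos n _).1, ?_⟩
    refine tendsto_nhds_unique h6 ?_
    have : (Complex.im ∘ fun n => ω n (star (a x n) * a x n)) = fun _ => 0 := by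
      funext n; exact (hpos n _).2
    rw [this]; exact tendsto_const_nhds
  have tnorm : ∀ x, ‖τ x‖ ≤ 2 * ‖x‖ := by
    intro x
    have h3 : Tendsto (fun n => 2 * (‖x‖ + ‖x - j n (a x n)‖)) (hyperfilter ℕ : Filter ℕ)
        (𝓝 (2 * (‖x‖ + 0))) :=
      (tendsto_const_nhds.mul (tendsto_const_nhds.add (ha x))).mono_left hU
    rw [add_zero] at h3
    refine le_of_tendsto_of_tendsto' (hτ x).norm h3 fun n => ?_
    refine (hle n _).trans ?_
    refine mul_le_mul_of_nonneg_left ?_ (by norm_num)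
    rw [← norm_j hL]
    have : j n (a x n) = x - (x - j n (a x n)) := by abel
    calc ‖j n (a x n)‖ = ‖x - (x - j n (a x n))‖ := by rw [← this]
      _ ≤ _ := norm_sub_le _ _
  let τl : L →ₗ[ℂ] ℂ :=
    { toFun := τ
      map_add' := tadd
      map_smul' := tsmul }
  exact ⟨StrongDual.toWeakDual (τl.mkContinuous 2 tnorm), ⟨tone, tpos, ttr⟩, key⟩

end ext

/-! ## Matrix valued functions -/

theorem ent_bd {n : ℕ} (b : Matrix (Fin n) (Fin n) ℂ) (i k : Fin n) : ‖b i k‖ ≤ ‖b‖ := by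
  have h := Matrix.l2_opNorm_mulVec b (EuclideanSpace.single k (1 : ℂ))
  rw [PiLp.norm_single, norm_one, mul_one] at h
  refine le_trans ?_ h
  refine le_trans (le_of_eq ?_) (PiLp.norm_apply_le _ i)
  congr 1
  simp

theorem ntr_bd {n : ℕ} (b : Matrix (Fin n) (Fin n) ℂ) : ‖ntr b‖ ≤ ‖b‖ := by
  rcases Nat.eq_zero_or_pos n with h | h
  · subst h
    unfold ntr
    simp
  · have h1 : ‖b.trace‖ ≤ n * ‖b‖ := by
      unfold Matrix.trace
      refine (norm_sum_le _ _).trans ?_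
      refine (Finset.sum_le_sum fun i _ => ent_bd b i i).trans (le_of_eq ?_)
      simp
    have hn : (0 : ℝ) < n := by exact_mod_cast h
    unfold ntr
    rw [norm_mul, norm_inv, Fintype.card_fin, Complex.norm_natCast, inv_mul_le_iff₀ hn]
    exact h1

section fn

variable {Z : Type} [TopologicalSpace Z] [CompactSpace Z] {n : ℕ}

theorem ctr_apply (f : BB Z n) (z : Z) : ctr f z = ntr (f z) := rfl

theorem sc_apply (f : C(Z, ℂ)) (z : Z) : sc n f z = f z • (1 : Matrix (Fin n) (Fin n) ℂ) := rfl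

theorem ctr_add (f g : BB Z n) : ctr (f + g) = ctr f + ctr g := by
  ext z
  show ntr (f z + g z) = ntr (f z) + ntr (g z)
  unfold ntr
  rw [Matrix.trace_add, mul_add]

theorem ctr_smul (c : ℂ) (f : BB Z n) : ctr (c • f) = c • ctr f := by
  ext z
  show ntr (c • f z) = c • ntr (f z)
  unfold ntr
  rw [Matrix.trace_smul, smul_eq_mul, smul_eq_mul]
  ring

theorem ctr_norm (f : BB Z n) : ‖ctr f‖ ≤ ‖f‖ := by
  rw [ContinuousMap.norm_le _ (norm_nonneg _)]
  intro z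
  exact (ntr_bd (f z)).trans (f.norm_coe_le_norm z)

theorem ntr_one (hn : 0 < n) : ntr (1 : Matrix (Fin n) (Fin n) ℂ) = 1 := by
  unfold ntr
  rw [Matrix.trace_one, inv_mul_cancel₀]
  rw [Fintype.card_fin]
  exact_mod_cast hn.ne'

theorem ctr_one (hn : 0 < n) : ctr (1 : BB Z n) = 1 := by
  ext z
  exact ntr_one hn

theorem ctr_comm (f g : BB Z n) : ctr (f * g) = ctr (g * f) := by
  ext z
  show ntr (f z * g z) = ntr (g z * f z)
  unfold ntr
  rw [Matrix.trace_mul_comm]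

theorem ctr_sc (hn : 0 < n) (f : C(Z, ℂ)) : ctr (sc n f) = f := by
  ext z
  show ntr (f z • (1 : Matrix (Fin n) (Fin n) ℂ)) = f z
  have h := ntr_one hn
  unfold ntr at h ⊢
  rw [Matrix.trace_smul, smul_eq_mul, mul_left_comm, h, mul_one]

theorem sc_add (f g : C(Z, ℂ)) : sc n (f + g) = sc n f + sc n g := by
  ext1 z
  exact add_smul _ _ _

theorem sc_sub (f g : C(Z, ℂ)) : sc n (f - g) = sc n f - sc n g := by
  ext1 z
  exact sub_smul _ _ _

theorem sc_smul (c : ℂ) (f : C(Z, ℂ)) : sc n (c • f) = c • sc n f := by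
  ext1 z
  exact mul_smul _ _ _

theorem sc_one : sc n (1 : C(Z, ℂ)) = 1 := by
  ext1 z
  exact one_smul _ _

theorem sc_norm (f : C(Z, ℂ)) : ‖sc n f‖ ≤ ‖f‖ := by
  rw [ContinuousMap.norm_le _ (norm_nonneg _)]
  intro z
  rw [sc_apply, norm_smul]
  have h1 : ‖(1 : Matrix (Fin n) (Fin n) ℂ)‖ ≤ 1 := by
    rw [← Matrix.diagonal_one, Matrix.l2_opNorm_diagonal]
    rw [pi_norm_le_iff_of_nonneg zero_le_one]
    intro i
    simp
  calc ‖f z‖ * ‖(1 : Matrix (Fin n) (Fin n) ℂ)‖ ≤ ‖f‖ * 1 :=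
        mul_le_mul (f.norm_coe_le_norm z) h1 (norm_nonneg _) (norm_nonneg _)
    _ = ‖f‖ := mul_one _

theorem sc_star_mul (f : C(Z, ℂ)) : sc n (star f * f) = star (sc n f) * sc n f := by
  ext1 z
  show (star (f z) * f z) • (1 : Matrix (Fin n) (Fin n) ℂ) =
    star (f z • (1 : Matrix (Fin n) (Fin n) ℂ)) * (f z • (1 : Matrix (Fin n) (Fin n) ℂ))
  rw [star_smul, star_one, smul_mul_smul_comm, one_mul]

theorem ctr_pos (x : BB Z n) : ∃ g : C(Z, ℂ), ctr (star x * x) = star g * g := by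
  have h0 : ∀ z, 0 ≤ (ctr (star x * x) z).re ∧ (ctr (star x * x) z).im = 0 := by
    intro z
    have h1 : 0 ≤ ((x z).conjTranspose * x z).trace :=
      (Matrix.posSemidef_conjTranspose_mul_self (x z)).trace_nonneg
    rw [Complex.nonneg_iff] at h1
    have h2 : ctr (star x * x) z = ((n : ℝ)⁻¹ : ℝ) * ((x z).conjTranspose * x z).trace := by
      show ntr (star (x z) * x z) = _
      unfold ntr
      rw [Fintype.card_fin]
      push_cast
      rfl
    rw [h2, Complex.re_ofReal_mul, Complex.im_ofReal_mul]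
    exact ⟨mul_nonneg (by positivity) h1.1, by rw [← h1.2, mul_zero]⟩
  refine ⟨⟨fun z => ((Real.sqrt (ctr (star x * x) z).re : ℝ) : ℂ), by fun_prop⟩, ?_⟩
  ext z
  show ctr (star x * x) z = star ((Real.sqrt (ctr (star x * x) z).re : ℝ) : ℂ) *
    ((Real.sqrt (ctr (star x * x) z).re : ℝ) : ℂ)
  rw [Complex.star_def, Complex.conj_ofReal, ← Complex.ofReal_mul, Real.mul_self_sqrt (h0 z).1]
  apply Complex.ext
  · simp
  · simp [(h0 z).2]

end fn

/-! ## The averages over the patches -/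

section avg

theorem θ_apply (D : Sys) (i : ℕ) (f : C(D.Z i, ℂ)) (z : D.Z (i + 1)) :
    D.θ i f z = (D.S i : ℂ)⁻¹ * ∑ s, f (D.l i s z) := by
  unfold Sys.θ
  rw [ContinuousMap.smul_apply, ContinuousMap.sum_apply, smul_eq_mul]
  rfl

theorem ctr_φ (D : Sys) (i : ℕ) (a : D.A i) : ctr (D.φ i a) = D.θ i (ctr a) := by
  ext z
  rw [θ_apply]
  show ntr (dgv (fun s => D.l i s z) a) = _ * ∑ s, ntr (a (D.l i s z))
  have h1 : (dgv (fun s => D.l i s z) a).trace = ∑ s, (a (D.l i s z)).trace := by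
    unfold dgv
    rw [← Matrix.trace_blockDiagonal]
    unfold Matrix.trace
    exact Equiv.sum_comp finProdFinEquiv.symm
      (fun x => (Matrix.blockDiagonal fun t => a (D.l i t z)).diag x)
  unfold ntr
  rw [h1, Fintype.card_fin, Fintype.card_fin, ← Finset.mul_sum, Nat.cast_mul, mul_inv]
  ring

theorem θ_norm (D : Sys) (i : ℕ) (f : C(D.Z i, ℂ)) : ‖D.θ i f‖ ≤ ‖f‖ := by
  rw [ContinuousMap.norm_le _ (norm_nonneg _)]
  intro z
  rw [θ_apply, norm_mul, norm_inv, Complex.norm_natCast]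
  rcases Nat.eq_zero_or_pos (D.S i) with h | h
  · have h0 : (D.S i : ℝ)⁻¹ = 0 := by
      rw [show (D.S i : ℝ) = 0 by exact_mod_cast h, inv_zero]
    rw [h0, zero_mul]
    exact norm_nonneg _
  · have hS : (0 : ℝ) < D.S i := by exact_mod_cast h
    rw [inv_mul_le_iff₀ hS]
    refine (norm_sum_le _ _).trans ?_
    refine (Finset.sum_le_sum fun s _ => f.norm_coe_le_norm _).trans (le_of_eq ?_)
    simp

theorem sum_lam {d : Bool → ℕ} {m : ℕ} {e : Bool → ℕ} (q : ∀ b, Cb (d b)) (S c : ℕ) (hm : m ≤ S)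
    (f : C(ZZ d, ℂ)) (z : ZZ fun b => m * d b + e b) :
    ∃ Q : ℂ, ∑ s : Fin S, f (lam (m := m) (e := e) q S c s z) =
      (∑ s : Fin m, f ⟨z.1, pj s z.2⟩) + Q ∧ ‖Q‖ ≤ ((S : ℝ) - m) * ‖f‖ := by
  obtain ⟨k, rfl⟩ := Nat.exists_eq_add_of_le hm
  rw [Fin.sum_univ_add]
  refine ⟨∑ s : Fin k, f (lam (m := m) (e := e) q (m + k) c (Fin.natAdd m s) z), ?_, ?_⟩
  · congr 1
    refine Finset.sum_congr rfl fun s _ => ?_
    have h : ((Fin.castAdd k s : Fin (m + k)) : ℕ) < m := by simp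
    unfold lam
    rw [dif_pos h]
    rfl
  · refine (norm_sum_le _ _).trans ?_
    refine (Finset.sum_le_sum fun s _ => f.norm_coe_le_norm _).trans (le_of_eq ?_)
    simp

variable (m : ℕ → ℕ) (e : ℕ → Bool → ℕ) (q : ∀ i b, Cb (dm m e i b)) (S c S' c' : ℕ → ℕ)

/-- the error -/
def eta (i : ℕ) : ℝ := 2 * ((1 - (m i : ℝ) / S i) + (1 - (m i : ℝ) / S' i))

theorem θ_diff (i : ℕ) (h : m i ≤ S i) (h' : m i ≤ S' i) (h0 : 0 < S i) (h0' : 0 < S' i)
    (f : C(ZZ (dm m e i), ℂ)) :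
    ‖(Sys.mk m e q S c).θ i f - (Sys.mk m e q S' c').θ i f‖ ≤ eta m S S' i * ‖f‖ := by
  have hS : (0 : ℝ) < S i := by exact_mod_cast h0
  have hS' : (0 : ℝ) < S' i := by exact_mod_cast h0'
  have hm : (m i : ℝ) / S i ≤ 1 := by
    rw [div_le_one hS]
    exact_mod_cast h
  have hm' : (m i : ℝ) / S' i ≤ 1 := by
    rw [div_le_one hS']
    exact_mod_cast h'
  have hη : 0 ≤ eta m S S' i := by
    unfold eta
    linarith
  rw [ContinuousMap.norm_le _ (mul_nonneg hη (norm_nonneg _))]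
  intro z
  rw [ContinuousMap.sub_apply, θ_apply, θ_apply]
  obtain ⟨Q, hQ, hQn⟩ := sum_lam (e := e i) (q i) (S i) (c i) h f z
  obtain ⟨Q', hQ', hQn'⟩ := sum_lam (e := e i) (q i) (S' i) (c' i) h' f z
  have e1 : ∑ s, f ((Sys.mk m e q S c).l i s z) = (∑ s : Fin (m i), f ⟨z.1, pj s z.2⟩) + Q := hQ
  have e2 : ∑ s, f ((Sys.mk m e q S' c').l i s z) = (∑ s : Fin (m i), f ⟨z.1, pj s z.2⟩) + Q' :=
    hQ'
  rw [e1, e2]
  have hP : ‖∑ s : Fin (m i), f ⟨z.1, pj s z.2⟩‖ ≤ m i * ‖f‖ := by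
    refine (norm_sum_le _ _).trans ?_
    refine (Finset.sum_le_sum fun s _ => f.norm_coe_le_norm _).trans (le_of_eq ?_)
    simp
  generalize ∑ s : Fin (m i), f ⟨z.1, pj s z.2⟩ = P at hP
  have e3 : ((S i : ℕ) : ℂ)⁻¹ * (P + Q) - ((S' i : ℕ) : ℂ)⁻¹ * (P + Q') =
      (((S i : ℝ)⁻¹ - (S' i : ℝ)⁻¹ : ℝ) : ℂ) * P +
        ((((S i : ℝ)⁻¹ : ℝ) : ℂ) * Q - (((S' i : ℝ)⁻¹ : ℝ) : ℂ) * Q') := by
    push_cast
    ring
  show ‖((S i : ℕ) : ℂ)⁻¹ * (P + Q) - ((S' i : ℕ) : ℂ)⁻¹ * (P + Q')‖ ≤ _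
  rw [e3]
  refine (norm_add_le _ _).trans ?_
  have b1 : ‖(((S i : ℝ)⁻¹ - (S' i : ℝ)⁻¹ : ℝ) : ℂ) * P‖ ≤
      ((1 - (m i : ℝ) / S i) + (1 - (m i : ℝ) / S' i)) * ‖f‖ := by
    rw [norm_mul, Complex.norm_real, Real.norm_eq_abs]
    have h1 : |(S i : ℝ)⁻¹ - (S' i : ℝ)⁻¹| * m i ≤
        (1 - (m i : ℝ) / S i) + (1 - (m i : ℝ) / S' i) := by
      have h2 : |(S i : ℝ)⁻¹ - (S' i : ℝ)⁻¹| * m i = |(m i : ℝ) / S i - m i / S' i| := by
        rw [← abs_of_nonneg (Nat.cast_nonneg (m i) : (0 : ℝ) ≤ m i), ← abs_mul,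
          abs_of_nonneg (Nat.cast_nonneg (m i) : (0 : ℝ) ≤ m i)]
        congr 1
        rw [div_eq_mul_inv, div_eq_mul_inv]
        ring
      rw [h2, abs_le]
      constructor <;> linarith
    calc |(S i : ℝ)⁻¹ - (S' i : ℝ)⁻¹| * ‖P‖ ≤ |(S i : ℝ)⁻¹ - (S' i : ℝ)⁻¹| * (m i * ‖f‖) :=
          mul_le_mul_of_nonneg_left hP (abs_nonneg _)
      _ = |(S i : ℝ)⁻¹ - (S' i : ℝ)⁻¹| * m i * ‖f‖ := by ring
      _ ≤ _ := mul_le_mul_of_nonneg_right h1 (norm_nonneg _)
  have b2 : ‖(((S i : ℝ)⁻¹ : ℝ) : ℂ) * Q‖ ≤ (1 - (m i : ℝ) / S i) * ‖f‖ := by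
    rw [norm_mul, Complex.norm_real, Real.norm_eq_abs, abs_of_pos (inv_pos.2 hS),
      inv_mul_le_iff₀ hS]
    refine hQn.trans (le_of_eq ?_)
    field_simp
  have b3 : ‖(((S' i : ℝ)⁻¹ : ℝ) : ℂ) * Q'‖ ≤ (1 - (m i : ℝ) / S' i) * ‖f‖ := by
    rw [norm_mul, Complex.norm_real, Real.norm_eq_abs, abs_of_pos (inv_pos.2 hS'),
      inv_mul_le_iff₀ hS']
    refine hQn'.trans (le_of_eq ?_)
    field_simp
  have b4 := norm_sub_le ((((S i : ℝ)⁻¹ : ℝ) : ℂ) * Q) ((((S' i : ℝ)⁻¹ : ℝ) : ℂ) * Q')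
  unfold eta
  nlinarith [norm_nonneg f]

end avg

/-! ## The correspondence -/

section main

theorem S_pos {D : Sys} (hD : D.Good) (i : ℕ) : 0 < D.S i := by
  have := hD.lt i
  omega

theorem m_le {D : Sys} (hD : D.Good) (i : ℕ) : D.m i ≤ D.S i := by
  have := hD.lt i
  omega

theorem n_pos {D : Sys} (hD : D.Good) : ∀ i, 0 < D.n i
  | 0 => by rw [Sys.n_zero]; exact one_pos
  | i + 1 => by rw [Sys.n_succ]; exact Nat.mul_pos (n_pos hD i) (S_pos hD i)

variable {m : ℕ → ℕ} {e : ℕ → Bool → ℕ} {q : ∀ i b, Cb (dm m e i b)} {S c S' c' : ℕ → ℕ}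

/-- the value of a trace at a scalar function -/
def V {D : Sys} {L : Type} [CStarAlgebra L] (j : ∀ i, D.A i →⋆ₐ[ℂ] L) (τ : WeakDual ℂ L) (i : ℕ)
    (f : C(D.Z i, ℂ)) : ℂ := τ (j i (sc (D.n i) f))

section V

variable {D : Sys} {L : Type} [CStarAlgebra L] {j : ∀ i, D.A i →⋆ₐ[ℂ] L}

theorem V_sub (τ : WeakDual ℂ L) (i : ℕ) (f g : C(D.Z i, ℂ)) :
    V j τ i (f - g) = V j τ i f - V j τ i g := by
  unfold V
  rw [sc_sub, map_sub, map_sub]

theorem V_add (τ : WeakDual ℂ L) (i : ℕ) (f g : C(D.Z i, ℂ)) :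
    V j τ i (f + g) = V j τ i f + V j τ i g := by
  unfold V
  rw [sc_add, map_add, map_add]

theorem V_smul (τ : WeakDual ℂ L) (i : ℕ) (t : ℂ) (f : C(D.Z i, ℂ)) :
    V j τ i (t • f) = t * V j τ i f := by
  unfold V
  rw [sc_smul, map_smul, map_smul, smul_eq_mul]

theorem V_one {τ : WeakDual ℂ L} (hτ : τ ∈ TracialStates L) (i : ℕ) :
    V j τ i 1 = 1 := by
  unfold V
  rw [sc_one, map_one]
  exact hτ.1

theorem V_bd {τ : WeakDual ℂ L} (hτ : τ ∈ TracialStates L) (i : ℕ) (f : C(D.Z i, ℂ)) :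
    ‖V j τ i f‖ ≤ 2 * ‖f‖ := by
  refine (tr_bd hτ _).trans ?_
  refine mul_le_mul_of_nonneg_left ?_ (by norm_num)
  exact (norm_map_le' (j i) _).trans (sc_norm f)

end V

theorem exist (hM : S_MASS) (hF : (Sys.mk m e q S c).Fine) (hF' : (Sys.mk m e q S' c').Fine)
    {η : ℕ → ℝ} (hη : Summable η) (hη0 : ∀ i, 0 ≤ η i)
    (hd : ∀ i (f : C(ZZ (dm m e i), ℂ)),
      ‖(Sys.mk m e q S c).θ i f - (Sys.mk m e q S' c').θ i f‖ ≤ η i * ‖f‖)
    {L : Type} [CStarAlgebra L] {j : ∀ i, (Sys.mk m e q S c).A i →⋆ₐ[ℂ] L}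
    (hL : IsLim (Sys.mk m e q S c).φ j)
    {L' : Type} [CStarAlgebra L'] {j' : ∀ i, (Sys.mk m e q S' c').A i →⋆ₐ[ℂ] L'}
    (hL' : IsLim (Sys.mk m e q S' c').φ j') {τ' : WeakDual ℂ L'} (hτ' : τ' ∈ TracialStates L') :
    ∃ τ ∈ TracialStates L, ∀ i (f : C(ZZ (dm m e i), ℂ)),
      ‖V j τ i f - V j' τ' i f‖ ≤ (2 * ∑' k, η (k + i)) * ‖f‖ := by
  classical
  obtain ⟨D, hD⟩ : ∃ D : Sys, D = Sys.mk m e q S c := ⟨_, rfl⟩
  have hθ' := (hM _ hF' L' j' hL' τ' hτ').2.1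
  -- the functionals
  obtain ⟨τ, hτ, key⟩ := exists_trace hL (fun n a => V j' τ' n (ctr a))
    (fun n x y => by rw [ctr_add, V_add])
    (fun n t x => by rw [ctr_smul, V_smul])
    (fun n x => (V_bd hτ' n _).trans (mul_le_mul_of_nonneg_left (ctr_norm x) (by norm_num)))
    (fun n => by rw [ctr_one (n_pos hF.toGood n), V_one hτ'])
    (fun n x => by
      obtain ⟨g, hg⟩ := ctr_pos x
      rw [hg]
      unfold V
      have h := sc_star_mul (n := (Sys.mk m e q S' c').n n) g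
      rw [h, map_mul, map_star]
      exact hτ'.2.1 _)
    (fun n x y => by rw [ctr_comm])
  refine ⟨τ, hτ, fun i f => ?_⟩
  -- partial sums
  have hsum : ∀ n, ∑ k ∈ Finset.Ico i n, η k ≤ ∑' k, η (k + i) := by
    intro n
    have hs : Summable fun k => η (k + i) := (summable_nat_add_iff i).2 hη
    rcases le_total n i with h | h
    · rw [Finset.Ico_eq_empty_of_le h, Finset.sum_empty]
      exact tsum_nonneg fun k => hη0 _
    · rw [Finset.sum_Ico_eq_sum_range]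
      have h1 := hs.sum_le_tsum (Finset.range (n - i)) (fun k _ => hη0 _)
      refine le_trans (le_of_eq ?_) h1
      exact Finset.sum_congr rfl fun k _ => by rw [add_comm]
  -- the sequence
  have hx : ∀ n, ∃ x : (Sys.mk m e q S c).A n, i ≤ n →
      j n x = j i (sc _ f) ∧ ‖ctr x‖ ≤ ‖f‖ ∧
        ‖V j' τ' n (ctr x) - V j' τ' i f‖ ≤ (2 * ∑ k ∈ Finset.Ico i n, η k) * ‖f‖ := by
    intro n
    by_cases hn : i ≤ n
    · obtain ⟨x, h1, h2⟩ := push hL (n0 := i) (fun n x => ‖ctr x‖ ≤ ‖f‖ ∧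
        ‖V j' τ' n (ctr x) - V j' τ' i f‖ ≤ (2 * ∑ k ∈ Finset.Ico i n, η k) * ‖f‖)
        (fun n x hn hx => by
          rw [ctr_φ]
          refine ⟨(θ_norm _ n _).trans hx.1, ?_⟩
          have e1 : V j' τ' (n + 1) ((Sys.mk m e q S c).θ n (ctr x)) - V j' τ' i f =
              V j' τ' (n + 1) ((Sys.mk m e q S c).θ n (ctr x) -
                (Sys.mk m e q S' c').θ n (ctr x)) + (V j' τ' n (ctr x) - V j' τ' i f) := by
            rw [V_sub]
            have e2 : V j' τ' (n + 1) ((Sys.mk m e q S' c').θ n (ctr x)) = V j' τ' n (ctr x) :=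
              hθ' n (ctr x)
            rw [e2]
            ring
          have e3 : ‖V j' τ' (n + 1) ((Sys.mk m e q S c).θ n (ctr x) -
                (Sys.mk m e q S' c').θ n (ctr x))‖ ≤ 2 * (η n * ‖f‖) := by
            refine (V_bd hτ' _ _).trans (mul_le_mul_of_nonneg_left ?_ (by norm_num))
            exact (hd n (ctr x)).trans (mul_le_mul_of_nonneg_left hx.1 (hη0 n))
          have e4 := norm_add_le (V j' τ' (n + 1) ((Sys.mk m e q S c).θ n (ctr x) -
                (Sys.mk m e q S' c').θ n (ctr x))) (V j' τ' n (ctr x) - V j' τ' i f)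
          rw [← e1] at e4
          rw [Finset.sum_Ico_succ_top hn]
          have e5 := hx.2
          calc _ ≤ _ := e4
            _ ≤ 2 * (η n * ‖f‖) + (2 * ∑ k ∈ Finset.Ico i n, η k) * ‖f‖ := add_le_add e3 e5
            _ = _ := by ring)
        (x := sc _ f) (by
          have h3 : ctr (sc ((Sys.mk m e q S c).n i) f) = f := ctr_sc (n_pos hF.toGood i) f
          refine ⟨le_of_eq (by rw [h3]), ?_⟩
          rw [h3, sub_self, norm_zero]
          simp) n hn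
      exact ⟨x, fun _ => ⟨h1, h2⟩⟩
    · exact ⟨0, fun h => absurd h hn⟩
  choose x hx using hx
  have hlim := key (j i (sc _ f)) x (by
    have h1 : (fun n => ‖j i (sc _ f) - j n (x n)‖) =ᶠ[atTop] fun _ => (0 : ℝ) := by
      filter_upwards [eventually_ge_atTop i] with n hn
      rw [(hx n hn).1, sub_self, norm_zero]
    exact tendsto_const_nhds.congr' h1.symm)
  have hU : (hyperfilter ℕ : Filter ℕ) ≤ atTop := by
    rw [← Nat.cofinite_eq_atTop]; exact hyperfilter_le_cofinite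
  have hlim2 : Tendsto (fun n => ‖V j' τ' n (ctr (x n)) - V j' τ' i f‖)
      (hyperfilter ℕ : Filter ℕ) (𝓝 ‖V j τ i f - V j' τ' i f‖) :=
    (hlim.sub tendsto_const_nhds).norm
  refine le_of_tendsto hlim2 ?_
  have h2 : ∀ᶠ n in (hyperfilter ℕ : Filter ℕ), i ≤ n := hU (eventually_ge_atTop i)
  filter_upwards [h2] with n hn
  refine ((hx n hn).2.2).trans ?_
  refine mul_le_mul_of_nonneg_right ?_ (norm_nonneg _)
  exact mul_le_mul_of_nonneg_left (hsum n) (by norm_num)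

theorem uniq (hM : S_MASS) (hF : (Sys.mk m e q S c).Fine)
    {L : Type} [CStarAlgebra L] {j : ∀ i, (Sys.mk m e q S c).A i →⋆ₐ[ℂ] L}
    (hL : IsLim (Sys.mk m e q S c).φ j) {τ₁ τ₂ : WeakDual ℂ L} (h₁ : τ₁ ∈ TracialStates L)
    (h₂ : τ₂ ∈ TracialStates L) {W : ∀ i, C(ZZ (dm m e i), ℂ) → ℂ} {ε : ℕ → ℝ}
    (hε : Tendsto ε atTop (𝓝 0))
    (hW₁ : ∀ i (f : C(ZZ (dm m e i), ℂ)), ‖V j τ₁ i f - W i f‖ ≤ ε i * ‖f‖)
    (hW₂ : ∀ i (f : C(ZZ (dm m e i), ℂ)), ‖V j τ₂ i f - W i f‖ ≤ ε i * ‖f‖) : τ₁ = τ₂ := by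
  have hθ₁ := (hM _ hF L j hL τ₁ h₁).2.1
  have hθ₂ := (hM _ hF L j hL τ₂ h₂).2.1
  have hc₁ := (hM _ hF L j hL τ₁ h₁).1
  have hc₂ := (hM _ hF L j hL τ₂ h₂).1
  have hk : ∀ (k i : ℕ) (f : C(ZZ (dm m e i), ℂ)),
      ‖V j τ₁ i f - V j τ₂ i f‖ ≤ 2 * |ε (i + k)| * ‖f‖ := by
    intro k
    induction k with
    | zero =>
      intro i f
      have e1 : V j τ₁ i f - V j τ₂ i f = (V j τ₁ i f - W i f) - (V j τ₂ i f - W i f) := by ring
      rw [e1, add_zero]
      refine (norm_sub_le _ _).trans ?_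
      have h3 : ε i * ‖f‖ ≤ |ε i| * ‖f‖ :=
        mul_le_mul_of_nonneg_right (le_abs_self _) (norm_nonneg _)
      have h4 := hW₁ i f
      have h5 := hW₂ i f
      linarith
    | succ k ih =>
      intro i f
      have e1 : V j τ₁ i f = V j τ₁ (i + 1) ((Sys.mk m e q S c).θ i f) := (hθ₁ i f).symm
      have e2 : V j τ₂ i f = V j τ₂ (i + 1) ((Sys.mk m e q S c).θ i f) := (hθ₂ i f).symm
      rw [e1, e2]
      refine (ih (i + 1) ((Sys.mk m e q S c).θ i f)).trans ?_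
      rw [show i + 1 + k = i + (k + 1) by omega]
      have h3 : ‖(Sys.mk m e q S c).θ i f‖ ≤ ‖f‖ := θ_norm (Sys.mk m e q S c) i f
      have h4 : (0 : ℝ) ≤ 2 * |ε (i + (k + 1))| := by positivity
      exact mul_le_mul_of_nonneg_left h3 h4
  have hV : ∀ (i : ℕ) (f : C(ZZ (dm m e i), ℂ)), V j τ₁ i f = V j τ₂ i f := by
    intro i f
    have h3 : Tendsto (fun k => 2 * |ε (i + k)| * ‖f‖) atTop (𝓝 (2 * |0| * ‖f‖)) := by
      have h4 : Tendsto (fun k => ε (i + k)) atTop (𝓝 0) := by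
        have := (tendsto_add_atTop_iff_nat i).2 hε
        simpa [add_comm] using this
      exact (h4.abs.const_mul 2).mul_const _
    rw [abs_zero, mul_zero, zero_mul] at h3
    have h4 := ge_of_tendsto' h3 (fun k => hk k i f)
    exact sub_eq_zero.1 (norm_le_zero_iff.1 h4)
  have hj : ∀ (i : ℕ) (a : (Sys.mk m e q S c).A i), τ₁ (j i a) = τ₂ (j i a) := by
    intro i a
    rw [hc₁ i a, hc₂ i a]
    exact hV i (ctr a)
  refine DFunLike.ext _ _ fun y => ?_
  obtain ⟨a, ha, _⟩ := exists_approx hL y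
  have hlim : ∀ τ : WeakDual ℂ L, τ ∈ TracialStates L →
      Tendsto (fun n => τ (j n (a n))) atTop (𝓝 (τ y)) := by
    intro τ hτ
    rw [tendsto_iff_norm_sub_tendsto_zero]
    have h3 : Tendsto (fun n => 2 * ‖y - j n (a n)‖) atTop (𝓝 0) := by
      simpa using ha.const_mul 2
    refine squeeze_zero (fun n => norm_nonneg _) (fun n => ?_) h3
    rw [← map_sub, norm_sub_rev]
    exact tr_bd hτ _
  have h3 := hlim τ₁ h₁
  simp only [hj] at h3
  exact tendsto_nhds_unique h3 (hlim τ₂ h₂)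

/-- the indicator function of a component -/
def ind (d : Bool → ℕ) (b : Bool) : C(ZZ d, ℂ) :=
  ⟨fun z => if z.1 = b then 1 else 0, by
    refine continuous_sigma fun b' => ?_
    change Continuous fun _ : Cb (d b') => (if b' = b then (1 : ℂ) else 0)
    exact continuous_const⟩

theorem ind_norm (d : Bool → ℕ) (b : Bool) : ‖ind d b‖ ≤ 1 := by
  rw [ContinuousMap.norm_le _ zero_le_one]
  intro z
  show ‖(if z.1 = b then (1 : ℂ) else 0)‖ ≤ 1
  split_ifs <;> simp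

theorem one_eq (D : Sys) (i : ℕ) (b : Bool) : D.one i b = sc (D.n i) (ind (D.d i) b) := by
  ext1 z
  show (if z.1 = b then (1 : Matrix (Fin (D.n i)) (Fin (D.n i)) ℂ) else 0) =
    (if z.1 = b then (1 : ℂ) else 0) • 1
  split_ifs
  · rw [one_smul]
  · rw [zero_smul]

theorem mass (hM : S_MASS) (hF : (Sys.mk m e q S c).Fine) (hF' : (Sys.mk m e q S' c').Fine)
    {L : Type} [CStarAlgebra L] {j : ∀ i, (Sys.mk m e q S c).A i →⋆ₐ[ℂ] L}
    (hL : IsLim (Sys.mk m e q S c).φ j)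
    {L' : Type} [CStarAlgebra L'] {j' : ∀ i, (Sys.mk m e q S' c').A i →⋆ₐ[ℂ] L'}
    (hL' : IsLim (Sys.mk m e q S' c').φ j') {τ : WeakDual ℂ L} (hτ : τ ∈ TracialStates L)
    {τ' : WeakDual ℂ L'} (hτ' : τ' ∈ TracialStates L') {ε : ℕ → ℝ} (hε : Tendsto ε atTop (𝓝 0))
    (hV : ∀ i (f : C(ZZ (dm m e i), ℂ)), ‖V j τ i f - V j' τ' i f‖ ≤ ε i * ‖f‖) (b : Bool) :
    τ (j 0 ((Sys.mk m e q S c).one 0 b)) = τ' (j' 0 ((Sys.mk m e q S' c').one 0 b)) := by
  have h1 := (hM _ hF L j hL τ hτ).2.2.1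
  have h2 := (hM _ hF' L' j' hL' τ' hτ').2.2.1
  obtain ⟨w, hw⟩ : ∃ w : ℝ, w = (τ (j 0 ((Sys.mk m e q S c).one 0 b))).re := ⟨_, rfl⟩
  obtain ⟨w', hw'⟩ : ∃ w' : ℝ, w' = (τ' (j' 0 ((Sys.mk m e q S' c').one 0 b))).re := ⟨_, rfl⟩
  have h3 : ∀ i, |w - w'| ≤ |ε i| := by
    intro i
    have h4 := hV i (ind (dm m e i) b)
    have e1 : V j τ i (ind (dm m e i) b) = τ (j i ((Sys.mk m e q S c).one i b)) := by
      rw [one_eq]
      rfl
    have e2 : V j' τ' i (ind (dm m e i) b) = τ' (j' i ((Sys.mk m e q S' c').one i b)) := by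
      rw [one_eq]
      rfl
    rw [e1, e2, h1 i b, h2 i b, ← hw, ← hw', ← Complex.ofReal_sub, Complex.norm_real,
      Real.norm_eq_abs] at h4
    have e3 : 1 / 2 + (2 * w - 1) * ((i + 1 : ℝ) / (i + 2)) -
        (1 / 2 + (2 * w' - 1) * ((i + 1 : ℝ) / (i + 2))) =
        (w - w') * (2 * ((i + 1 : ℝ) / (i + 2))) := by ring
    rw [e3, abs_mul] at h4
    have h5 : (1 : ℝ) ≤ |2 * ((i + 1 : ℝ) / (i + 2))| := by
      refine le_trans ?_ (le_abs_self _)
      rw [← mul_div_assoc, le_div_iff₀ (by positivity)]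
      have : (0 : ℝ) ≤ i := Nat.cast_nonneg i
      linarith
    have h6 : ε i * ‖ind (dm m e i) b‖ ≤ |ε i| := by
      calc ε i * ‖ind (dm m e i) b‖ ≤ |ε i| * ‖ind (dm m e i) b‖ :=
            mul_le_mul_of_nonneg_right (le_abs_self _) (norm_nonneg _)
        _ ≤ |ε i| * 1 := mul_le_mul_of_nonneg_left (ind_norm _ _) (abs_nonneg _)
        _ = |ε i| := mul_one _
    nlinarith [abs_nonneg (w - w')]
  have h4 : |w - w'| ≤ 0 := by
    have h5 := hε.abs
    rw [abs_zero] at h5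
    exact ge_of_tendsto' h5 h3
  have h5 : w = w' := by
    have := abs_nonpos_iff.1 h4
    linarith
  rw [h1 0 b, h2 0 b, ← hw, ← hw', h5]

theorem cont {L : Type} [CStarAlgebra L] {j : ∀ i, (Sys.mk m e q S c).A i →⋆ₐ[ℂ] L}
    (hM : S_MASS) (hF : (Sys.mk m e q S c).Fine)
    (hL : IsLim (Sys.mk m e q S c).φ j)
    {L' : Type} [CStarAlgebra L'] {j' : ∀ i, (Sys.mk m e q S' c').A i →⋆ₐ[ℂ] L'}
    (h : TracialStates L' → TracialStates L) {ε : ℕ → ℝ} (hε : Tendsto ε atTop (𝓝 0))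
    (hε0 : ∀ i, 0 ≤ ε i)
    (hV : ∀ (τ' : TracialStates L') i (f : C(ZZ (dm m e i), ℂ)),
      ‖V j (h τ' : WeakDual ℂ L) i f - V j' (τ' : WeakDual ℂ L') i f‖ ≤ ε i * ‖f‖) :
    Continuous h := by
  refine continuous_induced_rng.2 (WeakDual.continuous_of_continuous_eval fun y => ?_)
  obtain ⟨a, ha, hab⟩ := exists_approx hL y
  have hF : ∀ n, Continuous fun τ' : TracialStates L' =>
      V j' (τ' : WeakDual ℂ L') n (ctr (a n)) := fun n =>
    (WeakDual.eval_continuous _).comp continuous_subtype_val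
  have hu : TendstoUniformly (fun n (τ' : TracialStates L') =>
      V j' (τ' : WeakDual ℂ L') n (ctr (a n))) (fun τ' => (h τ' : WeakDual ℂ L) y) atTop := by
    rw [Metric.tendstoUniformly_iff]
    intro δ hδ
    have h3 : Tendsto (fun n => 2 * ‖y - j n (a n)‖ + ε n * (2 * ‖y‖ + 1)) atTop (𝓝 0) := by
      have h4 := (ha.const_mul 2).add (hε.mul_const (2 * ‖y‖ + 1))
      simpa using h4
    filter_upwards [h3.eventually (gt_mem_nhds hδ)] with n hn τ'
    refine lt_of_le_of_lt ?_ hn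
    rw [dist_eq_norm]
    have hc := (hM _ ‹_› L j hL _ (h τ').2).1 n (a n)
    have e1 : (h τ' : WeakDual ℂ L) y - V j' (τ' : WeakDual ℂ L') n (ctr (a n)) =
        (h τ' : WeakDual ℂ L) (y - j n (a n)) +
          (V j (h τ' : WeakDual ℂ L) n (ctr (a n)) - V j' (τ' : WeakDual ℂ L') n (ctr (a n))) := by
      rw [map_sub, hc]
      unfold V
      ring
    rw [e1]
    refine (norm_add_le _ _).trans (add_le_add (tr_bd (h τ').2 _) ?_)
    refine (hV τ' n (ctr (a n))).trans (mul_le_mul_of_nonneg_left ?_ (hε0 n))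
    exact (ctr_norm (a n)).trans (hab n)
  exact hu.continuous (Filter.Frequently.of_forall hF)

theorem convex {B : Type} [CStarAlgebra B] {σ τ : WeakDual ℂ B} (hσ : σ ∈ TracialStates B)
    (hτ : τ ∈ TracialStates B) {t : ℝ} (h0 : 0 ≤ t) (h1 : t ≤ 1) :
    (t : ℂ) • σ + ((1 - t : ℝ) : ℂ) • τ ∈ TracialStates B := by
  have hap : ∀ x, ((t : ℂ) • σ + ((1 - t : ℝ) : ℂ) • τ) x =
      (t : ℂ) * σ x + ((1 - t : ℝ) : ℂ) * τ x := fun x => rfl
  refine ⟨?_, fun x => ?_, fun x y => ?_⟩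
  · rw [hap, hσ.1, hτ.1]
    push_cast
    ring
  · rw [hap, Complex.add_re, Complex.add_im, Complex.re_ofReal_mul, Complex.re_ofReal_mul,
      Complex.im_ofReal_mul, Complex.im_ofReal_mul, (hσ.2.1 x).2, (hτ.2.1 x).2]
    refine ⟨?_, by ring⟩
    exact add_nonneg (mul_nonneg h0 (hσ.2.1 x).1) (mul_nonneg (by linarith) (hτ.2.1 x).1)
  · rw [hap, hap, hσ.2.2, hτ.2.2]

end main

theorem s_TISO : S_TISO := by
  intro hM m e q S c S' c' hF hF' hs hs' L _ j hL L' _ j' hL'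
  have hm : ∀ i, (m i : ℝ) / S i ≤ 1 := fun i => by
    rw [div_le_one (by exact_mod_cast S_pos hF.toGood i)]
    exact_mod_cast m_le hF.toGood i
  have hm' : ∀ i, (m i : ℝ) / S' i ≤ 1 := fun i => by
    rw [div_le_one (by exact_mod_cast S_pos hF'.toGood i)]
    exact_mod_cast m_le hF'.toGood i
  have hη : Summable (eta m S S') := (hs.add hs').mul_left 2
  have hη0 : ∀ i, 0 ≤ eta m S S' i := by
    intro i
    unfold eta
    have := hm i
    have := hm' i
    linarith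
  have hd : ∀ i (f : C(ZZ (dm m e i), ℂ)),
      ‖(Sys.mk m e q S c).θ i f - (Sys.mk m e q S' c').θ i f‖ ≤ eta m S S' i * ‖f‖ := fun i f =>
    θ_diff m e q S c S' c' i (m_le hF.toGood i) (m_le hF'.toGood i) (S_pos hF.toGood i)
      (S_pos hF'.toGood i) f
  have hd' : ∀ i (f : C(ZZ (dm m e i), ℂ)),
      ‖(Sys.mk m e q S' c').θ i f - (Sys.mk m e q S c).θ i f‖ ≤ eta m S S' i * ‖f‖ := fun i f => by
    rw [norm_sub_rev]
    exact hd i f
  obtain ⟨ε, hεd⟩ : ∃ ε : ℕ → ℝ, ε = fun i => 2 * ∑' k, eta m S S' (k + i) := ⟨_, rfl⟩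
  have hε : Tendsto ε atTop (𝓝 0) := by
    rw [hεd]
    have h3 := (tendsto_sum_nat_add (eta m S S')).const_mul 2
    simpa using h3
  have hε0 : ∀ i, 0 ≤ ε i := by
    intro i
    rw [hεd]
    exact mul_nonneg (by norm_num) (tsum_nonneg fun k => hη0 _)
  have hex : ∀ τ' : TracialStates L', ∃ τ : TracialStates L, ∀ i (f : C(ZZ (dm m e i), ℂ)),
      ‖V j (τ : WeakDual ℂ L) i f - V j' (τ' : WeakDual ℂ L') i f‖ ≤ ε i * ‖f‖ := by
    intro τ'
    obtain ⟨τ, h1, h2⟩ := exist hM hF hF' hη hη0 hd hL hL' τ'.2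
    refine ⟨⟨τ, h1⟩, fun i f => ?_⟩
    rw [hεd]
    exact h2 i f
  have hex' : ∀ τ : TracialStates L, ∃ τ' : TracialStates L', ∀ i (f : C(ZZ (dm m e i), ℂ)),
      ‖V j' (τ' : WeakDual ℂ L') i f - V j (τ : WeakDual ℂ L) i f‖ ≤ ε i * ‖f‖ := by
    intro τ
    obtain ⟨τ', h1, h2⟩ := exist hM hF' hF hη hη0 hd' hL' hL τ.2
    refine ⟨⟨τ', h1⟩, fun i f => ?_⟩
    rw [hεd]
    exact h2 i f
  choose h hh using hex
  choose g hg using hex'
  have hcont : Continuous h := cont hM hF hL h hε hε0 hh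
  have gcont : Continuous g := cont hM hF' hL' g hε hε0 hg
  have hgh : ∀ τ', g (h τ') = τ' := fun τ' => Subtype.ext
    (uniq hM hF' hL' (g (h τ')).2 τ'.2 (W := fun i f => V j (h τ' : WeakDual ℂ L) i f) hε
      (hg (h τ')) (fun i f => by
        rw [norm_sub_rev]
        exact hh τ' i f))
  have hhg : ∀ τ, h (g τ) = τ := fun τ => Subtype.ext
    (uniq hM hF hL (h (g τ)).2 τ.2 (W := fun i f => V j' (g τ : WeakDual ℂ L') i f) hε
      (hh (g τ)) (fun i f => by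
        rw [norm_sub_rev]
        exact hg τ i f))
  refine ⟨{ toFun := h, invFun := g, left_inv := hgh, right_inv := hhg,
            continuous_toFun := hcont, continuous_invFun := gcont }, ?_, ?_⟩
  · intro σ τ ρ t h0 h1 hρ
    show (h ρ : WeakDual ℂ L) =
        (t : ℂ) • (h σ : WeakDual ℂ L) + ((1 - t : ℝ) : ℂ) • (h τ : WeakDual ℂ L)
    refine uniq hM hF hL (h ρ).2 (convex (h σ).2 (h τ).2 h0 h1)
      (W := fun i f => V j' (ρ : WeakDual ℂ L') i f) hε (hh ρ) (fun i f => ?_)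
    have e1 : V j ((t : ℂ) • (h σ : WeakDual ℂ L) + ((1 - t : ℝ) : ℂ) • (h τ : WeakDual ℂ L)) i f -
        V j' (ρ : WeakDual ℂ L') i f =
        (t : ℂ) * (V j (h σ : WeakDual ℂ L) i f - V j' (σ : WeakDual ℂ L') i f) +
        ((1 - t : ℝ) : ℂ) * (V j (h τ : WeakDual ℂ L) i f - V j' (τ : WeakDual ℂ L') i f) := by
      rw [hρ]
      have e2 : V j ((t : ℂ) • (h σ : WeakDual ℂ L) + ((1 - t : ℝ) : ℂ) • (h τ : WeakDual ℂ L))
          i f = (t : ℂ) * V j (h σ : WeakDual ℂ L) i f +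
            ((1 - t : ℝ) : ℂ) * V j (h τ : WeakDual ℂ L) i f := rfl
      have e3 : V j' ((t : ℂ) • (σ : WeakDual ℂ L') + ((1 - t : ℝ) : ℂ) • (τ : WeakDual ℂ L'))
          i f = (t : ℂ) * V j' (σ : WeakDual ℂ L') i f +
            ((1 - t : ℝ) : ℂ) * V j' (τ : WeakDual ℂ L') i f := rfl
      rw [e2, e3]
      ring
    rw [e1]
    refine (norm_add_le _ _).trans ?_
    rw [norm_mul, norm_mul, Complex.norm_real, Complex.norm_real, Real.norm_eq_abs,
      Real.norm_eq_abs, abs_of_nonneg h0, abs_of_nonneg (by linarith : 0 ≤ 1 - t)]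
    have h3 := mul_le_mul_of_nonneg_left (hh σ i f) h0
    have h4 := mul_le_mul_of_nonneg_left (hh τ i f) (by linarith : 0 ≤ 1 - t)
    calc _ ≤ t * (ε i * ‖f‖) + (1 - t) * (ε i * ‖f‖) := add_le_add h3 h4
      _ = ε i * ‖f‖ := by ring
  · intro τ
    exact mass hM hF hF' hL hL' (h τ).2 τ.2 hε (hh τ) true

end Pool.Agent.H828.ELTISO
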