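import Pool.Agent.H465.OC.StmB
import Pool.Graph.R_pool_sql_team_seeded_3997aac3.Q279.SC.J.FR
import Pool.Graph.R_pool_sql_team_seeded_3997aac3.Q279.SC.J.FRP

/-!
# Project OC, B2: polynomials in `j` divisible by `p^M`; `V s = s^p` modulo `p`
-/

set_option autoImplicit false

namespace Pool.Agent.H828.OC

open Polynomial Pool.Agent.Q279.SC Pool.Agent.H465.OC

/-- the power series `q j` -/
noncomputable def Fj (R : Type) [CommRing R] : PowerSeries R :=
  q4 R ^ 3 * PowerSeries.invOfUnit (qd R) 1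

theorem cc4 (R : Type) [CommRing R] : PowerSeries.constantCoeff (q4 R) = 1 := by
  have h : PowerSeries.constantCoeff z4 = 1 := by
    rw [z4, map_add, map_one, map_mul]
    have : PowerSeries.constantCoeff zA = 0 := by
      rw [← PowerSeries.coeff_zero_eq_constantCoeff_apply, zA, PowerSeries.coeff_mk]
      simp
    rw [this, mul_zero, add_zero]
  rw [q4, ← PowerSeries.coeff_zero_eq_constantCoeff_apply, PowerSeries.coeff_map,
    PowerSeries.coeff_zero_eq_constantCoeff_apply, h, map_one]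

theorem ccF (R : Type) [CommRing R] : PowerSeries.constantCoeff (Fj R) = 1 := by
  rw [Fj, map_mul, map_pow, cc4, PowerSeries.constantCoeff_invOfUnit]
  simp

theorem jj_eq (R : Type) [CommRing R] : jj R = HahnSeries.single (-1) 1 * ls (Fj R) := by
  rw [jj, Di, Fj, ls, ls, ls, map_mul, map_pow]
  ring

theorem jj_pow (R : Type) [CommRing R] (i : ℕ) :
    jj R ^ i = HahnSeries.single (-(i : ℤ)) 1 * ls (Fj R ^ i) := by
  rw [jj_eq, mul_pow, HahnSeries.single_pow, one_pow, ls, ls, map_pow]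
  congr 2
  simp

theorem coeff_ls {R : Type} [CommRing R] (f : PowerSeries R) (i : ℤ) :
    (ls f).coeff i = if i < 0 then 0 else PowerSeries.coeff i.natAbs f :=
  PowerSeries.coeff_coe f i

theorem coeff_jj_pow (R : Type) [CommRing R] (i n : ℕ) (h : i ≤ n) :
    (jj R ^ i).coeff (-(n : ℤ)) = if i = n then 1 else 0 := by
  have e : (-(n : ℤ)) = ((i : ℤ) - n) + (-(i : ℤ)) := by ring
  rw [jj_pow, e, HahnSeries.coeff_single_mul_add, one_mul, coeff_ls]
  rcases h.lt_or_eq with h1 | h1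
  · rw [if_pos (by omega), if_neg h1.ne]
  · subst h1
    rw [sub_self, if_neg (lt_irrefl _), if_pos rfl, Int.natAbs_zero,
      PowerSeries.coeff_zero_eq_constantCoeff_apply, map_pow, ccF, one_pow]

theorem coeff_natCast_pow_mul {R : Type} [CommRing R] (p M : ℕ) (s : LaurentSeries R) (n : ℤ) :
    ((p : LaurentSeries R) ^ M * s).coeff n = (p : R) ^ M * s.coeff n := by
  have h : (p : LaurentSeries R) ^ M * s = HahnSeries.C ((p : R) ^ M) * s := by
    rw [map_pow, map_natCast]
  rw [h, HahnSeries.C_mul_eq_smul, HahnSeries.coeff_smul, smul_eq_mul]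

theorem inj (p : ℕ) [Fact p.Prime] : Inj p (jj ℤ_[p]) := by
  intro M g hg
  obtain ⟨s, hs⟩ := hg
  have key : ∀ i : ℕ, (∀ k, i < k → (p : ℤ_[p]) ^ M ∣ g.coeff k) → (p : ℤ_[p]) ^ M ∣ g.coeff i := by
    intro i hi
    have h1 : (aeval (jj ℤ_[p]) g).coeff (-(i : ℤ)) =
        ((p : LaurentSeries ℤ_[p]) ^ M * s).coeff (-(i : ℤ)) := by rw [hs]
    have h0 : ∀ k : ℕ, algebraMap ℤ_[p] (LaurentSeries ℤ_[p]) (g.coeff k) =
        HahnSeries.C (g.coeff k) := by
      intro k
      rw [HahnSeries.algebraMap_apply']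
      simp
    have h0' : (aeval (jj ℤ_[p]) g).coeff (-(i : ℤ)) =
        ∑ k ∈ Finset.range (g.natDegree + 1), g.coeff k * (jj ℤ_[p] ^ k).coeff (-(i : ℤ)) := by
      rw [aeval_eq_sum_range, HahnSeries.coeff_sum]
      refine Finset.sum_congr rfl fun k _ => ?_
      rw [Algebra.smul_def, h0, HahnSeries.C_mul_eq_smul, HahnSeries.coeff_smul, smul_eq_mul]
    rw [coeff_natCast_pow_mul, h0'] at h1
    have h2 : ∀ k ∈ Finset.range (g.natDegree + 1),
        (p : ℤ_[p]) ^ M ∣ g.coeff k * (jj ℤ_[p] ^ k).coeff (-(i : ℤ)) -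
          (if k = i then g.coeff i else 0) := by
      intro k _
      rcases le_or_gt k i with hk | hk
      · rw [coeff_jj_pow _ _ _ hk]
        split_ifs with h
        · subst h
          rw [mul_one, sub_self]
          exact dvd_zero _
        · rw [mul_zero, sub_zero]
          exact dvd_zero _
      · rw [if_neg hk.ne', sub_zero]
        exact (hi k hk).mul_right _
    have h3 := Finset.dvd_sum h2
    rw [Finset.sum_sub_distrib, h1, Finset.sum_ite_eq'] at h3
    have h4 := (dvd_sub_right (dvd_mul_right ((p : ℤ_[p]) ^ M) (s.coeff (-(i : ℤ))))).1 h3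
    split_ifs at h4 with h5
    · exact h4
    · rw [Polynomial.coeff_eq_zero_of_natDegree_lt]
      · exact dvd_zero _
      · rw [Finset.mem_range] at h5
        omega
  have hall : ∀ n i : ℕ, g.natDegree < i + n → (p : ℤ_[p]) ^ M ∣ g.coeff i := by
    intro n
    induction n with
    | zero =>
      intro i hi
      rw [Polynomial.coeff_eq_zero_of_natDegree_lt (by omega)]
      exact dvd_zero _
    | succ n ih =>
      intro i hi
      exact key i fun k hk => ih k (by omega)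
  have h6 : (p : ℤ_[p][X]) ^ M = C ((p : ℤ_[p]) ^ M) := by
    rw [map_pow, map_natCast]
  rw [h6, C_dvd_iff_dvd_coeff]
  exact fun i => hall (g.natDegree + 1) i (by omega)

theorem nz (p : ℕ) [hp : Fact p.Prime] : NZ p (LaurentSeries ℤ_[p]) := by
  intro s hs
  ext n
  have h1 : ((p : LaurentSeries ℤ_[p]) * s).coeff n = 0 := by
    rw [hs]
    rfl
  have h2 := coeff_natCast_pow_mul (R := ℤ_[p]) p 1 s n
  rw [pow_one, pow_one] at h2
  rw [h2] at h1
  have h3 : (p : ℤ_[p]) ≠ 0 := Nat.cast_ne_zero.2 hp.out.ne_zero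
  rcases mul_eq_zero.1 h1 with h | h
  · exact absurd h h3
  · rw [h]
    rfl

theorem VV_coeff (p : ℕ) [Fact p.Prime] {R : Type} [CommRing R] (s : LaurentSeries R) (n : ℤ) :
    (VV p R s).coeff ((p : ℤ) * n) = s.coeff n := by
  have h0 : (p : ℤ) ≠ 0 := by exact_mod_cast (Fact.out : p.Prime).ne_zero
  exact HahnSeries.embDomain_mk_coeff (f := fun x : ℤ => (p : ℤ) * x)
    (fun a b h => mul_left_cancel₀ h0 h) _

theorem VV_coeff' (p : ℕ) [Fact p.Prime] {R : Type} [CommRing R] (s : LaurentSeries R) (n : ℤ)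
    (hn : ¬ (p : ℤ) ∣ n) : (VV p R s).coeff n = 0 := by
  apply HahnSeries.embDomain_of_notMem_range
  rintro ⟨k, hk⟩
  exact hn ⟨k, hk.symm⟩

theorem VV_ls (p : ℕ) [hp : Fact p.Prime] {R : Type} [CommRing R] (f : PowerSeries R) :
    VV p R (ls f) = ls (fr p f) := by
  have h0 : (0 : ℤ) < p := by exact_mod_cast hp.out.pos
  ext n
  by_cases hn : (p : ℤ) ∣ n
  · obtain ⟨k, rfl⟩ := hn
    rw [VV_coeff, coeff_ls, coeff_ls]
    by_cases hk : k < 0
    · rw [if_pos hk, if_pos (by nlinarith)]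
    · rw [if_neg hk, if_neg (by push Not at hk ⊢; positivity), fr, PowerSeries.coeff_mk,
        Int.natAbs_mul, Int.natAbs_natCast, if_pos (dvd_mul_right _ _),
        Nat.mul_div_cancel_left _ hp.out.pos]
  · rw [VV_coeff' _ _ _ hn, coeff_ls]
    split_ifs with h
    · rfl
    · rw [fr, PowerSeries.coeff_mk, if_neg]
      rwa [← Int.natCast_dvd_natCast, Int.dvd_natAbs]

theorem VV_single (p : ℕ) [Fact p.Prime] {R : Type} [CommRing R] (m : ℤ) :
    VV p R (HahnSeries.single m 1) = HahnSeries.single ((p : ℤ) * m) 1 :=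
  HahnSeries.embDomain_single

theorem ps_dvd (p : ℕ) [hp : Fact p.Prime] (f : PowerSeries ℤ_[p]) :
    (p : PowerSeries ℤ_[p]) ∣ fr p f - f ^ p := by
  have h1 : redS p (fr p f - f ^ p) = 0 := by
    rw [map_sub, map_pow, redS, ← (JFR.main p hp.out ℤ_[p]).2.2.2.2.2 (ZMod p) PadicInt.toZMod f,
      JFRP.main p, sub_self]
  have h2 : ∀ n, (p : ℤ_[p]) ∣ PowerSeries.coeff n (fr p f - f ^ p) := by
    intro n
    have h3 := congrArg (PowerSeries.coeff n) h1
    rw [redS, PowerSeries.coeff_map, map_zero] at h3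
    have h4 : PowerSeries.coeff n (fr p f - f ^ p) ∈ RingHom.ker (PadicInt.toZMod (p := p)) := h3
    rw [PadicInt.ker_toZMod, PadicInt.maximalIdeal_eq_span_p, Ideal.mem_span_singleton] at h4
    exact h4
  choose g hg using h2
  refine ⟨PowerSeries.mk g, ?_⟩
  ext n
  have hC : (p : PowerSeries ℤ_[p]) = PowerSeries.C (p : ℤ_[p]) := by simp
  rw [hC, PowerSeries.coeff_C_mul, PowerSeries.coeff_mk, ← hg n]

theorem VV_dvd (p : ℕ) [hp : Fact p.Prime] (s : LaurentSeries ℤ_[p]) :
    (p : LaurentSeries ℤ_[p]) ∣ VV p ℤ_[p] s - s ^ p := by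
  obtain ⟨m, f, rfl⟩ : ∃ (m : ℤ) (f : PowerSeries ℤ_[p]), s = HahnSeries.single m 1 * ls f :=
    ⟨s.order, s.powerSeriesPart, s.single_order_mul_powerSeriesPart.symm⟩
  obtain ⟨g, hg⟩ := ps_dvd p f
  refine ⟨HahnSeries.single ((p : ℤ) * m) 1 * ls g, ?_⟩
  have h1 : ls (fr p f) - ls f ^ p = (p : LaurentSeries ℤ_[p]) * ls g := by
    have h2 := congrArg (ls (R := ℤ_[p])) hg
    simp only [ls] at h2 ⊢
    rw [map_sub, map_pow, map_mul, map_natCast] at h2
    exact h2
  rw [map_mul, VV_single, VV_ls, mul_pow, HahnSeries.single_pow, one_pow, nsmul_eq_mul]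
  linear_combination (HahnSeries.single ((p : ℤ) * m) (1 : ℤ_[p])) * h1

theorem main : LSInj := fun p _ => ⟨inj p, nz p, VV_dvd p⟩

end Pool.Agent.H828.OC
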