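import Pool.Agent.H465.OC.StmC
import Pool.Agent.H828.OCLSInj
import Pool.Graph.R_pool_sql_team_seeded_3997aac3.Q237.SX.Hecke

/-!
# Project OC, C1: Laurent series in `q` of functions on the upper half plane
-/

set_option autoImplicit false

noncomputable section

open UpperHalfPlane hiding I
open ModularForm MatrixGroups EisensteinSeries
open Pool.Agent.Q279.SC Pool.Agent.Q237.SX Pool.Agent.H465.OC Pool.Agent.H828.OC

namespace Pool.Agent.H828.OCHLB

open Polynomial (aeval)

/-! ### Laurent series -/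

section laurent

variable {R S : Type} [CommRing R] [CommRing S]

theorem dec (s : LaurentSeries R) :
    ∃ (m : ℤ) (f : PowerSeries R), s = HahnSeries.single m 1 * ls f :=
  ⟨s.order, s.powerSeriesPart, s.single_order_mul_powerSeriesPart.symm⟩

theorem coeff_sl (m : ℤ) (f : PowerSeries R) (n : ℤ) :
    (HahnSeries.single m 1 * ls f).coeff n = (ls f).coeff (n - m) := by
  have h := HahnSeries.coeff_single_mul_add (r := (1 : R)) (x := ls f) (a := n - m) (b := m)
  rw [sub_add_cancel, one_mul] at h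
  exact h

theorem mul_sl (m m' : ℤ) (f f' : PowerSeries R) :
    HahnSeries.single m 1 * ls f * (HahnSeries.single m' 1 * ls f') =
      HahnSeries.single (m + m') 1 * ls (f * f') := by
  have h1 : (HahnSeries.single (m + m') (1 : R)) =
      HahnSeries.single m 1 * HahnSeries.single m' 1 := by
    rw [HahnSeries.single_mul_single, one_mul]
  have h2 : ls (f * f') = ls f * ls f' := map_mul _ _ _
  rw [h1, h2]
  ring

theorem lmap_sl (φ : R →+* S) (m : ℤ) (f : PowerSeries R) :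
    lmap φ (HahnSeries.single m 1 * ls f) =
      HahnSeries.single m 1 * ls (PowerSeries.map φ f) := by
  ext n
  rw [coeff_sl, coeff_ls]
  change φ ((HahnSeries.single m 1 * ls f).coeff n) = _
  rw [coeff_sl, coeff_ls]
  split_ifs
  · exact map_zero φ
  · rw [PowerSeries.coeff_map]

theorem lmap_ls (φ : R →+* S) (f : PowerSeries R) :
    lmap φ (ls f) = ls (PowerSeries.map φ f) := by
  have h := lmap_sl φ 0 f
  rw [HahnSeries.single_zero_one, HahnSeries.single_zero_one, one_mul, one_mul] at h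
  exact h

/-- change of coefficients, as a ring homomorphism -/
def LM (φ : R →+* S) : LaurentSeries R →+* LaurentSeries S where
  toFun := lmap φ
  map_one' := by
    have h := lmap_ls φ 1
    rw [map_one] at h
    have e : ls (1 : PowerSeries R) = 1 := map_one _
    have e' : ls (1 : PowerSeries S) = 1 := map_one _
    rwa [e, e'] at h
  map_mul' s t := by
    obtain ⟨m, f, rfl⟩ := dec s
    obtain ⟨m', f', rfl⟩ := dec t
    rw [mul_sl, lmap_sl, lmap_sl, lmap_sl, mul_sl, map_mul]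
  map_zero' := by
    ext n
    exact map_zero φ
  map_add' s t := by
    ext n
    exact map_add φ _ _

theorem LM_apply (φ : R →+* S) (s : LaurentSeries R) : LM φ s = lmap φ s := rfl

end laurent

/-! ### Functions -/

theorem hqX : HQ (fun τ => qq τ) PowerSeries.X := by
  intro τ
  have h : (fun m => (PowerSeries.X : PowerSeries ℂ).coeff m • Function.Periodic.qParam 1 (τ : ℂ) ^ m) =
      fun m : ℕ => if m = 1 then qq τ else 0 := by
    funext m
    rw [PowerSeries.coeff_X]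
    split_ifs with hm
    · rw [hm, pow_one, one_smul]
    · rw [zero_smul]
  rw [h]
  exact hasSum_ite_eq 1 (qq τ)

theorem sl_raise (n k : ℕ) (a : PowerSeries ℂ) :
    HahnSeries.single (-(n : ℤ)) 1 * ls a =
      HahnSeries.single (-((n + k : ℕ) : ℤ)) 1 * ls (PowerSeries.X ^ k * a) := by
  have h1 : ls (PowerSeries.X ^ k * a) = HahnSeries.single (k : ℤ) 1 * ls a := by
    rw [ls, map_mul, HahnSeries.ofPowerSeries_X_pow]
    rfl
  rw [h1, ← mul_assoc, HahnSeries.single_mul_single, one_mul]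
  congr 2
  push_cast
  ring_nf

theorem hq_raise {F : ℍ → ℂ} {n : ℕ} {a : PowerSeries ℂ} (h : HQ (fun τ => F τ * qq τ ^ n) a)
    (k : ℕ) : HQ (fun τ => F τ * qq τ ^ (n + k)) (PowerSeries.X ^ k * a) :=
  ((hqX.pow k).mul h).congr fun τ => by ring

theorem HL_congr {F G : ℍ → ℂ} {s : LaurentSeries ℂ} (h : HL F s) (hFG : ∀ τ, F τ = G τ) :
    HL G s := by
  have : F = G := funext hFG
  rwa [← this]

theorem HL_unique (F : ℍ → ℂ) (s s' : LaurentSeries ℂ) (h : HL F s) (h' : HL F s') : s = s' := by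
  obtain ⟨n, a, rfl, ha⟩ := h
  obtain ⟨n', a', rfl, ha'⟩ := h'
  have h1 := hq_raise ha n'
  have h2 := hq_raise ha' n
  rw [add_comm n' n] at h2
  rw [sl_raise n n' a, sl_raise n' n a', h1.unique h2, add_comm n' n]

theorem HL_add {F G : ℍ → ℂ} {s s' : LaurentSeries ℂ} (h : HL F s) (h' : HL G s') :
    HL (fun τ => F τ + G τ) (s + s') := by
  obtain ⟨n, a, rfl, ha⟩ := h
  obtain ⟨n', a', rfl, ha'⟩ := h'
  refine ⟨n + n', PowerSeries.X ^ n' * a + PowerSeries.X ^ n * a', ?_, ?_⟩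
  · have e : ls (PowerSeries.X ^ n' * a + PowerSeries.X ^ n * a') =
        ls (PowerSeries.X ^ n' * a) + ls (PowerSeries.X ^ n * a') := map_add _ _ _
    rw [e, mul_add, ← sl_raise n n' a, add_comm n n', ← sl_raise n' n a']
  · have h1 := hq_raise ha n'
    have h2 := hq_raise ha' n
    rw [add_comm n' n] at h2
    exact (h1.add h2).congr fun τ => by ring

theorem HL_mul {F G : ℍ → ℂ} {s s' : LaurentSeries ℂ} (h : HL F s) (h' : HL G s') :
    HL (fun τ => F τ * G τ) (s * s') := by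
  obtain ⟨n, a, rfl, ha⟩ := h
  obtain ⟨n', a', rfl, ha'⟩ := h'
  refine ⟨n + n', a * a', ?_, (ha.mul ha').congr fun τ => by ring⟩
  rw [mul_sl]
  congr 2
  push_cast
  ring_nf

theorem HL_hq {F : ℍ → ℂ} {a : PowerSeries ℂ} (h : HQ F a) : HL F (ls a) := by
  refine ⟨0, a, ?_, h.congr fun τ => by rw [pow_zero, mul_one]⟩
  rw [Nat.cast_zero, neg_zero, HahnSeries.single_zero_one, one_mul]

theorem C_smul (c : ℂ) (s : LaurentSeries ℂ) : c • s = HahnSeries.C c * s := by
  rw [HahnSeries.C_mul_eq_smul]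

theorem HL_const (c : ℂ) : HL (fun _ => c) (HahnSeries.C c) := by
  have h := HL_hq (HQ.const c)
  have e : ls (PowerSeries.C c) = HahnSeries.C c := HahnSeries.ofPowerSeries_C c
  rwa [e] at h

theorem HL_smul (c : ℂ) {F : ℍ → ℂ} {s : LaurentSeries ℂ} (h : HL F s) :
    HL (fun τ => c * F τ) (c • s) := by
  rw [C_smul]
  exact HL_mul (HL_const c) h

theorem HL_pow {F : ℍ → ℂ} {s : LaurentSeries ℂ} (h : HL F s) (n : ℕ) :
    HL (fun τ => F τ ^ n) (s ^ n) := by
  induction n with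
  | zero =>
    have := HL_const 1
    rw [map_one] at this
    exact HL_congr (by rwa [pow_zero]) fun τ => (pow_zero _).symm
  | succ n ih =>
    rw [pow_succ]
    exact HL_congr (HL_mul ih h) fun τ => (pow_succ _ _).symm

section hecke

variable {p : ℕ} [hp : Fact p.Prime]

theorem HL_mulP {F : ℍ → ℂ} {s : LaurentSeries ℂ} (h : HL F s) :
    HL (fun τ => F (mulP p τ)) (VV p ℂ s) := by
  obtain ⟨n, a, rfl, ha⟩ := h
  refine ⟨p * n, fr p a, ?_, ?_⟩
  · rw [map_mul, VV_single, VV_ls]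
    congr 2
    push_cast
    ring_nf
  · refine (ha.comp_mulP (p := p)).congr fun τ => ?_
    rw [qq_mulP, ← pow_mul]

theorem qq_divP_pow (b : ℕ) (τ : ℍ) : qq (divP p b τ) ^ p = qq τ := by
  rw [qq_divP, mul_pow, wq_pow, ← pow_mul, mul_comm b p, pow_mul, zt_prim.pow_eq_one, one_pow,
    mul_one]

theorem UU_coeff (s : LaurentSeries ℂ) (n : ℤ) : (UU p ℂ s).coeff n = s.coeff (p * n) := rfl

theorem HL_divP {F : ℍ → ℂ} {s : LaurentSeries ℂ} (h : HL F s) :
    HL (fun τ => ∑ b ∈ Finset.range p, F (divP p b τ)) ((p : ℂ) • UU p ℂ s) := by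
  obtain ⟨n, a, rfl, ha⟩ := h
  have hn : n + (p - 1) * n = p * n := by
    obtain ⟨k, hk⟩ : ∃ k, p = k + 1 := ⟨p - 1, (Nat.sub_add_cancel hp.out.one_lt.le).symm⟩
    rw [hk, Nat.add_sub_cancel]
    ring
  have h1 := hq_raise ha ((p - 1) * n)
  rw [hn] at h1
  rw [sl_raise n ((p - 1) * n) a, hn]
  set a' := PowerSeries.X ^ ((p - 1) * n) * a with ha'
  refine ⟨n, PowerSeries.C (p : ℂ) * PowerSeries.mk fun m => PowerSeries.coeff (p * m) a', ?_, ?_⟩
  · rw [C_smul]
    have e1 : ls (PowerSeries.C (p : ℂ) * PowerSeries.mk fun m => PowerSeries.coeff (p * m) a') =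
        HahnSeries.C (p : ℂ) * ls (PowerSeries.mk fun m => PowerSeries.coeff (p * m) a') := by
      rw [ls, map_mul, HahnSeries.ofPowerSeries_C]
      rfl
    have e2 : UU p ℂ (HahnSeries.single (-((p * n : ℕ) : ℤ)) 1 * ls a') =
        HahnSeries.single (-(n : ℤ)) 1 *
          ls (PowerSeries.mk fun m => PowerSeries.coeff (p * m) a') := by
      ext m
      have h0 : (0 : ℤ) < p := by exact_mod_cast hp.out.pos
      rw [UU_coeff, coeff_sl, coeff_sl, coeff_ls, coeff_ls]
      have e3 : (p : ℤ) * m - -((p * n : ℕ) : ℤ) = p * (m - -(n : ℤ)) := by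
        push_cast
        ring
      rw [e3]
      by_cases hk : m - -(n : ℤ) < 0
      · rw [if_pos hk, if_pos (by nlinarith)]
      · rw [if_neg hk, if_neg (by push Not at hk ⊢; positivity), PowerSeries.coeff_mk,
          Int.natAbs_mul, Int.natAbs_natCast]
    rw [e1, e2]
    ring
  · refine (h1.up (p := p)).congr fun τ => ?_
    rw [Finset.sum_mul]
    refine Finset.sum_congr rfl fun b _ => ?_
    rw [pow_mul, qq_divP_pow]

end hecke

/-! ### Transformation behaviour -/

theorem Inv_mul {w w' : ℤ} {F G : ℍ → ℂ} (h : Inv w F) (h' : Inv w' G) :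
    Inv (w + w') (fun τ => F τ * G τ) := by
  intro a b c d hdet z z' hz
  have hne : (c : ℂ) * z + d ≠ 0 := (mf_move (k := 4) E₄ a b c d hdet z z' hz).2
  simp only
  rw [h a b c d hdet z z' hz, h' a b c d hdet z z' hz, zpow_add₀ hne]
  ring

theorem Inv_zpow {w : ℤ} {F : ℍ → ℂ} (h : Inv w F) (s : ℤ) :
    Inv (w * s) (fun τ => F τ ^ s) := by
  intro a b c d hdet z z' hz
  simp only
  rw [h a b c d hdet z z' hz, mul_zpow, zpow_mul]

theorem Inv_pow {w : ℤ} {F : ℍ → ℂ} (h : Inv w F) (n : ℕ) :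
    Inv (w * n) (fun τ => F τ ^ n) := by
  have h1 := Inv_zpow h n
  simp only [zpow_natCast] at h1
  exact h1

theorem Inv_const (c : ℂ) : Inv 0 (fun _ => c) := by
  intro a b c d hdet z z' hz
  rw [zpow_zero, one_mul]

theorem Inv_E4 : Inv 4 (fun τ => E₄ τ) := fun a b c d hdet z z' hz =>
  (mf_move (k := 4) E₄ a b c d hdet z z' hz).1

theorem Inv_E6 : Inv 6 (fun τ => E₆ τ) := fun a b c d hdet z z' hz =>
  (mf_move (k := 6) E₆ a b c d hdet z z' hz).1

theorem Inv_disc : Inv 12 (fun τ => ModularForm.discriminant τ) := by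
  intro a b c d hdet z z' hz
  have h := (mf_move (k := 12) CuspForm.discriminant a b c d hdet z z' hz).1
  rw [CuspForm.coe_discriminant] at h
  exact h

theorem Inv_bC (i : Fin 6) : Inv (rr i : ℤ) (bC i) := by
  fin_cases i
  · exact Inv_const 1
  · exact Inv_E4
  · exact Inv_E6
  · exact Inv_pow Inv_E4 2
  · exact Inv_mul Inv_E4 Inv_E6
  · exact Inv_mul (Inv_pow Inv_E4 2) Inv_E6

theorem Inv_jC : Inv 0 jC := by
  have h := Inv_mul (Inv_pow Inv_E4 3) (Inv_zpow Inv_disc (-1))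
  intro a b c d hdet z z' hz
  have h1 := h a b c d hdet z z' hz
  simp only [zpow_neg_one] at h1
  unfold jC
  rw [div_eq_mul_inv, div_eq_mul_inv]
  exact h1

theorem Inv_fC (i : Fin 6) (s : ℤ) (g : Polynomial ℚ) : Inv (wt i s) (fC i s g) := by
  have h1 : Inv 0 (fun τ => aeval (jC τ) g) := by
    intro a b c d hdet z z' hz
    have h2 := Inv_jC a b c d hdet z z' hz
    rw [zpow_zero, one_mul] at h2
    simp only
    rw [h2, zpow_zero, one_mul]
  have h := Inv_mul (Inv_mul (Inv_bC i) (Inv_zpow Inv_disc s)) h1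
  rw [add_zero] at h
  exact h

/-! ### The series of `b_i Δ^s g(j)` -/

/-- from the rational to the complex numbers -/
abbrev ph : ℚ →+* ℂ := algebraMap ℚ ℂ

theorem ph_map (x : PowerSeries ℤ) :
    PowerSeries.map ph (PowerSeries.map (Int.castRingHom ℚ) x) =
      PowerSeries.map (Int.castRingHom ℂ) x := by
  ext n
  rw [PowerSeries.coeff_map, PowerSeries.coeff_map, PowerSeries.coeff_map]
  simp

theorem HL4 : HL (fun τ => E₄ τ) (LM ph (ls (q4 ℚ))) := by
  rw [LM_apply, lmap_ls, q4, ph_map]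
  exact HL_hq hq4

theorem HL6 : HL (fun τ => E₆ τ) (LM ph (ls (q6 ℚ))) := by
  rw [LM_apply, lmap_ls, q6, ph_map]
  exact HL_hq hq6

theorem HLD : HL (fun τ => ModularForm.discriminant τ) (LM ph (ls (qD ℚ))) := by
  rw [LM_apply, lmap_ls, qD, ph_map]
  exact HL_hq hqD

theorem qd_inv (R : Type) [CommRing R] : qd R * PowerSeries.invOfUnit (qd R) 1 = 1 := by
  apply PowerSeries.mul_invOfUnit
  rw [qd, ← PowerSeries.coeff_zero_eq_constantCoeff_apply, PowerSeries.coeff_map,
    PowerSeries.coeff_zero_eq_constantCoeff_apply, zd0]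
  simp

theorem HLDi : HL (fun τ => (ModularForm.discriminant τ)⁻¹) (LM ph (Di ℚ)) := by
  rw [LM_apply, Di, lmap_sl]
  refine ⟨1, PowerSeries.map ph (PowerSeries.invOfUnit (qd ℚ) 1), ?_, ?_⟩
  · rw [Nat.cast_one]
  · have h1 : HQ (fun τ => ModularForm.discriminant τ / qq τ) (qd ℂ) := by
      have h := hqD
      rw [qD_X] at h
      exact h.divX
    have h2 : qd ℂ * PowerSeries.map ph (PowerSeries.invOfUnit (qd ℚ) 1) = 1 := by
      have h3 : qd ℂ = PowerSeries.map ph (qd ℚ) := (ph_map zd).symm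
      rw [h3, ← map_mul, qd_inv, map_one]
    refine (h1.inv (fun τ => div_ne_zero (discriminant_ne_zero τ) (qq_ne τ)) h2).congr fun τ => ?_
    rw [inv_div, pow_one, div_eq_inv_mul]

theorem qD_Di : ls (qD ℚ) * Di ℚ = 1 := by
  have h1 : ls (qD ℚ) = HahnSeries.single 1 1 * ls (qd ℚ) := by
    rw [qD_X, ls, ls, map_mul, HahnSeries.ofPowerSeries_X]
  rw [h1, Di, mul_sl, qd_inv, add_neg_cancel, HahnSeries.single_zero_one, one_mul]
  exact map_one _

theorem HL_zpow (s : ℤ) :
    HL (fun τ => ModularForm.discriminant τ ^ s) (LM ph (ls (qD ℚ) ^ s)) := by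
  obtain ⟨n, rfl | rfl⟩ := s.eq_nat_or_neg
  · rw [zpow_natCast, map_pow]
    exact HL_congr (HL_pow HLD n) fun τ => (zpow_natCast _ _).symm
  · have h1 : (ls (qD ℚ))⁻¹ = Di ℚ := inv_eq_of_mul_eq_one_right qD_Di
    rw [zpow_neg, zpow_natCast, ← inv_pow, h1, map_pow]
    refine HL_congr (HL_pow HLDi n) fun τ => ?_
    rw [zpow_neg, zpow_natCast, inv_pow]

theorem HLj : HL jC (LM ph (jj ℚ)) := by
  rw [jj, map_mul, map_pow]
  refine HL_congr (HL_mul (HL_pow HL4 3) HLDi) fun τ => ?_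
  rw [jC, div_eq_mul_inv]

theorem HL_alg (a : ℚ) :
    HL (fun _ => algebraMap ℚ ℂ a) (LM ph (algebraMap ℚ (LaurentSeries ℚ) a)) := by
  have e1 : algebraMap ℚ (LaurentSeries ℚ) a = ls (PowerSeries.C a) := by
    rw [HahnSeries.algebraMap_apply', ls, HahnSeries.ofPowerSeries_C]
    simp
  rw [e1, LM_apply, lmap_ls, PowerSeries.map_C]
  exact HL_hq (HQ.const _)

theorem HL_aeval (g : Polynomial ℚ) :
    HL (fun τ => aeval (jC τ) g) (LM ph (aeval (jj ℚ) g)) := by
  induction g using Polynomial.induction_on' with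
  | add f g hf hg =>
    rw [map_add, map_add]
    exact HL_congr (HL_add hf hg) fun τ => (map_add _ _ _).symm
  | monomial n a =>
    rw [Polynomial.aeval_monomial, map_mul, map_pow]
    refine HL_congr (HL_mul (HL_alg a) (HL_pow HLj n)) fun τ => ?_
    rw [Polynomial.aeval_monomial]

theorem ls_mul {R : Type} [CommRing R] (f g : PowerSeries R) : ls (f * g) = ls f * ls g :=
  map_mul _ _ _

theorem ls_pow {R : Type} [CommRing R] (f : PowerSeries R) (n : ℕ) : ls (f ^ n) = ls f ^ n :=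
  map_pow _ _ _

theorem HLb (i : Fin 6) : HL (bC i) (LM ph (ls (bb ℚ i))) := by
  fin_cases i
  · have e : ls (bb ℚ 0) = algebraMap ℚ (LaurentSeries ℚ) 1 := by
      rw [map_one]
      exact map_one _
    change HL (fun _ => (1 : ℂ)) (LM ph (ls (bb ℚ 0)))
    rw [e]
    exact HL_congr (HL_alg 1) fun τ => map_one _
  · exact HL4
  · exact HL6
  · change HL (fun τ => E₄ τ ^ 2) (LM ph (ls (q4 ℚ ^ 2)))
    rw [ls_pow, map_pow]
    exact HL_pow HL4 2
  · change HL (fun τ => E₄ τ * E₆ τ) (LM ph (ls (q4 ℚ * q6 ℚ)))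
    rw [ls_mul, map_mul]
    exact HL_mul HL4 HL6
  · change HL (fun τ => E₄ τ ^ 2 * E₆ τ) (LM ph (ls (q4 ℚ ^ 2 * q6 ℚ)))
    rw [ls_mul, ls_pow, map_mul, map_pow]
    exact HL_mul (HL_pow HL4 2) HL6

theorem HL_fC (i : Fin 6) (s : ℤ) (g : Polynomial ℚ) :
    HL (fC i s g) (lmap (algebraMap ℚ ℂ) (fL i s g)) := by
  have h := HL_mul (HL_mul (HLb i) (HL_zpow s)) (HL_aeval g)
  rw [← map_mul, ← map_mul] at h
  exact h

theorem main : HLB :=
  ⟨HL_unique, fun _ _ _ _ h h' => ⟨HL_add h h', HL_mul h h'⟩, fun c _ _ h => HL_smul c h,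
    fun _ _ _ _ h => ⟨HL_mulP h, HL_divP h⟩, fun i s g => ⟨Inv_fC i s g, HL_fC i s g⟩⟩

end Pool.Agent.H828.OCHLB
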