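import Pool.Agent.H828.BorLift

set_option autoImplicit false

/-!
# Representations of the group of the Borromean rings by lifts of projective transformations
-/

namespace Pool.Agent.H828.Lift

open Real

/-- The elements and the relations between them that are needed for the Borromean rings. -/
structure BorRep (P Q m n g η : ℝ) where
  X0 : H
  Y : H
  Z : H
  V1 : H
  V2 : H
  V : H
  zV1 : V1 * z = z * V1
  zV2 : V2 * z = z * V2
  zV : V * z = z * V
  hX : X0 = V1 * E (2 * P) * V1⁻¹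
  hY : Y = V2 * E (-2 * Q) * V2⁻¹
  hZ : Z = V * T g * V⁻¹
  hA : Z * Y * Z⁻¹ * Y⁻¹ = V1 * E (-4 * m * P) * V1⁻¹
  hB : X0⁻¹ * Z⁻¹ * X0 * Z = V2 * E (4 * n * Q) * V2⁻¹
  hC : X0 * Y⁻¹ * X0⁻¹ * Y = V * T (2 * η) * V⁻¹

theorem eq_conj_of {W F G : H} (h : W⁻¹ * F * W = G) : F = W * G * W⁻¹ := by
  rw [← h]; group

set_option maxHeartbeats 4000000 in
theorem borRep (σ k ν e f s P Q m n g η ω : ℝ) (hk : 0 < k) (hν : 0 < ν) (he1 : 1 < e)
    (hf0 : 0 < f) (hs0 : 0 < s) (he : e ^ 2 = k ^ 2 - σ ^ 2) (hf : f ^ 2 = σ ^ 2 + 1)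
    (hs : s ^ 2 = ν ^ 2 - 1)
    (hx0 : 0 < k * ν - e) (hx1 : k * ν + e = exp (2 * P) * (k * ν - e))
    (hx2 : e - 1 = exp (-2 * m * P) * (e + 1))
    (hy0 : 0 < k - f) (hy1 : k - f = exp (-2 * Q) * (k + f))
    (hy2 : 0 < ν * f - 1) (hy3 : ν * f + 1 = exp (2 * n * Q) * (ν * f - 1))
    (hω : 0 < ω) (hg1 : cos g * ω = σ * ν) (hg2 : sin g * ω = s)
    (hη1 : cos (2 * η) * (k ^ 2 * s ^ 2 + σ ^ 2) = k ^ 2 * s ^ 2 - σ ^ 2)
    (hη2 : sin (2 * η) * (k ^ 2 * s ^ 2 + σ ^ 2) = 2 * σ * k * s) (hη : |2 * η| < π) :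
    Nonempty (BorRep P Q m n g η) := by
  have he0 : 0 < e := by linarith
  have hA0 : 0 < k + σ := by nlinarith
  have hB0 : 0 < k - σ := by
    have : 0 < (k + σ) * (k - σ) := by nlinarith
    exact (pos_iff_pos_of_mul_pos this).mp hA0
  -- V1
  set V1 : H := D (e / (k + σ)) (div_pos he0 hA0) * T (π / 4) with hV1
  have lV1 : Lifts V1 (k + σ) (-(k + σ)) e e := by
    have h2 : (0 : ℝ) < √2 := by positivity
    have h := ((lifts_D (e / (k + σ)) (div_pos he0 hA0)).mul (lifts_T (π / 4))).smul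
      (a := (k + σ) * √2) (by positivity)
    have h3 : √2 * √2 = 2 := mul_self_sqrt (by norm_num)
    refine h.congr ?_ ?_ ?_ ?_
    · rw [cos_pi_div_four, sin_pi_div_four]; linear_combination (k + σ) / 2 * h3
    · rw [cos_pi_div_four, sin_pi_div_four]; linear_combination -(k + σ) / 2 * h3
    · rw [cos_pi_div_four, sin_pi_div_four]; field_simp; linear_combination e * h3
    · rw [cos_pi_div_four, sin_pi_div_four]; field_simp; linear_combination e * h3
  have zV1 : V1 * z = z * V1 := mul_z (D_z _ _) (T_z _)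
  have lV1i : Lifts V1⁻¹ e (k + σ) (-e) (k + σ) := by
    refine (lV1.inv ?_).congr rfl (by ring) rfl rfl
    nlinarith [mul_pos hA0 he0]
  -- V2
  obtain ⟨x, hc, hsn⟩ : ∃ x : ℝ, cos (2 * x) * f = σ ∧ sin (2 * x) * f = -1 := by
    obtain ⟨ρ, θ, hρ, h1, h2⟩ := exists_polar σ (-1) (Or.inr (by norm_num))
    have h3 : ρ ^ 2 = f ^ 2 := by
      rw [hf]
      have := cos_sq_add_sin_sq θ
      have e1 : σ ^ 2 + (-1) ^ 2 = ρ ^ 2 * (cos θ ^ 2 + sin θ ^ 2) := by
        rw [h2]; nth_rewrite 1 [h1]; ring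
      rw [this] at e1
      linarith
    have h4 : ρ = f := by
      have := abs_eq_abs.mpr (sq_eq_sq_iff_eq_or_eq_neg.mp h3)
      rwa [abs_of_pos hρ, abs_of_pos hf0] at this
    refine ⟨θ / 2, ?_, ?_⟩
    · rw [mul_div_cancel₀ _ (two_ne_zero), ← h4, mul_comm]; exact h1.symm
    · rw [mul_div_cancel₀ _ (two_ne_zero), ← h4, mul_comm]; exact h2.symm
  set V2 : H := T x with hV2
  have zV2 : V2 * z = z * V2 := T_z _
  have lV2 : Lifts V2 (cos x) (-sin x) (sin x) (cos x) := lifts_T x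
  have lV2i : Lifts V2⁻¹ (cos x) (sin x) (-sin x) (cos x) := by
    refine (lV2.inv ?_).congr rfl (by ring) rfl rfl
    nlinarith [cos_sq_add_sin_sq x]
  -- V
  set V : H := Aff (s / ν) (-1 / ν) (div_pos hs0 hν) with hV
  have zV : V * z = z * V := Aff_z _ _ _
  have lV : Lifts V ν 0 (-1) s := by
    refine ((lifts_Aff (s / ν) (-1 / ν) (div_pos hs0 hν)).smul hν).congr (by ring) (by ring)
      (by field_simp) (by field_simp)
  have lVi : Lifts V⁻¹ s 0 1 ν := by
    refine (lV.inv ?_).congr rfl (by ring) (by ring) rfl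
    nlinarith [mul_pos hν hs0]
  -- X0, Y, Z
  set X0 : H := V1 * E (2 * P) * V1⁻¹ with hX0
  set Y : H := V2 * E (-2 * Q) * V2⁻¹ with hYd
  set Z : H := V * T g * V⁻¹ with hZd
  have zX : X0 * z = z * X0 := conj_z zV1 (E_z _)
  have zY : Y * z = z * Y := conj_z zV2 (E_z _)
  have zZ : Z * z = z * Z := conj_z zV (T_z _)
  have fX : X0 (V1 (-(π / 2))) = V1 (-(π / 2)) := conj_fix (E_fix _)
  have fY : Y (V2 (-(π / 2))) = V2 (-(π / 2)) := conj_fix (E_fix _)
  have lX : Lifts X0 (k * ν) (-(k + σ)) (-(k - σ)) (k * ν) := by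
    have hL : 1 < exp (2 * P) := by
      by_contra hcon
      push Not at hcon
      nlinarith
    have h := (lV1.mul (lifts_E (2 * P))).mul lV1i
    have ha : 0 < (k + σ) * (exp (2 * P) - 1) := mul_pos hA0 (by linarith)
    apply Lifts.unsmul ha
    refine h.congr ?_ ?_ ?_ ?_
    · linear_combination (k + σ) * hx1
    · ring
    · linear_combination (1 - exp (2 * P)) * he
    · linear_combination (k + σ) * hx1
  have lY : Lifts Y (k + σ) (-1) (-1) (k - σ) := by
    have hL : exp (-2 * Q) < 1 := by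
      by_contra hcon
      push Not at hcon
      nlinarith
    have h := ((lV2.mul (lifts_E (-2 * Q))).mul lV2i).smul (a := 2 * f) (by linarith)
    have ha : 0 < 1 - exp (-2 * Q) := by linarith
    apply Lifts.unsmul ha
    have c2 : cos (2 * x) = 2 * cos x ^ 2 - 1 := cos_two_mul x
    have s2 : sin (2 * x) = 2 * sin x * cos x := sin_two_mul x
    have sc := cos_sq_add_sin_sq x
    rw [c2] at hc
    rw [s2] at hsn
    refine h.congr ?_ ?_ ?_ ?_
    · linear_combination (1 - exp (-2 * Q)) * hc + 2 * f * exp (-2 * Q) * sc - hy1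
    · linear_combination (1 - exp (-2 * Q)) * hsn
    · linear_combination (1 - exp (-2 * Q)) * hsn
    · linear_combination 2 * f * sc - (1 - exp (-2 * Q)) * hc - hy1
  have lZ : Lifts Z (σ * ν - 1) (-ν) ν (σ * ν + 1) := by
    have h := ((lV.mul (lifts_T g)).mul lVi).smul (a := ω) hω
    apply Lifts.unsmul (mul_pos hν hs0)
    refine h.congr ?_ ?_ ?_ ?_
    · linear_combination ν * s * hg1 - ν * hg2
    · linear_combination (-ν ^ 2) * hg2
    · linear_combination (s ^ 2 + 1) * hg2 + s * hs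
    · linear_combination ν * hg2 + ν * s * hg1
  have dX : 0 < k * ν * (k * ν) - (-(k + σ)) * (-(k - σ)) := by
    have : k * ν * (k * ν) - (-(k + σ)) * (-(k - σ)) = (k * s) ^ 2 + σ ^ 2 := by
      linear_combination (-k ^ 2) * hs
    rw [this]
    have := pow_pos (mul_pos hk hs0) 2
    have := sq_nonneg σ
    linarith
  have dY : 0 < (k + σ) * (k - σ) - (-1) * (-1) := by
    have : (k + σ) * (k - σ) - (-1) * (-1) = (e - 1) * (e + 1) := by
      linear_combination -he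
    rw [this]
    exact mul_pos (by linarith) (by linarith)
  have dZ : 0 < (σ * ν - 1) * (σ * ν + 1) - (-ν) * ν := by
    have : (σ * ν - 1) * (σ * ν + 1) - (-ν) * ν = (σ * ν) ^ 2 + s ^ 2 := by
      linear_combination -hs
    rw [this]
    have := pow_pos hs0 2
    have := sq_nonneg (σ * ν)
    linarith
  have iX := lX.inv dX
  have iY := lY.inv dY
  have iZ := lZ.inv dZ
  refine ⟨⟨X0, Y, Z, V1, V2, V, zV1, zV2, zV, rfl, rfl, rfl, ?_, ?_, ?_⟩⟩
  · -- the first commutator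
    have hz : (Z * Y * Z⁻¹ * Y⁻¹) * z = z * (Z * Y * Z⁻¹ * Y⁻¹) :=
      mul_z (mul_z (mul_z zZ zY) (inv_z zZ)) (inv_z zY)
    have hn : Near (Z * Y * Z⁻¹ * Y⁻¹) := near_A zY zZ fY
    have hl : Lifts (Z * Y * Z⁻¹ * Y⁻¹) (1 + k ^ 2 - σ ^ 2) (2 * (k + σ)) (2 * (k - σ))
        (1 + k ^ 2 - σ ^ 2) := by
      apply Lifts.unsmul dZ
      exact (((lZ.mul lY).mul iZ).mul iY).congr (by ring) (by ring) (by ring) (by ring)
    have hl2 := (lV1i.mul hl).mul lV1
    apply eq_conj_of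
    have hn' : Near (V1⁻¹ * (Z * Y * Z⁻¹ * Y⁻¹) * V1) := by
      have := hn.conj (inv_z zV1)
      rwa [inv_inv] at this
    have hz' := conj_inv_z zV1 hz
    apply hyp_unique' hz' hn' (a := 2 * e * (k + σ) * (1 + e) ^ 2)
      (d := 2 * e * (k + σ) * (e - 1) ^ 2) (by positivity)
      (mul_pos (by positivity) (pow_pos (by linarith) 2))
    · refine hl2.congr ?_ ?_ ?_ ?_
      · linear_combination (-(k + σ)) * (2 * e + 2) * he
      · linear_combination 2 * (k + σ) * he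
      · linear_combination -2 * (k + σ) * he
      · linear_combination (-(k + σ)) * (2 * e - 2) * he
    · have e1 : exp (-4 * m * P) = exp (-2 * m * P) ^ 2 := by
        rw [← exp_nat_mul]; congr 1; push_cast; ring
      rw [e1, hx2]; ring
  · -- the second commutator
    have hz : (X0⁻¹ * Z⁻¹ * X0 * Z) * z = z * (X0⁻¹ * Z⁻¹ * X0 * Z) :=
      mul_z (mul_z (mul_z (inv_z zX) (inv_z zZ)) zX) zZ
    have hn : Near (X0⁻¹ * Z⁻¹ * X0 * Z) := near_B zX fX
    have hl : Lifts (X0⁻¹ * Z⁻¹ * X0 * Z) (1 + ν ^ 2 * (σ ^ 2 + 1) - 2 * ν * σ) (2 * ν) (2 * ν)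
        (1 + ν ^ 2 * (σ ^ 2 + 1) + 2 * ν * σ) := by
      apply Lifts.unsmul dX
      exact (((iX.mul iZ).mul lX).mul lZ).congr (by ring) (by ring) (by ring) (by ring)
    have hl2 := (lV2i.mul hl).mul lV2
    apply eq_conj_of
    have hn' : Near (V2⁻¹ * (X0⁻¹ * Z⁻¹ * X0 * Z) * V2) := by
      have := hn.conj (inv_z zV2)
      rwa [inv_inv] at this
    have hz' := conj_inv_z zV2 hz
    have c2 : cos (2 * x) = 2 * cos x ^ 2 - 1 := cos_two_mul x
    have s2 : sin (2 * x) = 2 * sin x * cos x := sin_two_mul x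
    have sc := cos_sq_add_sin_sq x
    rw [c2] at hc
    rw [s2] at hsn
    apply hyp_unique' hz' hn' (a := (ν * f - 1) ^ 2) (d := (ν * f + 1) ^ 2)
      (pow_pos hy2 2) (pow_pos (by linarith) 2)
    · refine hl2.congr ?_ ?_ ?_ ?_
      · linear_combination ((1 + ν ^ 2 * (σ ^ 2 + 1)) + 2 * ν * σ - 8 * ν * f * cos x ^ 2) * sc +
          2 * ν * (2 * cos x ^ 2 - 1) * hc + 4 * ν * cos x * sin x * hsn - ν ^ 2 * hf
      · linear_combination (-2 * ν) * sc + 2 * ν * (2 * cos x ^ 2 - 1) * hsn -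
          4 * ν * cos x * sin x * hc
      · linear_combination (-2 * ν) * sc + 2 * ν * (2 * cos x ^ 2 - 1) * hsn -
          4 * ν * cos x * sin x * hc
      · linear_combination ((1 + ν ^ 2 * (σ ^ 2 + 1)) - 2 * ν * σ + 8 * ν * f * cos x ^ 2) * sc -
          2 * ν * (2 * cos x ^ 2 - 1) * hc - 4 * ν * cos x * sin x * hsn - ν ^ 2 * hf
    · have e1 : exp (4 * n * Q) = exp (2 * n * Q) ^ 2 := by
        rw [← exp_nat_mul]; congr 1; push_cast; ring
      rw [e1, hy3]; ring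
  · -- the third commutator
    have hz : (X0 * Y⁻¹ * X0⁻¹ * Y) * z = z * (X0 * Y⁻¹ * X0⁻¹ * Y) :=
      mul_z (mul_z (mul_z zX (inv_z zY)) (inv_z zX)) zY
    have hn : Near (X0 * Y⁻¹ * X0⁻¹ * Y) := near_C zX fX
    have hl : Lifts (X0 * Y⁻¹ * X0⁻¹ * Y) ((k ^ 2 * (ν ^ 2 - 1) - σ ^ 2) - 2 * σ * k)
        (-2 * σ * k * ν) (2 * σ * k * ν) ((k ^ 2 * (ν ^ 2 - 1) - σ ^ 2) + 2 * σ * k) := by
      apply Lifts.unsmul dY
      exact (((lX.mul iY).mul iX).mul lY).congr (by ring) (by ring) (by ring) (by ring)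
    have hl2 := (lVi.mul hl).mul lV
    apply eq_conj_of
    have hn' : Near (V⁻¹ * (X0 * Y⁻¹ * X0⁻¹ * Y) * V) := by
      have := hn.conj (inv_z zV)
      rwa [inv_inv] at this
    have hz' := conj_inv_z zV hz
    apply rot_unique hz' hn' hη
    have hW : 0 < s * ν * (k ^ 2 * s ^ 2 + σ ^ 2) := by positivity
    apply Lifts.unsmul hW
    refine hl2.congr ?_ ?_ ?_ ?_
    · linear_combination (-s * ν * k ^ 2) * hs - s * ν * hη1
    · linear_combination (s * ν) * hη2
    · linear_combination (-2 * σ * k * ν) * hs - (s * ν) * hη2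
    · linear_combination (-s * ν * k ^ 2) * hs - s * ν * hη1

end Pool.Agent.H828.Lift
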