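import Pool.Agent.H828.BorWr

set_option autoImplicit false

/-!
# Chains with alternating slopes
-/

namespace Pool.Agent.H828.BorAlt

open Pool.Agent.H828.QEnds
open Pool.Agent.H828.Lift (H)
open Pool.Agent.H828.QCh (Rel pw)

/-- The sequence with the values `a` at the even and `b` at the odd numbers. -/
def alt (a b : ℤ) (j : ℤ) : ℤ := if j % 2 = 0 then a else b

theorem alt_even {a b j : ℤ} (h : j % 2 = 0) : alt a b j = a := if_pos h

theorem alt_odd {a b j : ℤ} (h : j % 2 = 1) : alt a b j = b := if_neg (by omega)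

theorem alt_ne {a b : ℤ} (ha : a ≠ 0) (hb : b ≠ 0) (j : ℤ) : alt a b j ≠ 0 := by
  unfold alt; split_ifs
  · exact ha
  · exact hb

theorem alt_neg (a b j : ℤ) : alt a b (-j) = alt a b j := by
  unfold alt
  rcases Int.emod_two_eq_zero_or_one j with h | h
  · rw [if_pos h, if_pos (by omega)]
  · rw [if_neg (by omega), if_neg (by omega)]

theorem alt_per (a b j : ℤ) (n : ℕ) : alt a b (j + 2 * n) = alt a b j := by
  unfold alt
  rcases Int.emod_two_eq_zero_or_one j with h | h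
  · rw [if_pos h, if_pos (by omega)]
  · rw [if_neg (by omega), if_neg (by omega)]

/-- `n` is large enough for the slopes `r, s`. -/
def Large (n : ℕ) (r s : ℝ) : Prop :=
  0 < s ∧ s < 1 ∧ ((0 < r ∧ 8 ≤ n) ∨ (1 < r ∧ 6 ≤ n) ∨ (2 < r ∧ 4 ≤ n))

/-- The chain, if `p, q` alternate. -/
structure ChainAlt (n : ℕ) (a a' b b' : ℤ) (F : ℤ → H) : Prop where
  ev : ∀ m : ℤ, Rel a a' (F (2 * m - 1)) (F (2 * m)) (F (2 * m + 1))
  od : ∀ m : ℤ, Rel b b' (F (2 * m)) (F (2 * m + 1)) (F (2 * m + 2))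
  per : ∀ j, F (j + 2 * n) = pw ((-1) ^ n) (F j)
  ne : ∃ j, F j ≠ 1

theorem ChainAlt.shift {n : ℕ} {a a' b b' : ℤ} {F : ℤ → H} (h : ChainAlt n a a' b b' F) :
    ChainAlt n b b' a a' (fun j => F (j + 1)) := by
  refine ⟨?_, ?_, ?_, ?_⟩
  · intro m
    have h1 := h.od m
    show Rel b b' (F (2 * m - 1 + 1)) (F (2 * m + 1)) (F (2 * m + 1 + 1))
    rw [show 2 * m - 1 + 1 = 2 * m by ring, show 2 * m + 1 + 1 = 2 * m + 2 by ring]
    exact h1
  · intro m
    have h1 := h.ev (m + 1)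
    show Rel a a' (F (2 * m + 1)) (F (2 * m + 1 + 1)) (F (2 * m + 2 + 1))
    rw [show 2 * m + 1 = 2 * (m + 1) - 1 by ring, show 2 * (m + 1) - 1 + 1 = 2 * (m + 1) by ring,
      show 2 * m + 2 + 1 = 2 * (m + 1) + 1 by ring]
    exact h1
  · intro j
    show F (j + 2 * n + 1) = pw _ (F (j + 1))
    rw [show j + 2 * (n : ℤ) + 1 = (j + 1) + 2 * n by ring]
    exact h.per _
  · obtain ⟨j, hj⟩ := h.ne
    exact ⟨j - 1, by show F (j - 1 + 1) ≠ 1; rw [sub_add_cancel]; exact hj⟩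

theorem of_full {n a₀ b₀ t : ℕ} {a a' b b' : ℤ} (hn : n = a₀ + b₀ + 2 + 2 * t) (ha' : a' ≠ 0)
    (hb' : b' ≠ 0)
    (ha : End (fun j => (alt a b j : ℝ) / alt a' b' j) a₀)
    (hb : End (fun j => (alt a b ((n : ℤ) - j) : ℝ) / alt a' b' ((n : ℤ) - j)) b₀)
    (ht : ∀ i < t, |(alt a b (a₀ + 2 * i + 2 : ℕ) : ℝ) / alt a' b' (a₀ + 2 * i + 2 : ℕ)| < 1) :
    ∃ F, ChainAlt n a a' b b' F := by
  obtain ⟨F, h1, h2, h3⟩ := full (p := alt a b) (q := alt a' b') hn (alt_ne ha' hb') (alt_neg a b)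
    (alt_neg a' b') (fun j => alt_per a b j n) (fun j => alt_per a' b' j n) ha hb ht
  refine ⟨F, ?_, ?_, h2, h3⟩
  · intro m
    have h4 := h1 (2 * m)
    rwa [alt_even (by omega), alt_even (by omega)] at h4
  · intro m
    have h4 := h1 (2 * m + 1)
    rw [alt_odd (by omega), alt_odd (by omega), add_sub_cancel_right] at h4
    rw [show 2 * m + 2 = 2 * m + 1 + 1 by ring]
    exact h4

theorem exists_alt {n : ℕ} {a a' b b' : ℤ} (h : Large n ((a : ℝ) / a') ((b : ℝ) / b')) :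
    ∃ F, ChainAlt n a a' b b' F := by
  obtain ⟨s0, s1, h⟩ := h
  have hb' : b' ≠ 0 := by
    rintro rfl
    rw [Int.cast_zero, div_zero] at s0
    exact lt_irrefl _ s0
  have r0 : 0 < (a : ℝ) / a' := by
    rcases h with h | h | h <;> linarith [h.1]
  have ha' : a' ≠ 0 := by
    rintro rfl
    rw [Int.cast_zero, div_zero] at r0
    exact lt_irrefl _ r0
  have hs : Small ((b : ℝ) / b') := ⟨s0, s1⟩
  have hsa : |(b : ℝ) / b'| < 1 := by rw [abs_of_pos s0]; exact s1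
  -- the values
  have E : ∀ j : ℤ, j % 2 = 0 → (alt a b j : ℝ) / alt a' b' j = (a : ℝ) / a' := by
    intro j hj; rw [alt_even hj, alt_even hj]
  have O : ∀ j : ℤ, j % 2 = 1 → (alt a b j : ℝ) / alt a' b' j = (b : ℝ) / b' := by
    intro j hj; rw [alt_odd hj, alt_odd hj]
  have E' : ∀ j : ℤ, j % 2 = 0 → (alt b a j : ℝ) / alt b' a' j = (b : ℝ) / b' := by
    intro j hj; rw [alt_even hj, alt_even hj]
  have O' : ∀ j : ℤ, j % 2 = 1 → (alt b a j : ℝ) / alt b' a' j = (a : ℝ) / a' := by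
    intro j hj; rw [alt_odd hj, alt_odd hj]
  -- ends at a component with slope `r`
  have e1 : ∀ (k : ℤ) (ε : ℤ), k % 2 = 0 → (ε = 1 ∨ ε = -1) → 2 < (a : ℝ) / a' →
      End (fun j : ℕ => (alt a b (k + ε * j) : ℝ) / alt a' b' (k + ε * j)) 1 := by
    intro k ε hk hε h2
    left
    refine ⟨rfl, ?_, ?_⟩
    · show 2 < (alt a b _ : ℝ) / alt a' b' _
      rw [E _ (by rcases hε with rfl | rfl <;> omega)]; exact h2
    · show Small ((alt a b _ : ℝ) / alt a' b' _)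
      rw [O _ (by rcases hε with rfl | rfl <;> omega)]; exact hs
  have e3 : ∀ (k : ℤ) (ε : ℤ), k % 2 = 0 → (ε = 1 ∨ ε = -1) →
      End (fun j : ℕ => (alt a b (k + ε * j) : ℝ) / alt a' b' (k + ε * j)) 3 := by
    intro k ε hk hε
    right; right; left
    refine ⟨rfl, ?_, ?_, ?_, ?_⟩
    · show 0 < (alt a b _ : ℝ) / alt a' b' _
      rw [E _ (by rcases hε with rfl | rfl <;> omega)]; exact r0
    · show Small ((alt a b _ : ℝ) / alt a' b' _)
      rw [O _ (by rcases hε with rfl | rfl <;> omega)]; exact hs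
    · show 0 < (alt a b _ : ℝ) / alt a' b' _
      rw [E _ (by rcases hε with rfl | rfl <;> omega)]; exact r0
    · show Small ((alt a b _ : ℝ) / alt a' b' _)
      rw [O _ (by rcases hε with rfl | rfl <;> omega)]; exact hs
  -- ends at a component with slope `s`
  have e2 : ∀ (k : ℤ) (ε : ℤ), k % 2 = 1 → (ε = 1 ∨ ε = -1) → 1 < (a : ℝ) / a' →
      End (fun j : ℕ => (alt a b (k + ε * j) : ℝ) / alt a' b' (k + ε * j)) 2 := by
    intro k ε hk hε h2
    right; left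
    refine ⟨rfl, ?_, ?_⟩
    · show 1 < (alt a b _ : ℝ) / alt a' b' _
      rw [E _ (by rcases hε with rfl | rfl <;> omega)]; exact h2
    · show Small ((alt a b _ : ℝ) / alt a' b' _)
      rw [O _ (by rcases hε with rfl | rfl <;> omega)]; exact hs
  have e2' : ∀ (k : ℤ) (ε : ℤ), k % 2 = 0 → (ε = 1 ∨ ε = -1) → 1 < (a : ℝ) / a' →
      End (fun j : ℕ => (alt b a (k + ε * j) : ℝ) / alt b' a' (k + ε * j)) 2 := by
    intro k ε hk hε h2
    right; left
    refine ⟨rfl, ?_, ?_⟩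
    · show 1 < (alt b a _ : ℝ) / alt b' a' _
      rw [O' _ (by rcases hε with rfl | rfl <;> omega)]; exact h2
    · show Small ((alt b a _ : ℝ) / alt b' a' _)
      rw [E' _ (by rcases hε with rfl | rfl <;> omega)]; exact hs
  have e4 : ∀ (k : ℤ) (ε : ℤ), k % 2 = 1 → (ε = 1 ∨ ε = -1) →
      End (fun j : ℕ => (alt a b (k + ε * j) : ℝ) / alt a' b' (k + ε * j)) 4 := by
    intro k ε hk hε
    right; right; right
    refine ⟨rfl, ?_, ?_, ?_, ?_⟩
    · show 0 < (alt a b _ : ℝ) / alt a' b' _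
      rw [E _ (by rcases hε with rfl | rfl <;> omega)]; exact r0
    · show Small ((alt a b _ : ℝ) / alt a' b' _)
      rw [O _ (by rcases hε with rfl | rfl <;> omega)]; exact hs
    · show 0 < (alt a b _ : ℝ) / alt a' b' _
      rw [E _ (by rcases hε with rfl | rfl <;> omega)]; exact r0
    · show Small ((alt a b _ : ℝ) / alt a' b' _)
      rw [O _ (by rcases hε with rfl | rfl <;> omega)]; exact hs
  have f0 : ∀ (x y x' y' : ℤ), (fun j : ℕ => (alt x y (0 + 1 * (j : ℤ)) : ℝ) /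
      alt x' y' (0 + 1 * (j : ℤ))) = fun j : ℕ => (alt x y j : ℝ) / alt x' y' j := by
    intro x y x' y'; funext j; rw [one_mul, zero_add]
  have fn : ∀ (x y x' y' : ℤ), (fun j : ℕ => (alt x y ((n : ℤ) + (-1) * (j : ℤ)) : ℝ) /
      alt x' y' ((n : ℤ) + (-1) * (j : ℤ))) =
      fun j : ℕ => (alt x y ((n : ℤ) - j) : ℝ) / alt x' y' ((n : ℤ) - j) := by
    intro x y x' y'; funext j; rw [neg_one_mul, ← sub_eq_add_neg]
  have hm : ∀ (a₀ : ℕ), a₀ % 2 = 1 → ∀ t, ∀ i < t,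
      |(alt a b (a₀ + 2 * i + 2 : ℕ) : ℝ) / alt a' b' (a₀ + 2 * i + 2 : ℕ)| < 1 := by
    intro a₀ h0 t i _
    rw [O _ (by push_cast; omega)]; exact hsa
  rcases Nat.even_or_odd n with hn | hn
  · obtain ⟨k, hk⟩ := hn
    have hk2 : (n : ℤ) % 2 = 0 := by omega
    rcases h with ⟨-, h8⟩ | ⟨h1, h6⟩ | ⟨h2, h4⟩
    · refine of_full (a₀ := 3) (b₀ := 3) (t := k - 4) (by omega) ha' hb' ?_ ?_ (hm 3 rfl _)
      · rw [← f0]; exact e3 0 1 rfl (Or.inl rfl)
      · rw [← fn]; exact e3 n (-1) hk2 (Or.inr rfl)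
    · obtain ⟨F, hF⟩ := of_full (n := n) (a₀ := 2) (b₀ := 2) (t := k - 3) (a := b) (a' := b')
        (b := a) (b' := a') (by omega) hb' ha'
        (by rw [← f0]; exact e2' 0 1 rfl (Or.inl rfl) h1)
        (by rw [← fn]; exact e2' n (-1) hk2 (Or.inr rfl) h1)
        (by intro i _; rw [E' _ (by push_cast; omega)]; exact hsa)
      exact ⟨_, hF.shift⟩
    · refine of_full (a₀ := 1) (b₀ := 1) (t := k - 2) (by omega) ha' hb' ?_ ?_ (hm 1 rfl _)
      · rw [← f0]; exact e1 0 1 rfl (Or.inl rfl) h2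
      · rw [← fn]; exact e1 n (-1) hk2 (Or.inr rfl) h2
  · obtain ⟨k, hk⟩ := hn
    have hk2 : (n : ℤ) % 2 = 1 := by omega
    rcases h with ⟨-, h8⟩ | ⟨h1, h6⟩ | ⟨h2, h4⟩
    · refine of_full (a₀ := 3) (b₀ := 4) (t := k - 4) (by omega) ha' hb' ?_ ?_ (hm 3 rfl _)
      · rw [← f0]; exact e3 0 1 rfl (Or.inl rfl)
      · rw [← fn]; exact e4 n (-1) hk2 (Or.inr rfl)
    · refine of_full (a₀ := 3) (b₀ := 2) (t := k - 3) (by omega) ha' hb' ?_ ?_ (hm 3 rfl _)
      · rw [← f0]; exact e3 0 1 rfl (Or.inl rfl)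
      · rw [← fn]; exact e2 n (-1) hk2 (Or.inr rfl) h1
    · refine of_full (a₀ := 1) (b₀ := 2) (t := k - 2) (by omega) ha' hb' ?_ ?_ (hm 1 rfl _)
      · rw [← f0]; exact e1 0 1 rfl (Or.inl rfl) h2
      · rw [← fn]; exact e2 n (-1) hk2 (Or.inr rfl) (by linarith)

end Pool.Agent.H828.BorAlt
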