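import Pool.Agent.H828.BorRepEx

set_option autoImplicit false

/-!
# Existence of the parameters for the cyclic covers
-/

namespace Pool.Agent.H828.BorTanh

open Real Set Filter Topology Pool.Agent.H828.Lift

theorem tanh_slope : Tendsto (fun x : ℝ => tanh x / x) (𝓝[>] 0) (𝓝 1) := by
  have h0 : HasDerivAt tanh 1 0 := by
    have h1 := (hasDerivAt_sinh 0).div (hasDerivAt_cosh 0) (cosh_pos 0).ne'
    have e1 : (cosh 0 * cosh 0 - sinh 0 * sinh 0) / cosh 0 ^ 2 = 1 := by simp
    rw [e1] at h1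
    have e2 : tanh = fun x => sinh x / cosh x := by
      ext x; exact tanh_eq_sinh_div_cosh x
    rw [e2]
    exact h1
  have h := hasDerivAt_iff_tendsto_slope_zero.mp h0
  have h2 : Tendsto (fun t : ℝ => t⁻¹ • (tanh (0 + t) - tanh 0)) (𝓝[>] 0) (𝓝 1) :=
    h.mono_left (nhdsWithin_mono _ (fun x hx => ne_of_gt hx))
  refine h2.congr (fun x => ?_)
  rw [zero_add, tanh_zero, sub_zero, smul_eq_mul]
  ring

theorem mul_tendsto {m : ℝ} (hm : 0 < m) :
    Tendsto (fun x : ℝ => m * x) (𝓝[>] 0) (𝓝[>] 0) := by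
  apply tendsto_nhdsWithin_of_tendsto_nhds_of_eventually_within
  · have : Tendsto (fun x : ℝ => m * x) (𝓝 0) (𝓝 (m * 0)) :=
      (continuous_const.mul continuous_id).tendsto 0
    rw [mul_zero] at this
    exact this.mono_left nhdsWithin_le_nhds
  · filter_upwards [self_mem_nhdsWithin] with x hx
    exact mul_pos hm hx

theorem tanh_div_lim {m : ℝ} (hm : 0 < m) :
    Tendsto (fun x : ℝ => tanh x / tanh (m * x)) (𝓝[>] 0) (𝓝 (1 / m)) := by
  have h1 := tanh_slope
  have h2 := (tanh_slope.comp (mul_tendsto hm)).const_mul m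
  have h3 := h1.div h2 (by simpa using hm.ne')
  rw [mul_one] at h3
  refine h3.congr' ?_
  filter_upwards [self_mem_nhdsWithin] with x hx
  have hx0 : (0 : ℝ) < x := hx
  have : 0 < tanh (m * x) := th_pos (mul_pos hm hx0)
  show tanh x / x / (m * (tanh (m * x) / (m * x))) = tanh x / tanh (m * x)
  field_simp

theorem tanh_tendsto {m : ℝ} : Tendsto (fun x : ℝ => tanh (m * x)) (𝓝[>] 0) (𝓝 0) := by
  have : Tendsto (fun x : ℝ => tanh (m * x)) (𝓝 0) (𝓝 (tanh (m * 0))) :=
    (th_cont.comp (continuous_const.mul continuous_id)).tendsto 0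
  rw [mul_zero, tanh_zero] at this
  exact this.mono_left nhdsWithin_le_nhds

theorem limits {m n : ℝ} (hm : 0 < m) (hn : 0 < n) (hmn : m * n < 1) {q : ℝ → ℝ}
    (hq0 : ∀ P, 0 < P → 0 < q P) (hq1 : ∀ P, 0 < P → G n (q P) = G m P) :
    Tendsto (fun P => arctan (√(C2 (tanh P) (tanh (q P)) (tanh (m * P))) /
        √(S2 (tanh (q P)) (tanh (m * P))))) (𝓝[>] 0) (𝓝 (arcsin √(m * n))) ∧
    Tendsto (fun P => π - 2 * arctan (√(C2 (tanh P) (tanh (q P)) (tanh (m * P))) /
        (tanh P * tanh (m * P) * √(S2 (tanh (q P)) (tanh (m * P)))))) (𝓝[>] 0) (𝓝 0) := by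
  have hmn0 : 0 < m * n := mul_pos hm hn
  -- `q` tends to zero
  have hq : Tendsto q (𝓝[>] 0) (𝓝[>] 0) := by
    apply tendsto_nhdsWithin_of_tendsto_nhds_of_eventually_within
    · rw [Metric.tendsto_nhds]
      intro ε hε
      have hg := G_pos hn hε
      have h1 : Tendsto (G m) (𝓝[>] 0) (𝓝 0) := by
        have h2 : Tendsto (G m) (𝓝 0) (𝓝 (G m 0)) := (G_cont m).tendsto 0
        have h3 : G m 0 = 0 := by unfold G; simp
        rw [h3] at h2
        exact h2.mono_left nhdsWithin_le_nhds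
      filter_upwards [h1.eventually (gt_mem_nhds hg), self_mem_nhdsWithin] with P h2 hP
      have hP0 : (0 : ℝ) < P := hP
      have h3 := hq0 P hP0
      rw [dist_zero_right, norm_eq_abs, abs_of_pos h3]
      by_contra hcon
      push Not at hcon
      have h4 : G n ε ≤ G n (q P) := by
        rcases hcon.eq_or_lt with h | h
        · rw [h]
        · exact (G_lt hn hε h).le
      rw [hq1 P hP0] at h4
      linarith
    · filter_upwards [self_mem_nhdsWithin] with P hP
      exact hq0 P hP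
  have la : Tendsto (fun P : ℝ => tanh P) (𝓝[>] 0) (𝓝 0) := by
    have := tanh_tendsto (m := 1)
    simpa using this
  have ls : Tendsto (fun P : ℝ => tanh (m * P)) (𝓝[>] 0) (𝓝 0) := tanh_tendsto
  have lb : Tendsto (fun P : ℝ => tanh (q P)) (𝓝[>] 0) (𝓝 0) := la.comp hq
  have lr : Tendsto (fun P => tanh P / tanh (m * P) * (tanh (q P) / tanh (n * q P)))
      (𝓝[>] 0) (𝓝 (1 / m * (1 / n))) :=
    (tanh_div_lim hm).mul ((tanh_div_lim hn).comp hq)
  have lden : Tendsto (fun P : ℝ => 1 - tanh (q P) ^ 2) (𝓝[>] 0) (𝓝 (1 - 0 ^ 2)) :=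
    tendsto_const_nhds.sub (lb.pow 2)
  have lS : Tendsto (fun P => S2 (tanh (q P)) (tanh (m * P))) (𝓝[>] 0)
      (𝓝 ((1 - m * n) / (m * n))) := by
    have h1 := (lr.sub_const 1).div lden (by norm_num)
    have e1 : (1 / m * (1 / n) - 1) / (1 - (0 : ℝ) ^ 2) = (1 - m * n) / (m * n) := by
      field_simp
      ring
    rw [e1] at h1
    refine h1.congr' ?_
    filter_upwards [self_mem_nhdsWithin] with P hP
    have hP0 : (0 : ℝ) < P := hP
    have hG := hq1 P hP0
    unfold G at hG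
    have p1 := th_pos hP0
    have p2 := th_pos (mul_pos hm hP0)
    have p3 := th_pos (hq0 P hP0)
    have p4 := th_pos (mul_pos hn (hq0 P hP0))
    have p5 : 0 < 1 - tanh (q P) ^ 2 := by
      have := tanh_sq_lt_one (q P); linarith
    have e2 : tanh P / tanh (m * P) * (tanh (q P) / tanh (n * q P)) =
        tanh (q P) ^ 2 / tanh (m * P) ^ 2 := by
      rw [div_mul_div_comm, div_eq_div_iff (by positivity) (by positivity)]
      linear_combination (-tanh (q P) * tanh (m * P)) * hG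
    show (tanh P / tanh (m * P) * (tanh (q P) / tanh (n * q P)) - 1) / (1 - tanh (q P) ^ 2) = _
    rw [e2]
    unfold S2
    field_simp
  have lC : Tendsto (fun P => C2 (tanh P) (tanh (q P)) (tanh (m * P))) (𝓝[>] 0) (𝓝 1) := by
    have h1 := (tendsto_const_nhds (x := (1 : ℝ))).sub (la.pow 2)
    have h2 := ((la.pow 2).mul ((lb.pow 2).sub (ls.pow 2))).div lden (by norm_num)
    have h3 := h1.sub h2
    have e1 : (1 : ℝ) - 0 ^ 2 - 0 ^ 2 * (0 ^ 2 - 0 ^ 2) / (1 - 0 ^ 2) = 1 := by norm_num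
    rw [e1] at h3
    exact h3
  have lc : Tendsto (fun P => √(C2 (tanh P) (tanh (q P)) (tanh (m * P)))) (𝓝[>] 0) (𝓝 1) := by
    have := (continuous_sqrt.tendsto 1).comp lC
    rwa [sqrt_one] at this
  have lt : Tendsto (fun P => √(S2 (tanh (q P)) (tanh (m * P)))) (𝓝[>] 0)
      (𝓝 √((1 - m * n) / (m * n))) := (continuous_sqrt.tendsto _).comp lS
  have hS0 : 0 < (1 - m * n) / (m * n) := div_pos (by linarith) hmn0
  have ht0 : 0 < √((1 - m * n) / (m * n)) := sqrt_pos.mpr hS0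
  constructor
  · have h1 := (continuous_arctan.tendsto _).comp (lc.div lt ht0.ne')
    have e1 : arctan (1 / √((1 - m * n) / (m * n))) = arcsin √(m * n) := by
      have h2 : √(m * n) ∈ Ioo (-(1 : ℝ)) 1 := by
        constructor
        · have := sqrt_nonneg (m * n); linarith
        · rw [sqrt_lt' one_pos]; linarith
      rw [arcsin_eq_arctan h2, sq_sqrt hmn0.le]
      congr 1
      rw [sqrt_div (by linarith), one_div_div]
    rw [e1] at h1
    exact h1
  · have l1 : Tendsto (fun P => tanh P * tanh (m * P) * √(S2 (tanh (q P)) (tanh (m * P))) /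
        √(C2 (tanh P) (tanh (q P)) (tanh (m * P)))) (𝓝[>] 0) (𝓝 0) := by
      have h0 := ((la.mul ls).mul lt).div lc one_ne_zero
      have e0 : (0 : ℝ) * 0 * √((1 - m * n) / (m * n)) / 1 = 0 := by ring
      rw [e0] at h0
      exact h0
    have h1 := ((continuous_arctan.tendsto _).comp l1).const_mul 2
    rw [arctan_zero, mul_zero] at h1
    refine h1.congr' ?_
    filter_upwards [self_mem_nhdsWithin, lc.eventually (lt_mem_nhds one_pos),
      lt.eventually (lt_mem_nhds ht0)] with P hP h2 h3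
    have hP0 : (0 : ℝ) < P := hP
    have p1 := th_pos hP0
    have p2 := th_pos (mul_pos hm hP0)
    have h4 := arctan_inv_of_pos (x := √(C2 (tanh P) (tanh (q P)) (tanh (m * P))) /
        (tanh P * tanh (m * P) * √(S2 (tanh (q P)) (tanh (m * P))))) (by positivity)
    rw [inv_div] at h4
    show 2 * arctan _ = _
    rw [h4]
    ring

/-- The existence statement for the cyclic covers. -/
theorem exists_between {m n N K y : ℝ} (hm : 0 < m) (hn : 0 < n) (hmn : m * n < 1)
    (hy : (K * π < y ∧ y < N * arcsin √(m * n)) ∨ (N * arcsin √(m * n) < y ∧ y < K * π)) :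
    ∃ P Q, 0 < P ∧ 0 < Q ∧ G n Q = G m P ∧ 0 < C2 (tanh P) (tanh Q) (tanh (m * P)) ∧
      N * arctan (√(C2 (tanh P) (tanh Q) (tanh (m * P))) /
        √(S2 (tanh Q) (tanh (m * P)))) +
      K * (π - 2 * arctan (√(C2 (tanh P) (tanh Q) (tanh (m * P))) /
        (tanh P * tanh (m * P) * √(S2 (tanh Q) (tanh (m * P)))))) = y := by
  have hp := pi_pos
  obtain ⟨Qf, hQc, hQ⟩ := exists_inverse hn
  have hτ : ∀ P, 0 < P → G m P ∈ Ioo (0 : ℝ) 1 := fun P hP => ⟨G_pos hm hP, G_lt_one hm hP⟩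
  set q : ℝ → ℝ := fun P => Qf (G m P) with hq
  have hq0 : ∀ P, 0 < P → 0 < q P := fun P hP => (hQ _ (hτ P hP)).1
  have hq1 : ∀ P, 0 < P → G n (q P) = G m P := fun P hP => (hQ _ (hτ P hP)).2
  have hqc : ContinuousOn q (Ioi 0) :=
    hQc.comp (G_cont m).continuousOn (fun P hP => hτ P hP)
  have ca : ContinuousOn (fun P => tanh P) (Ioi 0) := th_cont.continuousOn
  have cs : ContinuousOn (fun P => tanh (m * P)) (Ioi 0) :=
    (th_cont.comp (continuous_const.mul continuous_id)).continuousOn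
  have cb : ContinuousOn (fun P => tanh (q P)) (Ioi 0) := th_cont.comp_continuousOn hqc
  have hs0 : ∀ P, 0 < P → 0 < tanh (m * P) := fun P hP => th_pos (mul_pos hm hP)
  have hsb : ∀ P, 0 < P → tanh (m * P) < tanh (q P) := fun P hP =>
    th_lt (q_gt hm hn hmn hP (hq0 P hP) (hq1 P hP))
  have hb1 : ∀ P, 0 < 1 - tanh (q P) ^ 2 := fun P => by
    have := tanh_sq_lt_one (q P); linarith
  have hSp : ∀ P, 0 < P → 0 < S2 (tanh (q P)) (tanh (m * P)) := fun P hP =>
    S2_pos (hs0 P hP) (hsb P hP) (tanh_lt_one _)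
  have cS : ContinuousOn (fun P => S2 (tanh (q P)) (tanh (m * P))) (Ioi 0) := by
    unfold S2
    apply ContinuousOn.div ((cb.pow 2).sub (cs.pow 2)) ((cs.pow 2).mul (continuousOn_const.sub (cb.pow 2)))
    intro P hP
    exact (mul_pos (pow_pos (hs0 P hP) 2) (hb1 P)).ne'
  have cC : ContinuousOn (fun P => C2 (tanh P) (tanh (q P)) (tanh (m * P))) (Ioi 0) := by
    unfold C2
    apply ContinuousOn.sub (continuousOn_const.sub (ca.pow 2))
    apply ContinuousOn.div ((ca.pow 2).mul ((cb.pow 2).sub (cs.pow 2))) (continuousOn_const.sub (cb.pow 2))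
    intro P _
    exact (hb1 P).ne'
  set h : ℝ → ℝ := fun P => N * arctan (√(C2 (tanh P) (tanh (q P)) (tanh (m * P))) /
        √(S2 (tanh (q P)) (tanh (m * P)))) +
      K * (π - 2 * arctan (√(C2 (tanh P) (tanh (q P)) (tanh (m * P))) /
        (tanh P * tanh (m * P) * √(S2 (tanh (q P)) (tanh (m * P)))))) with hh
  have hc : ContinuousOn h (Ioi 0) := by
    have c1 : ContinuousOn (fun P => √(C2 (tanh P) (tanh (q P)) (tanh (m * P)))) (Ioi 0) :=
      continuous_sqrt.comp_continuousOn cC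
    have c2 : ContinuousOn (fun P => √(S2 (tanh (q P)) (tanh (m * P)))) (Ioi 0) :=
      continuous_sqrt.comp_continuousOn cS
    have c3 : ContinuousOn (fun P => arctan (√(C2 (tanh P) (tanh (q P)) (tanh (m * P))) /
        (tanh P * tanh (m * P) * √(S2 (tanh (q P)) (tanh (m * P)))))) (Ioi 0) := by
      apply continuous_arctan.comp_continuousOn
      apply c1.div ((ca.mul cs).mul c2)
      intro P hP
      exact (mul_pos (mul_pos (th_pos hP) (hs0 P hP)) (sqrt_pos.mpr (hSp P hP))).ne'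
    have c4 : ContinuousOn (fun P => arctan (√(C2 (tanh P) (tanh (q P)) (tanh (m * P))) /
        √(S2 (tanh (q P)) (tanh (m * P))))) (Ioi 0) := by
      apply continuous_arctan.comp_continuousOn
      apply c1.div c2
      intro P hP
      exact (sqrt_pos.mpr (hSp P hP)).ne'
    exact (continuousOn_const.mul c4).add
      (continuousOn_const.mul (continuousOn_const.sub (continuousOn_const.mul c3)))
  obtain ⟨l1, l2⟩ := limits hm hn hmn hq0 hq1
  have lh : Tendsto h (𝓝[>] 0) (𝓝 (N * arcsin √(m * n))) := by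
    have := (l1.const_mul N).add (l2.const_mul K)
    rw [mul_zero, add_zero] at this
    exact this
  obtain ⟨P1, hP1, hlg⟩ := large hm hn hmn
  have hP10 : 0 < P1 := by linarith
  have hC0 : ∀ P, 0 < P → C2 (tanh P) (tanh (q P)) (tanh (m * P)) ≤ 0 → h P = K * π := by
    intro P hP hC
    show _ + _ = (_ : ℝ)
    rw [sqrt_eq_zero_of_nonpos hC, zero_div, zero_div, arctan_zero]
    ring
  have h1 : h P1 = K * π := hC0 P1 hP10 (hlg (q P1) (hq0 P1 hP10) (hq1 P1 hP10))
  have key : ∃ P, 0 < P ∧ h P = y := by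
    rcases hy with ⟨hy1, hy2⟩ | ⟨hy1, hy2⟩
    · have ev := lh.eventually (lt_mem_nhds hy2)
      have ev2 : ∀ᶠ P in 𝓝[>] (0 : ℝ), P < P1 :=
        nhdsWithin_le_nhds (gt_mem_nhds hP10)
      obtain ⟨P0, hP0, hlt, hP01⟩ := (ev.and ((ev2.and self_mem_nhdsWithin))).exists
      obtain ⟨P, hP, hP2⟩ := intermediate_value_Icc' (show P0 ≤ P1 by linarith)
        (hc.mono (fun x hx => lt_of_lt_of_le hP01 hx.1)) (show y ∈ Icc (h P1) (h P0) from
          ⟨by rw [h1]; exact hy1.le, hP0.le⟩)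
      exact ⟨P, lt_of_lt_of_le hP01 hP.1, hP2⟩
    · have ev := lh.eventually (gt_mem_nhds hy1)
      have ev2 : ∀ᶠ P in 𝓝[>] (0 : ℝ), P < P1 :=
        nhdsWithin_le_nhds (gt_mem_nhds hP10)
      obtain ⟨P0, hP0, hlt, hP01⟩ := (ev.and ((ev2.and self_mem_nhdsWithin))).exists
      obtain ⟨P, hP, hP2⟩ := intermediate_value_Icc (show P0 ≤ P1 by linarith)
        (hc.mono (fun x hx => lt_of_lt_of_le hP01 hx.1)) (show y ∈ Icc (h P0) (h P1) from
          ⟨hP0.le, by rw [h1]; exact hy2.le⟩)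
      exact ⟨P, lt_of_lt_of_le hP01 hP.1, hP2⟩
  obtain ⟨P, hP, hPy⟩ := key
  refine ⟨P, q P, hP, hq0 P hP, hq1 P hP, ?_, hPy⟩
  by_contra hcon
  push Not at hcon
  have h2 := hC0 P hP hcon
  rw [h2] at hPy
  rcases hy with ⟨hy1, hy2⟩ | ⟨hy1, hy2⟩ <;> linarith

/-- The representations for the cyclic covers. -/
theorem exists_rep_cov {m n N K y : ℝ} (hm : 0 < m) (hn : 0 < n) (hmn : m * n < 1)
    (hy : (K * π < y ∧ y < N * arcsin √(m * n)) ∨ (N * arcsin √(m * n) < y ∧ y < K * π)) :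
    ∃ P Q g η : ℝ, 0 < P ∧ N * g + K * (2 * η) = y ∧ Nonempty (BorRep P Q m n g η) := by
  obtain ⟨P, Q, hP, hQ, hG, hC, hz⟩ := exists_between hm hn hmn hy
  refine ⟨P, Q, _, _, hP, ?_, rep_of hm hn hmn (Or.inl ⟨rfl, rfl⟩) hP hQ hG hC⟩
  rw [← hz]; ring

end Pool.Agent.H828.BorTanh
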