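import Pool.Agent.H828.BorRepEx

set_option autoImplicit false

/-!
# The relations of the surgeries on the Borromean rings
-/

namespace Pool.Agent.H828.Bor

open Pool.Agent.H828.Lift

/-- `y z⁻¹ y⁻¹ z`, the longitude of the component with meridian `x`. -/
def lon {G : Type*} [Group G] (y z : G) : G := y * z⁻¹ * y⁻¹ * z

/-- The relations of the surgery with slopes `a / a'`, `b / b'`, `c / c'`, for the components with
meridians `x`, `y`, `z`. -/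
structure Tri {G : Type*} [Group G] (x y z : G) (a a' b b' c c' : ℤ) : Prop where
  cx : x * lon y z = lon y z * x
  cy : y * lon z x = lon z x * y
  cz : z * lon x y = lon x y * z
  sx : x ^ a * lon y z ^ a' = 1
  sy : y ^ b * lon z x ^ b' = 1
  sz : z ^ c * lon x y ^ c' = 1

theorem Tri.rot {G : Type*} [Group G] {x y z : G} {a a' b b' c c' : ℤ}
    (h : Tri x y z a a' b b' c c') : Tri y z x b b' c c' a a' :=
  ⟨h.cy, h.cz, h.cx, h.sy, h.sz, h.sx⟩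

theorem zpow_aux {G : Type*} [Group G] {x l : G} (h : x * l = l * x) {a a' : ℤ}
    (hs : x ^ a * l ^ a' = 1) : x ^ (-a) * l⁻¹ ^ a' = 1 := by
  have hc : Commute x l := h
  have h1 : l ^ a' * x ^ a = 1 := by
    rw [← (hc.zpow_zpow a a').eq]; exact hs
  rw [zpow_neg, inv_zpow, ← mul_inv_rev, h1, inv_one]

theorem conj_pow_aux {G : Type*} [Group G] (w x l : G) (a a' : ℤ) :
    (w * x * w⁻¹) ^ a * (w * l * w⁻¹) ^ a' = w * (x ^ a * l ^ a') * w⁻¹ := by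
  rw [conj_zpow, conj_zpow]; group

theorem conj_comm_aux {G : Type*} [Group G] {w x l : G} (h : x * l = l * x) :
    (w * x * w⁻¹) * (w * l * w⁻¹) = (w * l * w⁻¹) * (w * x * w⁻¹) := by
  calc (w * x * w⁻¹) * (w * l * w⁻¹) = w * (x * l) * w⁻¹ := by group
    _ = w * (l * x) * w⁻¹ := by rw [h]
    _ = _ := by group

/-- The mirror image. -/
theorem Tri.mirror {G : Type*} [Group G] {x y z : G} {a a' b b' c c' : ℤ}
    (h : Tri x y z a a' b b' c c') :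
    Tri x y⁻¹ (y * z * y⁻¹) (-a) a' (-b) b' (-c) c' := by
  have e1 : lon y⁻¹ (y * z * y⁻¹) = (lon y z)⁻¹ := by
    unfold lon; group
  have e3 : lon x y⁻¹ = y * (lon x y)⁻¹ * y⁻¹ := by
    unfold lon; group
  have hxc : Commute x (lon y z) := h.cx
  have hzc : Commute z (lon x y) := h.cz
  have e2 : lon (y * z * y⁻¹) x = lon z x := by
    have hz : lon x y * z⁻¹ = z⁻¹ * lon x y := hzc.symm.inv_right.eq
    have hy : y * lon z x = lon z x * y := h.cy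
    calc lon (y * z * y⁻¹) x = y * z * x⁻¹ * (lon x y * z⁻¹) * y⁻¹ * x := by
          unfold lon; group
      _ = y * z * x⁻¹ * (z⁻¹ * lon x y) * y⁻¹ * x := by rw [hz]
      _ = (y * lon z x) * y⁻¹ := by unfold lon; group
      _ = lon z x := by rw [hy]; group
  refine ⟨?_, ?_, ?_, ?_, ?_, ?_⟩
  · rw [e1]; exact hxc.inv_right.eq
  · rw [e2]
    have hyc : Commute y (lon z x) := h.cy
    exact hyc.inv_left.eq
  · rw [e3]; exact conj_comm_aux hzc.inv_right.eq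
  · rw [e1]; exact zpow_aux h.cx h.sx
  · rw [e2, inv_zpow', neg_neg]; exact h.sy
  · rw [e3, conj_pow_aux, zpow_aux h.cz h.sz]; group

theorem lift_comm {V : H} (s t : ℝ) :
    (V * E s * V⁻¹) * (V * E t * V⁻¹) = (V * E t * V⁻¹) * (V * E s * V⁻¹) := by
  apply conj_comm_aux
  rw [← E_add, ← E_add, add_comm]

theorem lift_comm_T {V : H} (s t : ℝ) :
    (V * T s * V⁻¹) * (V * T t * V⁻¹) = (V * T t * V⁻¹) * (V * T s * V⁻¹) := by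
  apply conj_comm_aux
  rw [← T_add, ← T_add, add_comm]

theorem lift_pow {V : H} {s t : ℝ} {a a' : ℤ} (h : a * s + a' * t = 0) :
    (V * E s * V⁻¹) ^ a * (V * E t * V⁻¹) ^ a' = 1 := by
  rw [conj_pow_aux, E_zpow, E_zpow, ← E_add, h, E_zero]; group

theorem lift_pow_T {V : H} {s t : ℝ} {a a' : ℤ} (h : a * s + a' * t = 0) :
    (V * T s * V⁻¹) ^ a * (V * T t * V⁻¹) ^ a' = 1 := by
  rw [conj_pow_aux, T_zpow, T_zpow, ← T_add, h, T_zero]; group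

theorem comm_A {P Q m n g η : ℝ} (R : BorRep P Q m n g η) :
    R.X0 * (R.Z * R.Y * R.Z⁻¹ * R.Y⁻¹) = (R.Z * R.Y * R.Z⁻¹ * R.Y⁻¹) * R.X0 := by
  rw [R.hA]
  nth_rewrite 1 [R.hX]
  nth_rewrite 1 [R.hX]
  exact lift_comm _ _

theorem comm_C {P Q m n g η : ℝ} (R : BorRep P Q m n g η) :
    R.Z * (R.X0 * R.Y⁻¹ * R.X0⁻¹ * R.Y) = (R.X0 * R.Y⁻¹ * R.X0⁻¹ * R.Y) * R.Z := by
  rw [R.hC]
  nth_rewrite 1 [R.hZ]
  nth_rewrite 1 [R.hZ]
  exact lift_comm_T _ _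

theorem lon_Z {P Q m n g η : ℝ} (R : BorRep P Q m n g η) :
    lon (R.Z⁻¹ * R.X0 * R.Z) R.Y = R.V * T (2 * η) * R.V⁻¹ := by
  have cA := (comm_A R)
  have cC := (comm_C R)
  rw [← R.hC]
  generalize R.X0 = X0 at *
  generalize R.Y = Y at *
  generalize R.Z = Z at *
  set A := Z * Y * Z⁻¹ * Y⁻¹ with hAd
  have f1 : Z * Y * Z⁻¹ = A * Y := by rw [hAd]; group
  have f2 : A⁻¹ * X0⁻¹ * A = X0⁻¹ := by
    have hc : Commute X0 A := cA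
    rw [mul_assoc, hc.inv_left.eq, ← mul_assoc]; group
  calc lon (Z⁻¹ * X0 * Z) Y = Z⁻¹ * (X0 * (Z * Y * Z⁻¹)⁻¹ * X0⁻¹ * (Z * Y * Z⁻¹)) * Z := by
        unfold lon; group
    _ = Z⁻¹ * (X0 * (A * Y)⁻¹ * X0⁻¹ * (A * Y)) * Z := by rw [f1]
    _ = Z⁻¹ * (X0 * Y⁻¹ * (A⁻¹ * X0⁻¹ * A) * Y) * Z := by group
    _ = Z⁻¹ * (X0 * Y⁻¹ * X0⁻¹ * Y) * Z := by rw [f2]
    _ = Z⁻¹ * ((X0 * Y⁻¹ * X0⁻¹ * Y) * Z) := by group
    _ = Z⁻¹ * (Z * (X0 * Y⁻¹ * X0⁻¹ * Y)) := by rw [← cC]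
    _ = X0 * Y⁻¹ * X0⁻¹ * Y := by group

theorem tri_of_rep {P Q m n g η : ℝ} (R : BorRep P Q m n g η) {p0 q0 p1 q1 p2 q2 : ℤ}
    (h0 : (p0 : ℝ) = 2 * m * q0) (h1 : (p1 : ℝ) = 2 * n * q1) (h2 : p2 * g + q2 * (2 * η) = 0) :
    Tri (R.Z⁻¹ * R.X0 * R.Z) R.Y R.Z p0 q0 p1 q1 p2 q2 := by
  have e3 := (lon_Z R)
  have cC := (comm_C R)
  obtain ⟨X0, Y, Z, V1, V2, V, _, _, _, hX, hY, hZ, hA, hB, hC⟩ := R
  show Tri (Z⁻¹ * X0 * Z) Y Z p0 q0 p1 q1 p2 q2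
  change lon (Z⁻¹ * X0 * Z) Y = V * T (2 * η) * V⁻¹ at e3
  have e1 : lon Y Z = Z⁻¹ * (V1 * E (-4 * m * P) * V1⁻¹) * Z⁻¹⁻¹ := by
    rw [← hA]; unfold lon; group
  have e2 : lon Z (Z⁻¹ * X0 * Z) = V2 * E (4 * n * Q) * V2⁻¹ := by
    rw [← hB]; unfold lon; group
  have eX : Z⁻¹ * X0 * Z = Z⁻¹ * (V1 * E (2 * P) * V1⁻¹) * Z⁻¹⁻¹ := by
    rw [hX]; group
  refine ⟨?_, ?_, ?_, ?_, ?_, ?_⟩
  · rw [e1, eX]; exact conj_comm_aux (lift_comm _ _)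
  · rw [e2, hY]; exact lift_comm _ _
  · rw [e3, hZ]; exact lift_comm_T _ _
  · rw [e1, eX, conj_pow_aux, lift_pow]
    · group
    · rw [h0]; ring
  · rw [e2, hY]
    apply lift_pow
    rw [h1]; ring
  · rw [e3, hZ]
    exact lift_pow_T h2

theorem E_ne {t : ℝ} (ht : 0 < t) : E t ≠ 1 := by
  intro h
  have h1 : E t (Real.arctan 1) = Real.arctan 1 := by rw [h]; rfl
  have h2 := affFun_mid' (Real.exp t) 0 0 1
  simp only [Int.cast_zero, zero_mul, zero_add, mul_one, add_zero] at h2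
  have h3 : E t (Real.arctan 1) = Real.arctan (Real.exp t) := h2
  rw [h3] at h1
  have h4 := Real.arctan_injective h1
  have h5 := Real.add_one_le_exp t
  linarith

/-- Slopes `r0, r1 > 0` with `r0 * r1 < 4` and `r2 < 1`, `r2 ≠ 0`. -/
theorem exists_tri {p0 q0 p1 q1 p2 q2 : ℤ} (hq0 : q0 ≠ 0) (hq1 : q1 ≠ 0) (hq2 : q2 ≠ 0)
    (h0 : 0 < (p0 : ℝ) / q0) (h1 : 0 < (p1 : ℝ) / q1) (h01 : (p0 : ℝ) / q0 * (p1 / q1) < 4)
    (h2 : (p2 : ℝ) / q2 < 1) (h2' : (p2 : ℝ) / q2 ≠ 0) :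
    ∃ x y z : H, x ≠ 1 ∧ Tri x y z p0 q0 p1 q1 p2 q2 := by
  have k0 : (q0 : ℝ) ≠ 0 := by exact_mod_cast hq0
  have k1 : (q1 : ℝ) ≠ 0 := by exact_mod_cast hq1
  have k2 : (q2 : ℝ) ≠ 0 := by exact_mod_cast hq2
  obtain ⟨ε, ρ, hρ, hε, hr⟩ : ∃ ε ρ : ℝ, 0 < ρ ∧ (ε = 1 ∨ (ε = -1 ∧ ρ < 1)) ∧
      (p2 : ℝ) / q2 = -ε * ρ := by
    rcases lt_or_gt_of_ne h2' with h | h
    · exact ⟨1, -((p2 : ℝ) / q2), by linarith, Or.inl rfl, by ring⟩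
    · exact ⟨-1, (p2 : ℝ) / q2, h, Or.inr ⟨rfl, h2⟩, by ring⟩
  obtain ⟨P, Q, g, η, hP, hη, ⟨R⟩⟩ := BorTanh.exists_rep (m := (p0 : ℝ) / q0 / 2)
    (n := (p1 : ℝ) / q1 / 2) (by linarith) (by linarith) (by nlinarith) hρ hε
  refine ⟨_, _, _, ?_, tri_of_rep R (p0 := p0) (q0 := q0) (p1 := p1) (q1 := q1) (p2 := p2)
    (q2 := q2) ?_ ?_ ?_⟩
  · intro h
    have h3 : R.X0 = 1 := by
      have : R.X0 = R.Z * (R.Z⁻¹ * R.X0 * R.Z) * R.Z⁻¹ := by group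
      rw [this, h]; group
    rw [R.hX] at h3
    have h4 : E (2 * P) = 1 := by
      have : E (2 * P) = R.V1⁻¹ * (R.V1 * E (2 * P) * R.V1⁻¹) * R.V1 := by group
      rw [this, h3]; group
    exact E_ne (by linarith) h4
  · field_simp
  · field_simp
  · rw [hη]
    have h3 : (p2 : ℝ) = -ε * ρ * q2 := by
      rw [← hr]; field_simp
    rw [h3]; ring

end Pool.Agent.H828.Bor
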