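import Pool.Graph.R_seed8.Results.MP_3d425c_gt.BorromeanSurgery
import Pool.Agent.H828.BorGrp
import Pool.Agent.H828.BorCovEx

set_option autoImplicit false

/-!
# Homomorphisms on kernels of maps to cyclic groups
-/

namespace Pool.Agent.H828.Cov

/-- Let `ρ` be a homomorphism on the free group whose values on the relators are powers of a
central element, according to the degree `d`.  Then `ρ` can be corrected to a homomorphism on the
kernel of the degree modulo `n`. -/
theorem ker_hom {α : Type} {rels : Set (FreeGroup α)} {G : Type} [Group G] (ζ : G)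
    (ρ : FreeGroup α →* G) (d : FreeGroup α →* Multiplicative ℤ) (n : ℕ) (hn : 0 < n) (c : ℤ)
    (hζ : ∀ w, ρ w * ζ = ζ * ρ w)
    (hrel : ∀ w ∈ rels, ∃ j : ℤ, Multiplicative.toAdd (d w) = n * j ∧ ρ w = ζ ^ (c * j))
    (D : PresentedGroup rels →* Multiplicative (ZMod n))
    (hD : ∀ w, D (PresentedGroup.mk rels w) =
      Multiplicative.ofAdd ((Multiplicative.toAdd (d w) : ℤ) : ZMod n)) :
    ∃ f : D.ker →* G, ∀ w (hw : PresentedGroup.mk rels w ∈ D.ker),
      f ⟨PresentedGroup.mk rels w, hw⟩ = ρ w * ζ ^ (-c * (Multiplicative.toAdd (d w) / n)) := by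
  have hn0 : (n : ℤ) ≠ 0 := by exact_mod_cast hn.ne'
  have hz : ∀ w (k : ℤ), ρ w * ζ ^ k = ζ ^ k * ρ w := fun w k =>
    (show Commute (ρ w) ζ from hζ w).zpow_right k
  -- the normal subgroup of elements of degree `n j` that are mapped to `ζ ^ (c j)`
  let R : Subgroup (FreeGroup α) :=
    { carrier := {w | ∃ j : ℤ, Multiplicative.toAdd (d w) = n * j ∧ ρ w = ζ ^ (c * j)}
      one_mem' := ⟨0, by simp, by simp⟩
      mul_mem' := by
        rintro v w ⟨i, hi, hi'⟩ ⟨j, hj, hj'⟩
        refine ⟨i + j, ?_, ?_⟩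
        · rw [map_mul, toAdd_mul, hi, hj]; ring
        · rw [map_mul, hi', hj', ← zpow_add]; congr 1; ring
      inv_mem' := by
        rintro v ⟨i, hi, hi'⟩
        refine ⟨-i, ?_, ?_⟩
        · rw [map_inv, toAdd_inv, hi]; ring
        · rw [map_inv, hi', ← zpow_neg]; congr 1; ring }
  have hRn : R.Normal := by
    constructor
    rintro w ⟨j, hj, hj'⟩ v
    refine ⟨j, ?_, ?_⟩
    · rw [map_mul d, map_mul d, map_inv d, toAdd_mul, toAdd_mul, toAdd_inv, hj]; ring
    · rw [map_mul ρ, map_mul ρ, map_inv ρ, hj', hz]; group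
  have hle : Subgroup.normalClosure rels ≤ R := Subgroup.normalClosure_le_normal hrel
  have key : ∀ v w : FreeGroup α, PresentedGroup.mk rels v = PresentedGroup.mk rels w →
      (n : ℤ) ∣ Multiplicative.toAdd (d v) →
      ρ v * ζ ^ (-c * (Multiplicative.toAdd (d v) / n)) =
      ρ w * ζ ^ (-c * (Multiplicative.toAdd (d w) / n)) := by
    intro v w h hv
    have h1 : v⁻¹ * w ∈ Subgroup.normalClosure rels := QuotientGroup.eq.mp h
    obtain ⟨j, hj, hj'⟩ := hle h1
    obtain ⟨i, hi⟩ := hv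
    have e1 : Multiplicative.toAdd (d w) = n * (i + j) := by
      rw [map_mul, map_inv, toAdd_mul, toAdd_inv, hi] at hj
      linarith
    have e2 : ρ w = ρ v * ζ ^ (c * j) := by
      rw [← hj', map_mul, map_inv]; group
    rw [e1, hi, Int.mul_ediv_cancel_left _ hn0, Int.mul_ediv_cancel_left _ hn0, e2, mul_assoc,
      ← zpow_add]
    congr 2
    ring
  have hdvd : ∀ w, PresentedGroup.mk rels w ∈ D.ker → (n : ℤ) ∣ Multiplicative.toAdd (d w) := by
    intro w hw
    rw [MonoidHom.mem_ker, hD] at hw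
    have h1 : ((Multiplicative.toAdd (d w) : ℤ) : ZMod n) = 0 := hw
    exact (ZMod.intCast_zmod_eq_zero_iff_dvd _ _).mp h1
  have hsurj : ∀ g : PresentedGroup rels, ∃ w, PresentedGroup.mk rels w = g :=
    PresentedGroup.mk_surjective rels
  choose s hs using hsurj
  have hval : ∀ g : D.ker, ∀ w, PresentedGroup.mk rels w = g.1 →
      ρ (s g.1) * ζ ^ (-c * (Multiplicative.toAdd (d (s g.1)) / n)) =
      ρ w * ζ ^ (-c * (Multiplicative.toAdd (d w) / n)) := by
    intro g w hw
    apply key _ _ (by rw [hs, hw])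
    apply hdvd
    rw [hs]; exact g.2
  refine ⟨MonoidHom.mk' (fun g : D.ker =>
    ρ (s g.1) * ζ ^ (-c * (Multiplicative.toAdd (d (s g.1)) / n))) ?_, ?_⟩
  · intro a b
    have h1 := hval (a * b) (s a.1 * s b.1) (by
      rw [map_mul, hs, hs]; rfl)
    rw [h1]
    obtain ⟨i, hi⟩ := hdvd (s a.1) (by rw [hs]; exact a.2)
    obtain ⟨j, hj⟩ := hdvd (s b.1) (by rw [hs]; exact b.2)
    rw [map_mul, map_mul, toAdd_mul, hi, hj, ← mul_add, Int.mul_ediv_cancel_left _ hn0,
      Int.mul_ediv_cancel_left _ hn0, Int.mul_ediv_cancel_left _ hn0]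
    have e1 : ρ (s a.1) * ζ ^ (-c * i) * (ρ (s b.1) * ζ ^ (-c * j)) =
        ρ (s a.1) * (ζ ^ (-c * i) * ρ (s b.1)) * ζ ^ (-c * j) := by group
    rw [e1, ← hz, ← mul_assoc, mul_assoc (ρ (s a.1) * ρ (s b.1)), ← zpow_add]
    congr 2
    ring
  · intro w hw
    exact hval ⟨_, hw⟩ w rfl

open Pool.Agent.H828.Bor Pool.Agent.H828.Lift

theorem zpow_aux' {G : Type*} [Group G] {x l t : G} (h : x * l = l * x) {a a' : ℤ}
    (hs : x ^ a * l ^ a' = t) : x ^ (-a) * l⁻¹ ^ a' = t⁻¹ := by
  have hc : Commute x l := h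
  rw [← hs, zpow_neg, inv_zpow, ← mul_inv_rev, (hc.zpow_zpow a a').eq]

/-- The mirror image. -/
theorem mirror' {G : Type*} [Group G] {x y z t : G} {a a' b b' c c' : ℤ}
    (h : Tri x y z a a' b b' 0 0) (hs : z ^ c * lon x y ^ c' = t) (ht : y * t = t * y) :
    Tri x y⁻¹ (y * z * y⁻¹) (-a) a' (-b) b' 0 0 ∧
    (y * z * y⁻¹) ^ (-c) * lon x y⁻¹ ^ c' = t⁻¹ := by
  refine ⟨h.mirror, ?_⟩
  have e3 : lon x y⁻¹ = y * (lon x y)⁻¹ * y⁻¹ := by
    unfold lon; group
  have hc : Commute y t := ht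
  rw [e3, conj_pow_aux, zpow_aux' h.cz hs, hc.inv_right.eq]
  group

theorem z_pow_comm {F : H} (hF : F * z = z * F) (j : ℤ) : F * z ^ j = z ^ j * F :=
  (show Commute F z from hF).zpow_right j

theorem conj_z' {V F : H} (hV : V * z = z * V) (hF : F * z = z * F) :
    (V * F * V⁻¹) * z = z * (V * F * V⁻¹) := by
  have h1 : Commute V z := hV
  have h2 : Commute F z := hF
  exact ((h1.mul_left h2).mul_left h1.inv_left).eq

/-- The representation for the `n`-fold cyclic cover. -/
theorem tri_cov {P Q m n g η : ℝ} (R : BorRep P Q m n g η) {p0 q0 p1 q1 p2 q2 j : ℤ}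
    (h0 : (p0 : ℝ) = 2 * m * q0) (h1 : (p1 : ℝ) = 2 * n * q1)
    (h2 : p2 * g + q2 * (2 * η) = j * Real.pi) (hP : 0 < P) :
    ∃ x y w : H, x ≠ 1 ∧ x * z = z * x ∧ y * z = z * y ∧ w * z = z * w ∧
      Tri x y w p0 q0 p1 q1 0 0 ∧ w ^ p2 * lon x y ^ q2 = z ^ j := by
  have cZ : R.Z * z = z * R.Z := by rw [R.hZ]; exact conj_z' R.zV (T_comm _ _)
  have cX : R.X0 * z = z * R.X0 := by rw [R.hX]; exact conj_z' R.zV1 (E_z _)
  have cY : R.Y * z = z * R.Y := by rw [R.hY]; exact conj_z' R.zV2 (E_z _)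
  refine ⟨R.Z⁻¹ * R.X0 * R.Z, R.Y, R.Z, ?_, ?_, cY, cZ, tri_of_rep R h0 h1 (by simp), ?_⟩
  · intro h
    have h3 : R.X0 = 1 := by
      have : R.X0 = R.Z * (R.Z⁻¹ * R.X0 * R.Z) * R.Z⁻¹ := by group
      rw [this, h]; group
    rw [R.hX] at h3
    have h4 : E (2 * P) = 1 := by
      have : E (2 * P) = R.V1⁻¹ * (R.V1 * E (2 * P) * R.V1⁻¹) * R.V1 := by group
      rw [this, h3]; group
    exact E_ne (by linarith) h4
  · have h1 : Commute R.Z z := cZ
    have h2 : Commute R.X0 z := cX
    exact ((h1.inv_left.mul_left h2).mul_left h1).eq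
  · rw [lon_Z R, R.hZ, conj_pow_aux, T_zpow, T_zpow, ← T_add, h2]
    have h1 : Commute R.V z := R.zV
    show R.V * T (j * Real.pi) * R.V⁻¹ = T Real.pi ^ j
    rw [← T_zpow, (show R.V * T Real.pi ^ j = T Real.pi ^ j * R.V from
      (h1.zpow_right j).eq)]
    group

open Pool.Agent.Results.MP_3d425c_gt.BorromeanSurgery (arc longitude relators SurgeryGroup)

/-- The map from the group of the surgery to the cyclic group of order `n` that maps the meridians
of the component `i` to the generator and the meridians of the other components to zero. -/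
theorem degree_rel (p q : Fin 3 → ℤ) (i : Fin 3) (n : ℕ) (h : (n : ℤ) ∣ p i)
    (w : FreeGroup (Fin 3 × Bool)) (hw : w ∈ relators p q) :
    FreeGroup.lift (fun a : Fin 3 × Bool =>
      Multiplicative.ofAdd (if a.1 = i then (1 : ZMod n) else 0)) w = 1 := by
  obtain ⟨j, hj⟩ := hw
  rcases hj with rfl | rfl | rfl
  · simp [arc, mul_comm]
  · simp [arc, mul_comm]
  · by_cases hji : j = i
    · subst hji
      have h1 : ((p j : ℤ) : ZMod n) = 0 := (ZMod.intCast_zmod_eq_zero_iff_dvd _ _).mpr h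
      simp only [arc, longitude, map_mul, map_zpow, map_inv, FreeGroup.lift_apply_of, if_true,
        mul_inv_cancel, one_zpow, mul_one]
      rw [← ofAdd_zsmul, zsmul_one, h1]
      rfl
    · simp [arc, longitude, hji]

/-- The images of the arcs. -/
def img {G : Type} [Group G] (u : Fin 3 → G) : Fin 3 × Bool → G
  | (i, true) => u i
  | (i, false) => u (i + 2) * u i * (u (i + 2))⁻¹

theorem hom_aux {G : Type} [Group G] {x y z t : G} {a a' : ℤ} (hc : x * lon y z = lon y z * x)
    (hs : x ^ a * lon y z ^ a' = t) (ht : z * t = t * z) :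
    z⁻¹ * (z * x * z⁻¹) * z * x⁻¹ = 1 ∧
    (y * z * y⁻¹) * x * (y * z * y⁻¹)⁻¹ * (z * x * z⁻¹)⁻¹ = 1 ∧
    (z * x * z⁻¹) ^ a * (z * (y * z * y⁻¹)⁻¹) ^ a' = t := by
  refine ⟨by group, ?_, ?_⟩
  · calc (y * z * y⁻¹) * x * (y * z * y⁻¹)⁻¹ * (z * x * z⁻¹)⁻¹
        = (y * z * y⁻¹) * (x * lon y z) * x⁻¹ * z⁻¹ := by unfold lon; group
      _ = (y * z * y⁻¹) * (lon y z * x) * x⁻¹ * z⁻¹ := by rw [hc]
      _ = 1 := by unfold lon; group
  · have e : z * (y * z * y⁻¹)⁻¹ = z * lon y z * z⁻¹ := by unfold lon; group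
    rw [e, conj_pow_aux, hs, ht]; group

theorem comm_all {u : Fin 3 → H} (hz : ∀ j, u j * z = z * u j) (w : FreeGroup (Fin 3 × Bool)) :
    FreeGroup.lift (img u) w * z = z * FreeGroup.lift (img u) w := by
  have h0 : ∀ a, Commute (img u a) z := by
    rintro ⟨j, b⟩
    cases b
    · exact ((show Commute (u (j + 2)) z from hz _).mul_left (hz j)).mul_left
        (show Commute (u (j + 2)) z from hz _).inv_left
    · exact hz j
  have h1 : Commute (FreeGroup.lift (img u) w) z := by
    induction w using FreeGroup.induction_on with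
    | C1 => rw [map_one]; exact Commute.one_left _
    | of a => rw [FreeGroup.lift_apply_of]; exact h0 a
    | inv_of a _ => rw [map_inv, FreeGroup.lift_apply_of]; exact (h0 a).inv_left
    | mul a b ha hb => rw [map_mul]; exact ha.mul_left hb
  exact h1.eq

theorem exists_cov {p q : Fin 3 → ℤ} {u : Fin 3 → H} {i : Fin 3} {l c : ℤ} {n : ℕ} (hn : 0 < n)
    (hz : ∀ j, u j * z = z * u j)
    (hc : ∀ j, u j * lon (u (j + 1)) (u (j + 2)) = lon (u (j + 1)) (u (j + 2)) * u j)
    (hs : ∀ j, u j ^ p j * lon (u (j + 1)) (u (j + 2)) ^ q j =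
      if j = i then z ^ (c * l) else 1) (hp : p i = n * l)
    (D : SurgeryGroup p q →* Multiplicative (ZMod n))
    (hD : ∀ a : Fin 3 × Bool, D (PresentedGroup.of a) =
      Multiplicative.ofAdd (if a.1 = i then (1 : ZMod n) else 0))
    {j : Fin 3} (hj : j ≠ i) (huj : u j ≠ 1) :
    ∃ (f : D.ker →* H) (γ : D.ker), f γ ≠ 1 := by
  set d : FreeGroup (Fin 3 × Bool) →* Multiplicative ℤ := FreeGroup.lift (fun a : Fin 3 × Bool =>
      Multiplicative.ofAdd (if a.1 = i then (1 : ℤ) else 0)) with hd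
  have hrel : ∀ w ∈ relators p q, ∃ k : ℤ, Multiplicative.toAdd (d w) = n * k ∧
      FreeGroup.lift (img u) w = z ^ (c * k) := by
    rintro w ⟨k, hw⟩
    have key : (u (k + 2))⁻¹ * img u (k, false) * u (k + 2) * (u k)⁻¹ = 1 ∧
        img u (k + 2, false) * u k * (img u (k + 2, false))⁻¹ * (img u (k, false))⁻¹ = 1 ∧
        img u (k, false) ^ p k * (u (k + 2) * (img u (k + 2, false))⁻¹) ^ q k =
          if k = i then z ^ (c * l) else 1 := by
      have hcen : ∀ v, u v * (if k = i then z ^ (c * l) else 1) =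
          (if k = i then z ^ (c * l) else 1) * u v := by
        intro v
        by_cases h : k = i
        · rw [if_pos h]; exact z_pow_comm (hz v) _
        · rw [if_neg h]; simp
      fin_cases k
      · exact hom_aux (hc 0) (hs 0) (hcen 2)
      · exact hom_aux (hc 1) (hs 1) (hcen 0)
      · exact hom_aux (hc 2) (hs 2) (hcen 1)
    rcases hw with rfl | rfl | rfl
    · refine ⟨0, ?_, ?_⟩
      · simp [arc, hd, mul_comm]
      · simpa [arc, img] using key.1
    · refine ⟨0, ?_, ?_⟩
      · simp [arc, hd, mul_comm]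
      · simpa [arc, img] using key.2.1
    · by_cases hki : k = i
      · refine ⟨l, ?_, ?_⟩
        · subst hki
          simp only [arc, longitude, map_mul, map_zpow, map_inv, hd, FreeGroup.lift_apply_of,
            if_true, mul_inv_cancel, one_zpow, mul_one]
          rw [← ofAdd_zsmul, toAdd_ofAdd, zsmul_one, hp]
          simp
        · have := key.2.2
          rw [if_pos hki] at this
          simpa [arc, longitude, img] using this
      · refine ⟨0, ?_, ?_⟩
        · simp [arc, longitude, hd, hki]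
        · have := key.2.2
          rw [if_neg hki] at this
          simpa [arc, longitude, img] using this
  have hDw : ∀ w, D (PresentedGroup.mk (relators p q) w) =
      Multiplicative.ofAdd ((Multiplicative.toAdd (d w) : ℤ) : ZMod n) := by
    intro w
    have h1 : D.comp (PresentedGroup.mk (relators p q)) =
        (AddMonoidHom.toMultiplicative (Int.castAddHom (ZMod n))).comp d := by
      ext a
      have h2 : D (PresentedGroup.mk (relators p q) (FreeGroup.of a)) =
        Multiplicative.ofAdd (if a.1 = i then (1 : ZMod n) else 0) := hD a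
      rw [MonoidHom.comp_apply, MonoidHom.comp_apply, h2, hd, FreeGroup.lift_apply_of]
      by_cases h : a.1 = i
      · simp [h]
      · simp [h]
    exact DFunLike.congr_fun h1 w
  obtain ⟨f, hf⟩ := ker_hom z (FreeGroup.lift (img u)) d n hn c (comm_all hz) hrel D hDw
  have hk : PresentedGroup.mk (relators p q) (FreeGroup.of (j, true)) ∈ D.ker := by
    rw [MonoidHom.mem_ker]
    have h2 : D (PresentedGroup.mk (relators p q) (FreeGroup.of (j, true))) =
      Multiplicative.ofAdd (if j = i then (1 : ZMod n) else 0) := hD (j, true)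
    rw [h2, if_neg hj]
    rfl
  refine ⟨f, ⟨_, hk⟩, ?_⟩
  rw [hf]
  have h3 : Multiplicative.toAdd (d (FreeGroup.of (j, true))) = 0 := by
    rw [hd, FreeGroup.lift_apply_of]
    simp [hj]
  rw [h3, FreeGroup.lift_apply_of]
  simpa [img] using huj

end Pool.Agent.H828.Cov
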