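import Pool.Agent.H828.BorAlt

set_option autoImplicit false

/-!
# Products of rotations, and chains for the degrees two and three
-/

namespace Pool.Agent.H828.BorEll

open Real Pool.Agent.H828.Lift Pool.Agent.H828.BorAlt
open Pool.Agent.H828.QCh (Rel Ch pw pw_one pw_neg pw_mul pw_id unfolded unfolded_rel
  unfolded_apply unfolded_period)

/-- Elliptic elements with trace `2 cos γ` that move a point by less than `π` are conjugate to
the rotation by `γ`. -/
theorem ell {F : H} (hF : F * z = z * F) (hn : Near F) {p q r s γ : ℝ} (h0 : 0 < γ) (h1 : γ < π)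
    (hl : Lifts F p q r s) (hdet : p * s - q * r = 1) (htr : p + s = 2 * cos γ) (hr : 0 < r) :
    ∃ W : H, W * z = z * W ∧ W * F * W⁻¹ = T γ := by
  have hσ : 0 < sin γ := sin_pos_of_pos_of_lt_pi h0 h1
  have hsc := sin_sq_add_cos_sq γ
  have hq : q < 0 := by
    by_contra hcon
    push Not at hcon
    have e1 := mul_nonneg hcon hr.le
    have e2 : (p - s) ^ 2 + 4 * (p * s) = (p + s) ^ 2 := by ring
    rw [htr] at e2
    have e3 := pow_pos hσ 2
    have e4 := sq_nonneg (p - s)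
    linarith
  have hq0 : q ≠ 0 := hq.ne
  have hL : 0 < -sin γ / q := div_pos_of_neg_of_neg (by linarith) hq
  set l := -sin γ / q with hld
  set x := -(p - s) / (2 * q) with hxd
  have e1 : q * l = -sin γ := by rw [hld]; field_simp
  have e2 : p + q * x = cos γ := by rw [hxd]; field_simp; linarith
  have e3 : s * l = -(x * sin γ) + l * cos γ := by
    apply mul_left_cancel₀ hq0
    have : q * x = cos γ - p := by linarith
    linear_combination (s - cos γ) * e1 + sin γ * this - sin γ * htr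
  have e4 : r + s * x = x * cos γ + l * sin γ := by
    apply mul_left_cancel₀ hq0
    have : q * x = cos γ - p := by linarith
    linear_combination (s - cos γ) * this - sin γ * e1 - hdet + cos γ * htr + hsc
  set V : H := Aff l x hL with hV
  have hVz : V * z = z * V := Aff_z _ _ _
  have hVi : V⁻¹ = Aff l⁻¹ (-(l⁻¹ * x)) (inv_pos.mpr hL) := by
    rw [inv_eq_iff_mul_eq_one, hV, Aff_mul, ← Aff_one]
    apply Aff_congr
    · exact mul_inv_cancel₀ hL.ne'
    · field_simp; ring
  refine ⟨V⁻¹, inv_z hVz, ?_⟩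
  rw [inv_inv]
  apply rot_unique (mul_z (mul_z (inv_z hVz) hF) hVz)
  · have h2 := hn.conj (inv_z hVz)
    rw [inv_inv] at h2
    exact h2
  · rw [abs_of_pos h0]; exact h1
  · have h3 := ((lifts_Aff l⁻¹ (-(l⁻¹ * x)) (inv_pos.mpr hL)).mul hl).mul (lifts_Aff l x hL)
    rw [← hVi, ← hV] at h3
    have hli : l⁻¹ * l = 1 := inv_mul_cancel₀ hL.ne'
    refine h3.congr ?_ ?_ ?_ ?_
    · linear_combination e2
    · linear_combination e1
    · linear_combination (-(l⁻¹ * x)) * e2 + l⁻¹ * e4 + sin γ * hli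
    · linear_combination (-(l⁻¹ * x)) * e1 + l⁻¹ * e3 + cos γ * hli

/-- The product of rotations by `α` and `β` can be a rotation by `γ`, if `α + β ≤ γ < π`. -/
theorem P2 {α β γ : ℝ} (hα : 0 < α) (hβ : 0 < β) (hβ' : β < π / 2) (h : α + β ≤ γ) (hγ : γ < π) :
    ∃ C W : H, C * z = z * C ∧ W * z = z * W ∧ W * (T α * (C * T β * C⁻¹)) * W⁻¹ = T γ := by
  have sa : 0 < sin α := sin_pos_of_pos_of_lt_pi hα (by linarith)
  have sb : 0 < sin β := sin_pos_of_pos_of_lt_pi hβ (by linarith)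
  have cb : 0 < cos β := cos_pos_of_mem_Ioo ⟨by linarith, hβ'⟩
  have sab : 0 < sin α * sin β := mul_pos sa sb
  set K := (cos α * cos β - cos γ) / (sin α * sin β) with hK
  have hK1 : 1 ≤ K := by
    rw [hK, le_div_iff₀ sab, one_mul]
    have := cos_le_cos_of_nonneg_of_le_pi (by linarith : 0 ≤ α + β) hγ.le h
    rw [cos_add] at this
    linarith
  have hK2 : 0 ≤ K ^ 2 - 1 := by nlinarith
  set R := √(K ^ 2 - 1) with hR
  have hR0 : 0 ≤ R := sqrt_nonneg _
  have hR2 : R ^ 2 = K ^ 2 - 1 := sq_sqrt hK2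
  have hS : 0 < K + R := by linarith
  have hSi : (K + R)⁻¹ = K - R := by
    rw [inv_eq_iff_eq_inv, eq_comm, inv_eq_of_mul_eq_one_left]
    nlinarith
  have hS' : 0 < K - R := by rw [← hSi]; exact inv_pos.mpr hS
  have hSi' : (K - R)⁻¹ = K + R := by rw [← hSi, inv_inv]
  have hS1 : K - R ≤ 1 := by
    rw [← hSi]; exact inv_le_one_of_one_le₀ (by linarith)
  have hKR : (K - R) * (K + R) = 1 := by nlinarith
  have hKd : K * (sin α * sin β) = cos α * cos β - cos γ := by
    rw [hK]; field_simp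
  set C : H := D (K - R) hS' with hC
  have hCz : C * z = z * C := D_z _ _
  have hCi : C⁻¹ = D (K - R)⁻¹ (inv_pos.mpr hS') := D_inv _ _
  have hX : Lifts (C * T β * C⁻¹) (cos β) (-((K + R) * sin β)) ((K - R) * sin β) (cos β) := by
    rw [hCi]
    refine (((lifts_D _ _).mul (lifts_T β)).mul (lifts_D _ _)).congr ?_ ?_ ?_ ?_
    · ring
    · rw [hSi']; ring
    · ring
    · field_simp; ring
  have hF := (lifts_T α).mul hX
  have hFz : (T α * (C * T β * C⁻¹)) * z = z * (T α * (C * T β * C⁻¹)) :=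
    mul_z (T_z _) (conj_z hCz (T_z _))
  have hr : 0 < sin α * cos β + cos α * ((K - R) * sin β) := by
    have h1 : 0 < sin α * cos β := mul_pos sa cb
    have h2 : 0 < sin (α + β) := sin_pos_of_pos_of_lt_pi (by linarith) (by linarith)
    rw [sin_add] at h2
    rcases le_or_gt 0 (cos α) with h3 | h3
    · have := mul_nonneg h3 (mul_nonneg hS'.le sb.le)
      linarith
    · have h4 : cos α * sin β ≤ cos α * ((K - R) * sin β) := by
        apply mul_le_mul_of_nonpos_left _ h3.le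
        nlinarith
      linarith
  have hnear : Near (T α * (C * T β * C⁻¹)) := by
    refine ⟨0, ?_⟩
    have c0 : (C⁻¹) 0 = 0 := by
      rw [hCi]
      show affFun _ 0 0 = 0
      have := affFun_mid' (K - R)⁻¹ 0 0 0
      simpa using this
    have c1 : C β = arctan ((K - R) * tan β) := by
      have h2 := affFun_mid' (K - R) 0 0 (tan β)
      rw [Int.cast_zero, zero_mul, zero_add, zero_add, add_zero,
        arctan_tan (by linarith) hβ'] at h2
      exact h2
    have e : (T α * (C * T β * C⁻¹)) 0 = C β + α := by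
      show C ((C⁻¹) 0 + β) + α = C β + α
      rw [c0, zero_add]
    have tb : 0 < tan β := tan_pos_of_pos_of_lt_pi_div_two hβ hβ'
    have u1 : 0 < C β := by rw [c1, ← arctan_zero]; exact arctan_strictMono (mul_pos hS' tb)
    have u2 : C β ≤ β := by
      rw [c1]
      calc arctan ((K - R) * tan β) ≤ arctan (tan β) := by
            apply arctan_strictMono.monotone; nlinarith
        _ = β := arctan_tan (by linarith) hβ'
    rw [e, sub_zero, abs_of_pos (by linarith)]
    linarith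
  obtain ⟨W, hW, hWF⟩ := ell hFz hnear (by linarith) hγ hF (by
      have e1 := cos_sq_add_sin_sq α
      have e2 := cos_sq_add_sin_sq β
      linear_combination (cos β ^ 2 + sin β ^ 2) * e1 + e2 +
        (cos α ^ 2 + sin α ^ 2) * sin β ^ 2 * hKR)
    (by linear_combination -2 * hKd) hr
  exact ⟨C, W, hCz, hW, hWF⟩

/-- The roots of rotations. -/
theorem conj_root {W : H} (hW : W * z = z * W) {x : ℝ} {a k : ℤ} (h : (a : ℝ) * x = k * π) :
    (W * T x * W⁻¹) ^ a = z ^ k := by
  rw [conj_zpow, T_zpow, h, ← T_zpow]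
  have h1 : Commute W (z ^ k) := (show Commute W z from hW).zpow_right k
  show W * z ^ k * W⁻¹ = z ^ k
  rw [h1.eq]; group

theorem z_ne : z ≠ 1 := by
  intro h
  have h1 : z 0 = (1 : H) 0 := by rw [h]
  rw [z_apply, one_apply] at h1
  linarith [pi_pos]

theorem of_Z {n : ℕ} (hn : 1 < n) {a a' b b' : ℤ} {Z : ℕ → H}
    (hZ : Ch (fun j => alt a b j) (fun j => alt a' b' j) n Z)
    (h0 : Z 0 ^ a = (Z 1 * Z 1) ^ a') (hend : pw ((-1) ^ n) (Z n) = Z n)
    (h1 : Z n ^ (alt a b n) = (Z (n - 1) * pw ((-1) ^ n) (Z (n - 1))) ^ alt a' b' n)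
    (hz : Z 1 ≠ 1) : ∃ F, ChainAlt n a a' b b' F := by
  have hn0 : 0 < n := by omega
  have hee : ((-1 : ℤˣ) ^ n) * (-1) ^ n = 1 := by rw [← mul_pow]; simp
  have hrel := unfolded_rel hn (ε := (-1) ^ n) (δ := (-1) ^ n) (Z := Z) (p := alt a b)
    (q := alt a' b') (alt_neg a b) (alt_neg a' b') (fun j => alt_per a b j n)
    (fun j => alt_per a' b' j n) hZ rfl
    (by
      rw [alt_even (by rfl), alt_even (by rfl), hee, pw_one]
      exact h0)
    hend h1
  refine ⟨unfolded n ((-1) ^ n) ((-1) ^ n) Z, ?_, ?_, unfolded_period hn0 _ _ _, ((1 : ℕ) : ℤ), ?_⟩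
  · intro m
    have h4 := hrel (2 * m)
    rwa [alt_even (by omega), alt_even (by omega)] at h4
  · intro m
    have h4 := hrel (2 * m + 1)
    rw [alt_odd (by omega), alt_odd (by omega), add_sub_cancel_right] at h4
    rw [show 2 * m + 2 = 2 * m + 1 + 1 by ring]
    exact h4
  · have h2 := unfolded_apply hn0 (ε := (-1) ^ n) (δ := (-1) ^ n) (Z := Z) rfl 0 1 (by omega)
    rw [mul_zero, zero_add, zpow_zero, pw_one] at h2
    rw [h2]
    unfold QCh.refl
    rw [if_pos (by omega)]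
    exact hz

theorem rot_pair {a b b' : ℤ} {x y : ℝ} {k l : ℤ} (hx : 0 < x) (hy : 0 < y) (hy' : y < π / 2)
    (hxa : (a : ℝ) * x = k * π) (hya : (a : ℝ) * y = l * π) (hb' : b' ≠ 0)
    (hs : (b : ℝ) / b' < 1) (h : x + y ≤ (b : ℝ) / b' * π) :
    ∃ X Y : H, X * z = z * X ∧ Y * z = z * Y ∧ X ^ a = z ^ k ∧ Y ^ a = z ^ l ∧
      z ^ b = (X * Y) ^ b' := by
  have hb0 : (b' : ℝ) ≠ 0 := by exact_mod_cast hb'
  obtain ⟨C, W, hC, hW, hCW⟩ := P2 hx hy hy' h (by nlinarith [pi_pos])
  refine ⟨W * T x * W⁻¹, W * (C * T y * C⁻¹) * W⁻¹, conj_z hW (T_z _),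
    conj_z hW (conj_z hC (T_z _)), conj_root hW hxa, ?_, ?_⟩
  · have e : W * (C * T y * C⁻¹) * W⁻¹ = (W * C) * T y * (W * C)⁻¹ := by group
    rw [e]
    exact conj_root (mul_z hW hC) hya
  · have e : W * T x * W⁻¹ * (W * (C * T y * C⁻¹) * W⁻¹) = W * (T x * (C * T y * C⁻¹)) * W⁻¹ := by
      group
    rw [e, hCW, T_zpow]
    have e2 : (b' : ℝ) * ((b : ℝ) / b' * π) = b * π := by field_simp
    rw [e2, ← T_zpow]
    rfl

/-- The chain for the degree two. -/
theorem chain2 {a a' b b' : ℤ} (hr : 0 < (a : ℝ) / a') (hs0 : 0 < (b : ℝ) / b')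
    (hs : (b : ℝ) / b' < 1) (h : 4 ≤ (a : ℝ) / a' * ((b : ℝ) / b')) :
    ∃ F, ChainAlt 2 a a' b b' F := by
  have hb' : b' ≠ 0 := by
    rintro rfl
    rw [Int.cast_zero, div_zero] at hs0
    exact lt_irrefl _ hs0
  have ha' : (a' : ℝ) ≠ 0 := by
    intro h0
    rw [h0, div_zero] at hr
    exact lt_irrefl _ hr
  have ha : (a : ℝ) ≠ 0 := by
    intro h0
    rw [h0, zero_div] at hr
    exact lt_irrefl _ hr
  set r := (a : ℝ) / a' with hrd
  set s := (b : ℝ) / b' with hsd
  have hr4 : 4 < r := by nlinarith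
  have hpi := pi_pos
  have hx0 : 0 < 2 * π / r := by positivity
  have hxh : 2 * π / r < π / 2 := by
    rw [div_lt_div_iff₀ hr (by norm_num)]; nlinarith
  have hxa : (a : ℝ) * (2 * π / r) = ((2 * a' : ℤ) : ℝ) * π := by
    rw [hrd]; push_cast; field_simp
  have hsum : 2 * π / r + 2 * π / r ≤ s * π := by
    rw [← add_div, div_le_iff₀ hr]; nlinarith
  obtain ⟨X, Y, hX, hY, h1, h2, h3⟩ := rot_pair hx0 hx0 hxh hxa hxa hb' hs hsum
  refine of_Z (n := 2) (by norm_num) (Z := fun j => if j = 0 then X else if j = 1 then z else Y)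
    ⟨?_, ?_⟩ ?_ ?_ ?_ ?_
  · intro j hj
    interval_cases j
    · exact hX
    · exact hY.symm
  · intro j hj
    have : j = 0 := by omega
    subst this
    show z ^ alt a b _ = (X * Y) ^ alt a' b' _
    rw [alt_odd (by rfl), alt_odd (by rfl)]
    exact h3
  · show X ^ a = (z * z) ^ a'
    rw [h1, zpow_mul]; congr 1
  · show pw ((-1) ^ 2) Y = Y
    simp [pw_one]
  · show Y ^ alt a b _ = (z * pw ((-1) ^ 2) z) ^ alt a' b' _
    rw [alt_even (by rfl), alt_even (by rfl), h2, zpow_mul]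
    simp only [even_two, Even.neg_pow, one_pow, pw_one]
    congr 1
  · show z ≠ 1
    exact z_ne

/-- The chain for the degree three. -/
theorem chain3 {a a' b b' : ℤ} (hr : 0 < (a : ℝ) / a') (hs0 : 0 < (b : ℝ) / b')
    (hs : (b : ℝ) / b' < 1) (h : 3 ≤ (a : ℝ) / a' * ((b : ℝ) / b')) :
    ∃ F, ChainAlt 3 a a' b b' F := by
  have hb' : b' ≠ 0 := by
    rintro rfl
    rw [Int.cast_zero, div_zero] at hs0
    exact lt_irrefl _ hs0
  have ha' : (a' : ℝ) ≠ 0 := by
    intro h0
    rw [h0, div_zero] at hr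
    exact lt_irrefl _ hr
  have ha : (a : ℝ) ≠ 0 := by
    intro h0
    rw [h0, zero_div] at hr
    exact lt_irrefl _ hr
  set r := (a : ℝ) / a' with hrd
  set s := (b : ℝ) / b' with hsd
  have hr4 : 3 < r := by nlinarith
  have hpi := pi_pos
  have hx0 : 0 < 2 * π / r := by positivity
  have hy0 : 0 < π / r := by positivity
  have hxh : π / r < π / 2 := by
    rw [div_lt_div_iff₀ hr (by norm_num)]; nlinarith
  have hxa : (a : ℝ) * (2 * π / r) = ((2 * a' : ℤ) : ℝ) * π := by
    rw [hrd]; push_cast; field_simp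
  have hya : (a : ℝ) * (π / r) = (a' : ℝ) * π := by
    rw [hrd]; field_simp
  have hsum : 2 * π / r + π / r ≤ s * π := by
    rw [← add_div, div_le_iff₀ hr]; nlinarith
  obtain ⟨X, Y, hX, hY, h1, h2, h3⟩ := rot_pair hx0 hy0 hxh hxa hya hb' hs hsum
  refine of_Z (n := 3) (by norm_num) (Z := fun j => if j = 0 then X else if j = 1 then z else
    if j = 2 then Y else 1) ⟨?_, ?_⟩ ?_ ?_ ?_ ?_
  · intro j hj
    interval_cases j
    · exact hX
    · exact hY.symm
    · show Y * 1 = 1 * Y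
      rw [mul_one, one_mul]
  · intro j hj
    have hj2 : j = 0 ∨ j = 1 := by omega
    rcases hj2 with rfl | rfl
    · show z ^ alt a b _ = (X * Y) ^ alt a' b' _
      rw [alt_odd (by rfl), alt_odd (by rfl)]
      exact h3
    · show Y ^ alt a b _ = (z * 1) ^ alt a' b' _
      rw [alt_even (by rfl), alt_even (by rfl), mul_one]
      exact h2
  · show X ^ a = (z * z) ^ a'
    rw [h1, zpow_mul]; congr 1
  · show pw ((-1) ^ 3) (1 : H) = 1
    rw [pw_id]
  · show (1 : H) ^ alt a b _ = (Y * pw ((-1) ^ 3) Y) ^ alt a' b' _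
    have e : ((-1 : ℤˣ) ^ 3) = -1 := by decide
    rw [e, pw_neg, pw_one, mul_inv_cancel, one_zpow, one_zpow]
  · show z ≠ 1
    exact z_ne

end Pool.Agent.H828.BorEll
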