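import Mathlib

set_option autoImplicit false

/-!
# Auxiliary facts on the hyperbolic tangent
-/

namespace Pool.Agent.H828.BorTanh

open Real Set

theorem th_cont : Continuous tanh := by
  have : tanh = fun x => sinh x / cosh x := by
    ext x; exact tanh_eq_sinh_div_cosh x
  rw [this]
  exact continuous_sinh.div continuous_cosh (fun x => (cosh_pos x).ne')

theorem th_lt {x y : ℝ} (h : x < y) : tanh x < tanh y := by
  by_contra hcon
  push Not at hcon
  have h1 := artanh_le_artanh (neg_one_lt_tanh y) (tanh_lt_one x) hcon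
  rw [artanh_tanh, artanh_tanh] at h1
  linarith

theorem th_mono : StrictMono tanh := fun _ _ h => th_lt h

theorem th_pos {x : ℝ} (h : 0 < x) : 0 < tanh x := by
  have := th_lt h
  rwa [tanh_zero] at this

theorem one_add_th (x : ℝ) : 1 + tanh x = exp (2 * x) * (1 - tanh x) := by
  have hc := cosh_pos x
  rw [tanh_eq_sinh_div_cosh]
  have h1 : cosh x + sinh x = exp x := cosh_add_sinh x
  have h2 : cosh x - sinh x = exp (-x) := cosh_sub_sinh x
  have h3 : exp (2 * x) * exp (-x) = exp x := by rw [← exp_add]; congr 1; ring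
  have e1 : 1 + sinh x / cosh x = (cosh x + sinh x) / cosh x := by field_simp
  have e2 : 1 - sinh x / cosh x = (cosh x - sinh x) / cosh x := by field_simp
  rw [e1, e2, h1, h2, ← mul_div_assoc, h3]

theorem one_sub_th_sq (x : ℝ) : 1 - tanh x ^ 2 = 1 / cosh x ^ 2 := by
  have hc := cosh_pos x
  rw [tanh_eq_sinh_div_cosh]
  have h1 := cosh_sq x
  field_simp
  linarith

theorem th_ge {x : ℝ} (h0 : 0 ≤ x) (h1 : x ≤ 1) : x / 2 ≤ tanh x := by
  rw [tanh_eq_sinh_div_cosh, div_le_div_iff₀ (by norm_num) (cosh_pos x)]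
  have hs : x ≤ sinh x := self_le_sinh_iff.mpr h0
  have hc : cosh x ≤ 2 := by
    have e1 : exp x ≤ 3 := by
      have := exp_one_lt_d9
      have := exp_le_exp.mpr h1
      linarith
    have e2 : exp (-x) ≤ 1 := by
      rw [← exp_zero]; exact exp_le_exp.mpr (by linarith)
    rw [cosh_eq]; linarith
  nlinarith [cosh_pos x]

theorem th_le {x : ℝ} (h0 : 0 ≤ x) : tanh x ≤ 2 * x := by
  have h1 := one_add_th x
  have h2 := tanh_lt_one x
  have h3 : 0 ≤ tanh x := by
    rcases h0.eq_or_lt with h | h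
    · rw [← h, tanh_zero]
    · exact (th_pos h).le
  by_cases h4 : 2 * x < 1
  · have h5 : exp (2 * x) * (1 - 2 * x) ≤ 1 := by
      have h6 : 1 - 2 * x ≤ exp (-(2 * x)) := by linarith [add_one_le_exp (-(2 * x))]
      calc exp (2 * x) * (1 - 2 * x) ≤ exp (2 * x) * exp (-(2 * x)) :=
            mul_le_mul_of_nonneg_left h6 (exp_pos _).le
        _ = 1 := by rw [← exp_add]; simp
    have h7 : (1 + tanh x) * (1 - 2 * x) ≤ 1 - tanh x := by
      rw [h1]
      nlinarith
    nlinarith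
  · linarith

/-- The function `q ↦ tanh q * tanh (n q)`. -/
noncomputable def G (n q : ℝ) : ℝ := tanh q * tanh (n * q)

theorem G_pos {n q : ℝ} (hn : 0 < n) (hq : 0 < q) : 0 < G n q :=
  mul_pos (th_pos hq) (th_pos (mul_pos hn hq))

theorem G_lt_one {n q : ℝ} (hn : 0 < n) (hq : 0 < q) : G n q < 1 := by
  have h1 := th_pos hq
  have h2 := tanh_lt_one q
  have h3 := th_pos (mul_pos hn hq)
  have h4 := tanh_lt_one (n * q)
  unfold G
  nlinarith

theorem G_lt {n p q : ℝ} (hn : 0 < n) (hp : 0 < p) (h : p < q) : G n p < G n q := by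
  unfold G
  apply mul_lt_mul'' (th_lt h) (th_lt (mul_lt_mul_of_pos_left h hn)) (th_pos hp).le
    (th_pos (mul_pos hn hp)).le

theorem G_cont (n : ℝ) : Continuous (G n) :=
  th_cont.mul (th_cont.comp (continuous_const.mul continuous_id))

theorem G_surj {n τ : ℝ} (hn : 0 < n) (h0 : 0 < τ) (h1 : τ < 1) : ∃ q, 0 < q ∧ G n q = τ := by
  have hs1 : √τ < 1 := by
    rw [← sqrt_one]; exact sqrt_lt_sqrt h0.le h1
  have hs0 : 0 < √τ := sqrt_pos.mpr h0
  set y := artanh √τ with hy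
  have hy0 : 0 < y := artanh_pos ⟨hs0, hs1⟩
  have hty : tanh y = √τ := tanh_artanh ⟨by linarith, hs1⟩
  set L := max y (y / n) with hL
  have hL0 : 0 ≤ L := le_trans hy0.le (le_max_left _ _)
  have hGL : τ ≤ G n L := by
    have e1 : √τ ≤ tanh L := by rw [← hty]; exact th_mono.monotone (le_max_left _ _)
    have e2 : √τ ≤ tanh (n * L) := by
      rw [← hty]
      apply th_mono.monotone
      have : y / n ≤ L := le_max_right _ _
      rw [div_le_iff₀ hn] at this
      linarith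
    calc τ = √τ * √τ := (mul_self_sqrt h0.le).symm
      _ ≤ G n L := mul_le_mul e1 e2 hs0.le (le_trans hs0.le e1)
  have hG0 : G n 0 = 0 := by unfold G; simp
  obtain ⟨q, hq, hq2⟩ := intermediate_value_Icc hL0 (G_cont n).continuousOn
    (show τ ∈ Icc (G n 0) (G n L) by rw [hG0]; exact ⟨h0.le, hGL⟩)
  refine ⟨q, ?_, hq2⟩
  rcases hq.1.eq_or_lt with h | h
  · rw [← h, hG0] at hq2
    exact absurd hq2 h0.ne
  · exact h

/-- The inverse function of `G n`. -/
theorem exists_inverse {n : ℝ} (hn : 0 < n) : ∃ Q : ℝ → ℝ, ContinuousOn Q (Ioo 0 1) ∧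
    ∀ τ ∈ Ioo (0 : ℝ) 1, 0 < Q τ ∧ G n (Q τ) = τ := by
  let Gs : Ioi (0 : ℝ) → Ioo (0 : ℝ) 1 := fun q => ⟨G n q, G_pos hn q.2, G_lt_one hn q.2⟩
  have hmono : StrictMono Gs := fun p q h => G_lt hn p.2 h
  have hsurj : Function.Surjective Gs := by
    rintro ⟨τ, hτ⟩
    obtain ⟨q, hq, hq2⟩ := G_surj hn hτ.1 hτ.2
    exact ⟨⟨q, hq⟩, Subtype.ext hq2⟩
  let iso := StrictMono.orderIsoOfSurjective Gs hmono hsurj
  let Q : ℝ → ℝ := fun τ => if h : τ ∈ Ioo (0 : ℝ) 1 then (iso.symm ⟨τ, h⟩ : ℝ) else 0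
  have hQ : ∀ τ (h : τ ∈ Ioo (0 : ℝ) 1), Q τ = (iso.symm ⟨τ, h⟩ : ℝ) := by
    intro τ h
    show (if h : τ ∈ Ioo (0 : ℝ) 1 then (iso.symm ⟨τ, h⟩ : ℝ) else 0) = _
    rw [dif_pos h]
  refine ⟨Q, ?_, ?_⟩
  · rw [continuousOn_iff_continuous_domRestrict]
    have : (Ioo (0 : ℝ) 1).domRestrict Q = fun τ => (iso.symm τ : ℝ) := by
      ext τ
      exact hQ τ.1 τ.2
    rw [this]
    exact continuous_subtype_val.comp iso.symm.continuous
  · intro τ h
    rw [hQ τ h]
    refine ⟨(iso.symm ⟨τ, h⟩).2, ?_⟩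
    have := iso.apply_symm_apply ⟨τ, h⟩
    exact congrArg Subtype.val this

end Pool.Agent.H828.BorTanh
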