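import Pool.Agent.H828.BorAlg
import Pool.Agent.H828.BorTanh

set_option autoImplicit false

/-!
# Existence of the parameters
-/

namespace Pool.Agent.H828.BorTanh

open Real Set

theorem q_gt {m n P Q : ℝ} (hm : 0 < m) (hn : 0 < n) (hmn : m * n < 1) (hP : 0 < P) (hQ : 0 < Q)
    (h : G n Q = G m P) : m * P < Q := by
  by_contra hcon
  push Not at hcon
  have h1 : tanh Q ≤ tanh (m * P) := th_mono.monotone hcon
  have h2 : tanh P ≤ tanh (n * Q) := by
    by_contra h3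
    push Not at h3
    have h4 : tanh Q * tanh (n * Q) < tanh P * tanh (m * P) := by
      have := th_pos hQ
      have := th_pos hP
      have := th_pos (mul_pos hm hP)
      have := th_pos (mul_pos hn hQ)
      nlinarith
    unfold G at h
    linarith
  have h5 : P ≤ n * Q := th_mono.le_iff_le.mp h2
  nlinarith

/-- The square of the parameter `σ`. -/
noncomputable def S2 (b s0 : ℝ) : ℝ := (b ^ 2 - s0 ^ 2) / (s0 ^ 2 * (1 - b ^ 2))

/-- The square of the parameter `c`. -/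
noncomputable def C2 (a b s0 : ℝ) : ℝ := 1 - a ^ 2 - a ^ 2 * (b ^ 2 - s0 ^ 2) / (1 - b ^ 2)

theorem S2_pos {b s0 : ℝ} (h0 : 0 < s0) (h1 : s0 < b) (h2 : b < 1) : 0 < S2 b s0 := by
  unfold S2
  apply div_pos
  · nlinarith
  · apply mul_pos (pow_pos h0 2); nlinarith

theorem C2_eq {a b s0 : ℝ} (h0 : 0 < s0) (h1 : s0 < b) (h2 : b < 1) :
    C2 a b s0 = 1 - a ^ 2 - (a * s0) ^ 2 * S2 b s0 := by
  unfold C2 S2
  have : 0 < 1 - b ^ 2 := by nlinarith
  field_simp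

theorem arctan_ge {c s : ℝ} (hc : 0 ≤ c) (hs : 0 < s) : c / √(s ^ 2 + c ^ 2) ≤ arctan (c / s) := by
  have h1 : sin (arctan (c / s)) ≤ arctan (c / s) := sin_le (arctan_nonneg.mpr (by positivity))
  rw [sin_arctan] at h1
  have h2 : √(1 + (c / s) ^ 2) = √(s ^ 2 + c ^ 2) / s := by
    rw [← sqrt_sq hs.le, ← sqrt_div' _ (by positivity), sqrt_sq hs.le]
    congr 1
    field_simp
  rw [h2] at h1
  have h3 : c / s / (√(s ^ 2 + c ^ 2) / s) = c / √(s ^ 2 + c ^ 2) := by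
    have : 0 < √(s ^ 2 + c ^ 2) := sqrt_pos.mpr (by positivity)
    field_simp
  rwa [h3] at h1

theorem arctan_le' {x : ℝ} (hx : 0 ≤ x) : arctan x ≤ x := by
  have h1 := le_tan (arctan_nonneg.mpr hx) (arctan_lt_pi_div_two x)
  rwa [tan_arctan] at h1

/-- The estimate for small `P`, in terms of the quantities `a, b, s0`. -/
theorem small_core {a b s0 ρ K : ℝ} (ha0 : 0 < a) (ha1 : a ≤ 1 / 2) (h0 : 0 < s0) (h1 : s0 < b)
    (h2 : b ≤ 1 / 2) (hρ : 0 < ρ) (hK : a ≤ K * s0)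
    (hb : 64 * (2 * K ^ 2 * b ^ 4 + 2 * b ^ 2) < ρ ^ 2) :
    0 < C2 a b s0 ∧
    π - 2 * arctan (√(C2 a b s0) / (a * s0 * √(S2 b s0))) <
      ρ * arctan (√(C2 a b s0) / √(S2 b s0)) := by
  have hb0 : 0 < b := by linarith
  have hb1 : b ^ 2 ≤ 1 / 4 := by nlinarith
  have hS := S2_pos h0 h1 (by linarith)
  have hden : 3 / 4 ≤ 1 - b ^ 2 := by linarith
  -- u = a s0 σ
  set u2 := (a * s0) ^ 2 * S2 b s0 with hu2
  have hu2' : u2 = a ^ 2 * (b ^ 2 - s0 ^ 2) / (1 - b ^ 2) := by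
    rw [hu2]; unfold S2
    have : 0 < 1 - b ^ 2 := by linarith
    field_simp
  have hu0 : 0 < u2 := mul_pos (pow_pos (mul_pos ha0 h0) 2) hS
  have hu1 : u2 ≤ 2 * b ^ 2 := by
    rw [hu2', div_le_iff₀ (by linarith)]
    have e1 : a ^ 2 * (b ^ 2 - s0 ^ 2) ≤ 1 * b ^ 2 := by
      apply mul_le_mul _ (by nlinarith) (by nlinarith) (by norm_num)
      nlinarith
    nlinarith [sq_nonneg b]
  have hus : u2 * S2 b s0 ≤ 2 * K ^ 2 * b ^ 4 := by
    have e0 : u2 * S2 b s0 = (a / s0) ^ 2 * ((b ^ 2 - s0 ^ 2) / (1 - b ^ 2)) ^ 2 := by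
      rw [hu2']; unfold S2
      have : 0 < 1 - b ^ 2 := by linarith
      field_simp
    have e1 : (a / s0) ^ 2 ≤ K ^ 2 := by
      apply pow_le_pow_left₀ (by positivity)
      rw [div_le_iff₀ h0]; exact hK
    have e2 : (b ^ 2 - s0 ^ 2) / (1 - b ^ 2) ≤ 4 / 3 * b ^ 2 := by
      rw [div_le_iff₀ (by linarith)]
      nlinarith [sq_nonneg b, sq_nonneg s0]
    have e3 : 0 ≤ (b ^ 2 - s0 ^ 2) / (1 - b ^ 2) := div_nonneg (by nlinarith) (by linarith)
    rw [e0]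
    calc (a / s0) ^ 2 * ((b ^ 2 - s0 ^ 2) / (1 - b ^ 2)) ^ 2
        ≤ K ^ 2 * (4 / 3 * b ^ 2) ^ 2 := by
          apply mul_le_mul e1 (pow_le_pow_left₀ e3 e2 2) (by positivity) (by positivity)
      _ ≤ 2 * K ^ 2 * b ^ 4 := by nlinarith [mul_nonneg (sq_nonneg K) (pow_nonneg hb0.le 4)]
  have hC : C2 a b s0 = 1 - a ^ 2 - u2 := C2_eq h0 h1 (by linarith)
  have hC1 : 1 / 4 ≤ C2 a b s0 := by
    rw [hC]; nlinarith
  have hC2 : C2 a b s0 ≤ 1 := by
    rw [hC]; nlinarith [sq_nonneg a]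
  refine ⟨by linarith, ?_⟩
  set c := √(C2 a b s0) with hc
  have hc0 : 1 / 2 ≤ c := by
    rw [hc]
    apply le_sqrt_of_sq_le
    linarith
  have hc1 : c ≤ 1 := by
    rw [hc, sqrt_le_one]; exact hC2
  set s := √(S2 b s0) with hs
  have hs0 : 0 < s := sqrt_pos.mpr hS
  have hs2 : s ^ 2 = S2 b s0 := sq_sqrt hS.le
  set u := a * s0 * s with hu
  have hup : 0 < u := mul_pos (mul_pos ha0 h0) hs0
  have huu : u ^ 2 = u2 := by rw [hu, hu2, mul_pow, hs2]
  have e1 : π - 2 * arctan (c / u) = 2 * arctan (u / c) := by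
    have := arctan_inv_of_pos (x := c / u) (by positivity)
    rw [inv_div] at this
    linarith
  rw [e1]
  have e2 : arctan (u / c) ≤ 2 * u := by
    refine le_trans (arctan_le' (by positivity)) ?_
    rw [div_le_iff₀ (by linarith)]
    nlinarith
  have e3 := arctan_ge (c := c) (by linarith) hs0
  have e4 : 4 * u < ρ * (c / √(s ^ 2 + c ^ 2)) := by
    have hq : 0 < √(s ^ 2 + c ^ 2) := sqrt_pos.mpr (by positivity)
    rw [← mul_div_assoc, lt_div_iff₀ hq]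
    have e5 : (4 * u * √(s ^ 2 + c ^ 2)) ^ 2 < (ρ * c) ^ 2 := by
      rw [mul_pow, sq_sqrt (by positivity)]
      have e6 : u ^ 2 * s ^ 2 ≤ 2 * K ^ 2 * b ^ 4 := by rw [huu, hs2]; exact hus
      have e7 : u ^ 2 * c ^ 2 ≤ 2 * b ^ 2 := by
        rw [huu]
        have h1c : c ^ 2 ≤ 1 := pow_le_one₀ (by linarith) hc1
        calc u2 * c ^ 2 ≤ u2 * 1 := mul_le_mul_of_nonneg_left h1c hu0.le
          _ ≤ 2 * b ^ 2 := by linarith
      have e8 : (1 : ℝ) / 4 ≤ c ^ 2 := by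
        have : (1 / 2 : ℝ) ^ 2 ≤ c ^ 2 := pow_le_pow_left₀ (by norm_num) hc0 2
        linarith
      have e9 : ρ ^ 2 * (1 / 4) ≤ (ρ * c) ^ 2 := by
        rw [mul_pow]; exact mul_le_mul_of_nonneg_left e8 (sq_nonneg ρ)
      have e10 : (4 * u) ^ 2 * (s ^ 2 + c ^ 2) = 16 * (u ^ 2 * s ^ 2) + 16 * (u ^ 2 * c ^ 2) := by
        ring
      rw [e10]
      linarith
    exact lt_of_pow_lt_pow_left₀ 2 (by positivity) e5
  calc 2 * arctan (u / c) ≤ 2 * (2 * u) := by linarith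
    _ = 4 * u := by ring
    _ < ρ * (c / √(s ^ 2 + c ^ 2)) := e4
    _ ≤ ρ * arctan (c / s) := mul_le_mul_of_nonneg_left e3 hρ.le

theorem small {m n ρ : ℝ} (hm : 0 < m) (hn : 0 < n) (hmn : m * n < 1) (hρ : 0 < ρ) :
    ∃ P, 0 < P ∧ P ≤ 1 ∧ ∀ Q, 0 < Q → G n Q = G m P →
      0 < C2 (tanh P) (tanh Q) (tanh (m * P)) ∧
      π - 2 * arctan (√(C2 (tanh P) (tanh Q) (tanh (m * P))) /
        (tanh P * tanh (m * P) * √(S2 (tanh Q) (tanh (m * P))))) <
      ρ * arctan (√(C2 (tanh P) (tanh Q) (tanh (m * P))) / √(S2 (tanh Q) (tanh (m * P)))) := by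
  -- choose a bound for `tanh Q`
  set K := 4 / m with hK
  have hK0 : 0 < K := by positivity
  obtain ⟨β, hβ0, hβ1, hβ2⟩ : ∃ β, 0 < β ∧ β ≤ 1 / 2 ∧
      64 * (2 * K ^ 2 * β ^ 4 + 2 * β ^ 2) < ρ ^ 2 := by
    refine ⟨min (1 / 2) (ρ / (16 * (K + 1))), by positivity, min_le_left _ _, ?_⟩
    set β := min (1 / 2) (ρ / (16 * (K + 1))) with hβ
    have hβ0 : 0 < β := by positivity
    have h1 : β ≤ 1 / 2 := min_le_left _ _
    have h2 : β ≤ ρ / (16 * (K + 1)) := min_le_right _ _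
    rw [le_div_iff₀ (by positivity)] at h2
    have h3 : (β * (16 * (K + 1))) ^ 2 ≤ ρ ^ 2 := pow_le_pow_left₀ (by positivity) h2 2
    have h4 : β ^ 4 ≤ β ^ 2 / 4 := by
      have h40 : β ^ 2 ≤ (1 / 2) ^ 2 := pow_le_pow_left₀ hβ0.le h1 2
      have h41 : β ^ 2 * β ^ 2 ≤ β ^ 2 * (1 / 2) ^ 2 := mul_le_mul_of_nonneg_left h40 (sq_nonneg β)
      have h42 : β ^ 4 = β ^ 2 * β ^ 2 := by ring
      rw [h42]; linarith
    have h5 : 64 * (2 * K ^ 2 * β ^ 4 + 2 * β ^ 2) < (β * (16 * (K + 1))) ^ 2 := by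
      have h6 : K ^ 2 * β ^ 4 ≤ K ^ 2 * (β ^ 2 / 4) := mul_le_mul_of_nonneg_left h4 (sq_nonneg K)
      have h7 : 0 < β ^ 2 := by positivity
      nlinarith [mul_pos hK0 h7, mul_pos (mul_pos hK0 hK0) h7]
    linarith
  set q0 := artanh β with hq0
  have hq0' : 0 < q0 := artanh_pos ⟨hβ0, by linarith⟩
  have htq : tanh q0 = β := tanh_artanh ⟨by linarith, by linarith⟩
  have hg0 := G_pos hn hq0'
  -- choose P
  set P := min (min 1 (1 / m)) (min (1 / 4) (G n q0 / 4)) with hP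
  have hP0 : 0 < P := by positivity
  have p1 : P ≤ 1 := le_trans (min_le_left _ _) (min_le_left _ _)
  have p2 : P ≤ 1 / m := le_trans (min_le_left _ _) (min_le_right _ _)
  have p3 : P ≤ 1 / 4 := le_trans (min_le_right _ _) (min_le_left _ _)
  have p4 : P ≤ G n q0 / 4 := le_trans (min_le_right _ _) (min_le_right _ _)
  have hmP : m * P ≤ 1 := by
    rw [le_div_iff₀ hm] at p2; linarith
  refine ⟨P, hP0, p1, ?_⟩
  intro Q hQ h
  have hq := q_gt hm hn hmn hP0 hQ h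
  have a1 := th_le hP0.le
  have s1 := th_ge (mul_pos hm hP0).le hmP
  have hs0 : 0 < tanh (m * P) := th_pos (mul_pos hm hP0)
  have hbQ : tanh Q < β := by
    rw [← htq]
    apply th_lt
    by_contra hcon
    push Not at hcon
    have h1 : G n q0 ≤ G n Q := by
      rcases hcon.eq_or_lt with h2 | h2
      · rw [h2]
      · exact (G_lt hn hq0' h2).le
    rw [h] at h1
    have h2 : G m P < tanh P := by
      unfold G
      have := tanh_lt_one (m * P)
      have := th_pos hP0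
      nlinarith
    linarith
  have hb0 := th_pos hQ
  apply small_core (K := K) (th_pos hP0) (by linarith) hs0 (th_lt hq) (by linarith) hρ
  · rw [hK]
    have : 4 / m * tanh (m * P) ≥ 4 / m * (m * P / 2) :=
      mul_le_mul_of_nonneg_left s1 (by positivity)
    have e : 4 / m * (m * P / 2) = 2 * P := by field_simp; ring
    linarith
  · have h1 : tanh Q ^ 2 ≤ β ^ 2 := pow_le_pow_left₀ hb0.le hbQ.le 2
    have h2 : tanh Q ^ 4 ≤ β ^ 4 := pow_le_pow_left₀ hb0.le hbQ.le 4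
    have h3 : K ^ 2 * tanh Q ^ 4 ≤ K ^ 2 * β ^ 4 := mul_le_mul_of_nonneg_left h2 (sq_nonneg K)
    linarith

theorem cosh_bound {P Q m a : ℝ} (ha : 1 / 2 ≤ a) (hm : 0 ≤ m * P)
    (h : a ^ 2 * (1 - tanh (m * P) ^ 2) < 1 - tanh Q ^ 2) : Q < m * P + log 4 := by
  rw [one_sub_th_sq, one_sub_th_sq] at h
  have c1 := cosh_pos (m * P)
  have c2 := cosh_pos Q
  have h1 : (a * cosh Q) ^ 2 < cosh (m * P) ^ 2 := by
    rw [mul_one_div, div_lt_div_iff₀ (by positivity) (by positivity)] at h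
    nlinarith
  have h2 : a * cosh Q < cosh (m * P) := lt_of_pow_lt_pow_left₀ 2 c1.le h1
  have h3 : cosh Q < 2 * cosh (m * P) := by nlinarith
  have h4 : exp Q / 2 ≤ cosh Q := by
    rw [cosh_eq]; have := exp_pos (-Q); linarith
  have h5 : cosh (m * P) ≤ exp (m * P) := by
    rw [cosh_eq]
    have : exp (-(m * P)) ≤ exp (m * P) := exp_le_exp.mpr (by linarith)
    linarith
  have h6 : exp Q < exp (m * P + log 4) := by
    rw [exp_add, exp_log (by norm_num)]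
    linarith
  exact exp_lt_exp.mp h6

theorem large {m n : ℝ} (hm : 0 < m) (hn : 0 < n) (hmn : m * n < 1) :
    ∃ P, 1 < P ∧ ∀ Q, 0 < Q → G n Q = G m P →
      C2 (tanh P) (tanh Q) (tanh (m * P)) ≤ 0 := by
  have h4 : 0 < log 4 := log_pos (by norm_num)
  have hmn' : 0 < 1 - m * n := by linarith
  set P := 1 / m + (n + 1) * log 4 / (1 - m * n) + 1 with hP
  have t1 : 0 < 1 / m := by positivity
  have t2 : 0 < (n + 1) * log 4 / (1 - m * n) := by positivity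
  have hP1 : 1 < P := by linarith
  refine ⟨P, hP1, ?_⟩
  intro Q hQ h
  by_contra hcon
  push Not at hcon
  have hP0 : 0 < P := by linarith
  have hq := q_gt hm hn hmn hP0 hQ h
  have hmP : 1 ≤ m * P := by
    have : m * (1 / m) ≤ m * P := mul_le_mul_of_nonneg_left (by linarith) hm.le
    rwa [mul_one_div_cancel hm.ne'] at this
  have hQ1 : 1 ≤ Q := by linarith
  have h12 : (1 : ℝ) / 2 ≤ tanh 1 := th_ge (by norm_num) le_rfl
  have ha : 1 / 2 ≤ tanh P := le_trans h12 (th_mono.monotone hP1.le)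
  have hb : 1 / 2 ≤ tanh Q := le_trans h12 (th_mono.monotone hQ1)
  have hb1 := tanh_lt_one Q
  have hden : 0 < 1 - tanh Q ^ 2 := by nlinarith
  unfold C2 at hcon
  have e0 : tanh P ^ 2 * (tanh Q ^ 2 - tanh (m * P) ^ 2) < (1 - tanh P ^ 2) * (1 - tanh Q ^ 2) := by
    have : tanh P ^ 2 * (tanh Q ^ 2 - tanh (m * P) ^ 2) / (1 - tanh Q ^ 2) < 1 - tanh P ^ 2 := by
      linarith
    rwa [div_lt_iff₀ hden] at this
  have eG : tanh Q * tanh (n * Q) = tanh P * tanh (m * P) := h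
  have e1 : tanh P ^ 2 * (1 - tanh (m * P) ^ 2) < 1 - tanh Q ^ 2 := by nlinarith
  have eG2 : (tanh Q * tanh (n * Q)) ^ 2 = (tanh P * tanh (m * P)) ^ 2 := by rw [eG]
  have e2 : tanh Q ^ 2 * (1 - tanh (n * Q) ^ 2) < 1 - tanh P ^ 2 := by nlinarith
  have b1 := cosh_bound ha (mul_pos hm hP0).le e1
  have b2 := cosh_bound hb (mul_pos hn hQ).le e2
  have b3 : P < n * (m * P + log 4) + log 4 := by nlinarith
  have b4 : P * (1 - m * n) < (n + 1) * log 4 := by nlinarith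
  rw [← lt_div_iff₀ hmn'] at b4
  linarith

/-- The main existence statement, for `ε = 1` and `ε = -1`. -/
theorem exists_zero {m n ρ κ : ℝ} (hm : 0 < m) (hn : 0 < n) (hmn : m * n < 1) (hρ : 0 < ρ)
    {ε : ℝ} (hε : (ε = 1 ∧ κ = 0) ∨ (ε = -1 ∧ ρ < 1 ∧ κ = π)) :
    ∃ P Q, 0 < P ∧ 0 < Q ∧ G n Q = G m P ∧ 0 < C2 (tanh P) (tanh Q) (tanh (m * P)) ∧
      π - 2 * arctan (√(C2 (tanh P) (tanh Q) (tanh (m * P))) /
        (tanh P * tanh (m * P) * √(S2 (tanh Q) (tanh (m * P))))) =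
      ρ * (κ + ε * arctan (√(C2 (tanh P) (tanh Q) (tanh (m * P))) /
        √(S2 (tanh Q) (tanh (m * P))))) := by
  have hp := pi_pos
  obtain ⟨Qf, hQc, hQ⟩ := exists_inverse hn
  have hτ : ∀ P, 0 < P → G m P ∈ Ioo (0 : ℝ) 1 := fun P hP => ⟨G_pos hm hP, G_lt_one hm hP⟩
  set q : ℝ → ℝ := fun P => Qf (G m P) with hq
  have hq0 : ∀ P, 0 < P → 0 < q P := fun P hP => (hQ _ (hτ P hP)).1
  have hq1 : ∀ P, 0 < P → G n (q P) = G m P := fun P hP => (hQ _ (hτ P hP)).2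
  have hqc : ContinuousOn q (Ioi 0) :=
    hQc.comp (G_cont m).continuousOn (fun P hP => hτ P hP)
  have ca : ContinuousOn (fun P => tanh P) (Ioi 0) := th_cont.continuousOn
  have cs : ContinuousOn (fun P => tanh (m * P)) (Ioi 0) :=
    (th_cont.comp (continuous_const.mul continuous_id)).continuousOn
  have cb : ContinuousOn (fun P => tanh (q P)) (Ioi 0) := th_cont.comp_continuousOn hqc
  have hs0 : ∀ P, 0 < P → 0 < tanh (m * P) := fun P hP => th_pos (mul_pos hm hP)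
  have hsb : ∀ P, 0 < P → tanh (m * P) < tanh (q P) := fun P hP =>
    th_lt (q_gt hm hn hmn hP (hq0 P hP) (hq1 P hP))
  have hb1 : ∀ P, 0 < 1 - tanh (q P) ^ 2 := fun P => by
    have := tanh_sq_lt_one (q P); linarith
  have hSp : ∀ P, 0 < P → 0 < S2 (tanh (q P)) (tanh (m * P)) := fun P hP =>
    S2_pos (hs0 P hP) (hsb P hP) (tanh_lt_one _)
  have cS : ContinuousOn (fun P => S2 (tanh (q P)) (tanh (m * P))) (Ioi 0) := by
    unfold S2
    apply ContinuousOn.div ((cb.pow 2).sub (cs.pow 2)) ((cs.pow 2).mul (continuousOn_const.sub (cb.pow 2)))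
    intro P hP
    exact (mul_pos (pow_pos (hs0 P hP) 2) (hb1 P)).ne'
  have cC : ContinuousOn (fun P => C2 (tanh P) (tanh (q P)) (tanh (m * P))) (Ioi 0) := by
    unfold C2
    apply ContinuousOn.sub (continuousOn_const.sub (ca.pow 2))
    apply ContinuousOn.div ((ca.pow 2).mul ((cb.pow 2).sub (cs.pow 2))) (continuousOn_const.sub (cb.pow 2))
    intro P _
    exact (hb1 P).ne'
  set h : ℝ → ℝ := fun P => π - 2 * arctan (√(C2 (tanh P) (tanh (q P)) (tanh (m * P))) /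
        (tanh P * tanh (m * P) * √(S2 (tanh (q P)) (tanh (m * P))))) -
      ρ * (κ + ε * arctan (√(C2 (tanh P) (tanh (q P)) (tanh (m * P))) /
        √(S2 (tanh (q P)) (tanh (m * P))))) with hh
  have hc : ContinuousOn h (Ioi 0) := by
    have c1 : ContinuousOn (fun P => √(C2 (tanh P) (tanh (q P)) (tanh (m * P)))) (Ioi 0) :=
      continuous_sqrt.comp_continuousOn cC
    have c2 : ContinuousOn (fun P => √(S2 (tanh (q P)) (tanh (m * P)))) (Ioi 0) :=
      continuous_sqrt.comp_continuousOn cS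
    have c3 : ContinuousOn (fun P => arctan (√(C2 (tanh P) (tanh (q P)) (tanh (m * P))) /
        (tanh P * tanh (m * P) * √(S2 (tanh (q P)) (tanh (m * P)))))) (Ioi 0) := by
      apply continuous_arctan.comp_continuousOn
      apply c1.div ((ca.mul cs).mul c2)
      intro P hP
      exact (mul_pos (mul_pos (th_pos hP) (hs0 P hP)) (sqrt_pos.mpr (hSp P hP))).ne'
    have c4 : ContinuousOn (fun P => arctan (√(C2 (tanh P) (tanh (q P)) (tanh (m * P))) /
        √(S2 (tanh (q P)) (tanh (m * P))))) (Ioi 0) := by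
      apply continuous_arctan.comp_continuousOn
      apply c1.div c2
      intro P hP
      exact (sqrt_pos.mpr (hSp P hP)).ne'
    exact (continuousOn_const.sub (continuousOn_const.mul c3)).sub
      (continuousOn_const.mul (continuousOn_const.add (continuousOn_const.mul c4)))
  obtain ⟨P0, hP0, hP01, hsm⟩ := small hm hn hmn hρ
  obtain ⟨P1, hP1, hlg⟩ := large hm hn hmn
  have hP10 : 0 < P1 := by linarith
  have hneg : h P0 < 0 := by
    obtain ⟨_, h2⟩ := hsm (q P0) (hq0 P0 hP0) (hq1 P0 hP0)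
    show _ - _ < (0 : ℝ)
    have h3 := arctan_lt_pi_div_two (√(C2 (tanh P0) (tanh (q P0)) (tanh (m * P0))) /
        √(S2 (tanh (q P0)) (tanh (m * P0))))
    rcases hε with ⟨rfl, rfl⟩ | ⟨rfl, _, rfl⟩
    · linarith
    · nlinarith
  have hposC : ∀ P, 0 < P → C2 (tanh P) (tanh (q P)) (tanh (m * P)) ≤ 0 → 0 < h P := by
    intro P hP hC
    show (0 : ℝ) < _ - _
    rw [sqrt_eq_zero_of_nonpos hC, zero_div, zero_div, arctan_zero]
    rcases hε with ⟨rfl, rfl⟩ | ⟨rfl, h1, rfl⟩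
    · linarith
    · nlinarith
  have hpos : 0 < h P1 := hposC P1 hP10 (hlg (q P1) (hq0 P1 hP10) (hq1 P1 hP10))
  obtain ⟨P, hP, hP2⟩ := intermediate_value_Icc (show P0 ≤ P1 by linarith)
    (hc.mono (fun x hx => lt_of_lt_of_le hP0 hx.1)) (show (0 : ℝ) ∈ Icc (h P0) (h P1) from
      ⟨hneg.le, hpos.le⟩)
  have hPpos : 0 < P := lt_of_lt_of_le hP0 hP.1
  refine ⟨P, q P, hPpos, hq0 P hPpos, hq1 P hPpos, ?_, ?_⟩
  · by_contra hcon
    push Not at hcon
    have := hposC P hPpos hcon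
    linarith
  · have : h P = 0 := hP2
    have h2 : _ - _ = (0 : ℝ) := this
    linarith

end Pool.Agent.H828.BorTanh
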