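import Pool.Agent.H828.Hyp

set_option autoImplicit false

/-!
# More on lifts of projective transformations to the line
-/

namespace Pool.Agent.H828.Lift

open Real

theorem Lifts.inv {F : H} {p q r s : ℝ} (h : Lifts F p q r s) (hd : 0 < p * s - q * r) :
    Lifts F⁻¹ s (-q) (-r) p := by
  intro θ
  obtain ⟨κ, hκ, h1, h2⟩ := h (F⁻¹ θ)
  have e : F (F⁻¹ θ) = θ := F.apply_symm_apply θ
  rw [e] at h1 h2
  refine ⟨(p * s - q * r) / κ, div_pos hd hκ, ?_, ?_⟩
  · field_simp
    linear_combination (-s) * h1 + q * h2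
  · field_simp
    linear_combination r * h1 - p * h2

theorem Lifts.unsmul {F : H} {p q r s : ℝ} {a : ℝ} (ha : 0 < a)
    (h : Lifts F (a * p) (a * q) (a * r) (a * s)) : Lifts F p q r s :=
  (h.smul (inv_pos.mpr ha)).congr (by field_simp) (by field_simp) (by field_simp) (by field_simp)

theorem z_shift {F : H} (hF : F * z = z * F) (θ : ℝ) : F (θ + π) = F θ + π :=
  congrArg (fun k : H => k θ) hF

theorem z_shift_int {F : H} (hF : F * z = z * F) (k : ℤ) (θ : ℝ) :
    F (θ + k * π) = F θ + k * π := by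
  induction k using Int.induction_on generalizing θ with
  | zero => simp
  | succ k ih =>
    have : θ + ((k : ℤ) + 1 : ℤ) * π = (θ + (k : ℤ) * π) + π := by push_cast; ring
    rw [this, z_shift hF, ih]; push_cast; ring
  | pred k ih =>
    have h1 := z_shift hF (θ + ((-(k : ℤ) - 1 : ℤ) : ℝ) * π)
    have h2 : θ + ((-(k : ℤ) - 1 : ℤ) : ℝ) * π + π = θ + ((-(k : ℤ) : ℤ) : ℝ) * π := by
      push_cast; ring
    rw [h2, ih] at h1
    have : F (θ + ((-(k : ℤ) - 1 : ℤ) : ℝ) * π) = F θ + ((-(k : ℤ) : ℤ) : ℝ) * π - π := by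
      linarith
    rw [this]; push_cast; ring

/-- The displacement varies by less than `π`. -/
theorem disp_var {F : H} (hF : F * z = z * F) (θ β : ℝ) :
    |(F θ - θ) - (F β - β)| < π := by
  have hp := pi_pos
  set j : ℤ := ⌊(θ - β) / π⌋ with hj
  have h1 : (j : ℝ) ≤ (θ - β) / π := Int.floor_le _
  have h2 : (θ - β) / π < j + 1 := Int.lt_floor_add_one _
  rw [le_div_iff₀ hp] at h1
  rw [div_lt_iff₀ hp] at h2
  have h3 := z_shift_int hF (-j) θ
  have h4 := z_shift hF β
  have h5 : F β ≤ F (θ + ((-j : ℤ) : ℝ) * π) := F.monotone (by push_cast; linarith)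
  have h6 : F (θ + ((-j : ℤ) : ℝ) * π) < F (β + π) := F.strictMono (by push_cast; linarith)
  rw [h3] at h5 h6
  rw [h4] at h6
  push_cast at h5 h6
  rw [abs_lt]
  constructor <;> linarith

/-- `F` moves some point by less than `π`. -/
def Near (F : H) : Prop := ∃ θ, |F θ - θ| < π

theorem near_iff {F : H} : Near F ↔ ∃ θ, θ < z (F θ) ∧ F θ < z θ := by
  unfold Near
  apply exists_congr
  intro θ
  rw [z_apply, z_apply, abs_lt]
  constructor <;> rintro ⟨h1, h2⟩ <;> constructor <;> linarith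

theorem Near.conj {F W : H} (hW : W * z = z * W) (h : Near F) : Near (W * F * W⁻¹) := by
  rw [near_iff] at h ⊢
  obtain ⟨θ, h1, h2⟩ := h
  refine ⟨W θ, ?_, ?_⟩
  · have e : (W * F * W⁻¹) (W θ) = W (F θ) := by
      show W (F (W⁻¹ (W θ))) = _
      have : W⁻¹ (W θ) = θ := W.symm_apply_apply θ
      rw [this]
    rw [e]
    have e2 : z (W (F θ)) = W (z (F θ)) := (congrArg (fun k : H => k (F θ)) hW).symm
    rw [e2]
    exact W.strictMono h1
  · have e : (W * F * W⁻¹) (W θ) = W (F θ) := by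
      show W (F (W⁻¹ (W θ))) = _
      have : W⁻¹ (W θ) = θ := W.symm_apply_apply θ
      rw [this]
    rw [e]
    have e2 : z (W θ) = W (z θ) := (congrArg (fun k : H => k θ) hW).symm
    rw [e2]
    exact W.strictMono h2

/-- An element commuting with `z` that has a fixed point moves every point by less than `π`. -/
theorem small_of_fix {F : H} (hF : F * z = z * F) {β : ℝ} (hβ : F β = β) (θ : ℝ) :
    |F θ - θ| < π := by
  have := disp_var hF θ β
  rwa [hβ, sub_self, sub_zero] at this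

theorem near_mul {A B : H} {β : ℝ} (hA : A β = β) (hB : ∀ θ, |B θ - θ| < π) : Near (B * A) := by
  refine ⟨β, ?_⟩
  have e : (B * A) β = B β := by
    show B (A β) = B β
    rw [hA]
  rw [e]
  exact hB β

theorem conj_fix {F W : H} {β : ℝ} (h : F β = β) : (W * F * W⁻¹) (W β) = W β := by
  show W (F (W⁻¹ (W β))) = W β
  have : W⁻¹ (W β) = β := W.symm_apply_apply β
  rw [this, h]

theorem inv_fix {F : H} {β : ℝ} (h : F β = β) : F⁻¹ β = β := by
  have : F⁻¹ (F β) = β := F.symm_apply_apply β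
  rwa [h] at this

theorem conj_inv_z {W F : H} (hW : W * z = z * W) (hF : F * z = z * F) :
    (W⁻¹ * F * W) * z = z * (W⁻¹ * F * W) := by
  have := conj_z (inv_z hW) hF
  rwa [inv_inv] at this

/-- `G F G⁻¹ F⁻¹`, where `F` has a fixed point. -/
theorem near_A {F G : H} (hF : F * z = z * F) (hG : G * z = z * G) {β : ℝ} (hβ : F β = β) :
    Near (G * F * G⁻¹ * F⁻¹) :=
  near_mul (inv_fix hβ) (small_of_fix (conj_z hG hF) (conj_fix hβ))

/-- `F⁻¹ G⁻¹ F G`, where `F` has a fixed point. -/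
theorem near_B {F G : H} (hF : F * z = z * F) {β : ℝ} (hβ : F β = β) :
    Near (F⁻¹ * G⁻¹ * F * G) := by
  have e : F⁻¹ * G⁻¹ * F * G = F⁻¹ * (G⁻¹ * F * G⁻¹⁻¹) := by group
  rw [e]
  exact near_mul (conj_fix hβ) (small_of_fix (inv_z hF) (inv_fix hβ))

/-- `F G⁻¹ F⁻¹ G`, where `F` has a fixed point. -/
theorem near_C {F G : H} (hF : F * z = z * F) {β : ℝ} (hβ : F β = β) :
    Near (F * G⁻¹ * F⁻¹ * G) := by
  have e : F * G⁻¹ * F⁻¹ * G = F * (G⁻¹ * F⁻¹ * G⁻¹⁻¹) := by group
  rw [e]
  exact near_mul (conj_fix (inv_fix hβ)) (small_of_fix hF hβ)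

theorem int_zero {k : ℤ} (h : |(k : ℝ) * (2 * π)| < 2 * π) : k = 0 := by
  have hp := pi_pos
  rw [abs_lt] at h
  have h1 : (-1 : ℝ) < k := by nlinarith [h.1]
  have h2 : (k : ℝ) < 1 := by nlinarith [h.2]
  have h3 : (-1 : ℤ) < k := by exact_mod_cast h1
  have h4 : k < (1 : ℤ) := by exact_mod_cast h2
  omega

/-- A lift of a positive diagonal matrix that moves some point by less than `π`. -/
theorem hyp_unique {F : H} (hF : F * z = z * F) (hn : Near F) {a d : ℝ} (ha : 0 < a) (hd : 0 < d)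
    (hl : Lifts F a 0 0 d) : F = D (d / a) (div_pos hd ha) := by
  have hp := pi_pos
  have hfix : F (-(π / 2)) = -(π / 2) := by
    obtain ⟨κ, hκ, h1, h2⟩ := hl (-(π / 2))
    rw [cos_neg, sin_neg, cos_pi_div_two, sin_pi_div_two] at h1 h2
    have c1 : cos (F (-(π / 2))) = 0 := by
      have : κ * cos (F (-(π / 2))) = 0 := by rw [← h1]; ring
      exact (mul_eq_zero.mp this).resolve_left hκ.ne'
    have c2 : sin (F (-(π / 2))) = -1 := by
      have h3 := sin_sq_add_cos_sq (F (-(π / 2)))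
      rw [c1] at h3
      have h4 : sin (F (-(π / 2))) < 0 := by
        have : κ * sin (F (-(π / 2))) < 0 := by rw [← h2]; nlinarith
        exact (pos_iff_neg_of_mul_neg this).mp hκ
      nlinarith
    have c3 : cos (F (-(π / 2)) + π / 2) = 1 := by
      rw [cos_add, c1, c2]; simp
    rw [cos_eq_one_iff] at c3
    obtain ⟨k, hk⟩ := c3
    obtain ⟨θ, hθ⟩ := hn
    have hv := disp_var hF (-(π / 2)) θ
    have e1 : F (-(π / 2)) - -(π / 2) = k * (2 * π) := by rw [hk]; ring
    rw [e1] at hv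
    have hk0 : k = 0 := by
      apply int_zero
      calc |(k : ℝ) * (2 * π)| = |((k : ℝ) * (2 * π) - (F θ - θ)) + (F θ - θ)| := by
            congr 1; ring
        _ ≤ |(k : ℝ) * (2 * π) - (F θ - θ)| + |F θ - θ| := abs_add_le _ _
        _ < 2 * π := by linarith
    rw [hk0] at e1
    push_cast at e1
    linarith
  rw [eq_Aff hF ha hd hl hfix]
  exact Aff_congr _ _ rfl (by simp)

/-- A lift of a rotation by less than `π` that moves some point by less than `π`. -/
theorem rot_unique {F : H} (hF : F * z = z * F) (hn : Near F) {h : ℝ} (hh : |h| < π)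
    (hl : Lifts F (cos h) (-sin h) (sin h) (cos h)) : F = T h := by
  have key : ∀ β, ∃ k : ℤ, F β - β = h + k * (2 * π) := by
    intro β
    obtain ⟨κ, hκ, h1, h2⟩ := hl β
    have h1' : 1 * cos (β + h) = κ * cos (F β) := by rw [← h1, cos_add]; ring
    have h2' : 1 * sin (β + h) = κ * sin (F β) := by rw [← h2, sin_add]; ring
    obtain ⟨c1, c2⟩ := same_dir one_pos hκ h1' h2'
    have h3 : cos (F β - (β + h)) = 1 := by
      rw [cos_sub, ← c1, ← c2]
      have := cos_sq_add_sin_sq (β + h)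
      nlinarith
    rw [cos_eq_one_iff] at h3
    obtain ⟨k, hk⟩ := h3
    exact ⟨k, by linarith⟩
  obtain ⟨θ, hθ⟩ := hn
  have hθ0 : F θ - θ = h := by
    obtain ⟨k, hk⟩ := key θ
    have hk0 : k = 0 := by
      apply int_zero
      have e : (k : ℝ) * (2 * π) = (F θ - θ) - h := by rw [hk]; ring
      rw [e]
      calc |(F θ - θ) - h| ≤ |F θ - θ| + |h| := abs_sub _ _
        _ < 2 * π := by linarith
    rw [hk, hk0]; simp
  apply ext_H
  intro β
  obtain ⟨k, hk⟩ := key β
  have hv := disp_var hF β θ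
  have hk0 : k = 0 := by
    apply int_zero
    have e : (k : ℝ) * (2 * π) = (F β - β) - (F θ - θ) := by rw [hk, hθ0]; ring
    rw [e]
    have := pi_pos
    linarith
  rw [T_apply]
  rw [hk0] at hk
  push_cast at hk
  linarith

/-- The one-parameter group of hyperbolic elements. -/
noncomputable def E (t : ℝ) : H := D (exp t) (exp_pos t)

theorem E_add (s t : ℝ) : E (s + t) = E s * E t := by
  unfold E
  rw [D_mul]
  exact Aff_congr _ _ (exp_add s t) rfl

theorem E_zero : E 0 = 1 := by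
  unfold E
  rw [← Aff_one]
  exact Aff_congr _ _ exp_zero rfl

theorem E_neg (t : ℝ) : E (-t) = (E t)⁻¹ := by
  rw [eq_inv_iff_mul_eq_one, ← E_add]; simp [E_zero]

theorem E_zpow (t : ℝ) (n : ℤ) : E t ^ n = E (n * t) := by
  induction n using Int.induction_on with
  | zero => simp [E_zero]
  | succ n ih => rw [zpow_add_one, ih, ← E_add]; congr 1; push_cast; ring
  | pred n ih => rw [zpow_sub_one, ih, ← E_neg, ← E_add]; congr 1; push_cast; ring

theorem T_zpow (t : ℝ) (n : ℤ) : T t ^ n = T (n * t) := by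
  induction n using Int.induction_on with
  | zero => simp [T_zero]
  | succ n ih => rw [zpow_add_one, ih, ← T_add]; congr 1; push_cast; ring
  | pred n ih => rw [zpow_sub_one, ih, ← T_neg, ← T_add]; congr 1; push_cast; ring

theorem E_z (t : ℝ) : E t * z = z * E t := D_z _ _

theorem E_fix (t : ℝ) : E t (-(π / 2)) = -(π / 2) := by
  have := affFun_end (exp t) 0 0
  simp only [Int.cast_zero, zero_mul, zero_sub] at this
  exact this

theorem lifts_E (t : ℝ) : Lifts (E t) 1 0 0 (exp t) := lifts_D _ _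

theorem hyp_unique' {F : H} (hF : F * z = z * F) (hn : Near F) {a d t : ℝ} (ha : 0 < a)
    (hd : 0 < d) (hl : Lifts F a 0 0 d) (ht : d = exp t * a) : F = E t := by
  rw [hyp_unique hF hn ha hd hl]
  unfold E D
  exact Aff_congr _ _ (by rw [ht]; field_simp) rfl

end Pool.Agent.H828.Lift
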