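import Pool.Agent.H828.BorExist

set_option autoImplicit false

/-!
# Existence of the representations
-/

namespace Pool.Agent.H828.BorTanh

open Real Set Pool.Agent.H828.Lift

theorem cos_arctan_div {c S : ℝ} (hS : 0 < S) : cos (arctan (c / S)) = S / √(S ^ 2 + c ^ 2) := by
  rw [cos_arctan]
  have h2 : √(1 + (c / S) ^ 2) = √(S ^ 2 + c ^ 2) / S := by
    rw [← sqrt_sq hS.le, ← sqrt_div' _ (by positivity), sqrt_sq hS.le]
    congr 1
    field_simp
  rw [h2, one_div_div]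

theorem sin_arctan_div {c S : ℝ} (hS : 0 < S) : sin (arctan (c / S)) = c / √(S ^ 2 + c ^ 2) := by
  rw [sin_arctan]
  have h2 : √(1 + (c / S) ^ 2) = √(S ^ 2 + c ^ 2) / S := by
    rw [← sqrt_sq hS.le, ← sqrt_div' _ (by positivity), sqrt_sq hS.le]
    congr 1
    field_simp
  rw [h2]
  have : 0 < √(S ^ 2 + c ^ 2) := sqrt_pos.mpr (by positivity)
  field_simp

theorem exp_neg_th (x : ℝ) : 1 - tanh x = exp (-(2 * x)) * (1 + tanh x) := by
  rw [one_add_th x, ← mul_assoc, ← exp_add]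
  simp

set_option maxHeartbeats 1000000 in
theorem rep_of {m n : ℝ} (hm : 0 < m) (hn : 0 < n) (hmn : m * n < 1) {ε κ P Q : ℝ}
    (hκ : (ε = 1 ∧ κ = 0) ∨ (ε = -1 ∧ κ = π)) (hP : 0 < P) (hQ : 0 < Q) (hG : G n Q = G m P)
    (hC : 0 < C2 (tanh P) (tanh Q) (tanh (m * P))) :
    Nonempty (BorRep P Q m n
      (κ + ε * arctan (√(C2 (tanh P) (tanh Q) (tanh (m * P))) / √(S2 (tanh Q) (tanh (m * P)))))
      (ε * (π - 2 * arctan (√(C2 (tanh P) (tanh Q) (tanh (m * P))) /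
        (tanh P * tanh (m * P) * √(S2 (tanh Q) (tanh (m * P)))))) / 2)) := by
  have hε : ε = 1 ∨ ε = -1 := by
    rcases hκ with h | h
    · exact Or.inl h.1
    · exact Or.inr h.1
  have hε2 : ε ^ 2 = 1 := by
    rcases hε with h | h <;> rw [h] <;> norm_num
  have hq := q_gt hm hn hmn hP hQ hG
  have hs0 : 0 < tanh (m * P) := th_pos (mul_pos hm hP)
  have hs01 := tanh_lt_one (m * P)
  have ha0 := th_pos hP
  have ha1 := tanh_lt_one P
  have hb0 := th_pos hQ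
  have hb1 := tanh_lt_one Q
  have hn0 := th_pos (mul_pos hn hQ)
  have hn1 := tanh_lt_one (n * Q)
  have hsb := th_lt hq
  have hS := S2_pos hs0 hsb hb1
  have hCe := C2_eq (a := tanh P) hs0 hsb hb1
  have eG : tanh Q * tanh (n * Q) = tanh P * tanh (m * P) := hG
  have x1 := one_add_th P
  have x2 := exp_neg_th (m * P)
  have y1 := exp_neg_th Q
  have y2 := one_add_th (n * Q)
  set C := C2 (tanh P) (tanh Q) (tanh (m * P)) with hCd
  set S := S2 (tanh Q) (tanh (m * P)) with hSd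
  have hSdef : S * (tanh (m * P) ^ 2 * (1 - tanh Q ^ 2)) = tanh Q ^ 2 - tanh (m * P) ^ 2 := by
    rw [hSd]; unfold S2
    rw [div_mul_cancel₀]
    exact (mul_pos (pow_pos hs0 2) (by nlinarith)).ne'
  set a := tanh P with ha
  set b := tanh Q with hb
  set s0 := tanh (m * P) with hs0d
  set s1 := tanh (n * Q) with hs1d
  set c := √C with hc
  set t := √S with ht
  have hc0 : 0 < c := sqrt_pos.mpr hC
  have ht0 : 0 < t := sqrt_pos.mpr hS
  have hc2 : c ^ 2 = C := sq_sqrt hC.le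
  have ht2 : t ^ 2 = S := sq_sqrt hS.le
  set τ := a * s0 with hτ
  have hτ0 : 0 < τ := mul_pos ha0 hs0
  set e := 1 / s0 with he
  have he0 : 0 < e := by positivity
  set k := √(t ^ 2 + e ^ 2) with hk
  have hk0 : 0 < k := sqrt_pos.mpr (by positivity)
  have hk2 : k ^ 2 = t ^ 2 + e ^ 2 := sq_sqrt (by positivity)
  have hkτ : (k * τ) ^ 2 = 1 - c ^ 2 := by
    rw [mul_pow, hk2, hc2, hCe, ht2]
    rw [he, hτ]
    field_simp
    ring
  have hkτ0 : 0 < k * τ := mul_pos hk0 hτ0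
  have hα0 : 0 < arctan (c / (τ * t)) := arctan_pos.mpr (by positivity)
  have hα1 := arctan_lt_pi_div_two (c / (τ * t))
  have hcα : cos (arctan (c / (τ * t))) = τ * t / √((τ * t) ^ 2 + c ^ 2) :=
    cos_arctan_div (by positivity)
  have hsα : sin (arctan (c / (τ * t))) = c / √((τ * t) ^ 2 + c ^ 2) :=
    sin_arctan_div (by positivity)
  have hR2 : √((τ * t) ^ 2 + c ^ 2) ^ 2 = (τ * t) ^ 2 + c ^ 2 := sq_sqrt (by positivity)
  have hR0 : 0 < √((τ * t) ^ 2 + c ^ 2) := sqrt_pos.mpr (by positivity)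
  have hcos2 : cos (π - 2 * arctan (c / (τ * t))) * ((τ * t) ^ 2 + c ^ 2) = c ^ 2 - (τ * t) ^ 2 := by
    rw [cos_pi_sub, cos_two_mul, hcα, div_pow, hR2]
    field_simp
    ring
  have hsin2 : sin (π - 2 * arctan (c / (τ * t))) * ((τ * t) ^ 2 + c ^ 2) = 2 * c * (τ * t) := by
    rw [sin_pi_sub, sin_two_mul, hcα, hsα]
    have : 2 * (c / √((τ * t) ^ 2 + c ^ 2)) * (τ * t / √((τ * t) ^ 2 + c ^ 2)) =
        2 * c * (τ * t) / √((τ * t) ^ 2 + c ^ 2) ^ 2 := by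
      field_simp
    rw [this, hR2]
    field_simp
  have hcosε : cos (ε * (π - 2 * arctan (c / (τ * t)))) = cos (π - 2 * arctan (c / (τ * t))) := by
    rcases hε with h | h
    · rw [h, one_mul]
    · rw [h, neg_one_mul, cos_neg]
  have hsinε : sin (ε * (π - 2 * arctan (c / (τ * t)))) =
      ε * sin (π - 2 * arctan (c / (τ * t))) := by
    rcases hε with h | h
    · rw [h, one_mul, one_mul]
    · rw [h, neg_one_mul, sin_neg, neg_one_mul]
  have hω0 : 0 < √(t ^ 2 + c ^ 2) := sqrt_pos.mpr (by positivity)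
  have h2η : 2 * (ε * (π - 2 * arctan (c / (τ * t))) / 2) = ε * (π - 2 * arctan (c / (τ * t))) := by
    ring
  refine borRep (ε * t) k (1 / (k * τ)) e (b * k) (c / (k * τ)) P Q m n _ _
    (√(t ^ 2 + c ^ 2) / (k * τ)) hk0 (by positivity) ?_ (by positivity) (by positivity)
    ?_ ?_ ?_ ?_ ?_ ?_ ?_ ?_ ?_ ?_ (by positivity) ?_ ?_ ?_ ?_ ?_
  · rw [he, lt_div_iff₀ hs0]; linarith
  · rw [mul_pow, hε2, hk2]; ring
  · rw [mul_pow, mul_pow, hε2, hk2, ht2, he]
    field_simp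
    linear_combination -hSdef
  · rw [div_pow, div_pow, hkτ]
    have : (1 : ℝ) - c ^ 2 ≠ 0 := by
      rw [← hkτ]; exact (pow_pos hkτ0 2).ne'
    field_simp
    ring
  · have e1 : k * (1 / (k * τ)) - e = (1 - a) / (a * s0) := by
      rw [he, hτ]; field_simp
    rw [e1]
    exact div_pos (by linarith) hτ0
  · have e1 : k * (1 / (k * τ)) - e = (1 - a) / (a * s0) := by
      rw [he, hτ]; field_simp
    have e2 : k * (1 / (k * τ)) + e = (1 + a) / (a * s0) := by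
      rw [he, hτ]; field_simp
    rw [e1, e2, x1]
    ring
  · have e1 : e - 1 = (1 - s0) / s0 := by rw [he]; field_simp
    have e2 : e + 1 = (1 + s0) / s0 := by rw [he]; field_simp
    have e3 : -2 * m * P = -(2 * (m * P)) := by ring
    rw [e1, e2, x2, e3]
    ring
  · nlinarith
  · have e3 : -2 * Q = -(2 * Q) := by ring
    rw [e3]
    linear_combination k * y1
  · have e1 : 1 / (k * τ) * (b * k) - 1 = (1 - s1) / s1 := by
      rw [← eG]; field_simp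
    rw [e1]
    exact div_pos (by linarith) hn0
  · have e1 : 1 / (k * τ) * (b * k) - 1 = (1 - s1) / s1 := by
      rw [← eG]; field_simp
    have e2 : 1 / (k * τ) * (b * k) + 1 = (1 + s1) / s1 := by
      rw [← eG]; field_simp
    have e3 : 2 * n * Q = 2 * (n * Q) := by ring
    rw [e1, e2, y2, e3]
    ring
  · rcases hκ with ⟨h1, h2⟩ | ⟨h1, h2⟩
    · rw [h1, h2, zero_add, one_mul, one_mul, cos_arctan_div ht0]
      field_simp
    · rw [h1, h2, neg_one_mul, ← sub_eq_add_neg, cos_pi_sub, cos_arctan_div ht0]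
      field_simp
  · rcases hκ with ⟨h1, h2⟩ | ⟨h1, h2⟩
    · rw [h1, h2, zero_add, one_mul, sin_arctan_div ht0]
      field_simp
    · rw [h1, h2, neg_one_mul, ← sub_eq_add_neg, sin_pi_sub, sin_arctan_div ht0]
      field_simp
  · rw [h2η, hcosε]
    have e1 : k ^ 2 * (c / (k * τ)) ^ 2 + (ε * t) ^ 2 = ((τ * t) ^ 2 + c ^ 2) / τ ^ 2 := by
      rw [mul_pow ε t, hε2]; field_simp; ring
    have e2 : k ^ 2 * (c / (k * τ)) ^ 2 - (ε * t) ^ 2 = (c ^ 2 - (τ * t) ^ 2) / τ ^ 2 := by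
      rw [mul_pow ε t, hε2]; field_simp
    rw [e1, e2, ← hcos2]
    ring
  · rw [h2η, hsinε]
    have e1 : k ^ 2 * (c / (k * τ)) ^ 2 + (ε * t) ^ 2 = ((τ * t) ^ 2 + c ^ 2) / τ ^ 2 := by
      rw [mul_pow ε t, hε2]; field_simp; ring
    have e2 : 2 * (ε * t) * k * (c / (k * τ)) = ε * (2 * c * (τ * t)) / τ ^ 2 := by
      field_simp
    rw [e1, e2, ← hsin2]
    ring
  · rw [h2η]
    have hab : |ε| = 1 := by
      rcases hε with h | h <;> rw [h] <;> norm_num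
    rw [abs_mul, hab, one_mul, abs_lt]
    constructor <;> linarith [pi_pos]

theorem exists_rep {m n ρ : ℝ} (hm : 0 < m) (hn : 0 < n) (hmn : m * n < 1) (hρ : 0 < ρ)
    {ε : ℝ} (hε : ε = 1 ∨ (ε = -1 ∧ ρ < 1)) :
    ∃ P Q g η : ℝ, 0 < P ∧ 2 * η = ε * ρ * g ∧ Nonempty (BorRep P Q m n g η) := by
  obtain ⟨κ, hκ⟩ : ∃ κ : ℝ, (ε = 1 ∧ κ = 0) ∨ (ε = -1 ∧ ρ < 1 ∧ κ = π) := by
    rcases hε with h | ⟨h, h'⟩
    · exact ⟨0, Or.inl ⟨h, rfl⟩⟩
    · exact ⟨π, Or.inr ⟨h, h', rfl⟩⟩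
  obtain ⟨P, Q, hP, hQ, hG, hC, hz⟩ := exists_zero hm hn hmn hρ hκ
  have hκ' : (ε = 1 ∧ κ = 0) ∨ (ε = -1 ∧ κ = π) := by
    rcases hκ with h | h
    · exact Or.inl h
    · exact Or.inr ⟨h.1, h.2.2⟩
  refine ⟨P, Q, _, _, hP, ?_, rep_of hm hn hmn hκ' hP hQ hG hC⟩
  rw [hz]; ring

end Pool.Agent.H828.BorTanh
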