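import Pool.Agent.H828.QEnds

set_option autoImplicit false

/-!
# Periodic chains of order automorphisms
-/

namespace Pool.Agent.H828.QEnds

open Real Pool.Agent.H828.Lift Pool.Agent.H828.QCh

/-- A real number between `0` and `1`. -/
def Small (x : ℝ) : Prop := 0 < x ∧ x < 1

/-- The conditions on the slopes `r 0, r 1, …` near a centre of the reflection; the number `a` is
the length of the end of the chain. -/
def End (r : ℕ → ℝ) (a : ℕ) : Prop :=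
  (a = 1 ∧ 2 < r 0 ∧ Small (r 1)) ∨
  (a = 2 ∧ 1 < r 1 ∧ Small (r 2)) ∨
  (a = 3 ∧ 0 < r 0 ∧ Small (r 1) ∧ 0 < r 2 ∧ Small (r 3)) ∨
  (a = 4 ∧ 0 < r 1 ∧ Small (r 2) ∧ 0 < r 3 ∧ Small (r 4))

theorem start_P {p q : ℕ → ℤ} (hq : q 0 ≠ 0) (c : ℝ) :
    Reach (stP (p 0) (q 0)) p q 0 (T c) (T (c * (sl p q 0 / 2))) := by
  have hq' : (q 0 : ℝ) ≠ 0 := by exact_mod_cast hq
  apply Reach.start
  · unfold stP
    rw [← T_add, T_zpow, T_zpow]
    congr 1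
    unfold sl; field_simp; ring
  · exact T_comm _ _

theorem start_M {p q : ℕ → ℤ} (hq : q 1 ≠ 0) (c : ℝ) :
    Reach stM p q 1 (T c) (T (c * sl p q 1)) := by
  have h0 : Reach (stM (G := H)) p q 0 (T 0) (T c) := by
    apply Reach.start
    · exact T_zero
    · exact T_comm _ _
  have h1 := stepT (k := 0) hq h0
  have e : sl p q (0 + 1) * c - 0 = c * sl p q 1 := by rw [zero_add]; ring
  rwa [e] at h1

/-- The ends. -/
theorem end_reach {p q : ℕ → ℤ} {a : ℕ} (hq : ∀ j, q j ≠ 0) (h : End (sl p q) a) :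
    ∃ st : H → H → Prop, Nat' st ∧
      (∀ A E, st A E → pw ((-1) ^ (a + 1)) A = A ∧
        A ^ p 0 = (E * pw ((-1) ^ (a + 1)) E) ^ q 0) ∧ Reach st p q a z⁻¹ g := by
  have hP : ∀ A E : H, stP (p 0) (q 0) A E → pw 1 A = A ∧ A ^ p 0 = (E * pw 1 E) ^ q 0 := by
    intro A E hAE
    rw [pw_one, pw_one]
    exact ⟨rfl, hAE⟩
  have hM : ∀ A E : H, stM A E → pw (-1) A = A ∧ A ^ p 0 = (E * pw (-1) E) ^ q 0 := by
    intro A E hAE
    have hAE' : A = 1 := hAE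
    rw [hAE', pw_id, pw_neg, pw_one, mul_inv_cancel, one_zpow, one_zpow]
    exact ⟨rfl, rfl⟩
  rcases h with ⟨rfl, h0, h1⟩ | ⟨rfl, h1, h2⟩ | ⟨rfl, h0, h1, h2, h3⟩ | ⟨rfl, h1, h2, h3, h4⟩
  · refine ⟨stP (p 0) (q 0), nat_stP _ _, ?_, ?_⟩
    · exact hP
    · exact gendShort (nat_stP _ _) (h := sl p q 0 / 2) (by linarith) (start_P (hq 0))
        (hq _) h1.1 h1.2
  · refine ⟨stM, nat_stM, ?_, ?_⟩
    · exact hM
    · exact gendShort nat_stM (h := sl p q 1) (by linarith) (start_M (hq 1)) (hq _) h2.1 h2.2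
  · refine ⟨stP (p 0) (q 0), nat_stP _ _, ?_, ?_⟩
    · exact hP
    · exact gendLong (nat_stP _ _) (h := sl p q 0 / 2) (by linarith) (start_P (hq 0))
        (hq _) h1.1 h1.2 (hq _) h2 (hq _) h3.1 h3.2
  · refine ⟨stM, nat_stM, ?_, ?_⟩
    · exact hM
    · exact gendLong nat_stM (h := sl p q 1) h1 (start_M (hq 1)) (hq _) h2.1 h2.2 (hq _) h3
        (hq _) h4.1 h4.2

/-- The middle part. -/
theorem middle {st : H → H → Prop} {p q : ℕ → ℤ} {a : ℕ} (hst : Nat' st) (hq : ∀ j, q j ≠ 0)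
    (h : Reach st p q a z⁻¹ g) (t : ℕ) (ht : ∀ i < t, |sl p q (a + 2 * i + 2)| < 1) :
    Reach st p q (a + 2 * t) z⁻¹ g := by
  induction t with
  | zero => exact h
  | succ t ih =>
    have h1 := ih (fun i hi => ht i (by omega))
    have h2 := fast hst (hq _) h1
    exact slow hst (hq _) (ht t (by omega)) h2

theorem g_ne : g ≠ 1 := by
  intro h
  have h1 : g (((0 : ℤ) : ℝ) * π + arctan 1) = (1 : H) (((0 : ℤ) : ℝ) * π + arctan 1) := by rw [h]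
  rw [one_apply] at h1
  have h2 : affFun 4 0 (((0 : ℤ) : ℝ) * π + arctan 1) = ((0 : ℤ) : ℝ) * π + arctan 1 := h1
  rw [affFun_mid'] at h2
  have h3 : arctan (4 * 1 + 0) = arctan 1 := by linarith
  have := arctan_injective h3
  norm_num at this

/-- The periodic chain. -/
theorem full {p q : ℤ → ℤ} {n a b t : ℕ} (hn : n = a + b + 2 + 2 * t) (hq0 : ∀ j, q j ≠ 0)
    (hp : ∀ j, p (-j) = p j) (hq : ∀ j, q (-j) = q j)
    (hp' : ∀ j, p (j + 2 * n) = p j) (hq' : ∀ j, q (j + 2 * n) = q j)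
    (ha : End (fun j => (p j : ℝ) / q j) a)
    (hb : End (fun j => (p ((n : ℤ) - j) : ℝ) / q ((n : ℤ) - j)) b)
    (ht : ∀ i < t, |(p (a + 2 * i + 2 : ℕ) : ℝ) / q (a + 2 * i + 2 : ℕ)| < 1) :
    ∃ F : ℤ → H, (∀ j, Rel (p j) (q j) (F (j - 1)) (F j) (F (j + 1))) ∧
      (∀ j, F (j + 2 * n) = pw ((-1) ^ n) (F j)) ∧ ∃ j, F j ≠ 1 := by
  obtain ⟨st, hst, s1, R1⟩ := end_reach (p := fun j => p j) (q := fun j => q j) (fun j => hq0 _) ha
  obtain ⟨st', hst', s2, R2⟩ := end_reach (p := fun j : ℕ => p ((n : ℤ) - j))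
    (q := fun j : ℕ => q ((n : ℤ) - j)) (fun j => hq0 _) hb
  have R3 := middle hst (fun j => hq0 _) R1 t ht
  have R4 := fast hst (hq0 _) R3
  have R5 := Reach_rho hst' R2
  rw [rho_z_inv, rho_g] at R5
  have hpn : ∀ (f : ℤ → ℤ) (j : ℕ), j ≤ n → f ((n : ℤ) - ((n - j : ℕ) : ℤ)) = f (j : ℤ) := by
    intro f j hj
    rw [Nat.cast_sub hj]; congr 1; ring
  obtain ⟨Z, hZ, a1, a2, a3⟩ := join R4 R5 (n := n) (by omega)
    (fun j hj => hpn p j hj) (fun j hj => hpn q j hj)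
  obtain ⟨b1, b2⟩ := s1 _ _ a1
  obtain ⟨c1, c2⟩ := s2 _ _ a2
  simp only [Nat.cast_zero, sub_zero] at b2 c2
  have hsign : ((-1 : ℤˣ) ^ n) = (-1) ^ (a + 1) * (-1) ^ (b + 1) := by
    rw [← pow_add, hn]
    have e : a + b + 2 + 2 * t = (a + 1 + (b + 1)) + 2 * t := by ring
    rw [e, pow_add _ _ (2 * t), pow_mul]
    simp
  have hsq : ∀ m : ℕ, ((-1 : ℤˣ) ^ m) * (-1) ^ m = 1 := by
    intro m; rw [← mul_pow]; simp
  have hn0 : 0 < n := by omega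
  have h00 : pw ((-1) ^ n) (Z 0) = pw ((-1) ^ (b + 1)) (Z 0) := by
    rw [hsign, mul_comm, pw_mul, b1]
  have hrel := unfolded_rel (n := n) (by omega) (ε := (-1) ^ (b + 1)) (δ := (-1) ^ n) (Z := Z)
    hp hq hp' hq' hZ h00 (by
      have e : ((-1 : ℤˣ) ^ n) * (-1) ^ (b + 1) = (-1) ^ (a + 1) := by
        rw [hsign, mul_assoc, hsq, mul_one]
      rw [e, b2]
      congr 1
      unfold pw
      exact ((Commute.refl (Z 1)).zpow_right _).eq) c1 c2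
  refine ⟨unfolded n ((-1) ^ (b + 1)) ((-1) ^ n) Z, hrel, unfolded_period hn0 _ _ _,
    ((a + 2 * t + 1 : ℕ) : ℤ), ?_⟩
  have h1 := unfolded_apply hn0 h00 0 (a + 2 * t + 1) (by omega)
  rw [mul_zero, zero_add, zpow_zero, pw_one] at h1
  rw [h1]
  unfold QCh.refl
  rw [if_pos (by omega), a3]
  exact g_ne

end Pool.Agent.H828.QEnds
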