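import Pool.Agent.H828.Chain

set_option autoImplicit false

/-!
# From chains to the relations of the double twist knots

A chain with period `2 n` (up to inversion if `n` is odd) gives sequences `x, v` with period `n`
and `x (i+1) ^ a * v (i+1) = x i ^ a`, `v (i+1) ^ b = x i * v i ^ b`, and these give elements of
the wreath product of the group with `Z/n`.
-/

namespace Pool.Agent.H828.Wreath

open Pool.Agent.H828.Chain

section xv
variable {G : Type*} [Group G]

/-- The relations of the double twist knots. -/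
structure XV (a b n : ℕ) (x v : ℤ → G) : Prop where
  px : ∀ i, x (i + n) = x i
  pv : ∀ i, v (i + n) = v i
  relA : ∀ i, x (i + 1) ^ a * v (i + 1) = x i ^ a
  relB : ∀ i, v (i + 1) ^ b = x i * v i ^ b
  comm : ∀ i, x i ^ a * v i ^ b = v i ^ b * x i ^ a

theorem sgn_succ (i : ℤ) : -((-1 : ℤˣ) ^ (i + 1)) = (-1) ^ i := by
  rw [zpow_add_one]; simp

theorem exists_xv {a b n : ℕ} {F : ℤ → G}
    (hrel : ∀ j, Rel (wt a b j) (F (j - 1)) (F j) (F (j + 1)))
    (hper : ∀ j, F (j + 2 * n) = pw ((-1) ^ n) (F j)) (hne : ∃ j, F j ≠ 1) :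
    ∃ x v : ℤ → G, XV a b n x v ∧ ∃ i, x i ≠ 1 ∨ v i ≠ 1 := by
  set V : ℤ → G := fun i => pw (-((-1) ^ i)) (F (2 * i)) with hV
  set y : ℤ → G := fun i => pw ((-1) ^ i) (F (2 * i + 1)) with hy
  have pV : ∀ i, V (i + n) = V i := by
    intro i
    simp only [hV]
    have e : 2 * (i + (n : ℤ)) = 2 * i + 2 * n := by ring
    rw [e, hper, ← pw_mul, zpow_add, zpow_natCast, neg_mul, mul_assoc, ← pow_add, ← two_mul,
      pow_mul]
    simp
  have py : ∀ i, y (i + n) = y i := by
    intro i
    simp only [hy]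
    have e : 2 * (i + (n : ℤ)) + 1 = (2 * i + 1) + 2 * n := by ring
    rw [e, hper, ← pw_mul, zpow_add, zpow_natCast, mul_assoc, ← pow_add, ← two_mul,
      pow_mul]
    simp
  have hx : ∀ i, (V (i + 1) * (V i)⁻¹) ^ a = y i := by
    intro i
    have h1 := (hrel (2 * i + 1)).symm.pw ((-1) ^ i)
    have h2 : wt a b (2 * i + 1) = a := by
      unfold wt; rw [if_neg]; rw [Int.not_even_iff_odd]; exact ⟨i, rfl⟩
    rw [h2] at h1
    have e1 : V (i + 1) = pw ((-1) ^ i) (F (2 * i + 1 + 1)) := by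
      simp only [hV]
      rw [sgn_succ]; congr 2; ring
    have e2 : (V i)⁻¹ = pw ((-1) ^ i) (F (2 * i + 1 - 1)) := by
      simp only [hV]
      rw [pw_neg, inv_inv]; congr 2; ring
    rw [e1, e2]
    exact h1.pow
  have hv : ∀ i, ((y (i + 1))⁻¹ * y i) ^ b = V (i + 1) := by
    intro i
    have h1 := (hrel (2 * (i + 1))).symm.pw (-((-1) ^ (i + 1)))
    have h2 : wt a b (2 * (i + 1)) = b := by
      unfold wt; rw [if_pos]; exact ⟨i + 1, by ring⟩
    rw [h2] at h1
    have e1 : (y (i + 1))⁻¹ = pw (-((-1) ^ (i + 1))) (F (2 * (i + 1) + 1)) := by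
      simp only [hy]
      rw [pw_neg]
    have e2 : y i = pw (-((-1) ^ (i + 1))) (F (2 * (i + 1) - 1)) := by
      simp only [hy]
      rw [sgn_succ]; congr 2; ring
    rw [e1, e2]
    exact h1.pow
  have hyV : ∀ i, y i * V i = V i * y i := by
    intro i
    have h1 := (hrel (2 * i + 1)).left
    rw [add_sub_cancel_right] at h1
    have h2 : Commute (F (2 * i)) (F (2 * i + 1)) := h1
    simp only [hy, hV, pw]
    exact ((h2.symm.zpow_right _).zpow_left _).eq
  refine ⟨fun i => V (i + 1) * (V i)⁻¹, fun i => (y i)⁻¹ * y (i - 1), ⟨?_, ?_, ?_, ?_, ?_⟩, ?_⟩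
  · intro i
    have e : i + (n : ℤ) + 1 = (i + 1) + n := by ring
    show V (i + n + 1) * (V (i + n))⁻¹ = _
    rw [e, pV, pV]
  · intro i
    have e : i + (n : ℤ) - 1 = (i - 1) + n := by ring
    show (y (i + n))⁻¹ * y (i + n - 1) = _
    rw [e, py, py]
  · intro i
    show (V (i + 1 + 1) * (V (i + 1))⁻¹) ^ a * ((y (i + 1))⁻¹ * y (i + 1 - 1)) =
      (V (i + 1) * (V i)⁻¹) ^ a
    rw [hx, hx, add_sub_cancel_right, mul_inv_cancel_left]
  · intro i
    show ((y (i + 1))⁻¹ * y (i + 1 - 1)) ^ b = V (i + 1) * (V i)⁻¹ * ((y i)⁻¹ * y (i - 1)) ^ b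
    have h1 := hv (i - 1)
    rw [sub_add_cancel] at h1
    rw [add_sub_cancel_right, hv, h1, inv_mul_cancel_right]
  · intro i
    show (V (i + 1) * (V i)⁻¹) ^ a * ((y i)⁻¹ * y (i - 1)) ^ b =
      ((y i)⁻¹ * y (i - 1)) ^ b * (V (i + 1) * (V i)⁻¹) ^ a
    have h1 := hv (i - 1)
    rw [sub_add_cancel] at h1
    rw [hx, h1, hyV]
  · by_contra hcon
    push Not at hcon
    obtain ⟨j, hj⟩ := hne
    have y1 : ∀ i, y i = 1 := by
      intro i
      rw [← hx, (hcon i).1, one_pow]
    have V1 : ∀ i, V i = 1 := by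
      intro i
      have h1 := hv (i - 1)
      rw [sub_add_cancel] at h1
      rw [← h1, (hcon i).2, one_pow]
    have inj : ∀ (u : ℤˣ) (t : G), pw u t = 1 → t = 1 := by
      intro u t h
      rcases Int.units_eq_one_or u with rfl | rfl
      · rwa [pw_one] at h
      · rw [pw_neg, pw_one, inv_eq_one] at h; exact h
    apply hj
    rcases Int.even_or_odd' j with ⟨i, rfl | rfl⟩
    · exact inj _ _ (V1 i)
    · exact inj _ _ (y1 i)

end xv

section wreath
variable {G : Type*} [Group G] {n : ℕ}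

/-- The shift by `t`. -/
def shift (G : Type*) [Group G] {n : ℕ} (t : ZMod n) : MulAut (ZMod n → G) where
  toFun f i := f (i + t)
  invFun f i := f (i - t)
  left_inv f := by funext i; simp
  right_inv f := by funext i; simp
  map_mul' f f' := rfl

theorem shift_apply (t : ZMod n) (f : ZMod n → G) (i : ZMod n) : shift G t f i = f (i + t) := rfl

/-- The action of `Z/n` by shifts. -/
def shiftHom (G : Type*) [Group G] (n : ℕ) : Multiplicative (ZMod n) →* MulAut (ZMod n → G) where
  toFun t := shift G t.toAdd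
  map_one' := by
    ext f i
    show f (i + 0) = f i
    rw [add_zero]
  map_mul' s t := by
    ext f i
    show f (i + (s.toAdd + t.toAdd)) = f (i + s.toAdd + t.toAdd)
    rw [add_assoc]

/-- The wreath product. -/
abbrev Wr (G : Type*) [Group G] (n : ℕ) : Type _ :=
  (ZMod n → G) ⋊[shiftHom G n] Multiplicative (ZMod n)

/-- The generator of `Z/n`. -/
def s (G : Type*) [Group G] (n : ℕ) : Wr G n := SemidirectProduct.inr (Multiplicative.ofAdd 1)

theorem s_conj (f : ZMod n → G) :
    s G n * SemidirectProduct.inl f * (s G n)⁻¹ = SemidirectProduct.inl (shift G 1 f) := by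
  have := SemidirectProduct.inl_aut (φ := shiftHom G n) (Multiplicative.ofAdd (1 : ZMod n)) f
  rw [map_inv] at this
  exact this.symm

theorem s_pow : s G n ^ n = 1 := by
  unfold s
  rw [← map_pow, ← ofAdd_nsmul]
  simp

/-- The restriction of an `n`-periodic sequence to `ZMod n`. -/
def res (n : ℕ) (x : ℤ → G) (i : ZMod n) : G := x (i.val : ℤ)

theorem res_succ [NeZero n] {x : ℤ → G} (hx : ∀ i, x (i + n) = x i) (i : ZMod n) :
    res n x (i + 1) = x ((i.val : ℤ) + 1) := by
  unfold res
  have h1 : ∀ (k : ℕ) (t : ℤ), x (t + n * k) = x t := by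
    intro k
    induction k with
    | zero => intro t; simp
    | succ k ih =>
      intro t
      have : t + (n : ℤ) * ((k + 1 : ℕ) : ℤ) = (t + n * k) + n := by push_cast; ring
      rw [this, hx, ih]
  have h2 : (i + 1).val = (i.val + 1) % n := by
    rw [ZMod.val_add, ZMod.val_one_eq_one_mod, Nat.add_mod_mod]
  rw [h2]
  have h3 := h1 ((i.val + 1) / n) (((i.val + 1) % n : ℕ) : ℤ)
  rw [← h3]
  congr 1
  have h4 := Nat.mod_add_div (i.val + 1) n
  exact_mod_cast h4

theorem res_surj [NeZero n] {x : ℤ → G} (hx : ∀ i, x (i + n) = x i) (i : ℤ) :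
    res n x (i : ZMod n) = x i := by
  have h1 : ∀ (k : ℤ) (t : ℤ), x (t + n * k) = x t := by
    intro k
    induction k using Int.induction_on with
    | zero => intro t; simp
    | succ k ih =>
      intro t
      have : t + (n : ℤ) * ((k : ℤ) + 1) = (t + n * k) + n := by push_cast; ring
      rw [this, hx, ih]
    | pred k ih =>
      intro t
      have : t + (n : ℤ) * (-(k : ℤ) - 1) + n = (t + n * (-(k : ℤ))) := by push_cast; ring
      rw [← hx, this, ih]
  unfold res
  rw [ZMod.val_intCast]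
  have h2 := h1 (i / n) (i % n)
  rw [Int.emod_add_mul_ediv] at h2
  exact h2.symm

end wreath

end Pool.Agent.H828.Wreath
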