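import Pool.Graph.R_seed8.Results.MP_3d425c_gt.BorromeanSurgery
import Pool.Agent.H828.BorCov
import Pool.Agent.H828.Wreath
import Pool.Agent.H828.QFull

set_option autoImplicit false

/-!
# Cyclic covers of surgeries on the Borromean rings and periodic chains
-/

namespace Pool.Agent.H828.BorWr

open Pool.Agent.H828.Bor Pool.Agent.H828.Cov
open Pool.Agent.H828.QCh (Rel pw pw_one pw_neg pw_mul pw_id)
open Pool.Agent.H828.Wreath (Wr s s_pow s_conj shift shift_apply res res_succ res_surj sgn_succ)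
open Pool.Agent.Results.MP_3d425c_gt.BorromeanSurgery (arc longitude relators SurgeryGroup)

/-- Sequences with period `n` that give homomorphisms of the group of a surgery. -/
structure XY {G : Type} [Group G] (n : ℕ) (a a' b b' : ℤ) (X Y : ℤ → G) : Prop where
  pX : ∀ m, X (m + n) = X m
  pY : ∀ m, Y (m + n) = Y m
  c0 : ∀ m, X m * Y m = Y m * X m
  c1 : ∀ m, X (m + 1) * Y m = Y m * X (m + 1)
  rX : ∀ m, X (m + 1) ^ a * (Y (m + 1) * (Y m)⁻¹) ^ a' = 1
  rY : ∀ m, Y m ^ b * ((X (m + 1))⁻¹ * X m) ^ b' = 1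

section chain
variable {G : Type} [Group G]

theorem pw_inj (u : ℤˣ) (t : G) (h : pw u t = 1) : t = 1 := by
  rcases Int.units_eq_one_or u with rfl | rfl
  · rwa [pw_one] at h
  · rw [pw_neg, pw_one, inv_eq_one] at h; exact h

theorem pw_comm {x y : G} (h : x * y = y * x) (u v : ℤˣ) : pw u x * pw v y = pw v y * pw u x := by
  unfold pw
  exact (((show Commute x y from h).zpow_right _).zpow_left _).eq

theorem pw_zpow (u : ℤˣ) (x : G) (k : ℤ) : pw u x ^ k = x ^ ((u : ℤ) * k) := by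
  unfold pw; rw [zpow_mul]

theorem exists_XY {n : ℕ} {F : ℤ → G} {δ : ℤˣ} {a a' b b' : ℤ}
    (hE : ∀ m : ℤ, Rel ((δ : ℤ) * a) a' (F (2 * m - 1)) (F (2 * m)) (F (2 * m + 1)))
    (hO : ∀ m : ℤ, Rel ((δ : ℤ) * b) b' (F (2 * m)) (F (2 * m + 1)) (F (2 * m + 2)))
    (hper : ∀ j, F (j + 2 * n) = pw ((-1) ^ n) (F j)) (hne : ∃ j, F j ≠ 1) :
    ∃ X Y : ℤ → G, XY n a a' b b' X Y ∧ ∃ m, X m ≠ 1 ∨ Y m ≠ 1 := by
  set X : ℤ → G := fun m => pw (-δ * (-1) ^ m) (F (2 * m)) with hX
  set Y : ℤ → G := fun m => pw ((-1) ^ m) (F (2 * m + 1)) with hY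
  have hsucc : ∀ m : ℤ, ((-1 : ℤˣ) ^ (m + 1)) = -(-1) ^ m := by
    intro m; rw [zpow_add_one]; simp
  have hδ : ∀ k : ℤ, ((-δ : ℤˣ) : ℤ) * ((δ : ℤ) * k) = -k := by
    intro k
    rcases Int.units_eq_one_or δ with rfl | rfl <;> simp
  have hδ2 : (-δ) * (-δ) = 1 := by
    rcases Int.units_eq_one_or δ with rfl | rfl <;> simp
  refine ⟨X, Y, ⟨?_, ?_, ?_, ?_, ?_, ?_⟩, ?_⟩
  · intro m
    simp only [hX]
    have e : 2 * (m + (n : ℤ)) = 2 * m + 2 * n := by ring
    rw [e, hper, ← pw_mul, zpow_add, zpow_natCast]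
    have e2 : -δ * ((-1) ^ m * (-1) ^ n) * (-1) ^ n = -δ * (-1) ^ m * (((-1) ^ n) * (-1) ^ n) := by
      simp only [mul_assoc]
    rw [e2, ← mul_pow]
    simp
  · intro m
    simp only [hY]
    have e : 2 * (m + (n : ℤ)) + 1 = (2 * m + 1) + 2 * n := by ring
    rw [e, hper, ← pw_mul, zpow_add, zpow_natCast, mul_assoc, ← mul_pow]
    simp
  · intro m
    exact pw_comm (hO m).left _ _
  · intro m
    have h1 := (hO m).right
    have e : X (m + 1) = pw (-δ * (-1) ^ (m + 1)) (F (2 * m + 2)) := by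
      simp only [hX]; congr 2; ring
    rw [e]
    exact (pw_comm h1 _ _).symm
  · intro m
    have h1 := ((hE (m + 1)).pw ((-1) ^ (m + 1))).symm.pow
    have e1 : (Y m)⁻¹ = pw ((-1) ^ (m + 1)) (F (2 * (m + 1) - 1)) := by
      simp only [hY]
      rw [hsucc, pw_neg]; congr 3; ring
    have e2 : Y (m + 1) = pw ((-1) ^ (m + 1)) (F (2 * (m + 1) + 1)) := rfl
    have e3 : X (m + 1) = pw (-δ) (pw ((-1) ^ (m + 1)) (F (2 * (m + 1)))) := by
      simp only [hX]; rw [pw_mul]
    rw [← e1, ← e2] at h1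
    rw [← h1, e3, pw_zpow, ← zpow_add]
    have e4 : ((-δ : ℤˣ) : ℤ) * a + (δ : ℤ) * a = 0 := by push_cast; ring
    rw [e4, zpow_zero]
  · intro m
    have h1 := ((hO m).pw (-δ * (-1) ^ m)).symm.pow
    have e1 : X m = pw (-δ * (-1) ^ m) (F (2 * m)) := rfl
    have e2 : (X (m + 1))⁻¹ = pw (-δ * (-1) ^ m) (F (2 * m + 2)) := by
      simp only [hX]
      rw [hsucc, mul_neg, pw_neg, inv_inv]; congr 2; ring
    have e3 : Y m = pw (-δ) (pw (-δ * (-1) ^ m) (F (2 * m + 1))) := by
      simp only [hY]; rw [← pw_mul, ← mul_assoc, hδ2, one_mul]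
    rw [← e1, ← e2] at h1
    rw [← h1, e3, pw_zpow, ← zpow_add]
    have e4 : ((-δ : ℤˣ) : ℤ) * b + (δ : ℤ) * b = 0 := by push_cast; ring
    rw [e4, zpow_zero]
  · by_contra hcon
    push Not at hcon
    obtain ⟨j, hj⟩ := hne
    apply hj
    rcases Int.even_or_odd' j with ⟨i, rfl | rfl⟩
    · exact pw_inj _ _ (hcon i).1
    · exact pw_inj _ _ (hcon i).2

end chain

section wreath
variable {G : Type} [Group G] {n : ℕ}

theorem s_zpow (j : ℤ) (f : ZMod n → G) :
    s G n ^ j * SemidirectProduct.inl f * (s G n ^ j)⁻¹ =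
      SemidirectProduct.inl (shift G (j : ZMod n) f) := by
  have h1 : s G n ^ j = SemidirectProduct.inr (Multiplicative.ofAdd ((j : ℤ) : ZMod n)) := by
    unfold s
    rw [← map_zpow, ← ofAdd_zsmul, zsmul_one]
  have := SemidirectProduct.inl_aut (φ := Wreath.shiftHom G n)
    (Multiplicative.ofAdd ((j : ℤ) : ZMod n)) f
  rw [map_inv] at this
  rw [h1]
  exact this.symm

variable [NeZero n] {a a' b b' : ℤ} {X Y : ℤ → G}

omit [NeZero n] in
theorem wr_c0 (h : XY n a a' b b' X Y) :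
    (SemidirectProduct.inl (res n X) : Wr G n) * SemidirectProduct.inl (res n Y) =
      SemidirectProduct.inl (res n Y) * SemidirectProduct.inl (res n X) := by
  rw [← map_mul, ← map_mul]
  congr 1
  funext k
  exact h.c0 _

theorem wr_c1 (h : XY n a a' b b' X Y) :
    (s G n * SemidirectProduct.inl (res n X) * (s G n)⁻¹) * SemidirectProduct.inl (res n Y) =
      SemidirectProduct.inl (res n Y) * (s G n * SemidirectProduct.inl (res n X) * (s G n)⁻¹) := by
  rw [s_conj, ← map_mul, ← map_mul]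
  congr 1
  funext k
  show shift G 1 (res n X) k * res n Y k = res n Y k * shift G 1 (res n X) k
  rw [shift_apply, res_succ h.pX]
  exact h.c1 _

theorem wr_rX (h : XY n a a' b b' X Y) :
    (SemidirectProduct.inl (res n X) : Wr G n) ^ a *
      lon (SemidirectProduct.inl (res n Y)) (s G n) ^ a' = 1 := by
  set x : Wr G n := SemidirectProduct.inl (res n X) with hx
  set y : Wr G n := SemidirectProduct.inl (res n Y) with hy
  have h1 : (s G n * x * (s G n)⁻¹) ^ a * (s G n * y * (s G n)⁻¹ * y⁻¹) ^ a' = 1 := by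
    have h0 : (shift G 1 (res n X)) ^ a * (shift G 1 (res n Y) * (res n Y)⁻¹) ^ a' = 1 := by
      funext k
      show shift G 1 (res n X) k ^ a * (shift G 1 (res n Y) k * (res n Y k)⁻¹) ^ a' = 1
      rw [shift_apply, shift_apply, res_succ h.pX, res_succ h.pY]
      exact h.rX _
    have h3 := congrArg (SemidirectProduct.inl : (ZMod n → G) →* Wr G n) h0
    rw [map_mul, map_zpow, map_zpow, map_mul, map_inv, map_one] at h3
    rw [hx, hy, s_conj, s_conj]
    exact h3
  have h2 : s G n * y * (s G n)⁻¹ * y⁻¹ = s G n * lon y (s G n) * (s G n)⁻¹ := by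
    unfold lon; group
  rw [h2, conj_pow_aux] at h1
  calc x ^ a * lon y (s G n) ^ a' =
      (s G n)⁻¹ * (s G n * (x ^ a * lon y (s G n) ^ a') * (s G n)⁻¹) * s G n := by group
    _ = 1 := by rw [h1]; group

theorem wr_rY (h : XY n a a' b b' X Y) :
    (SemidirectProduct.inl (res n Y) : Wr G n) ^ b *
      lon (s G n) (SemidirectProduct.inl (res n X)) ^ b' = 1 := by
  set x : Wr G n := SemidirectProduct.inl (res n X) with hx
  have e : lon (s G n) x = (s G n * x * (s G n)⁻¹)⁻¹ * x := by unfold lon; group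
  have h0 : (res n Y) ^ b * ((shift G 1 (res n X))⁻¹ * res n X) ^ b' = 1 := by
    funext k
    show res n Y k ^ b * ((shift G 1 (res n X) k)⁻¹ * res n X k) ^ b' = 1
    rw [shift_apply, res_succ h.pX]
    exact h.rY _
  have h3 := congrArg (SemidirectProduct.inl : (ZMod n → G) →* Wr G n) h0
  rw [map_mul, map_zpow, map_zpow, map_mul, map_inv, map_one] at h3
  rw [e, hx, s_conj]
  exact h3

end wreath

section hom
variable {G : Type} [Group G]

/-- A homomorphism of the group of the surgery. -/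
theorem exists_surg {K : Type} [Group K] {p q : Fin 3 → ℤ} {u : Fin 3 → K}
    (hc : ∀ j, u j * lon (u (j + 1)) (u (j + 2)) = lon (u (j + 1)) (u (j + 2)) * u j)
    (hs : ∀ j, u j ^ p j * lon (u (j + 1)) (u (j + 2)) ^ q j = 1) :
    ∃ Φ : SurgeryGroup p q →* K, ∀ a, Φ (PresentedGroup.of a) = img u a := by
  have hrel : ∀ w ∈ relators p q, FreeGroup.lift (img u) w = 1 := by
    rintro w ⟨k, hw⟩
    have key : (u (k + 2))⁻¹ * img u (k, false) * u (k + 2) * (u k)⁻¹ = 1 ∧
        img u (k + 2, false) * u k * (img u (k + 2, false))⁻¹ * (img u (k, false))⁻¹ = 1 ∧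
        img u (k, false) ^ p k * (u (k + 2) * (img u (k + 2, false))⁻¹) ^ q k = 1 := by
      fin_cases k
      · exact hom_aux (hc 0) (hs 0) (by rw [mul_one, one_mul])
      · exact hom_aux (hc 1) (hs 1) (by rw [mul_one, one_mul])
      · exact hom_aux (hc 2) (hs 2) (by rw [mul_one, one_mul])
    rcases hw with rfl | rfl | rfl
    · simpa [arc, img] using key.1
    · simpa [arc, img] using key.2.1
    · simpa [arc, longitude, img] using key.2.2
  exact ⟨PresentedGroup.toGroup hrel, fun a => PresentedGroup.toGroup.of hrel⟩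

/-- The kernel of the degree map. -/
theorem exists_ker {n : ℕ} [NeZero n] {p q : Fin 3 → ℤ} {i : Fin 3} (hp : (n : ℤ) ∣ p i)
    {X Y : ℤ → G} (h : XY n (p (i + 1)) (q (i + 1)) (p (i + 2)) (q (i + 2)) X Y)
    (hne : ∃ m, X m ≠ 1 ∨ Y m ≠ 1)
    (D : SurgeryGroup p q →* Multiplicative (ZMod n))
    (hD : ∀ a : Fin 3 × Bool, D (PresentedGroup.of a) =
      Multiplicative.ofAdd (if a.1 = i then (1 : ZMod n) else 0)) :
    ∃ (f : D.ker →* G) (γ : D.ker), f γ ≠ 1 := by
  set x : Wr G n := SemidirectProduct.inl (res n X) with hx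
  set y : Wr G n := SemidirectProduct.inl (res n Y) with hy
  set S : Wr G n := s G n with hS
  obtain ⟨u, hu1, hu2, hu3⟩ : ∃ u : Fin 3 → Wr G n, u (i + 1) = x ∧ u (i + 2) = y ∧ u i = S := by
    fin_cases i
    · exact ⟨![S, x, y], rfl, rfl, rfl⟩
    · exact ⟨![y, S, x], rfl, rfl, rfl⟩
    · exact ⟨![x, y, S], rfl, rfl, rfl⟩
  have hi12 : ∀ j : Fin 3, j = i ∨ j = i + 1 ∨ j = i + 2 := fun j =>
    (by decide : ∀ i j : Fin 3, j = i ∨ j = i + 1 ∨ j = i + 2) i j
  have e11 : i + 1 + 1 = i + 2 := (by decide : ∀ i : Fin 3, i + 1 + 1 = i + 2) i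
  have e12 : i + 1 + 2 = i := (by decide : ∀ i : Fin 3, i + 1 + 2 = i) i
  have e21 : i + 2 + 1 = i := (by decide : ∀ i : Fin 3, i + 2 + 1 = i) i
  have e22 : i + 2 + 2 = i + 1 := (by decide : ∀ i : Fin 3, i + 2 + 2 = i + 1) i
  have n1 : i + 1 ≠ i := (by decide : ∀ i : Fin 3, i + 1 ≠ i) i
  have n2 : i + 2 ≠ i := (by decide : ∀ i : Fin 3, i + 2 ≠ i) i
  have k0 : Commute x y := wr_c0 h
  have k1 : Commute (S * x * S⁻¹) y := wr_c1 h
  have k2 : x ^ p (i + 1) * lon y S ^ q (i + 1) = 1 := wr_rX h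
  have k3 : y ^ p (i + 2) * lon S x ^ q (i + 2) = 1 := wr_rY h
  have l1 : lon x y = 1 := by
    unfold lon
    rw [k0.inv_right.eq]; group
  have l2 : lon y S = y * (S⁻¹ * y * S)⁻¹ := by unfold lon; group
  have l3 : lon S x = (S * x * S⁻¹)⁻¹ * x := by unfold lon; group
  have k4 : Commute x (S⁻¹ * y * S) := by
    have h1 : x * (S⁻¹ * y * S) = S⁻¹ * ((S * x * S⁻¹) * y) * S := by group
    show x * (S⁻¹ * y * S) = (S⁻¹ * y * S) * x
    rw [h1, k1.eq]; group
  have hSn : S ^ n = 1 := s_pow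
  obtain ⟨Φ, hΦ⟩ := exists_surg (p := p) (q := q) (u := u)
    (by
      intro j
      rcases hi12 j with rfl | rfl | rfl
      · rw [hu1, hu2, hu3, l1, mul_one, one_mul]
      · rw [e11, e12, hu1, hu2, hu3, l2]
        exact (k0.mul_right k4.inv_right).eq
      · rw [e21, e22, hu1, hu2, hu3, l3]
        exact (k1.symm.inv_right.mul_right k0.symm).eq)
    (by
      intro j
      rcases hi12 j with rfl | rfl | rfl
      · rw [hu1, hu2, hu3, l1, one_zpow, mul_one]
        obtain ⟨l, hl⟩ := hp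
        rw [hl, zpow_mul, zpow_natCast, hSn, one_zpow]
      · rw [e11, e12, hu1, hu2, hu3]; exact k2
      · rw [e21, e22, hu1, hu2, hu3]; exact k3)
  -- the degree is the right component
  have hR : (SemidirectProduct.rightHom : Wr G n →* Multiplicative (ZMod n)).comp Φ = D := by
    apply PresentedGroup.ext
    rintro ⟨j, b⟩
    rw [MonoidHom.comp_apply, hΦ, hD]
    have hr : ∀ j, (SemidirectProduct.rightHom : Wr G n →* Multiplicative (ZMod n)) (u j) =
        Multiplicative.ofAdd (if j = i then (1 : ZMod n) else 0) := by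
      intro j
      rcases hi12 j with rfl | rfl | rfl
      · rw [hu3, if_pos rfl]; rfl
      · rw [hu1, if_neg n1]; rfl
      · rw [hu2, if_neg n2]; rfl
    cases b
    · show SemidirectProduct.rightHom (u (j + 2) * u j * (u (j + 2))⁻¹) = _
      rw [map_mul, map_mul, map_inv, hr j, mul_comm, ← mul_assoc, inv_mul_cancel, one_mul]
    · exact hr j
  have hker : ∀ g : D.ker, (Φ g.1).right = 1 := by
    intro g
    have h1 := DFunLike.congr_fun hR g.1
    rw [MonoidHom.comp_apply, g.2] at h1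
    exact h1
  set f : D.ker →* G := MonoidHom.mk' (fun g : D.ker => (Φ g.1).left 0) (by
    intro g g'
    show (Φ (g.1 * g'.1)).left 0 = _
    rw [map_mul, SemidirectProduct.mul_left, hker g, map_one]
    rfl) with hf
  obtain ⟨m, hm⟩ := hne
  -- conjugates of the meridians
  have key : ∀ (j : Fin 3) (hj : j ≠ i) (Z : ℤ → G) (hZ : ∀ m, Z (m + n) = Z m)
      (huj : u j = SemidirectProduct.inl (res n Z)) (hZm : Z m ≠ 1),
      ∃ γ : D.ker, f γ ≠ 1 := by
    intro j hj Z hZ huj hZm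
    refine ⟨⟨PresentedGroup.of (i, true) ^ m * PresentedGroup.of (j, true) *
      (PresentedGroup.of (i, true) ^ m)⁻¹, ?_⟩, ?_⟩
    · rw [MonoidHom.mem_ker, map_mul, map_mul, map_inv, hD (j, true)]
      have : Multiplicative.ofAdd (if (j, true).1 = i then (1 : ZMod n) else 0) = 1 := by
        rw [if_neg hj]; rfl
      rw [this, mul_one, mul_inv_cancel]
    · show (Φ (PresentedGroup.of (i, true) ^ m * PresentedGroup.of (j, true) *
        (PresentedGroup.of (i, true) ^ m)⁻¹)).left 0 ≠ 1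
      have e : Φ (PresentedGroup.of (i, true) ^ m * PresentedGroup.of (j, true) *
        (PresentedGroup.of (i, true) ^ m)⁻¹) =
          SemidirectProduct.inl (shift G (m : ZMod n) (res n Z)) := by
        rw [map_mul, map_mul, map_inv, map_zpow, hΦ, hΦ]
        show u i ^ m * u j * (u i ^ m)⁻¹ = _
        rw [hu3, huj, hS, s_zpow]
      rw [e, SemidirectProduct.left_inl, shift_apply, zero_add, res_surj hZ]
      exact hZm
  rcases hm with hm | hm
  · exact ⟨f, key (i + 1) n1 X h.pX hu1 hm⟩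
  · exact ⟨f, key (i + 2) n2 Y h.pY hu2 hm⟩

end hom

end Pool.Agent.H828.BorWr
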