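import Pool.Agent.H828.Pieces
import Pool.Agent.H828.Chain

set_option autoImplicit false

/-!
# The ends and the steps of the chain of order automorphisms
-/

namespace Pool.Agent.H828.Ends

open Real Pool.Agent.H828.Lift Pool.Agent.H828.Chain

/-- Conjugation. -/
def cj (W : H) : H →* H := (MulAut.conj W).toMonoidHom

theorem cj_apply (W F : H) : cj W F = W * F * W⁻¹ := rfl

theorem cj_z {W : H} (hW : W * z = z * W) : cj W z = z := by
  rw [cj_apply, hW, mul_inv_cancel_right]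

/-- The start conditions are preserved by homomorphisms. -/
def Nat' (st : H → H → Prop) : Prop := ∀ (f : H →* H) a b, st a b → st (f a) (f b)

theorem nat_stP (m : ℕ) : Nat' (stP m) := fun f a b h => stP_map m f a b h

theorem nat_stM : Nat' stM := fun f a b h => stM_map f a b h

/-- Conjugation by `θ ↦ -θ`. -/
noncomputable def rhoFun (f : H) : H :=
  StrictMono.orderIsoOfRightInverse (fun θ => -f (-θ))
    (fun θ θ' h => by
      have := f.strictMono (neg_lt_neg h)
      show -f (-θ) < -f (-θ')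
      linarith)
    (fun θ => -f⁻¹ (-θ))
    (fun θ => by
      show -f (- -f⁻¹ (-θ)) = θ
      rw [neg_neg, ← mul_apply, mul_inv_cancel, one_apply, neg_neg])

theorem rhoFun_apply (f : H) (θ : ℝ) : rhoFun f θ = -f (-θ) := rfl

/-- Conjugation by `θ ↦ -θ`. -/
noncomputable def rho : H →* H where
  toFun := rhoFun
  map_one' := by apply ext_H; intro θ; rw [rhoFun_apply, one_apply, one_apply, neg_neg]
  map_mul' f g := by
    apply ext_H; intro θ
    rw [mul_apply, rhoFun_apply, rhoFun_apply, rhoFun_apply, mul_apply, neg_neg]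

theorem rho_apply (f : H) (θ : ℝ) : rho f θ = -f (-θ) := rfl

theorem rho_z : rho z = z⁻¹ := by
  rw [eq_inv_iff_mul_eq_one]
  apply ext_H; intro θ
  rw [mul_apply, rho_apply, z_apply, z_apply, one_apply]; ring

theorem rho_z_inv : rho z⁻¹ = z := by rw [map_inv, rho_z, inv_inv]

theorem rho_D (l : ℝ) (hl : 0 < l) : rho (D l hl) = D l hl := by
  apply ext_H; intro θ
  rw [rho_apply]
  show -affFun l 0 (-θ) = affFun l 0 θ
  rcases cases θ with ⟨k, rfl⟩ | ⟨k, u, rfl⟩
  · have : -((k : ℝ) * π - π / 2) = ((-k + 1 : ℤ) : ℝ) * π - π / 2 := by push_cast; ring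
    rw [this, affFun_end, affFun_end]; push_cast; ring
  · have : -((k : ℝ) * π + arctan u) = ((-k : ℤ) : ℝ) * π + arctan (-u) := by
      rw [arctan_neg]; push_cast; ring
    rw [this, affFun_mid', affFun_mid']
    have : l * -u + 0 = -(l * u + 0) := by ring
    rw [this, arctan_neg]; push_cast; ring

theorem rho_g : rho g = g := rho_D _ _

section reach
variable {st : H → H → Prop} {m : ℕ → ℕ} {k : ℕ}

theorem Reach_rho (hst : Nat' st) {A E : H} (h : Reach st m k A E) :
    Reach st m k (rho A) (rho E) := h.map rho (hst rho)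

theorem Reach_cj (hst : Nat' st) {A E : H} (h : Reach st m k A E) (W : H) :
    Reach st m k (cj W A) (cj W E) := h.map (cj W) (hst _)

/-- A root of `z`. -/
theorem root_z {C : H} (hC : C * z = z * C) {n : ℕ} (hn : 0 < n) :
    (C * T (π / n) * C⁻¹) ^ n = z := by
  rw [conj_pow, T_pow]
  have : (n : ℝ) * (π / n) = π := by field_simp
  rw [this]
  show C * z * C⁻¹ = z
  rw [hC, mul_inv_cancel_right]

theorem root_z_inv {C : H} (hC : C * z = z * C) {n : ℕ} (hn : 0 < n) :
    (C * T (-(π / n)) * C⁻¹) ^ n = z⁻¹ := by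
  have h1 : C * T (-(π / n)) * C⁻¹ = (C * T (π / n) * C⁻¹)⁻¹ := by rw [T_neg]; group
  rw [h1, inv_pow, root_z hC hn]

/-- The fast step. -/
theorem fast (hst : Nat' st) (hm : 0 < m (k + 1)) (h : Reach st m k z⁻¹ g) :
    Reach st m (k + 1) g z := by
  set w := m (k + 1) with hw
  have h4 : (0 : ℝ) < (4 : ℝ) ^ ((w : ℝ)⁻¹) := rpow_pos_of_pos (by norm_num) _
  have hX : D ((4 : ℝ) ^ ((w : ℝ)⁻¹)) h4 ^ w = g := by
    rw [D_pow]
    unfold g
    exact Aff_congr _ _ (rpow_inv_natCast_pow (by norm_num) hm.ne') rfl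
  have h1 := h.step _ hX
  obtain ⟨φ, hφ, hφD⟩ := glue ((4 : ℝ) ^ ((w : ℝ)⁻¹)) h4
  have h2 := Reach_cj hst h1 φ
  rw [cj_apply, cj_apply, inv_inv, hφ] at h2
  have h3 : φ * g * φ⁻¹ = g := hφD 4 (by norm_num)
  rwa [h3] at h2

/-- The slow step. -/
theorem slow (hst : Nat' st) (hm : 2 ≤ m (k + 1)) (h : Reach st m k g z) :
    Reach st m (k + 1) z⁻¹ g := by
  set w := m (k + 1) with hw
  have hp := pi_pos
  have hw2 : (2 : ℝ) ≤ w := by exact_mod_cast hm
  have h0 : 0 < π / w := by positivity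
  have h1 : π / w < π := div_lt_self hp (by linarith)
  obtain ⟨C, W, hC, hW, hWF⟩ := P3 h0.ne' (by linarith) h1
  have h2 := h.step _ (root_z hC (by omega))
  have h3 := Reach_cj hst h2 W
  rw [cj_z hW, cj_apply, hWF] at h3
  have h4 := Reach_rho hst h3
  rwa [rho_z, rho_g] at h4

/-- The common last part of the ends of type A. -/
theorem tail (hst : Nat' st) (hm : 2 ≤ m (k + 1)) (h : Reach st m k z⁻¹ (z⁻¹ * g)) :
    Reach st m (k + 1) z⁻¹ g := by
  set w := m (k + 1) with hw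
  have hp := pi_pos
  have hw2 : (2 : ℝ) ≤ w := by exact_mod_cast hm
  have hgz : z⁻¹ * g = g * z⁻¹ := by
    rw [inv_mul_eq_iff_eq_mul, ← mul_assoc, ← g_z, mul_inv_cancel_right]
  obtain ⟨φ, hφ, hφD⟩ := glue (4⁻¹ : ℝ) (by norm_num)
  have e1 : D (4⁻¹ : ℝ) (by norm_num) = g⁻¹ := by unfold g; rw [D_inv]
  rw [e1] at hφ
  have e2 : φ * g * φ⁻¹ = g := hφD 4 (by norm_num)
  have e3 : cj φ (z⁻¹ * g) = z⁻¹ := by
    have : z⁻¹ * g = (z * g⁻¹)⁻¹ := by rw [mul_inv_rev, inv_inv, hgz]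
    rw [this, map_inv, cj_apply, hφ]
  have e4 : cj φ z⁻¹ = z⁻¹ * g⁻¹ := by
    have : z⁻¹ = (z⁻¹ * g) * g⁻¹ := by group
    rw [this, map_mul, e3, map_inv, cj_apply, e2]; group
  have h1 := Reach_cj hst h φ
  rw [e3, e4] at h1
  -- the last step
  have h0 : 0 < π / w := by positivity
  have hlt : π / w < π := div_lt_self hp (by linarith)
  obtain ⟨C, W, hC, hW, hWF⟩ := P3' (γ := π - π / w) (by linarith) (by linarith) (by linarith)
  have h2 := h1.step _ (root_z_inv hC (n := w) (by omega))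
  have e5 : (z⁻¹ * g⁻¹)⁻¹ * (C * T (-(π / w)) * C⁻¹) = g * (C * T (π - π / w) * C⁻¹) := by
    have : π - π / w = π + -(π / w) := by ring
    rw [this, T_add]
    show _ = g * (C * (z * T (-(π / w))) * C⁻¹)
    calc (z⁻¹ * g⁻¹)⁻¹ * (C * T (-(π / w)) * C⁻¹) = g * ((z * C) * T (-(π / w)) * C⁻¹) := by group
      _ = _ := by rw [← hC]; group
  rw [e5] at h2
  have h3 := Reach_cj hst h2 W
  rwa [map_inv, cj_z hW, cj_apply, hWF] at h3

/-- Ends of type A up to the last part: `R` is a root of `z`. -/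
theorem typeA (hst : Nat' st) {N c : ℕ} (hc : 0 < c) (hcN : c < N) (hm : 2 ≤ m (k + 1))
    (h : Reach st m k (T (π / N) ^ c) z⁻¹) :
    Reach st m (k + 1) z⁻¹ (z⁻¹ * g) := by
  set w := m (k + 1) with hw
  have hp := pi_pos
  have hw2 : (2 : ℝ) ≤ w := by exact_mod_cast hm
  have h0 : 0 < π / w := by positivity
  have hlt : π / w < π := div_lt_self hp (by linarith)
  have hN : (0 : ℝ) < N := by exact_mod_cast (by omega : 0 < N)
  have hc' : (0 : ℝ) < c := by exact_mod_cast hc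
  have hcN' : (c : ℝ) < N := by exact_mod_cast hcN
  have h1 : 0 < c * (π / N) := by positivity
  have h2 : c * (π / N) < π := by
    rw [mul_div_assoc', div_lt_iff₀ hN]; nlinarith
  obtain ⟨C, W, hC, hW, hWF⟩ := P1 (α := π - c * (π / N)) (β := π / w) (by linarith)
    (by linarith) h0 hlt
  have h3 := h.step _ (root_z_inv hC (n := w) (by omega))
  have e1 : (T (π / N) ^ c)⁻¹ = z⁻¹ * T (π - c * (π / N)) := by
    rw [T_pow, ← T_neg]
    have : z⁻¹ = T (-π) := (T_neg _).symm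
    rw [this, ← T_add]; congr 1; ring
  rw [e1, mul_assoc] at h3
  have h4 := Reach_cj hst h3 W
  rw [map_mul, map_inv, cj_z hW, cj_apply, hWF] at h4
  exact h4

/-- Ends of type B: `R` is a root of `z`. -/
theorem typeB (hst : Nat' st) {N c : ℕ} (hc : 0 < c) (hcN : c < N) (hm : 2 ≤ m (k + 1))
    (h : Reach st m k (T (π / N) ^ c)⁻¹ z⁻¹) :
    Reach st m (k + 1) z⁻¹ g := by
  set w := m (k + 1) with hw
  have hp := pi_pos
  have hw2 : (2 : ℝ) ≤ w := by exact_mod_cast hm
  have h0 : 0 < π / w := by positivity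
  have hlt : π / w < π := div_lt_self hp (by linarith)
  have hN : (0 : ℝ) < N := by exact_mod_cast (by omega : 0 < N)
  have hc' : (0 : ℝ) < c := by exact_mod_cast hc
  have hcN' : (c : ℝ) < N := by exact_mod_cast hcN
  have h1 : 0 < c * (π / N) := by positivity
  have h2 : c * (π / N) < π := by
    rw [mul_div_assoc', div_lt_iff₀ hN]; nlinarith
  obtain ⟨C, W, hC, hW, hWF⟩ := P1 (α := c * (π / N)) (β := π / w) h1 h2 h0 hlt
  have h3 := h.step _ (root_z_inv hC (n := w) (by omega))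
  rw [inv_inv, T_pow] at h3
  have h4 := Reach_cj hst h3 W
  rw [map_inv, cj_z hW, cj_apply, hWF] at h4
  exact h4

end reach

/-- Weights at the end with a reflection that fixes the chain. -/
def mP (α β : ℕ) (j : ℕ) : ℕ := wt α β j

/-- Weights at the end with a reflection that inverts the chain. -/
def mM (α β : ℕ) (j : ℕ) : ℕ := wt β α j

theorem pow_N {N : ℕ} (hN : 0 < N) : T (π / N) ^ N = z := by
  have := root_z (C := 1) (by rw [one_mul, mul_one]) hN
  simpa using this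

theorem pow_inv_mul {N : ℕ} (R : H) : (R ^ (N + 1))⁻¹ * R = (R ^ N)⁻¹ := by
  rw [pow_succ', mul_inv_rev, inv_mul_cancel_right]

theorem endP {α β : ℕ} (hα : 2 ≤ α) (hβ : 1 ≤ β) : Reach (stP β) (mP α β) 3 z⁻¹ g := by
  have w1 : mP α β 1 = α := by unfold mP wt; simp
  have w2 : mP α β 2 = β := by unfold mP wt; simp
  have w3 : mP α β 3 = α := by unfold mP wt; rw [if_neg (by decide)]
  rcases hβ.lt_or_eq with hβ | rfl
  · -- type A
    obtain ⟨N, hN⟩ : ∃ N, 2 * (α * β) = N + 1 := ⟨2 * (α * β) - 1, by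
      have : 0 < α * β := by positivity
      omega⟩
    have hN0 : α < N := by nlinarith
    set R := T (π / N) with hR
    have hRN : R ^ N = z := pow_N (by omega)
    have s0 : Reach (stP β) (mP α β) 0 (R ^ (2 * (α * β))) (R ^ α) := by
      apply Reach.start
      · unfold stP
        rw [← pow_mul]; congr 1; ring
      · rw [← pow_add, ← pow_add, add_comm]
    have s1 := s0.step R (by rw [w1])
    rw [hN, pow_inv_mul, hRN] at s1
    have s2 := typeA (nat_stP β) (by omega : 0 < α) hN0 (by rw [w2]; exact hβ) s1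
    exact tail (nat_stP β) (by rw [w3]; exact hα) s2
  · -- type B
    obtain ⟨c, hc⟩ : ∃ c, 2 * α = c + 1 := ⟨2 * α - 1, by omega⟩
    set R := T (π / (α + c : ℕ)) with hR
    have hRN : R ^ (α + c) = z := pow_N (by omega)
    have s0 : Reach (stP 1) (mP α 1) 0 (R ^ (2 * α)) (R ^ α) := by
      apply Reach.start
      · unfold stP
        rw [← pow_mul]; congr 1; ring
      · rw [← pow_add, ← pow_add, add_comm]
    have s1 := s0.step R (by rw [w1])
    rw [hc, pow_inv_mul] at s1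
    have s2 := s1.step (R ^ c)⁻¹ (by rw [w2, pow_one])
    rw [← mul_inv_rev, ← pow_add, add_comm c α, hRN] at s2
    exact typeB (nat_stP 1) (by omega) (by omega) (by rw [w3]; exact hα) s2

theorem endM {α β : ℕ} (hα : 2 ≤ α) (hβ : 1 ≤ β) : Reach stM (mM α β) 4 z⁻¹ g := by
  have w1 : mM α β 1 = β := by unfold mM wt; simp
  have w2 : mM α β 2 = α := by unfold mM wt; simp
  have w3 : mM α β 3 = β := by unfold mM wt; rw [if_neg (by decide)]
  have w4 : mM α β 4 = α := by unfold mM wt; rw [if_pos (by decide)]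
  rcases hβ.lt_or_eq with hβ | rfl
  · -- type A
    obtain ⟨N, hN⟩ : ∃ N, α * β = N + 1 := ⟨α * β - 1, by
      have : 0 < α * β := by positivity
      omega⟩
    have hN0 : α < N := by nlinarith
    set R := T (π / N) with hR
    have hRN : R ^ N = z := pow_N (by omega)
    have s0 : Reach stM (mM α β) 0 1 (R ^ (α * β)) := by
      apply Reach.start
      · rfl
      · rw [one_mul, mul_one]
    have s1 := s0.step (R ^ α) (by rw [w1, pow_mul])
    rw [inv_one, one_mul] at s1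
    have s2 := s1.step R (by rw [w2])
    rw [hN, pow_inv_mul, hRN] at s2
    have s3 := typeA nat_stM (by omega : 0 < α) hN0 (by rw [w3]; exact hβ) s2
    exact tail nat_stM (by rw [w4]; exact hα) s3
  · -- type B
    obtain ⟨c, hc⟩ : ∃ c, α = c + 1 := ⟨α - 1, by omega⟩
    set R := T (π / (α + c : ℕ)) with hR
    have hRN : R ^ (α + c) = z := pow_N (by omega)
    have s0 : Reach stM (mM α 1) 0 1 (R ^ α) := by
      apply Reach.start
      · rfl
      · rw [one_mul, mul_one]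
    have s1 := s0.step (R ^ α) (by rw [w1, pow_one])
    rw [inv_one, one_mul] at s1
    have s2 := s1.step R (by rw [w2])
    have e1 : (R ^ α)⁻¹ * R = (R ^ c)⁻¹ := by
      nth_rewrite 1 [hc]; exact pow_inv_mul R
    rw [e1] at s2
    have s3 := s2.step (R ^ c)⁻¹ (by rw [w3, pow_one])
    rw [← mul_inv_rev, ← pow_add, add_comm c α, hRN] at s3
    exact typeB nat_stM (by omega) (by omega) (by rw [w4]; exact hα) s3

/-- The end, `2 s` further steps, and one fast step. -/
theorem longP {α β : ℕ} (hα : 2 ≤ α) (hβ : 1 ≤ β) (s : ℕ) :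
    Reach (stP β) (mP α β) (4 + 2 * s) g z := by
  have key : ∀ s : ℕ, Reach (stP β) (mP α β) (3 + 2 * s) z⁻¹ g := by
    intro s
    induction s with
    | zero => exact endP hα hβ
    | succ s ih =>
      have e1 : mP α β (3 + 2 * s + 1) = β := by
        unfold mP wt; rw [if_pos]; exact ⟨2 + s, by push_cast; ring⟩
      have e2 : mP α β (3 + 2 * s + 1 + 1) = α := by
        unfold mP wt; rw [if_neg]
        rw [Int.not_even_iff_odd]; exact ⟨2 + s, by push_cast; ring⟩
      have h1 := fast (nat_stP β) (by rw [e1]; exact hβ) ih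
      have h2 := slow (nat_stP β) (by rw [e2]; exact hα) h1
      exact h2
  have e1 : mP α β (3 + 2 * s + 1) = β := by
    unfold mP wt; rw [if_pos]; exact ⟨2 + s, by push_cast; ring⟩
  have h1 := fast (nat_stP β) (by rw [e1]; exact hβ) (key s)
  have e : 3 + 2 * s + 1 = 4 + 2 * s := by ring
  rwa [e] at h1

theorem z_ne : z ≠ 1 := by
  intro h
  have : z 0 = (1 : H) 0 := by rw [h]
  rw [z_apply, one_apply] at this
  have := pi_pos
  linarith

theorem g_ne : g ≠ 1 := by
  intro h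
  have h1 : g (((0 : ℤ) : ℝ) * π + arctan 1) = (1 : H) (((0 : ℤ) : ℝ) * π + arctan 1) := by rw [h]
  rw [one_apply] at h1
  have h2 : affFun 4 0 (((0 : ℤ) : ℝ) * π + arctan 1) = ((0 : ℤ) : ℝ) * π + arctan 1 := h1
  rw [affFun_mid'] at h2
  have h3 : arctan (4 * 1 + 0) = arctan 1 := by linarith
  have := arctan_injective h3
  norm_num at this

/-- The chain on `0, …, n` for `n` even. -/
theorem chain_even {α β : ℕ} (hα : 2 ≤ α) (hβ : 1 ≤ β) (s : ℕ) :
    ∃ Z : ℕ → H, Ch (fun j => wt α β j) (8 + 2 * s) Z ∧ stP β (Z 0) (Z 1) ∧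
      stP β (Z (8 + 2 * s)) (Z (8 + 2 * s - 1)) ∧ ∃ k ≤ 8 + 2 * s, Z k ≠ 1 := by
  have h1 := longP hα hβ s
  have h2 := Reach_rho (nat_stP β) (endP hα hβ)
  rw [rho_z_inv, rho_g] at h2
  obtain ⟨Z, hZ, a1, a2, a3⟩ := join (n := 8 + 2 * s) h1 h2 (by ring) (by
    intro j hj
    unfold mP
    have : ((8 + 2 * s - j : ℕ) : ℤ) = -(j : ℤ) + 2 * (4 + s) := by
      rw [Nat.cast_sub hj]; push_cast; ring
    rw [this, wt_add_even _ _ _ _ ⟨4 + s, by ring⟩, wt_neg])
  exact ⟨Z, hZ, a1, a2, 4 + 2 * s, by omega, by rw [a3]; exact g_ne⟩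

/-- The chain on `0, …, n` for `n` odd. -/
theorem chain_odd {α β : ℕ} (hα : 2 ≤ α) (hβ : 1 ≤ β) (s : ℕ) :
    ∃ Z : ℕ → H, Ch (fun j => wt α β j) (9 + 2 * s) Z ∧ stP β (Z 0) (Z 1) ∧
      Z (9 + 2 * s) = 1 ∧ ∃ k ≤ 9 + 2 * s, Z k ≠ 1 := by
  have h1 := longP hα hβ s
  have h2 := Reach_rho nat_stM (endM hα hβ)
  rw [rho_z_inv, rho_g] at h2
  obtain ⟨Z, hZ, a1, a2, a3⟩ := join (n := 9 + 2 * s) h1 h2 (by ring) (by
    intro j hj
    unfold mP mM
    have : ((9 + 2 * s - j : ℕ) : ℤ) = -(j : ℤ) + 2 * (4 + s) + 1 := by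
      rw [Nat.cast_sub hj]; push_cast; ring
    rw [this, wt_succ, wt_add_even _ _ _ _ ⟨4 + s, by ring⟩, wt_neg])
  exact ⟨Z, hZ, a1, a2, 4 + 2 * s, by omega, by rw [a3]; exact g_ne⟩

/-- The two-sided chain. -/
theorem chain_full {α β n : ℕ} (hα : 2 ≤ α) (hβ : 1 ≤ β) (hn : 8 ≤ n) :
    ∃ F : ℤ → H, (∀ j, Chain.Rel (wt α β j) (F (j - 1)) (F j) (F (j + 1))) ∧
      (∀ j, F (j + 2 * n) = pw ((-1) ^ n) (F j)) ∧ ∃ j, F j ≠ 1 := by
  have hn0 : 0 < n := by omega
  have hne : ∀ (ε : ℤˣ) (Z : ℕ → H) (k : ℕ), k ≤ n → Z k ≠ 1 → unfolded n ε Z k ≠ 1 := by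
    intro ε Z k hk h
    have := unfolded_apply (ε := ε) (Z := Z) hn0 0 k (by omega)
    rw [mul_zero, zero_add, zpow_zero, pw_one] at this
    rw [this]; unfold Chain.refl; rw [if_pos hk]; exact h
  rcases Nat.even_or_odd n with he | ho
  · obtain ⟨s, hs⟩ : ∃ s, n = 8 + 2 * s := by
      obtain ⟨t, ht⟩ := he
      exact ⟨t - 4, by omega⟩
    obtain ⟨Z, hZ, a1, a2, k, hk, hk1⟩ := chain_even hα hβ s
    rw [← hs] at hZ a2 hk
    have hw : wt α β n = β := by
      unfold wt; rw [if_pos]; exact_mod_cast he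
    refine ⟨unfolded n 1 Z, unfolded_rel (by omega) hZ a1 (pw_one _) ?_, ?_, k, hne _ _ _ hk hk1⟩
    · rw [pw_one, hw, ← pow_two, ← pow_mul]
      exact a2
    · intro j
      rw [he.neg_one_pow, unfolded_period hn0]
  · obtain ⟨s, hs⟩ : ∃ s, n = 9 + 2 * s := by
      obtain ⟨t, ht⟩ := ho
      exact ⟨t - 4, by omega⟩
    obtain ⟨Z, hZ, a1, a2, k, hk, hk1⟩ := chain_odd hα hβ s
    rw [← hs] at hZ a2 hk
    refine ⟨unfolded n (-1) Z, unfolded_rel (by omega) hZ a1 ?_ ?_, ?_, k, hne _ _ _ hk hk1⟩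
    · rw [a2, pw_id]
    · rw [pw_neg, pw_one, mul_inv_cancel, one_pow, a2]
    · intro j
      rw [ho.neg_one_pow, unfolded_period hn0]

end Pool.Agent.H828.Ends
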