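import Pool.Agent.H979.FR.Stm

/-!
# Project FR (helper979), task SM: the hitting lower bound
-/

set_option autoImplicit false

open MeasureTheory ProbabilityTheory
open scoped ENNReal NNReal

namespace Pool.Agent.H828

open Pool.Agent.H979.FR

namespace FRSM

variable {V : Type} [MeasurableSpace V] [DiscreteMeasurableSpace V]

/-- the sigma-algebra of one coordinate -/
def co (p : ℕ × V) : MeasurableSpace (ℕ × V → V) :=
  MeasurableSpace.comap (fun c => c p) inferInstance

/-- the past of time `n` -/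
def Past (n : ℕ) : MeasurableSpace (ℕ × V → V) := ⨆ p ∈ {p : ℕ × V | p.1 < n}, co p

/-- the future of time `n` -/
def Futu (n : ℕ) : MeasurableSpace (ℕ × V → V) := ⨆ p ∈ {p : ℕ × V | n ≤ p.1}, co p

theorem co_le (p : ℕ × V) : co p ≤ (MeasurableSpace.pi : MeasurableSpace (ℕ × V → V)) :=
  (measurable_pi_apply p).comap_le

theorem Past_le (n : ℕ) : Past n ≤ (MeasurableSpace.pi : MeasurableSpace (ℕ × V → V)) :=
  iSup₂_le fun p _ => co_le p

theorem Futu_le (n : ℕ) : Futu n ≤ (MeasurableSpace.pi : MeasurableSpace (ℕ × V → V)) :=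
  iSup₂_le fun p _ => co_le p

theorem meas_past {n : ℕ} {p : ℕ × V} (h : p.1 < n) (S : Set V) :
    MeasurableSet[Past n] {c : ℕ × V → V | c p ∈ S} :=
  (le_iSup₂ (f := fun (p : ℕ × V) (_ : p ∈ {p : ℕ × V | p.1 < n}) => co p) p h) _
    ⟨S, MeasurableSet.of_discrete, rfl⟩

theorem meas_futu {n : ℕ} {p : ℕ × V} (h : n ≤ p.1) (S : Set V) :
    MeasurableSet[Futu n] {c : ℕ × V → V | c p ∈ S} :=
  (le_iSup₂ (f := fun (p : ℕ × V) (_ : p ∈ {p : ℕ × V | n ≤ p.1}) => co p) p h) _
    ⟨S, MeasurableSet.of_discrete, rfl⟩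

theorem path_meas [Countable V] (x : V) (n i : ℕ) (hi : i ≤ n) (y : V) :
    MeasurableSet[Past n] {c : ℕ × V → V | path x c i = y} := by
  induction i generalizing y with
  | zero => exact @MeasurableSet.const _ (Past n) (x = y)
  | succ i ih =>
    have h1 : {c : ℕ × V → V | path x c (i + 1) = y} =
        ⋃ z, {c : ℕ × V → V | path x c i = z} ∩ {c | c (i, z) ∈ ({y} : Set V)} := by
      ext c
      simp only [Set.mem_ofPred_eq, Set.mem_iUnion, Set.mem_inter_iff, Set.mem_singleton_iff]
      constructor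
      · intro h
        exact ⟨path x c i, rfl, h⟩
      · rintro ⟨z, h1, h2⟩
        rw [path, h1]
        exact h2
    rw [h1]
    exact @MeasurableSet.iUnion _ _ (Past n) _ _ fun z =>
      @MeasurableSet.inter _ (Past n) _ _ (ih (by omega) z) (meas_past (by simpa using hi) _)

variable (G : SimpleGraph V) [G.LocallyFinite]

theorem indep (n : ℕ) : Indep (Past n) (Futu n) (choiceLaw G) := by
  have h1 : iIndepFun (fun (p : ℕ × V) (c : ℕ × V → V) => c p) (choiceLaw G) :=
    iIndepFun_infinitePi (P := fun p : ℕ × V => stepLaw G p.2) (X := fun _ v => v)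
      fun _ => measurable_id
  have h2 := h1.iIndep
  refine indep_iSup_of_disjoint (fun p => co_le p) h2 ?_
  rw [Set.disjoint_left]
  intro p hp hp'
  simp only [Set.mem_ofPred_eq] at hp hp'
  omega

theorem inter_eq {n : ℕ} {E W : Set (ℕ × V → V)} (hE : MeasurableSet[Past n] E)
    (hW : MeasurableSet[Futu n] W) :
    choiceLaw G (E ∩ W) = choiceLaw G E * choiceLaw G W :=
  (Indep_iff _ _ _).1 (indep G n) E W hE hW

variable {G}

theorem step_eq {d : ℕ} (hd : 0 < d) (hdeg : ∀ v, G.degree v = d) (v w : V) :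
    stepLaw G v {w} = open Classical in if G.Adj v w then (d : ℝ≥0∞)⁻¹ else 0 := by
  classical
  have hne : (G.neighborSet v).Nonempty := by
    have : 0 < G.degree v := by rw [hdeg]; exact hd
    rw [SimpleGraph.degree, Finset.card_pos] at this
    obtain ⟨u, hu⟩ := this
    exact ⟨u, by simpa using hu⟩
  unfold stepLaw
  rw [if_pos hne]
  have h1 : G.neighborSet v = (G.neighborFinset v : Set V) := by simp
  have h2 : ({w} : Set V) = (({w} : Finset V) : Set V) := by simp
  rw [h1, h2, uniformOn_apply_finset]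
  have h3 : (G.neighborFinset v).card = d := hdeg v
  rw [h3]
  split_ifs with h
  · have h4 : G.neighborFinset v ∩ {w} = {w} := by
      ext u
      simp only [Finset.mem_inter, Finset.mem_singleton]
      constructor
      · exact fun h => h.2
      · rintro rfl
        exact ⟨by simpa using h, rfl⟩
    rw [h4, Finset.card_singleton, Nat.cast_one, one_div]
  · have h4 : G.neighborFinset v ∩ {w} = ∅ := by
      ext u
      simp only [Finset.mem_inter, Finset.mem_singleton]
      constructor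
      · rintro ⟨h5, rfl⟩
        exact absurd (by simpa using h5) h
      · intro h5
        exact absurd h5 (Finset.notMem_empty _)
    rw [h4, Finset.card_empty, Nat.cast_zero, ENNReal.zero_div]

theorem coord_eq (p : ℕ × V) (w : V) :
    choiceLaw G {c | c p ∈ ({w} : Set V)} = stepLaw G p.2 {w} := by
  have h := Measure.infinitePi_map_eval (fun p : ℕ × V => stepLaw G p.2) p
  rw [← h, Measure.map_apply (measurable_pi_apply p) MeasurableSet.of_discrete]
  rfl

variable [Countable V]

/-- sum over the position at time `n` -/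
theorem sum_pos' (x : V) (n : ℕ) {E : Set (ℕ × V → V)} (hE : MeasurableSet E) :
    choiceLaw G E = ∑' y, choiceLaw G (E ∩ {c | path x c n = y}) := by
  rw [← measure_iUnion]
  · congr 1
    ext c
    simp
  · intro y z hyz
    rw [Function.onFun, Set.disjoint_left]
    rintro c ⟨-, h1⟩ ⟨-, h2⟩
    exact hyz (h1.symm.trans h2)
  · exact fun y => hE.inter (Past_le n _ (path_meas x n n le_rfl y))

/-- the law of the position -/
theorem pX (hSYM : S_SYM) {d : ℕ} (hd : 0 < d) (hdeg : ∀ v, G.degree v = d) (x : V) (n : ℕ) (y : V) :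
    choiceLaw G {c | path x c n = y} = ENNReal.ofReal (pn G n x y) := by
  classical
  obtain ⟨h0, hs, -⟩ := hSYM V G d hd hdeg
  induction n generalizing y with
  | zero =>
    by_cases hxy : x = y
    · have h1 : {c : ℕ × V → V | path x c 0 = y} = Set.univ := by
        ext c
        simp [path, hxy]
      rw [h1, measure_univ, pn, if_pos hxy, ENNReal.ofReal_one]
    · have h1 : {c : ℕ × V → V | path x c 0 = y} = ∅ := by
        ext c
        simp [path, hxy]
      rw [h1, measure_empty, pn, if_neg hxy, ENNReal.ofReal_zero]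
  | succ n ih =>
    rw [sum_pos' (G := G) x n (Past_le (n + 1) _ (path_meas x (n + 1) (n + 1) le_rfl y))]
    have h1 : ∀ z, choiceLaw G ({c | path x c (n + 1) = y} ∩ {c | path x c n = z}) =
        ENNReal.ofReal (pn G n x z) * (if G.Adj z y then (d : ℝ≥0∞)⁻¹ else 0) := by
      intro z
      have h2 : {c : ℕ × V → V | path x c (n + 1) = y} ∩ {c | path x c n = z} =
          {c | path x c n = z} ∩ {c | c (n, z) ∈ ({y} : Set V)} := by
        ext c
        simp only [Set.mem_inter_iff, Set.mem_ofPred_eq, Set.mem_singleton_iff]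
        constructor
        · rintro ⟨h3, h4⟩
          rw [path, h4] at h3
          exact ⟨h4, h3⟩
        · rintro ⟨h3, h4⟩
          rw [path, h3]
          exact ⟨h4, rfl⟩
      rw [h2, inter_eq G (path_meas x n n le_rfl z) (meas_futu (by simp) _), ih z, coord_eq,
        step_eq hd hdeg]
    rw [tsum_congr h1, tsum_eq_sum (s := G.neighborFinset y)]
    · have h3 : ∀ z ∈ G.neighborFinset y,
          ENNReal.ofReal (pn G n x z) * (if G.Adj z y then (d : ℝ≥0∞)⁻¹ else 0) =
          ENNReal.ofReal (pn G n x z / d) := by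
        intro z hz
        rw [SimpleGraph.mem_neighborFinset] at hz
        rw [if_pos hz.symm, ENNReal.ofReal_div_of_pos (by exact_mod_cast hd),
          ENNReal.ofReal_natCast, div_eq_mul_inv]
      rw [Finset.sum_congr rfl h3, ← ENNReal.ofReal_sum_of_nonneg fun z _ =>
        div_nonneg (h0 n x z) (Nat.cast_nonneg _)]
      congr 1
      rw [hs (n + 1) x y, pn, hdeg, Finset.sum_div]
      exact Finset.sum_congr rfl fun z _ => by rw [hs n x z]
    · intro z hz
      rw [SimpleGraph.mem_neighborFinset] at hz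
      rw [if_neg fun h => hz h.symm, mul_zero]

/-- the path `ψ` is followed from time `n` on -/
def W (ψ : ℕ → V) (n τ : ℕ) : Set (ℕ × V → V) := {c | ∀ i < τ, c (n + i, ψ i) = ψ (i + 1)}

omit [Countable V] in
theorem W_meas (ψ : ℕ → V) (n τ : ℕ) : MeasurableSet[Futu n] (W ψ n τ) := by
  have h1 : W ψ n τ = ⋂ i : ℕ, ⋂ _ : i < τ, {c | c (n + i, ψ i) ∈ ({ψ (i + 1)} : Set V)} := by
    ext c
    simp [W]
  rw [h1]
  exact @MeasurableSet.iInter _ _ (Futu n) _ _ fun i =>
    @MeasurableSet.iInter _ _ (Futu n) _ _ fun _ => meas_futu (by simp) _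

omit [Countable V] in
theorem W_prob {d : ℕ} (hd : 0 < d) (hdeg : ∀ v, G.degree v = d) (ψ : ℕ → V)
    (hψ : ∀ i, G.Adj (ψ i) (ψ (i + 1))) (n τ : ℕ) :
    choiceLaw G (W ψ n τ) = ((d : ℝ≥0∞)⁻¹) ^ τ := by
  classical
  have hinj : Set.InjOn (fun i => ((n + i, ψ i) : ℕ × V)) (Finset.range τ : Set ℕ) := by
    intro i _ j _ hij
    have := congrArg Prod.fst hij
    simp only at this
    omega
  have h1 : W ψ n τ = Set.pi (((Finset.range τ).image fun i => ((n + i, ψ i) : ℕ × V) :
      Finset (ℕ × V)) : Set (ℕ × V)) (fun p => {ψ (p.1 - n + 1)}) := by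
    ext c
    simp only [W, Set.mem_ofPred_eq, Set.mem_pi, Finset.coe_image, Set.mem_image,
      Finset.mem_coe, Finset.mem_range, Set.mem_singleton_iff]
    constructor
    · rintro h _ ⟨i, hi, rfl⟩
      rw [h i hi]
      simp
    · intro h i hi
      have := h (n + i, ψ i) ⟨i, hi, rfl⟩
      simpa using this
  have h3 := Measure.infinitePi_pi (μ := fun p : ℕ × V => stepLaw G p.2)
    (s := (Finset.range τ).image fun i => ((n + i, ψ i) : ℕ × V))
    (t := fun p => {ψ (p.1 - n + 1)}) (fun _ _ => MeasurableSet.of_discrete)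
  rw [h1]
  refine h3.trans ?_
  rw [Finset.prod_image hinj]
  have h2 : ∀ i ∈ Finset.range τ, stepLaw G ((n + i, ψ i) : ℕ × V).2
      {ψ (((n + i, ψ i) : ℕ × V).1 - n + 1)} = (d : ℝ≥0∞)⁻¹ := by
    intro i _
    have e1 : n + i - n = i := by omega
    simp only [e1]
    rw [step_eq hd hdeg, if_pos (hψ i)]
  rw [Finset.prod_congr rfl h2, Finset.prod_const, Finset.card_range]

/-- The prescribed path is followed from time `n` on. -/
def Fo (x : V) (φ : V → ℕ → V) (n τ : ℕ) : Set (ℕ × V → V) :=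
  {c | ∀ i ≤ τ, path x c (n + i) = φ (path x c n) i}

omit [MeasurableSpace V] [DiscreteMeasurableSpace V] [Countable V] in
theorem Fo_inter (x : V) (φ : V → ℕ → V) (hφ : ∀ x, φ x 0 = x) (n τ : ℕ) (y : V) :
    Fo x φ n τ ∩ {c | path x c n = y} = {c | path x c n = y} ∩ W (φ y) n τ := by
  ext c
  simp only [Fo, W, Set.mem_inter_iff, Set.mem_ofPred_eq]
  constructor
  · rintro ⟨h1, h2⟩
    refine ⟨h2, fun i hi => ?_⟩
    rw [h2] at h1
    have h3 := h1 (i + 1) (by omega)
    have h4 := h1 i (by omega)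
    rw [← add_assoc, path, h4] at h3
    exact h3
  · rintro ⟨h1, h2⟩
    refine ⟨fun i hi => ?_, h1⟩
    rw [h1]
    induction i with
    | zero => rw [add_zero, h1, hφ]
    | succ i ih =>
      rw [← add_assoc, path, ih (by omega)]
      exact h2 i (by omega)

theorem Fo_meas (x : V) (φ : V → ℕ → V) (n τ N : ℕ) (hN : n + τ ≤ N) :
    MeasurableSet[Past N] (Fo x φ n τ) := by
  have h1 : Fo x φ n τ = ⋂ i : ℕ, ⋂ _ : i ≤ τ, ⋃ y : V,
      {c | path x c n = y} ∩ {c | path x c (n + i) = φ y i} := by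
    ext c
    simp only [Fo, Set.mem_ofPred_eq, Set.mem_iInter, Set.mem_iUnion, Set.mem_inter_iff]
    constructor
    · intro h i hi
      exact ⟨_, rfl, h i hi⟩
    · intro h i hi
      obtain ⟨y, h1, h2⟩ := h i hi
      rw [h1]
      exact h2
  rw [h1]
  exact @MeasurableSet.iInter _ _ (Past N) _ _ fun i =>
    @MeasurableSet.iInter _ _ (Past N) _ _ fun hi =>
      @MeasurableSet.iUnion _ _ (Past N) _ _ fun y =>
        @MeasurableSet.inter _ (Past N) _ _ (path_meas x N n (by omega) y)
          (path_meas x N (n + i) (by omega) _)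

/-- the Markov property -/
theorem markov {d : ℕ} (hd : 0 < d) (hdeg : ∀ v, G.degree v = d) (x : V) (φ : V → ℕ → V)
    (hφ : ∀ x, φ x 0 = x) (hφ' : ∀ x i, G.Adj (φ x i) (φ x (i + 1))) (n τ : ℕ)
    {E : Set (ℕ × V → V)} (hE : MeasurableSet[Past n] E) :
    choiceLaw G (E ∩ Fo x φ n τ) = choiceLaw G E * ((d : ℝ≥0∞)⁻¹) ^ τ := by
  rw [sum_pos' (G := G) x n ((Past_le n _ hE).inter (Past_le _ _ (Fo_meas x φ n τ (n + τ) le_rfl))),
    sum_pos' (G := G) x n (Past_le n _ hE), ← ENNReal.tsum_mul_right]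
  refine tsum_congr fun y => ?_
  rw [Set.inter_assoc, Fo_inter x φ hφ n τ y, ← Set.inter_assoc,
    inter_eq G (@MeasurableSet.inter _ (Past n) _ _ hE (path_meas x n n le_rfl y)) (W_meas _ _ _),
    W_prob hd hdeg _ (hφ' y)]

omit [Countable V] in
theorem Past_mono {m n : ℕ} (h : m ≤ n) : (Past m : MeasurableSpace (ℕ × V → V)) ≤ Past n :=
  iSup₂_le fun p hp => le_iSup₂ (f := fun (p : ℕ × V) (_ : p ∈ {p : ℕ × V | p.1 < n}) => co p) p
    (lt_of_lt_of_le hp h)

end FRSM

open FRSM

theorem fr_sm (hSYM : S_SYM) : S_SM := by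
  intro V _ _ _ G _ d hd hdeg τ m φ hφ hφ' hτ hm1 hm2 x A
  obtain ⟨h0, -, -⟩ := hSYM V G d hd hdeg
  set P := choiceLaw G with hP
  have hd' : (0 : ℝ) < d := by exact_mod_cast hd
  -- the events
  let At : ℕ → Set (ℕ × V → V) := fun n => {c | path x c n ∈ A}
  let B : ℕ → Set (ℕ × V → V) := fun j => At (j * τ) ∩ Fo x φ (j * τ) τ
  have hAt : ∀ n, MeasurableSet[Past n] (At n) := by
    intro n
    have h1 : At n = ⋃ y : V, ⋃ _ : y ∈ A, {c : ℕ × V → V | path x c n = y} := by
      ext c
      simp [At]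
    rw [h1]
    exact @MeasurableSet.iUnion _ _ (Past n) _ _ fun y =>
      @MeasurableSet.iUnion _ _ (Past n) _ _ fun _ => path_meas x n n le_rfl y
  have hB : ∀ j, MeasurableSet[Past ((j + 1) * τ)] (B j) := by
    intro j
    have h1 : (j + 1) * τ = j * τ + τ := by ring
    exact @MeasurableSet.inter _ (Past ((j + 1) * τ)) _ _
      (Past_mono (by rw [h1]; omega) _ (hAt (j * τ))) (Fo_meas x φ (j * τ) τ _ (by rw [h1]))
  have hBm : ∀ j, MeasurableSet (B j) := fun j => Past_le _ _ (hB j)
  set q : ℝ := ((d : ℝ)⁻¹) ^ τ with hq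
  have hq0 : 0 < q := by positivity
  have hqE : (((d : ℝ≥0∞)⁻¹) ^ τ).toReal = q := by
    rw [ENNReal.toReal_pow, ENNReal.toReal_inv, ENNReal.toReal_natCast]
  -- the probability of `B j`
  have hPB : ∀ j, P.real (B j) = q * ∑ y ∈ A, pn G (j * τ) x y := by
    intro j
    have h1 : P (B j) = P (At (j * τ)) * ((d : ℝ≥0∞)⁻¹) ^ τ :=
      markov hd hdeg x φ hφ hφ' (j * τ) τ (hAt _)
    have h2 : P (At (j * τ)) = ∑ y ∈ A, ENNReal.ofReal (pn G (j * τ) x y) := by
      have h3 : At (j * τ) = ⋃ y ∈ A, {c : ℕ × V → V | path x c (j * τ) = y} := by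
        ext c
        simp [At]
      rw [h3, measure_biUnion_finset]
      · exact Finset.sum_congr rfl fun y _ => pX hSYM hd hdeg x _ y
      · intro y _ z _ hyz
        rw [Function.onFun, Set.disjoint_left]
        intro c h1 h2
        exact hyz (h1.symm.trans h2)
      · exact fun y _ => Past_le _ _ (path_meas x _ _ le_rfl y)
    rw [Measure.real, h1, h2, ENNReal.toReal_mul, hqE, ENNReal.toReal_sum fun y _ => ENNReal.ofReal_ne_top,
      mul_comm]
    congr 1
    exact Finset.sum_congr rfl fun y _ => ENNReal.toReal_ofReal (h0 _ _ _)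
  -- two of them
  have hPBB : ∀ j k, j < k → P.real (B j ∩ B k) ≤ q * P.real (B j) := by
    intro j k hjk
    have h1 : P (B j ∩ Fo x φ (k * τ) τ) = P (B j) * ((d : ℝ≥0∞)⁻¹) ^ τ :=
      markov hd hdeg x φ hφ hφ' (k * τ) τ (Past_mono (Nat.mul_le_mul_right τ hjk) _ (hB j))
    have h2 : P.real (B j ∩ B k) ≤ P.real (B j ∩ Fo x φ (k * τ) τ) :=
      measureReal_mono fun c hc => ⟨hc.1, hc.2.2⟩
    refine h2.trans (le_of_eq ?_)
    rw [Measure.real, h1, ENNReal.toReal_mul, hqE, mul_comm]
    rfl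
  -- Bonferroni
  have hbon : ∀ n : ℕ, ∑ j ∈ Finset.range n, P.real (B j) -
      ∑ k ∈ Finset.range n, q * ∑ j ∈ Finset.range k, P.real (B j) ≤
      P.real (⋃ j ∈ Finset.range n, B j) := by
    intro n
    induction n with
    | zero => simp
    | succ n ih =>
      rw [Finset.sum_range_succ, Finset.sum_range_succ]
      have h1 : (⋃ j ∈ Finset.range (n + 1), B j) = (⋃ j ∈ Finset.range n, B j) ∪ B n := by
        rw [Finset.range_add_one, Finset.set_biUnion_insert, Set.union_comm]
      have h2 := measureReal_union_add_inter (μ := P) (s := ⋃ j ∈ Finset.range n, B j) (hBm n)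
        (measure_ne_top _ _) (measure_ne_top _ _)
      have h3 : P.real ((⋃ j ∈ Finset.range n, B j) ∩ B n) ≤
          q * ∑ j ∈ Finset.range n, P.real (B j) := by
        rw [Set.iUnion₂_inter, Finset.mul_sum]
        refine (measureReal_biUnion_finset_le _ _).trans (Finset.sum_le_sum fun j hj => ?_)
        exact hPBB j n (Finset.mem_range.1 hj)
      rw [h1]
      linarith
  have hmono : ∀ k ∈ Finset.range m, q * ∑ j ∈ Finset.range k, P.real (B j) ≤
      q * ∑ j ∈ Finset.range m, P.real (B j) := by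
    intro k hk
    refine mul_le_mul_of_nonneg_left ?_ hq0.le
    exact Finset.sum_le_sum_of_subset_of_nonneg (Finset.range_mono (Finset.mem_range.1 hk).le)
      fun j _ _ => measureReal_nonneg
  have h1 := hbon m
  have h2 := Finset.sum_le_sum hmono
  rw [Finset.sum_const, Finset.card_range, nsmul_eq_mul] at h2
  have hSm : ∑ j ∈ Finset.range m, P.real (B j) = q * (m * ∑ y ∈ A, kap G m τ x y) := by
    have hm0 : (m : ℝ) ≠ 0 := by
      have : 0 < (d : ℝ) ^ τ / 4 := by positivity
      intro h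
      rw [h] at hm2
      linarith
    rw [Finset.sum_congr rfl fun j _ => hPB j, ← Finset.mul_sum, Finset.sum_comm]
    congr 1
    rw [Finset.mul_sum]
    refine Finset.sum_congr rfl fun y _ => ?_
    unfold kap
    field_simp
  have hK0 : 0 ≤ ∑ y ∈ A, kap G m τ x y := by
    refine Finset.sum_nonneg fun y _ => ?_
    unfold kap
    exact div_nonneg (Finset.sum_nonneg fun j _ => h0 _ _ _) (Nat.cast_nonneg _)
  have hqd : q * (d : ℝ) ^ τ = 1 := by
    rw [hq, ← mul_pow, inv_mul_cancel₀ hd'.ne', one_pow]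
  have hmq1 : (m : ℝ) * q ≤ 1 / 2 := by
    have := mul_le_mul_of_nonneg_right hm1 hq0.le
    have h3 : (d : ℝ) ^ τ / 2 * q = 1 / 2 := by
      rw [div_mul_eq_mul_div, mul_comm, hqd]
    linarith
  have hmq2 : 1 / 4 ≤ (m : ℝ) * q := by
    have := mul_le_mul_of_nonneg_right hm2 hq0.le
    have h3 : (d : ℝ) ^ τ / 4 * q = 1 / 4 := by
      rw [div_mul_eq_mul_div, mul_comm, hqd]
    linarith
  have hS0 : 0 ≤ ∑ j ∈ Finset.range m, P.real (B j) :=
    Finset.sum_nonneg fun j _ => measureReal_nonneg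
  have hfin : 1 / 8 * ∑ y ∈ A, kap G m τ x y ≤ P.real (⋃ j ∈ Finset.range m, B j) := by
    have h3 : (m : ℝ) * (q * ∑ j ∈ Finset.range m, P.real (B j)) ≤
        1 / 2 * ∑ j ∈ Finset.range m, P.real (B j) := by
      rw [← mul_assoc]
      exact mul_le_mul_of_nonneg_right hmq1 hS0
    have h4 : 1 / 4 * ∑ y ∈ A, kap G m τ x y ≤ ∑ j ∈ Finset.range m, P.real (B j) := by
      rw [hSm, ← mul_assoc, mul_comm q]
      exact mul_le_mul_of_nonneg_right hmq2 hK0
    linarith
  have hset : (⋃ j ∈ Finset.range m, B j) = {c | ∃ j < m, path x c (j * τ) ∈ A ∧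
      ∀ i ≤ τ, path x c (j * τ + i) = φ (path x c (j * τ)) i} := by
    ext c
    simp only [B, At, Fo, Set.mem_iUnion, Finset.mem_range, Set.mem_inter_iff, Set.mem_ofPred_eq,
      exists_prop]
  rw [← hset]
  exact ENNReal.ofReal_le_of_le_toReal hfin

end Pool.Agent.H828
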