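import Pool.Agent.H867.FT.Gen2

/-!
# FTQ INQ (helper867): the final computation with norms
-/

set_option autoImplicit false

namespace Pool.Agent.H828.FT867INQ

theorem norm_mem {V L W K : Type} [CommRing V] [IsDomain V] [IsDiscreteValuationRing V] [Field L]
    [Algebra V L] [IsFractionRing V L] [CommRing W] [IsDomain W] [Algebra V W] [Field K]
    [Algebra W K] [IsFractionRing W K] [Algebra L K] [Algebra V K] [IsScalarTower V L K]
    [IsScalarTower V W K] [IsIntegralClosure W V K] [FiniteDimensional L K]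
    [Algebra.IsSeparable L K] (w : W) :
    ∃ x : V, algebraMap V L x = Algebra.norm L (algebraMap W K w) := by
  have h1 : IsIntegral V (algebraMap W K w) :=
    (IsIntegralClosure.isIntegral_iff (A := W)).2 ⟨w, rfl⟩
  have h2 : IsIntegral V (Algebra.norm L (algebraMap W K w)) := Algebra.isIntegral_norm L h1
  exact IsIntegrallyClosed.isIntegral_iff.1 h2

theorem inq : Pool.Agent.H867.FT.S_INQ := by
  intro V L W K _ _ _ _ _ _ _ _ _ _ _ _ _ _ _ _ _ _ _ e n N s r M π g D ε₁ ε₂ ε₃ μ w δ ρ f' β f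
    he hπ h₁ h₂ h₃ hD hβ hf heq hf' hδ hρ hβN
  obtain ⟨nw, hnw⟩ := norm_mem (V := V) (L := L) (K := K) w
  obtain ⟨nf, hnf⟩ := norm_mem (V := V) (L := L) (K := K) f'
  have hNπ : Algebra.norm L (algebraMap V K π) = algebraMap V L π ^ e := by
    rw [IsScalarTower.algebraMap_apply V L K, Algebra.norm_algebraMap, he]
  have h1 := congrArg (Algebra.norm L) heq
  rw [map_mul, map_mul, hf', map_mul, map_pow, hNπ, ← hnw, ← hnf, hβN] at h1
  have h2 : Algebra.norm L (algebraMap W K ((δ * ρ) ^ n * algebraMap V W π ^ M)) =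
      algebraMap V L (((ε₁ * D) * (ε₂ * π ^ r)) ^ n * (π ^ e) ^ M) := by
    have e0 : algebraMap W K ((δ * ρ) ^ n * algebraMap V W π ^ M) =
        (algebraMap W K δ * algebraMap W K ρ) ^ n * algebraMap V K π ^ M := by
      simp only [map_mul, map_pow]
      rw [← IsScalarTower.algebraMap_apply V W K]
    rw [e0, map_mul, map_pow, map_mul, map_pow, hδ, hρ, hNπ]
    simp only [map_mul, map_pow]
  rw [h2] at h1
  have h3 : nw * (g * (ε₃ * (π ^ s * μ) ^ 2 * D) ^ n * ((π ^ e) ^ N * nf)) =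
      ((ε₁ * D) * (ε₂ * π ^ r)) ^ n * (π ^ e) ^ M := by
    apply IsFractionRing.injective V L
    rw [← h1]
    simp only [map_mul, map_pow]
  have h4 : D ^ n * (π ^ (e * N + 2 * s * n) * (nw * g * ε₃ ^ n * μ ^ (2 * n) * nf)) =
      D ^ n * (π ^ (r * n + e * M) * (ε₁ * ε₂) ^ n) := by
    calc _ = nw * (g * (ε₃ * (π ^ s * μ) ^ 2 * D) ^ n * ((π ^ e) ^ N * nf)) := by
          simp only [mul_pow, ← pow_mul, pow_add]
          ring
      _ = _ := h3
      _ = _ := by
          simp only [mul_pow, ← pow_mul, pow_add]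
          ring
  have h5 := mul_left_cancel₀ (pow_ne_zero n hD) h4
  have h6 : π ^ (e * N + 2 * s * n) ∣ π ^ (r * n + e * M) * (ε₁ * ε₂) ^ n := ⟨_, h5.symm⟩
  have hu : IsUnit ((ε₁ * ε₂) ^ n) := (h₁.mul h₂).pow n
  rw [hu.dvd_mul_right] at h6
  exact (pow_dvd_pow_iff hπ.ne_zero hπ.not_isUnit).1 h6

end Pool.Agent.H828.FT867INQ
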