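import Pool.Agent.H867.FT.Stm

/-!
# Subtask SUP of `Pool.Agent.H867.FT.Stm` (helper828)
-/

namespace Pool.Agent.H828.FTSup

open Pool.Agent.H867.FT

variable {d n : ℕ} (C : Cone d n) (K : Type) [Field K]

theorem aug_single (u : C.S) (c : K) :
    C.aug K (AddMonoidAlgebra.single u c) = if u = 0 then c else 0 := by
  classical
  rw [Cone.aug_eq_lift]
  rw [AddMonoidAlgebra.lift_single]
  by_cases h : u = 0
  · subst h
    simp
  · simp [h]

/-- the augmentation is the coefficient at `0` -/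
theorem aug_eq (a : C.Ring K) : C.aug K a = a.coeff 0 := by
  classical
  induction a using AddMonoidAlgebra.induction_linear with
  | zero => simp
  | add f g hf hg => rw [map_add, hf, hg, AddMonoidAlgebra.coeff_add, Finsupp.add_apply]
  | single u c =>
    rw [aug_single, AddMonoidAlgebra.coeff_single, Finsupp.single_apply]

theorem mem_maxIdeal (a : C.Ring K) : a ∈ C.maxIdeal K ↔ a.coeff 0 = 0 := by
  unfold Cone.maxIdeal
  rw [RingHom.mem_ker, ← aug_eq C K a]
  rfl

theorem maxIdeal_le_span : C.maxIdeal K ≤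
    Ideal.span {f | ∃ u : C.S, u ≠ 0 ∧ f = AddMonoidAlgebra.single u (1 : K)} := by
  intro a ha
  rw [mem_maxIdeal] at ha
  rw [← AddMonoidAlgebra.sum_coeff_single a]
  refine Submodule.sum_mem _ ?_
  intro u hu
  have hu0 : u ≠ 0 := by
    rintro rfl
    exact (Finsupp.mem_support_iff.1 hu) ha
  have e : (AddMonoidAlgebra.single u (a.coeff u) : C.Ring K) =
      AddMonoidAlgebra.single 0 (a.coeff u) * AddMonoidAlgebra.single u (1 : K) := by
    rw [AddMonoidAlgebra.single_mul_single, zero_add, mul_one]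
  rw [e]
  exact Ideal.mul_mem_left _ _ (Ideal.subset_span ⟨u, hu0, rfl⟩)

theorem maxIdeal_pow_le_span (N : ℕ) : (C.maxIdeal K) ^ N ≤
    Ideal.span {f | ∃ w : Fin N → C.S, (∀ j, w j ≠ 0) ∧
      f = AddMonoidAlgebra.single (∑ j, w j) (1 : K)} := by
  induction N with
  | zero =>
    rw [pow_zero]
    intro a _
    have h1 : (1 : C.Ring K) ∈ Ideal.span {f | ∃ w : Fin 0 → C.S, (∀ j, w j ≠ 0) ∧
      f = AddMonoidAlgebra.single (∑ j, w j) (1 : K)} := by
      refine Ideal.subset_span ⟨fun j => j.elim0, fun j => j.elim0, ?_⟩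
      rw [Finset.univ_eq_empty, Finset.sum_empty]
      exact AddMonoidAlgebra.one_def
    rw [(Ideal.eq_top_iff_one _).2 h1]
    trivial
  | succ N ih =>
    rw [pow_succ]
    refine (Ideal.mul_mono ih (maxIdeal_le_span C K)).trans ?_
    rw [Ideal.span_mul_span']
    refine Ideal.span_le.2 ?_
    rintro _ ⟨f, ⟨w, hw, rfl⟩, g, ⟨u, hu, rfl⟩, rfl⟩
    refine Ideal.subset_span ⟨Fin.snoc w u, ?_, ?_⟩
    · intro j
      refine Fin.lastCases ?_ ?_ j
      · simpa using hu
      · intro i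
        simpa using hw i
    · show AddMonoidAlgebra.single (∑ j, w j) (1 : K) * AddMonoidAlgebra.single u (1 : K) = _
      rw [AddMonoidAlgebra.single_mul_single, mul_one, Fin.sum_univ_castSucc]
      simp

/-- the image of a monomial in the local ring -/
noncomputable def mon (u : C.S) : C.LocalRing K :=
  algebraMap (C.Ring K) (C.LocalRing K) (AddMonoidAlgebra.single u (1 : K))

theorem mon_add (u w : C.S) : mon C K (u + w) = mon C K u * mon C K w := by
  unfold mon
  rw [← map_mul, AddMonoidAlgebra.single_mul_single, mul_one]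

theorem mon_nsmul (q : ℕ) (u : C.S) : mon C K (q • u) = mon C K u ^ q := by
  induction q with
  | zero =>
    rw [zero_smul, pow_zero]
    unfold mon
    rw [← AddMonoidAlgebra.one_def, map_one]
  | succ q ih => rw [succ_nsmul, mon_add, ih, pow_succ]

/-- divisibility of monomials in the local ring -/
theorem exists_add_of_dvd (g h : C.S) (r : C.LocalRing K) (hr : mon C K h = mon C K g * r) :
    ∃ t : C.S, g + t = h := by
  classical
  obtain ⟨a, s, rfl⟩ := IsLocalization.exists_mk'_eq (C.maxIdeal K).primeCompl r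
  have h1 : algebraMap (C.Ring K) (C.LocalRing K)
      ((s : C.Ring K) * AddMonoidAlgebra.single h (1 : K)) =
      algebraMap (C.Ring K) (C.LocalRing K) (AddMonoidAlgebra.single g (1 : K) * a) := by
    rw [map_mul, map_mul]
    change algebraMap (C.Ring K) (C.LocalRing K) (s : C.Ring K) * mon C K h =
      mon C K g * algebraMap (C.Ring K) (C.LocalRing K) a
    rw [hr, ← IsLocalization.mk'_spec' (C.LocalRing K) a s]
    ring
  obtain ⟨t, ht⟩ := (IsLocalization.eq_iff_exists (C.maxIdeal K).primeCompl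
    (C.LocalRing K)).1 h1
  by_contra hne
  push Not at hne
  have h2 : ((t : C.Ring K) * s) * AddMonoidAlgebra.single h (1 : K) =
      AddMonoidAlgebra.single g (1 : K) * ((t : C.Ring K) * a) := by
    rw [mul_assoc, ht]
    ring
  have h3 := congrArg (fun z : C.Ring K => z.coeff h) h2
  have h4 : (AddMonoidAlgebra.single g (1 : K) * ((t : C.Ring K) * a)).coeff h = 0 :=
    AddMonoidAlgebra.coeff_single_mul_of_forall_add_ne _ _ hne
  have h5 : (((t : C.Ring K) * s) * AddMonoidAlgebra.single h (1 : K)).coeff h =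
      ((t : C.Ring K) * s).coeff 0 := by
    rw [AddMonoidAlgebra.coeff_mul_single_eq_coeff_mul (m₂ := 0), mul_one]
    intro m' _
    exact ⟨fun e => by simpa using e, fun e => by rw [e, zero_add]⟩
  have h6 : ((t : C.Ring K) * s).coeff 0 = 0 := by
    rw [← h5]
    exact h3.trans h4
  have h7 : ((t : C.Ring K) * s) ∈ C.maxIdeal K := (mem_maxIdeal C K _).2 h6
  have h8 : ((t * s : (C.maxIdeal K).primeCompl) : C.Ring K) ∉ C.maxIdeal K := (t * s).2
  exact h8 h7

/-- a lattice point pairing to `1` with a ray -/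
theorem exists_pair_one (i : Fin n) : ∃ g : Fin d → ℤ, C.v i ⬝ᵥ g = 1 := by
  have hp : (Ideal.span (Set.range (C.v i))).IsPrincipal := inferInstance
  obtain ⟨k, hk⟩ := hp
  have hk' : Ideal.span (Set.range (C.v i)) = Ideal.span {k} := hk
  have hdiv : ∀ j, ∃ w, C.v i j = k * w := by
    intro j
    have : C.v i j ∈ Ideal.span {k} := by
      rw [← hk']
      exact Ideal.subset_span ⟨j, rfl⟩
    exact Ideal.mem_span_singleton.1 this
  choose w hw using hdiv
  have hu : IsUnit k := C.primitive i k w (by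
    funext j
    rw [hw j]
    rfl)
  have h1 : (1 : ℤ) ∈ Ideal.span (Set.range (C.v i)) := by
    rw [hk', Ideal.span_singleton_eq_top.2 hu]
    trivial
  obtain ⟨c, hc⟩ := Ideal.mem_span_range_iff_exists_fun.1 h1
  refine ⟨c, ?_⟩
  rw [← hc]
  unfold dotProduct
  exact Finset.sum_congr rfl fun j _ => mul_comm _ _

/-- the pair of semigroup elements for a ray -/
theorem exists_gh (i : Fin n) : ∃ g h : C.S, C.v i ⬝ᵥ (g : Fin d → ℤ) = 1 ∧
    C.v i ⬝ᵥ (h : Fin d → ℤ) = 0 ∧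
    ∀ j, j ≠ i → C.v j ⬝ᵥ (g : Fin d → ℤ) ≤ C.v j ⬝ᵥ (h : Fin d → ℤ) := by
  obtain ⟨g₀, hg₀⟩ := exists_pair_one C i
  obtain ⟨h₀, hh₀, hpos⟩ := C.facet i
  set m : ℤ := ∑ j, |C.v j ⬝ᵥ g₀| with hm
  have hm0 : 0 ≤ m := Finset.sum_nonneg fun j _ => abs_nonneg _
  have hmj : ∀ j, |C.v j ⬝ᵥ g₀| ≤ m := fun j =>
    Finset.single_le_sum (f := fun j => |C.v j ⬝ᵥ g₀|) (fun j _ => abs_nonneg _)
      (Finset.mem_univ j)
  have hgv : ∀ j, C.v j ⬝ᵥ (g₀ + m • h₀) = C.v j ⬝ᵥ g₀ + m * (C.v j ⬝ᵥ h₀) := by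
    intro j
    rw [dotProduct_add, dotProduct_smul, smul_eq_mul]
  have hgS : ∀ j, 0 ≤ C.v j ⬝ᵥ (g₀ + m • h₀) := by
    intro j
    rw [hgv]
    by_cases hj : j = i
    · subst hj
      rw [hg₀, hh₀]
      norm_num
    · have h1 := hpos j hj
      have h2 := hmj j
      have h3 := neg_abs_le (C.v j ⬝ᵥ g₀)
      nlinarith
  set g : Fin d → ℤ := g₀ + m • h₀ with hg
  set m' : ℤ := ∑ j, |C.v j ⬝ᵥ g| with hm'
  have hm'0 : 0 ≤ m' := Finset.sum_nonneg fun j _ => abs_nonneg _
  have hm'j : ∀ j, |C.v j ⬝ᵥ g| ≤ m' := fun j =>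
    Finset.single_le_sum (f := fun j => |C.v j ⬝ᵥ g|) (fun j _ => abs_nonneg _)
      (Finset.mem_univ j)
  have hhv : ∀ j, C.v j ⬝ᵥ (m' • h₀) = m' * (C.v j ⬝ᵥ h₀) := by
    intro j
    rw [dotProduct_smul, smul_eq_mul]
  have hhS : ∀ j, 0 ≤ C.v j ⬝ᵥ (m' • h₀) := by
    intro j
    rw [hhv]
    by_cases hj : j = i
    · subst hj
      rw [hh₀, mul_zero]
    · exact mul_nonneg hm'0 (hpos j hj).le
  refine ⟨⟨g, hgS⟩, ⟨m' • h₀, hhS⟩, ?_, ?_, ?_⟩
  · show C.v i ⬝ᵥ g = 1
    rw [hg, hgv, hg₀, hh₀]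
    ring
  · show C.v i ⬝ᵥ (m' • h₀) = 0
    rw [hhv, hh₀, mul_zero]
  · intro j hj
    show C.v j ⬝ᵥ g ≤ C.v j ⬝ᵥ (m' • h₀)
    rw [hhv]
    have h1 := hpos j hj
    have h2 := hm'j j
    have h3 := le_abs_self (C.v j ⬝ᵥ g)
    nlinarith

/-- if `φ (c x^w)` is a unit then `⟨v i, w⟩ ≤ q - 1` -/
theorem key (q : ℕ) (φ : C.LocalRing K →+ C.LocalRing K)
    (hφ : ∀ r s : C.LocalRing K, φ (r ^ q * s) = r * φ s) (c : C.LocalRing K) (w : C.S)
    (hu : IsUnit (φ (c * mon C K w))) (i : Fin n) :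
    C.v i ⬝ᵥ (w : Fin d → ℤ) ≤ (q : ℤ) - 1 := by
  by_contra hlt
  push Not at hlt
  obtain ⟨g, h, hg, hh, hgh⟩ := exists_gh C i
  have hbS : ∀ j, 0 ≤ C.v j ⬝ᵥ ((w : Fin d → ℤ) + (q : ℤ) • (h : Fin d → ℤ) -
      (q : ℤ) • (g : Fin d → ℤ)) := by
    intro j
    rw [dotProduct_sub, dotProduct_add, dotProduct_smul, dotProduct_smul, smul_eq_mul,
      smul_eq_mul]
    by_cases hj : j = i
    · subst hj
      rw [hg, hh]
      linarith
    · have h1 := hgh j hj
      have h2 := w.2 j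
      have h3 : (0 : ℤ) ≤ q := Int.natCast_nonneg q
      nlinarith
  let b : C.S := ⟨_, hbS⟩
  have hb : w + q • h = q • g + b := by
    apply Subtype.ext
    show (w : Fin d → ℤ) + q • (h : Fin d → ℤ) = q • (g : Fin d → ℤ) +
      ((w : Fin d → ℤ) + (q : ℤ) • (h : Fin d → ℤ) - (q : ℤ) • (g : Fin d → ℤ))
    rw [← natCast_zsmul (h : Fin d → ℤ) q, ← natCast_zsmul (g : Fin d → ℤ) q]
    abel
  have e1 : mon C K h * φ (c * mon C K w) = mon C K g * φ (c * mon C K b) := by
    rw [← hφ, ← hφ, ← mon_nsmul, ← mon_nsmul]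
    congr 1
    calc mon C K (q • h) * (c * mon C K w) = c * (mon C K w * mon C K (q • h)) := by ring
      _ = c * mon C K (w + q • h) := by rw [mon_add]
      _ = c * mon C K (q • g + b) := by rw [hb]
      _ = c * (mon C K (q • g) * mon C K b) := by rw [mon_add]
      _ = mon C K (q • g) * (c * mon C K b) := by ring
  obtain ⟨y, hy⟩ := hu.exists_right_inv
  have e2 : mon C K h = mon C K g * (φ (c * mon C K b) * y) := by
    calc mon C K h = mon C K h * (φ (c * mon C K w) * y) := by rw [hy, mul_one]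
      _ = (mon C K h * φ (c * mon C K w)) * y := by ring
      _ = (mon C K g * φ (c * mon C K b)) * y := by rw [e1]
      _ = _ := by ring
  obtain ⟨t, ht⟩ := exists_add_of_dvd C K g h _ e2
  have h3 := t.2 i
  have h4 : C.v i ⬝ᵥ (h : Fin d → ℤ) = C.v i ⬝ᵥ (g : Fin d → ℤ) + C.v i ⬝ᵥ (t : Fin d → ℤ) := by
    rw [← dotProduct_add, ← ht]
    rfl
  rw [hg, hh] at h4
  linarith

/-- **SUP** -/
theorem sup : Pool.Agent.H867.FT.S_SUP := by
  intro K _ d n C q N f hq hf hs
  obtain ⟨φ, hφ, hφf⟩ := hs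
  by_contra hno
  push Not at hno
  -- every `φ (c x^w)` lies in the maximal ideal
  have hmem : ∀ w : Fin N → C.S, (∀ j, w j ≠ 0) → ∀ c : C.LocalRing K,
      φ (c * mon C K (∑ j, w j)) ∈ IsLocalRing.maximalIdeal (C.LocalRing K) := by
    intro w hw c
    rw [IsLocalRing.mem_maximalIdeal, mem_nonunits_iff]
    intro hu
    obtain ⟨i, hi⟩ := hno w hw
    exact absurd (key C K q φ hφ c _ hu i) (not_le.2 hi)
  have hmap : (IsLocalRing.maximalIdeal (C.LocalRing K)) ^ N ≤
      Ideal.span {r : C.LocalRing K | ∃ w : Fin N → C.S, (∀ j, w j ≠ 0) ∧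
        r = mon C K (∑ j, w j)} := by
    rw [← Localization.AtPrime.map_eq_maximalIdeal, ← Ideal.map_pow]
    refine (Ideal.map_mono (maxIdeal_pow_le_span C K N)).trans ?_
    rw [Ideal.map_span]
    refine Ideal.span_mono ?_
    rintro _ ⟨_, ⟨w, hw, rfl⟩, rfl⟩
    exact ⟨w, hw, rfl⟩
  have hall : ∀ a ∈ Ideal.span {r : C.LocalRing K | ∃ w : Fin N → C.S, (∀ j, w j ≠ 0) ∧
        r = mon C K (∑ j, w j)}, ∀ c : C.LocalRing K,
      φ (c * a) ∈ IsLocalRing.maximalIdeal (C.LocalRing K) := by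
    intro a ha
    refine Submodule.span_induction ?_ ?_ ?_ ?_ ha
    · rintro _ ⟨w, hw, rfl⟩ c
      exact hmem w hw c
    · intro c
      rw [mul_zero, map_zero]
      exact Ideal.zero_mem _
    · intro x y _ _ hx hy c
      rw [mul_add, map_add]
      exact Ideal.add_mem _ (hx c) (hy c)
    · intro r x _ hx c
      rw [smul_eq_mul, ← mul_assoc]
      exact hx (c * r)
  have h1 := hall f (hmap hf) 1
  rw [one_mul, hφf] at h1
  exact (Ideal.ne_top_iff_one _).1 (IsLocalRing.maximalIdeal.isMaximal _).ne_top h1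

end Pool.Agent.H828.FTSup
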