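import Pool.Agent.H828.Lift

set_option autoImplicit false

/-!
# Hyperbolic lifts are conjugate to the standard one
-/

namespace Pool.Agent.H828.Lift

open Real

theorem exists_polar (a b : ℝ) (h : a ≠ 0 ∨ b ≠ 0) :
    ∃ ρ θ : ℝ, 0 < ρ ∧ a = ρ * cos θ ∧ b = ρ * sin θ := by
  have hne : (⟨a, b⟩ : ℂ) ≠ 0 := by
    intro h0
    have h1 := congrArg Complex.re h0
    have h2 := congrArg Complex.im h0
    simp at h1 h2
    rcases h with h | h
    · exact h h1
    · exact h h2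
  refine ⟨‖(⟨a, b⟩ : ℂ)‖, Complex.arg ⟨a, b⟩, norm_pos_iff.mpr hne, ?_, ?_⟩
  · rw [Complex.norm_mul_cos_arg]
  · rw [Complex.norm_mul_sin_arg]

theorem same_dir {κ κ' θ θ' : ℝ} (hκ : 0 < κ) (hκ' : 0 < κ') (h1 : κ * cos θ = κ' * cos θ')
    (h2 : κ * sin θ = κ' * sin θ') : cos θ = cos θ' ∧ sin θ = sin θ' := by
  have e1 := cos_sq_add_sin_sq θ
  have e2 := cos_sq_add_sin_sq θ'
  have h3 : κ ^ 2 = κ' ^ 2 := by
    have : (κ * cos θ) ^ 2 + (κ * sin θ) ^ 2 = (κ' * cos θ') ^ 2 + (κ' * sin θ') ^ 2 := by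
      rw [h1, h2]
    nlinarith
  have h4 : κ = κ' := by
    have := abs_eq_abs.mpr (sq_eq_sq_iff_eq_or_eq_neg.mp h3)
    rwa [abs_of_pos hκ, abs_of_pos hκ'] at this
  subst h4
  exact ⟨mul_left_cancel₀ hκ.ne' h1, mul_left_cancel₀ hκ.ne' h2⟩

/-- Elements that commute with `z` are determined by their values on one interval. -/
theorem ext_of_z {F G : H} (hF : F * z = z * F) (hG : G * z = z * G)
    (h : ∀ θ, -(π / 2) ≤ θ → θ < π / 2 → F θ = G θ) : F = G := by
  have hz : ∀ K : H, K * z = z * K → ∀ θ, K (θ + π) = K θ + π := by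
    intro K hK θ
    have := congrArg (fun k : H => k θ) hK
    exact this
  have hzk : ∀ K : H, K * z = z * K → ∀ (k : ℤ) θ, K (θ + k * π) = K θ + k * π := by
    intro K hK k
    induction k using Int.induction_on with
    | zero => intro θ; simp
    | succ k ih =>
      intro θ
      have : θ + ((k : ℤ) + 1 : ℤ) * π = (θ + (k : ℤ) * π) + π := by push_cast; ring
      rw [this, hz K hK, ih]; push_cast; ring
    | pred k ih =>
      intro θ
      have h1 := hz K hK (θ + ((-(k : ℤ) - 1 : ℤ) : ℝ) * π)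
      have h2 : θ + ((-(k : ℤ) - 1 : ℤ) : ℝ) * π + π = θ + ((-(k : ℤ) : ℤ) : ℝ) * π := by
        push_cast; ring
      rw [h2, ih] at h1
      have : K (θ + ((-(k : ℤ) - 1 : ℤ) : ℝ) * π) = K θ + ((-(k : ℤ) : ℤ) : ℝ) * π - π := by
        linarith
      rw [this]; push_cast; ring
  apply ext_H
  intro θ
  obtain ⟨h1, h2⟩ := (fl_eq (θ := θ) (k := fl θ)).mp rfl
  have h3 := h (θ - fl θ * π) (by linarith) (by linarith)
  have h4 := hzk F hF (fl θ) (θ - fl θ * π)
  have h5 := hzk G hG (fl θ) (θ - fl θ * π)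
  rw [sub_add_cancel] at h4 h5
  rw [h4, h5, h3]

/-- An element that fixes `-π/2` and lifts the matrix `(p, 0; r, s)` is `Aff (s/p) (r/p)`. -/
theorem eq_Aff {F : H} (hF : F * z = z * F) {p r s : ℝ} (hp : 0 < p) (hs : 0 < s)
    (hl : Lifts F p 0 r s) (hfix : F (-(π / 2)) = -(π / 2)) :
    F = Aff (s / p) (r / p) (div_pos hs hp) := by
  apply ext_of_z hF (Aff_z _ _ _)
  intro θ h1 h2
  rcases h1.eq_or_lt with h1 | h1
  · rw [← h1, hfix, Aff_apply]
    have := affFun_end (s / p) (r / p) 0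
    simp only [Int.cast_zero, zero_mul, zero_sub] at this
    exact this.symm
  · have f1 : -(π / 2) < F θ := by rw [← hfix]; exact F.strictMono h1
    have f2 : F θ < π / 2 := by
      have h3 : F (-(π / 2) + π) = F (-(π / 2)) + π := congrArg (fun k : H => k (-(π / 2))) hF
      have h4 : F θ < F (-(π / 2) + π) := F.strictMono (by linarith)
      rw [h3, hfix] at h4; linarith
    obtain ⟨κ, hκ, e1, e2⟩ := hl θ
    have c1 : 0 < cos θ := cos_pos_of_mem_Ioo ⟨h1, h2⟩
    have c2 : 0 < cos (F θ) := cos_pos_of_mem_Ioo ⟨f1, f2⟩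
    have t : tan (F θ) = s / p * tan θ + r / p := by
      rw [tan_eq_sin_div_cos, tan_eq_sin_div_cos]
      have h5 : κ * cos (F θ) = p * cos θ := by rw [← e1]; ring
      have h6 : κ * sin (F θ) = r * cos θ + s * sin θ := e2.symm
      have h7 : sin (F θ) / cos (F θ) = (κ * sin (F θ)) / (κ * cos (F θ)) := by
        field_simp
      rw [h7, h5, h6]
      field_simp
      ring
    have h8 : F θ = arctan (s / p * tan θ + r / p) := by
      rw [← t, arctan_tan f1 f2]
    have h9 : θ = ((0 : ℤ) : ℝ) * π + arctan (tan θ) := by rw [arctan_tan h1 h2]; simp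
    rw [h8, Aff_apply]
    conv_rhs => rw [h9, affFun_mid']
    simp

theorem conj_z {W F : H} (hW : W * z = z * W) (hF : F * z = z * F) :
    (W * F * W⁻¹) * z = z * (W * F * W⁻¹) := by
  have h1 : W⁻¹ * z = z * W⁻¹ := by
    rw [inv_mul_eq_iff_eq_mul, ← mul_assoc, hW, mul_assoc, mul_inv_cancel, mul_one]
  calc (W * F * W⁻¹) * z = W * F * (W⁻¹ * z) := by group
    _ = W * (F * z) * W⁻¹ := by rw [h1]; group
    _ = (W * z) * F * W⁻¹ := by rw [hF]; group
    _ = _ := by rw [hW]; group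

theorem mul_z {F G : H} (hF : F * z = z * F) (hG : G * z = z * G) : (F * G) * z = z * (F * G) := by
  rw [mul_assoc, hG, ← mul_assoc, hF, mul_assoc]

theorem inv_z {F : H} (hF : F * z = z * F) : F⁻¹ * z = z * F⁻¹ := by
  rw [inv_mul_eq_iff_eq_mul, ← mul_assoc, hF, mul_assoc, mul_inv_cancel, mul_one]

theorem T_z (x : ℝ) : T x * z = z * T x := T_comm _ _

/-- The standard hyperbolic element. -/
noncomputable def g : H := D 4 (by norm_num)

theorem g_z : g * z = z * g := D_z _ _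

/-- Hyperbolic elements of translation number zero with trace `5/2` are conjugate to `g`. -/
theorem hyp {F : H} (hF : F * z = z * F) {p q r s : ℝ} (hl : Lifts F p q r s)
    (hdet : p * s - q * r = 1) (htr : p + s = 5 / 2)
    (hdisp : ∀ θ, θ - 2 * π < F θ ∧ F θ < θ + 2 * π) :
    ∃ W : H, W * z = z * W ∧ W * F * W⁻¹ = g := by
  -- eigenvector
  obtain ⟨a, b, hab, ha, hb⟩ : ∃ a b : ℝ, (a ≠ 0 ∨ b ≠ 0) ∧ p * a + q * b = 2 * a ∧
      r * a + s * b = 2 * b := by
    by_cases hq : q = 0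
    · by_cases hp : p = 2
      · refine ⟨2 - s, r, Or.inl ?_, ?_, ?_⟩
        · intro h; linarith
        · rw [hq, hp]; ring
        · ring
      · refine ⟨q, 2 - p, Or.inr ?_, ?_, ?_⟩
        · intro h; apply hp; linarith
        · ring
        · nlinarith
    · refine ⟨q, 2 - p, Or.inl hq, ?_, ?_⟩
      · ring
      · nlinarith
  obtain ⟨ρ, θ0, hρ, rfl, rfl⟩ := exists_polar a b hab
  have ha' : p * cos θ0 + q * sin θ0 = 2 * cos θ0 := by
    apply mul_left_cancel₀ hρ.ne'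
    linear_combination ha
  have hb' : r * cos θ0 + s * sin θ0 = 2 * sin θ0 := by
    apply mul_left_cancel₀ hρ.ne'
    linear_combination hb
  -- the fixed point
  have hfix : F θ0 = θ0 := by
    obtain ⟨κ, hκ, e1, e2⟩ := hl θ0
    rw [ha'] at e1
    rw [hb'] at e2
    obtain ⟨c1, c2⟩ := same_dir (by norm_num) hκ e1 e2
    have h3 : cos (F θ0 - θ0) = 1 := by
      rw [cos_sub, ← c1, ← c2]
      have := cos_sq_add_sin_sq θ0
      nlinarith
    rw [cos_eq_one_iff_of_lt_of_lt] at h3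
    · linarith
    · have := (hdisp θ0).1; linarith
    · have := (hdisp θ0).2; linarith
  -- rotate
  set ψ := -(π / 2) - θ0 with hψ
  set W1 : H := T ψ with hW1
  have hW1z : W1 * z = z * W1 := T_z _
  have hc : cos ψ = -sin θ0 := by
    rw [hψ, cos_sub]; simp
  have hs : sin ψ = -cos θ0 := by
    rw [hψ, sin_sub]; simp
  have hinv : W1⁻¹ = T (-ψ) := (T_neg _).symm
  have hl1 : Lifts (W1 * F * W1⁻¹) (1 / 2) 0
      ((sin ψ * p + cos ψ * r) * cos ψ - (sin ψ * q + cos ψ * s) * sin ψ) 2 := by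
    rw [hinv]
    have e := cos_sq_add_sin_sq θ0
    refine (((lifts_T ψ).mul hl).mul (lifts_T (-ψ))).congr ?_ ?_ ?_ ?_
    · rw [cos_neg, sin_neg, hc, hs]
      linear_combination (p + s) * e + htr - cos θ0 * ha' - sin θ0 * hb' - 2 * e
    · rw [cos_neg, sin_neg, hc, hs]
      linear_combination sin θ0 * ha' - cos θ0 * hb'
    · rw [cos_neg, sin_neg]; ring
    · rw [cos_neg, sin_neg, hc, hs]
      linear_combination cos θ0 * ha' + sin θ0 * hb' + 2 * e
  have hfix1 : (W1 * F * W1⁻¹) (-(π / 2)) = -(π / 2) := by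
    rw [hinv]
    show F (-(π / 2) + -ψ) + ψ = -(π / 2)
    have : -(π / 2) + -ψ = θ0 := by rw [hψ]; ring
    rw [this, hfix, hψ]; ring
  have h2 := eq_Aff (conj_z hW1z hF) (by norm_num) (by norm_num) hl1 hfix1
  set x := ((sin ψ * p + cos ψ * r) * cos ψ - (sin ψ * q + cos ψ * s) * sin ψ) / (1 / 2) with hx
  set W2 : H := Aff 1 (x / 3) one_pos with hW2
  refine ⟨W2 * W1, mul_z (Aff_z _ _ _) hW1z, ?_⟩
  have e1 : W2 * W1 * F * (W2 * W1)⁻¹ = W2 * (W1 * F * W1⁻¹) * W2⁻¹ := by group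
  rw [e1, h2]
  have e2 : W2 * Aff (2 / (1 / 2)) x (by norm_num) = g * W2 := by
    rw [hW2]
    unfold g D
    rw [Aff_mul, Aff_mul]
    apply Aff_congr
    · norm_num
    · ring
  rw [e2]; group

end Pool.Agent.H828.Lift
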