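import Mathlib

set_option autoImplicit false

/-!
# Lifts of projective transformations to the line

The group `ℝ ≃o ℝ` of order automorphisms of the line contains the translations `T x`, the lifts
`Aff l x` of the projective maps `tan θ ↦ l * tan θ + x` and the elements `D l = Aff l 0`.
-/

namespace Pool.Agent.H828.Lift

open Real

/-- The group of order automorphisms of the line. -/
abbrev H : Type := ℝ ≃o ℝ

/-- Translation by `x`. -/
def T (x : ℝ) : H := OrderIso.addRight x

@[simp] theorem T_apply (x θ : ℝ) : T x θ = θ + x := rfl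

theorem mul_apply (f g : H) (θ : ℝ) : (f * g) θ = f (g θ) := rfl

theorem one_apply (θ : ℝ) : (1 : H) θ = θ := rfl

theorem ext_H {f g : H} (h : ∀ θ, f θ = g θ) : f = g := by
  ext θ; exact h θ

theorem T_add (x y : ℝ) : T (x + y) = T x * T y := by
  apply ext_H; intro θ; rw [mul_apply]; simp; ring

theorem T_zero : T 0 = 1 := by
  apply ext_H; intro θ; simp [one_apply]

theorem T_neg (x : ℝ) : T (-x) = (T x)⁻¹ := by
  rw [eq_inv_iff_mul_eq_one, ← T_add]; simp [T_zero]

theorem T_pow (x : ℝ) (n : ℕ) : T x ^ n = T (n * x) := by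
  induction n with
  | zero => simp [T_zero]
  | succ n ih => rw [pow_succ, ih, ← T_add]; congr 1; push_cast; ring

theorem T_comm (x y : ℝ) : T x * T y = T y * T x := by
  rw [← T_add, ← T_add, add_comm]

/-- The central element. -/
noncomputable def z : H := T π

theorem z_apply (θ : ℝ) : z θ = θ + π := rfl

/-- The number of the interval `[kπ - π/2, kπ + π/2)` that contains `θ`. -/
noncomputable def fl (θ : ℝ) : ℤ := ⌊θ / π + 1 / 2⌋

theorem fl_eq {θ : ℝ} {k : ℤ} : fl θ = k ↔ k * π - π / 2 ≤ θ ∧ θ < k * π + π / 2 := by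
  unfold fl
  rw [Int.floor_eq_iff]
  have hp := pi_pos
  constructor
  · rintro ⟨h1, h2⟩
    have h1' : (k : ℝ) * π ≤ (θ / π + 1 / 2) * π := mul_le_mul_of_nonneg_right h1 hp.le
    have h2' : (θ / π + 1 / 2) * π < (k + 1) * π := mul_lt_mul_of_pos_right h2 hp
    have e : (θ / π + 1 / 2) * π = θ + π / 2 := by field_simp
    rw [e] at h1' h2'
    constructor <;> linarith
  · rintro ⟨h1, h2⟩
    have e : θ / π + 1 / 2 = (θ + π / 2) / π := by field_simp
    rw [e, le_div_iff₀ hp, div_lt_iff₀ hp]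
    constructor <;> linarith

theorem fl_mono {θ θ' : ℝ} (h : θ ≤ θ') : fl θ ≤ fl θ' := by
  unfold fl
  apply Int.floor_le_floor
  have := pi_pos
  gcongr

theorem fl_add_int (θ : ℝ) (k : ℤ) : fl (θ + k * π) = fl θ + k := by
  have h := (fl_eq (θ := θ) (k := fl θ)).mp rfl
  rw [fl_eq]
  push_cast
  constructor <;> linarith [h.1, h.2]

open Classical in
/-- The lift of `tan θ ↦ l * tan θ + x` that fixes the points `kπ - π/2`. -/
noncomputable def affFun (l x θ : ℝ) : ℝ :=
  if θ = fl θ * π - π / 2 then θ else fl θ * π + arctan (l * tan θ + x)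

theorem affFun_end (l x : ℝ) (k : ℤ) : affFun l x (k * π - π / 2) = k * π - π / 2 := by
  have h : fl ((k : ℝ) * π - π / 2) = k := by
    rw [fl_eq]; have := pi_pos; constructor <;> linarith
  unfold affFun
  rw [h]; simp

theorem affFun_mid (l x θ : ℝ) (h : θ ≠ fl θ * π - π / 2) :
    affFun l x θ = fl θ * π + arctan (l * tan θ + x) := by
  unfold affFun; rw [if_neg h]

theorem fl_mid (k : ℤ) (u : ℝ) : fl (k * π + arctan u) = k := by
  rw [fl_eq]
  have h1 := neg_pi_div_two_lt_arctan u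
  have h2 := arctan_lt_pi_div_two u
  constructor <;> linarith

theorem mid_ne (k : ℤ) (u : ℝ) :
    (k : ℝ) * π + arctan u ≠ fl (k * π + arctan u) * π - π / 2 := by
  rw [fl_mid]
  have h1 := neg_pi_div_two_lt_arctan u
  intro h; linarith

theorem tan_mid (k : ℤ) (u : ℝ) : tan (k * π + arctan u) = u := by
  rw [add_comm, tan_add_int_mul_pi, tan_arctan]

theorem cases (θ : ℝ) : (∃ k : ℤ, θ = k * π - π / 2) ∨ ∃ (k : ℤ) (u : ℝ), θ = k * π + arctan u := by
  by_cases h : θ = fl θ * π - π / 2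
  · exact Or.inl ⟨_, h⟩
  · right
    obtain ⟨h1, h2⟩ := (fl_eq (θ := θ) (k := fl θ)).mp rfl
    refine ⟨fl θ, tan (θ - fl θ * π), ?_⟩
    rw [arctan_tan]
    · ring
    · have := lt_of_le_of_ne h1 (Ne.symm h)
      linarith
    · linarith

theorem affFun_mid' (l x : ℝ) (k : ℤ) (u : ℝ) :
    affFun l x (k * π + arctan u) = k * π + arctan (l * u + x) := by
  rw [affFun_mid _ _ _ (mid_ne k u), fl_mid, tan_mid]

theorem affFun_comp (l x m y θ : ℝ) :
    affFun l x (affFun m y θ) = affFun (l * m) (l * y + x) θ := by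
  rcases cases θ with ⟨k, rfl⟩ | ⟨k, u, rfl⟩
  · rw [affFun_end, affFun_end, affFun_end]
  · rw [affFun_mid', affFun_mid', affFun_mid']
    congr 2; ring

theorem affFun_one (θ : ℝ) : affFun 1 0 θ = θ := by
  rcases cases θ with ⟨k, rfl⟩ | ⟨k, u, rfl⟩
  · rw [affFun_end]
  · rw [affFun_mid']; simp

theorem fl_affFun (l x θ : ℝ) : fl (affFun l x θ) = fl θ := by
  rcases cases θ with ⟨k, rfl⟩ | ⟨k, u, rfl⟩
  · rw [affFun_end]
  · rw [affFun_mid', fl_mid, fl_mid]

theorem affFun_lt (l x : ℝ) (hl : 0 < l) {θ θ' : ℝ} (h : θ < θ') :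
    affFun l x θ < affFun l x θ' := by
  have hf := fl_mono h.le
  rcases hf.lt_or_eq with hlt | heq
  · have h1 := (fl_eq.mp (fl_affFun l x θ)).2
    have h2 := (fl_eq.mp (fl_affFun l x θ')).1
    have h3 : ((fl θ : ℝ) + 1) * π ≤ (fl θ' : ℝ) * π := by
      apply mul_le_mul_of_nonneg_right _ pi_pos.le
      exact_mod_cast hlt
    linarith
  · rcases cases θ with ⟨k, rfl⟩ | ⟨k, u, rfl⟩
    · have hk : fl ((k : ℝ) * π - π / 2) = k := by
        rw [fl_eq]; have := pi_pos; constructor <;> linarith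
      rw [affFun_end]
      rcases cases θ' with ⟨k', rfl⟩ | ⟨k', u', rfl⟩
      · rw [affFun_end]; exact h
      · rw [fl_mid, hk] at heq
        subst heq
        rw [affFun_mid']
        have := neg_pi_div_two_lt_arctan (l * u' + x)
        linarith
    · rcases cases θ' with ⟨k', rfl⟩ | ⟨k', u', rfl⟩
      · have hk : fl ((k' : ℝ) * π - π / 2) = k' := by
          rw [fl_eq]; have := pi_pos; constructor <;> linarith
        rw [fl_mid, hk] at heq
        subst heq
        have := neg_pi_div_two_lt_arctan u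
        linarith
      · rw [fl_mid, fl_mid] at heq
        subst heq
        rw [affFun_mid', affFun_mid']
        have h1 : arctan u < arctan u' := by linarith
        have h2 : u < u' := arctan_strictMono.lt_iff_lt.mp h1
        have h3 : l * u + x < l * u' + x := by nlinarith
        have := arctan_strictMono h3
        linarith

/-- The order automorphism `affFun l x`, for `0 < l`. -/
noncomputable def Aff (l x : ℝ) (hl : 0 < l) : H :=
  StrictMono.orderIsoOfRightInverse (affFun l x) (fun _ _ h => affFun_lt l x hl h)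
    (affFun l⁻¹ (-(l⁻¹ * x))) (fun θ => by
      rw [affFun_comp, mul_inv_cancel₀ hl.ne']
      have : l * -(l⁻¹ * x) + x = 0 := by field_simp; ring
      rw [this, affFun_one])

theorem Aff_apply (l x : ℝ) (hl : 0 < l) (θ : ℝ) : Aff l x hl θ = affFun l x θ := rfl

theorem Aff_mul (l x m y : ℝ) (hl : 0 < l) (hm : 0 < m) :
    Aff l x hl * Aff m y hm = Aff (l * m) (l * y + x) (mul_pos hl hm) := by
  apply ext_H; intro θ
  rw [mul_apply, Aff_apply, Aff_apply, Aff_apply, affFun_comp]

theorem Aff_one : Aff 1 0 one_pos = 1 := by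
  apply ext_H; intro θ
  rw [Aff_apply, affFun_one, one_apply]

theorem Aff_congr {l l' x x' : ℝ} (hl : 0 < l) (hl' : 0 < l') (h : l = l') (h' : x = x') :
    Aff l x hl = Aff l' x' hl' := by
  subst h h'; rfl

theorem z_comm_aff (l x θ : ℝ) : affFun l x (θ + π) = affFun l x θ + π := by
  rcases cases θ with ⟨k, rfl⟩ | ⟨k, u, rfl⟩
  · have : (k : ℝ) * π - π / 2 + π = ((k + 1 : ℤ) : ℝ) * π - π / 2 := by push_cast; ring
    rw [this, affFun_end, affFun_end]; push_cast; ring
  · have : (k : ℝ) * π + arctan u + π = ((k + 1 : ℤ) : ℝ) * π + arctan u := by push_cast; ring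
    rw [this, affFun_mid', affFun_mid']; push_cast; ring

theorem Aff_z (l x : ℝ) (hl : 0 < l) : Aff l x hl * z = z * Aff l x hl := by
  apply ext_H; intro θ
  rw [mul_apply, mul_apply, z_apply, z_apply, Aff_apply, Aff_apply, z_comm_aff]

theorem Aff_disp (l x : ℝ) (hl : 0 < l) (θ : ℝ) :
    θ - π < Aff l x hl θ ∧ Aff l x hl θ < θ + π := by
  have h1 := fl_eq.mp (fl_affFun l x θ)
  have h2 := (fl_eq (θ := θ) (k := fl θ)).mp rfl
  rw [Aff_apply]
  constructor <;> linarith [h1.1, h1.2, h2.1, h2.2]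

/-- The hyperbolic elements `tan θ ↦ l * tan θ`. -/
noncomputable def D (l : ℝ) (hl : 0 < l) : H := Aff l 0 hl

theorem D_mul (l m : ℝ) (hl : 0 < l) (hm : 0 < m) :
    D l hl * D m hm = D (l * m) (mul_pos hl hm) := by
  unfold D
  rw [Aff_mul]
  exact Aff_congr _ _ rfl (by simp)

theorem D_inv (l : ℝ) (hl : 0 < l) : (D l hl)⁻¹ = D l⁻¹ (inv_pos.mpr hl) := by
  rw [inv_eq_iff_mul_eq_one, D_mul, ← Aff_one]
  exact Aff_congr _ _ (mul_inv_cancel₀ hl.ne') rfl

theorem D_pow (l : ℝ) (hl : 0 < l) (n : ℕ) : D l hl ^ n = D (l ^ n) (pow_pos hl n) := by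
  induction n with
  | zero =>
    rw [pow_zero, ← Aff_one]
    exact Aff_congr _ _ (by simp) rfl
  | succ n ih =>
    rw [pow_succ, ih, D_mul]
    exact Aff_congr _ _ (by ring) rfl

theorem D_comm (l m : ℝ) (hl : 0 < l) (hm : 0 < m) : D l hl * D m hm = D m hm * D l hl := by
  rw [D_mul, D_mul]
  exact Aff_congr _ _ (mul_comm _ _) rfl

theorem D_z (l : ℝ) (hl : 0 < l) : D l hl * z = z * D l hl := Aff_z _ _ _

/-- `F` is a lift of the linear map with matrix `(p, q; r, s)` acting on directions. -/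
def Lifts (F : H) (p q r s : ℝ) : Prop :=
  ∀ θ, ∃ κ : ℝ, 0 < κ ∧ p * cos θ + q * sin θ = κ * cos (F θ) ∧
    r * cos θ + s * sin θ = κ * sin (F θ)

theorem Lifts.mul {F G : H} {p q r s p' q' r' s' : ℝ} (hF : Lifts F p q r s)
    (hG : Lifts G p' q' r' s') :
    Lifts (F * G) (p * p' + q * r') (p * q' + q * s') (r * p' + s * r') (r * q' + s * s') := by
  intro θ
  obtain ⟨κ, hκ, h1, h2⟩ := hG θ
  obtain ⟨κ', hκ', h1', h2'⟩ := hF (G θ)
  refine ⟨κ * κ', mul_pos hκ hκ', ?_, ?_⟩
  · rw [mul_apply, mul_assoc, ← h1']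
    linear_combination p * h1 + q * h2
  · rw [mul_apply, mul_assoc, ← h2']
    linear_combination r * h1 + s * h2

theorem Lifts.congr {F : H} {p q r s p' q' r' s' : ℝ} (h : Lifts F p q r s)
    (h1 : p = p') (h2 : q = q') (h3 : r = r') (h4 : s = s') : Lifts F p' q' r' s' := by
  subst h1 h2 h3 h4; exact h

theorem Lifts.smul {F : H} {p q r s : ℝ} (h : Lifts F p q r s) {a : ℝ} (ha : 0 < a) :
    Lifts F (a * p) (a * q) (a * r) (a * s) := by
  intro θ
  obtain ⟨κ, hκ, h1, h2⟩ := h θ
  refine ⟨a * κ, mul_pos ha hκ, ?_, ?_⟩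
  · linear_combination a * h1
  · linear_combination a * h2

theorem lifts_T (x : ℝ) : Lifts (T x) (cos x) (-sin x) (sin x) (cos x) := by
  intro θ
  refine ⟨1, one_pos, ?_, ?_⟩
  · rw [T_apply, cos_add]; ring
  · rw [T_apply, sin_add]; ring

theorem lifts_Aff (l x : ℝ) (hl : 0 < l) : Lifts (Aff l x hl) 1 0 x l := by
  intro θ
  rw [Aff_apply]
  rcases cases θ with ⟨k, rfl⟩ | ⟨k, u, rfl⟩
  · refine ⟨l, hl, ?_, ?_⟩
    · rw [affFun_end, cos_int_mul_pi_sub]; simp
    · rw [affFun_end, cos_int_mul_pi_sub]; simp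
  · refine ⟨cos (arctan u) / cos (arctan (l * u + x)),
      div_pos (cos_arctan_pos u) (cos_arctan_pos _), ?_, ?_⟩
    · rw [affFun_mid']
      rw [add_comm (_ * _) (arctan _), add_comm (_ * _) (arctan _), cos_add_int_mul_pi,
        cos_add_int_mul_pi]
      have := (cos_arctan_pos (l * u + x)).ne'
      field_simp
      ring
    · rw [affFun_mid']
      rw [add_comm (_ * _) (arctan _), add_comm (_ * _) (arctan _), cos_add_int_mul_pi,
        sin_add_int_mul_pi, sin_add_int_mul_pi]
      have h0 := (cos_arctan_pos (l * u + x)).ne'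
      have h0' := (cos_arctan_pos u).ne'
      have h1 : sin (arctan u) = u * cos (arctan u) := by
        have := tan_arctan u
        rw [tan_eq_sin_div_cos, div_eq_iff h0'] at this
        exact this
      have h2 : sin (arctan (l * u + x)) = (l * u + x) * cos (arctan (l * u + x)) := by
        have := tan_arctan (l * u + x)
        rw [tan_eq_sin_div_cos, div_eq_iff h0] at this
        exact this
      rw [h1, h2]
      field_simp
      ring

theorem lifts_D (l : ℝ) (hl : 0 < l) : Lifts (D l hl) 1 0 0 l := lifts_Aff l 0 hl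

end Pool.Agent.H828.Lift
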