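import Pool.Agent.H828.Hyp

set_option autoImplicit false

/-!
# Products of lifts, and the gluing map
-/

namespace Pool.Agent.H828.Lift

open Real

theorem add_pi {C : H} (hC : C * z = z * C) (θ : ℝ) : C (θ + π) = C θ + π :=
  congrArg (fun k : H => k θ) hC

theorem sub_pi {C : H} (hC : C * z = z * C) (θ : ℝ) : C (θ - π) = C θ - π := by
  have := add_pi hC (θ - π)
  rw [sub_add_cancel] at this
  linarith

theorem conj_disp {C : H} (hC : C * z = z * C) {γ : ℝ} (h1 : -π < γ) (h2 : γ < π) (θ : ℝ) :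
    θ - π < (C * T γ * C⁻¹) θ ∧ (C * T γ * C⁻¹) θ < θ + π := by
  show θ - π < C (C⁻¹ θ + γ) ∧ C (C⁻¹ θ + γ) < θ + π
  have e : C (C⁻¹ θ) = θ := by rw [← mul_apply, mul_inv_cancel, one_apply]
  constructor
  · calc θ - π = C (C⁻¹ θ - π) := by rw [sub_pi hC, e]
      _ < _ := C.strictMono (by linarith)
  · calc C (C⁻¹ θ + γ) < C (C⁻¹ θ + π) := C.strictMono (by linarith)
      _ = _ := by rw [add_pi hC, e]

theorem conj_disp_neg {C : H} {β : ℝ} (h1 : 0 < β) (θ : ℝ) :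
    (C * T (-β) * C⁻¹) θ < θ := by
  show C (C⁻¹ θ + -β) < θ
  have e : C (C⁻¹ θ) = θ := by rw [← mul_apply, mul_inv_cancel, one_apply]
  calc C (C⁻¹ θ + -β) < C (C⁻¹ θ) := C.strictMono (by linarith)
      _ = _ := e

/-- The product of two elliptic elements can be hyperbolic. -/
theorem P1 {α β : ℝ} (hα : 0 < α) (hα' : α < π) (hβ : 0 < β) (hβ' : β < π) :
    ∃ C W : H, C * z = z * C ∧ W * z = z * W ∧ W * (T α * (C * T (-β) * C⁻¹)) * W⁻¹ = g := by
  have sa : 0 < sin α := sin_pos_of_pos_of_lt_pi hα hα'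
  have sb : 0 < sin β := sin_pos_of_pos_of_lt_pi hβ hβ'
  have sab : 0 < sin α * sin β := mul_pos sa sb
  set K := (5 / 4 - cos α * cos β) / (sin α * sin β) with hK
  have hK1 : 1 ≤ K := by
    rw [hK, le_div_iff₀ sab, one_mul]
    have := cos_le_one (α - β)
    rw [cos_sub] at this
    linarith
  have hK2 : 0 ≤ K ^ 2 - 1 := by nlinarith
  set R := √(K ^ 2 - 1) with hR
  have hR0 : 0 ≤ R := sqrt_nonneg _
  have hR2 : R ^ 2 = K ^ 2 - 1 := sq_sqrt hK2
  have hS : 0 < K + R := by linarith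
  have hSi : (K + R)⁻¹ = K - R := by
    rw [inv_eq_iff_eq_inv, eq_comm, inv_eq_of_mul_eq_one_left]
    nlinarith
  have hKd : K * (sin α * sin β) = 5 / 4 - cos α * cos β := by
    rw [hK]; field_simp
  set C : H := D (K + R) hS with hC
  have hCz : C * z = z * C := D_z _ _
  have hCi : C⁻¹ = D (K + R)⁻¹ (inv_pos.mpr hS) := D_inv _ _
  have hX : Lifts (C * T (-β) * C⁻¹) (cos β) ((K + R)⁻¹ * sin β) (-((K + R) * sin β)) (cos β) := by
    rw [hCi]
    refine (((lifts_D _ _).mul (lifts_T (-β))).mul (lifts_D _ _)).congr ?_ ?_ ?_ ?_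
    · rw [cos_neg]; ring
    · rw [sin_neg]; ring
    · rw [sin_neg]; ring
    · rw [cos_neg]; field_simp; ring
  have hF := (lifts_T α).mul hX
  have hFz : (T α * (C * T (-β) * C⁻¹)) * z = z * (T α * (C * T (-β) * C⁻¹)) :=
    mul_z (T_z _) (conj_z hCz (T_z _))
  obtain ⟨W, hW, hWF⟩ := hyp hFz hF (by
      have e1 := cos_sq_add_sin_sq α
      have e2 := cos_sq_add_sin_sq β
      have e3 : (K + R) * (K + R)⁻¹ = 1 := mul_inv_cancel₀ hS.ne'
      linear_combination (cos β ^ 2 + sin β ^ 2) * e1 + e2 +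
        (cos α ^ 2 + sin α ^ 2) * sin β ^ 2 * e3)
    (by
      rw [hSi]
      linear_combination 2 * hKd) (by
      intro θ
      have h1 := conj_disp hCz (γ := -β) (by linarith) (by linarith) θ
      have h2 := conj_disp_neg (C := C) hβ θ
      constructor
      · show θ - 2 * π < (C * T (-β) * C⁻¹) θ + α
        linarith [h1.1]
      · show (C * T (-β) * C⁻¹) θ + α < θ + 2 * π
        linarith [h1.2])
  exact ⟨C, W, hCz, hW, hWF⟩

/-- The product of an elliptic and a hyperbolic element can be hyperbolic. -/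
theorem P3_aux {κ : ℝ} (hκ : 0 < κ) (hκ1 : κ ≠ 1) (hκs : κ + κ⁻¹ = 5 / 2) {h : H}
    (hz : h * z = z * h) (hl : Lifts h κ 0 0 κ⁻¹)
    (hd : ∀ θ, θ - π < h θ ∧ h θ < θ + π) {γ : ℝ} (h0 : γ ≠ 0) (h1 : -π < γ) (h2 : γ < π) :
    ∃ C W : H, C * z = z * C ∧ W * z = z * W ∧ W * (h * (C * T γ * C⁻¹)) * W⁻¹ = g := by
  have sg : sin γ ≠ 0 := by
    rcases lt_or_gt_of_ne h0 with h | h
    · exact (sin_neg_of_neg_of_neg_pi_lt h h1).ne
    · exact (sin_pos_of_pos_of_lt_pi h h2).ne'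
  have hk : κ - κ⁻¹ ≠ 0 := by
    intro h
    have h3 : κ = κ⁻¹ := by linarith
    have h4 : κ * κ = 1 := by nth_rewrite 2 [h3]; exact mul_inv_cancel₀ hκ.ne'
    apply hκ1
    nlinarith
  set K := -((5 / 2) * (1 - cos γ)) / ((κ - κ⁻¹) * sin γ) with hK
  have hKd : K * ((κ - κ⁻¹) * sin γ) = -((5 / 2) * (1 - cos γ)) := by
    rw [hK, div_mul_cancel₀ _ (mul_ne_zero hk sg)]
  set R := √(K ^ 2 + 1) with hR
  have hR2 : R ^ 2 = K ^ 2 + 1 := sq_sqrt (by positivity)
  have hR0 : 0 ≤ R := sqrt_nonneg _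
  have hRK : |K| < R := by
    apply lt_sqrt_of_sq_lt
    rw [sq_abs]; linarith
  have hS : 0 < K + R := by
    have := neg_abs_le K
    linarith
  have hSi : (K + R)⁻¹ = R - K := by
    rw [inv_eq_iff_eq_inv, eq_comm, inv_eq_of_mul_eq_one_left]
    nlinarith
  set C : H := T (π / 4) * D (K + R) hS with hC
  have hCz : C * z = z * C := mul_z (T_z _) (D_z _ _)
  have hCi : C⁻¹ = D (K + R)⁻¹ (inv_pos.mpr hS) * T (-(π / 4)) := by
    rw [hC, mul_inv_rev, D_inv, T_neg]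
  have c4 : cos (π / 4) * cos (π / 4) = 1 / 2 := by
    rw [cos_pi_div_four]
    have : √2 * √2 = (2 : ℝ) := mul_self_sqrt (by norm_num)
    linarith
  have s4 : sin (π / 4) = cos (π / 4) := by rw [sin_pi_div_four, cos_pi_div_four]
  have e3 : (K + R) * (K + R)⁻¹ = 1 := mul_inv_cancel₀ hS.ne'
  have hX : Lifts (C * T γ * C⁻¹) (cos γ - sin γ * ((K + R) - (K + R)⁻¹) / 2)
      (-(((K + R) + (K + R)⁻¹) * sin γ / 2)) (((K + R) + (K + R)⁻¹) * sin γ / 2)
      (cos γ + sin γ * ((K + R) - (K + R)⁻¹) / 2) := by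
    rw [hCi, hC]
    refine ((((lifts_T (π / 4)).mul (lifts_D _ _)).mul (lifts_T γ)).mul
      ((lifts_D _ _).mul (lifts_T (-(π / 4))))).congr ?_ ?_ ?_ ?_
    · rw [cos_neg, sin_neg, s4]
      linear_combination (2 * cos γ - sin γ * ((K + R) - (K + R)⁻¹)) * c4 +
        cos γ * cos (π / 4) * cos (π / 4) * e3
    · rw [cos_neg, sin_neg, s4]
      linear_combination (-(((K + R) + (K + R)⁻¹) * sin γ)) * c4 -
        cos γ * cos (π / 4) * cos (π / 4) * e3
    · rw [cos_neg, sin_neg, s4]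
      linear_combination (((K + R) + (K + R)⁻¹) * sin γ) * c4 -
        cos γ * cos (π / 4) * cos (π / 4) * e3
    · rw [cos_neg, sin_neg, s4]
      linear_combination (2 * cos γ + sin γ * ((K + R) - (K + R)⁻¹)) * c4 +
        cos γ * cos (π / 4) * cos (π / 4) * e3
  have hF := hl.mul hX
  have hFz : (h * (C * T γ * C⁻¹)) * z = z * (h * (C * T γ * C⁻¹)) :=
    mul_z hz (conj_z hCz (T_z _))
  obtain ⟨W, hW, hWF⟩ := hyp hFz hF (by
      have e1 := cos_sq_add_sin_sq γ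
      have e2 : κ * κ⁻¹ = 1 := mul_inv_cancel₀ hκ.ne'
      linear_combination e1 + sin γ ^ 2 * e3 +
        (cos γ ^ 2 + sin γ ^ 2 * ((K + R) * (K + R)⁻¹)) * e2)
    (by
      rw [hSi]
      linear_combination cos γ * hκs - hKd) (by
      intro θ
      have h3 := conj_disp hCz (γ := γ) (by linarith) (by linarith) θ
      have h4 := hd ((C * T γ * C⁻¹) θ)
      constructor
      · show θ - 2 * π < h ((C * T γ * C⁻¹) θ)
        linarith [h3.1, h4.1]
      · show h ((C * T γ * C⁻¹) θ) < θ + 2 * π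
        linarith [h3.2, h4.2])
  exact ⟨C, W, hCz, hW, hWF⟩

theorem P3 {γ : ℝ} (h0 : γ ≠ 0) (h1 : -π < γ) (h2 : γ < π) :
    ∃ C W : H, C * z = z * C ∧ W * z = z * W ∧ W * (g⁻¹ * (C * T γ * C⁻¹)) * W⁻¹ = g := by
  apply P3_aux (κ := 2) (by norm_num) (by norm_num) (by norm_num) (inv_z g_z) _ _ h0 h1 h2
  · unfold g
    rw [D_inv]
    exact ((lifts_D _ _).smul (a := 2) (by norm_num)).congr (by ring) (by ring) (by ring)
      (by norm_num)
  · intro θ
    unfold g
    rw [D_inv]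
    exact Aff_disp _ _ _ _

theorem P3' {γ : ℝ} (h0 : γ ≠ 0) (h1 : -π < γ) (h2 : γ < π) :
    ∃ C W : H, C * z = z * C ∧ W * z = z * W ∧ W * (g * (C * T γ * C⁻¹)) * W⁻¹ = g := by
  apply P3_aux (κ := 1 / 2) (by norm_num) (by norm_num) (by norm_num) g_z _ _ h0 h1 h2
  · unfold g
    exact ((lifts_D _ _).smul (a := 1 / 2) (by norm_num)).congr (by ring) (by ring) (by ring)
      (by norm_num)
  · intro θ
    unfold g
    exact Aff_disp _ _ _ _

/-- The number of the interval `[kπ, (k+1)π)` that contains `θ`. -/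
noncomputable def fz (θ : ℝ) : ℤ := ⌊θ / π⌋

theorem fz_eq {θ : ℝ} {k : ℤ} : fz θ = k ↔ k * π ≤ θ ∧ θ < (k + 1) * π := by
  unfold fz
  rw [Int.floor_eq_iff, le_div_iff₀ pi_pos, div_lt_iff₀ pi_pos]

theorem fz_mono {θ θ' : ℝ} (h : θ ≤ θ') : fz θ ≤ fz θ' := by
  unfold fz
  apply Int.floor_le_floor
  have := pi_pos
  gcongr

theorem fz_add (θ : ℝ) : fz (θ + π) = fz θ + 1 := by
  have h := (fz_eq (θ := θ) (k := fz θ)).mp rfl
  rw [fz_eq]
  push_cast
  constructor <;> linarith [h.1, h.2]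

/-- `f` fixes the multiples of `π`. -/
def Fix (f : H) : Prop := ∀ k : ℤ, f (k * π) = k * π

theorem Fix.fz {f : H} (hf : Fix f) (θ : ℝ) : fz (f θ) = fz θ := by
  have h := (fz_eq (θ := θ) (k := Lift.fz θ)).mp rfl
  rw [fz_eq]
  constructor
  · rw [← hf]; exact f.monotone h.1
  · have h3 := hf (Lift.fz θ + 1)
    push_cast at h3
    rw [← h3]; exact f.strictMono h.2

theorem Fix.inv {f : H} (hf : Fix f) : Fix f⁻¹ := by
  intro k
  have : f⁻¹ (f (k * π)) = k * π := by rw [← mul_apply, inv_mul_cancel, one_apply]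
  rwa [hf] at this

theorem Fix.mul {f f' : H} (hf : Fix f) (hf' : Fix f') : Fix (f * f') := by
  intro k; rw [mul_apply, hf', hf]

theorem Fix.one : Fix 1 := fun _ => rfl

theorem Fix.pow {f : H} (hf : Fix f) (n : ℕ) : Fix (f ^ n) := by
  induction n with
  | zero => rw [pow_zero]; exact Fix.one
  | succ n ih => rw [pow_succ]; exact ih.mul hf

theorem Fix.zpow {f : H} (hf : Fix f) (n : ℤ) : Fix (f ^ n) := by
  cases n with
  | ofNat n => rw [Int.ofNat_eq_natCast, zpow_natCast]; exact hf.pow n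
  | negSucc n => rw [zpow_negSucc]; exact (hf.pow _).inv

theorem fix_D (l : ℝ) (hl : 0 < l) : Fix (D l hl) := by
  intro k
  have := affFun_mid' l 0 k 0
  simp only [arctan_zero, mul_zero, add_zero] at this
  exact this

/-- The gluing map. -/
noncomputable def glueMap (h : H) (hh : Fix h) : H :=
  StrictMono.orderIsoOfRightInverse (fun θ => (h ^ (-fz θ)) θ)
    (by
      intro θ θ' hlt
      show (h ^ (-fz θ)) θ < (h ^ (-fz θ')) θ'
      rcases (fz_mono hlt.le).lt_or_eq with hl | he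
      · have h1 := (fz_eq.mp ((hh.zpow (-fz θ)).fz θ)).2
        have h2 := (fz_eq.mp ((hh.zpow (-fz θ')).fz θ')).1
        have h3 : ((fz θ : ℝ) + 1) * π ≤ (fz θ' : ℝ) * π := by
          apply mul_le_mul_of_nonneg_right _ pi_pos.le
          exact_mod_cast hl
        linarith
      · rw [he]; exact (h ^ (-fz θ')).strictMono hlt)
    (fun θ => (h ^ (fz θ)) θ)
    (by
      intro θ
      show (h ^ (-fz ((h ^ (fz θ)) θ))) ((h ^ (fz θ)) θ) = θ
      rw [(hh.zpow _).fz, ← mul_apply, ← zpow_add, neg_add_cancel, zpow_zero, one_apply])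

theorem glueMap_apply (h : H) (hh : Fix h) (θ : ℝ) : glueMap h hh θ = (h ^ (-fz θ)) θ := rfl

theorem glueMap_z (h : H) (hh : Fix h) (hz : h * z = z * h) :
    glueMap h hh * (z * h) * (glueMap h hh)⁻¹ = z := by
  rw [mul_inv_eq_iff_eq_mul]
  apply ext_H
  intro θ
  rw [mul_apply, mul_apply, mul_apply, glueMap_apply, glueMap_apply, z_apply, z_apply, fz_add,
    hh.fz]
  have h1 : h ^ (-(fz θ + 1)) * z * h = z * h ^ (-fz θ) := by
    have hc : Commute h z := hz
    have h2 : h ^ (-(fz θ + 1)) * z = z * h ^ (-(fz θ + 1)) := (hc.zpow_left _).eq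
    rw [h2, mul_assoc]
    congr 1
    rw [← zpow_add_one]
    congr 1; ring
  have := congrArg (fun k : H => k θ) h1
  exact this

theorem glueMap_comm (h : H) (hh : Fix h) {f : H} (hf : Fix f) (hc : f * h = h * f) :
    glueMap h hh * f * (glueMap h hh)⁻¹ = f := by
  rw [mul_inv_eq_iff_eq_mul]
  apply ext_H
  intro θ
  rw [mul_apply, mul_apply, glueMap_apply, glueMap_apply, hf.fz]
  have hc' : Commute f h := hc
  have h1 : h ^ (-fz θ) * f = f * h ^ (-fz θ) := ((hc'.zpow_right _).eq).symm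
  exact congrArg (fun k : H => k θ) h1

/-- Conjugation by the gluing map turns `z * h` into `z`. -/
theorem glue (μ : ℝ) (hμ : 0 < μ) : ∃ φ : H, φ * (z * D μ hμ) * φ⁻¹ = z ∧
    ∀ (ν : ℝ) (hν : 0 < ν), φ * D ν hν * φ⁻¹ = D ν hν :=
  ⟨glueMap (D μ hμ) (fix_D μ hμ), glueMap_z _ _ (D_z _ _),
    fun ν hν => glueMap_comm _ _ (fix_D ν hν) (D_comm _ _ _ _)⟩

end Pool.Agent.H828.Lift
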