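import Mathlib

set_option autoImplicit false

/-!
# Chains of group elements with rational slopes

`Rel p q A B C` says that `B` commutes with `A` and `C` and that `B ^ p = (A * C) ^ q`.  A chain
is a sequence `Z` with `Rel (p j) (q j) (Z (j-1)) (Z j) (Z (j+1))`.
-/

namespace Pool.Agent.H828.QCh

variable {G : Type*} [Group G]

/-- The relation between three consecutive elements of a chain. -/
structure Rel (p q : ℤ) (A B C : G) : Prop where
  left : A * B = B * A
  right : B * C = C * B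
  pow : B ^ p = (A * C) ^ q

theorem Rel.symm {p q : ℤ} {A B C : G} (h : Rel p q A B C) : Rel p q C B A := by
  refine ⟨h.right.symm, h.left.symm, ?_⟩
  have h1 : (C * A) ^ q = C * (A * C) ^ q * C⁻¹ := by
    rw [← conj_zpow]; congr 1; group
  have h2 : Commute (B ^ p) C := (show Commute B C from h.right).zpow_left p
  rw [h1, ← h.pow, ← h2.eq, mul_inv_cancel_right]

theorem Rel.inv {p q : ℤ} {A B C : G} (h : Rel p q A B C) : Rel p q A⁻¹ B⁻¹ C⁻¹ := by
  refine ⟨?_, ?_, ?_⟩
  · rw [← mul_inv_rev, ← mul_inv_rev, h.left]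
  · rw [← mul_inv_rev, ← mul_inv_rev, h.right]
  · rw [← mul_inv_rev, inv_zpow, inv_zpow, h.symm.pow]

theorem Rel.map {G' : Type*} [Group G'] (f : G →* G') {p q : ℤ} {A B C : G}
    (h : Rel p q A B C) : Rel p q (f A) (f B) (f C) := by
  refine ⟨?_, ?_, ?_⟩
  · rw [← map_mul, ← map_mul, h.left]
  · rw [← map_mul, ← map_mul, h.right]
  · rw [← map_mul, ← map_zpow, ← map_zpow, h.pow]

/-- The power of `x` with exponent a sign. -/
def pw (u : ℤˣ) (x : G) : G := x ^ (u : ℤ)

theorem pw_mul (u v : ℤˣ) (x : G) : pw (u * v) x = pw u (pw v x) := by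
  unfold pw; rw [← zpow_mul, Units.val_mul, mul_comm]

theorem pw_one (x : G) : pw 1 x = x := by unfold pw; simp

theorem pw_neg (u : ℤˣ) (x : G) : pw (-u) x = (pw u x)⁻¹ := by unfold pw; simp

theorem pw_id (u : ℤˣ) : pw u (1 : G) = 1 := by unfold pw; simp

theorem Rel.pw {p q : ℤ} {A B C : G} (h : Rel p q A B C) (u : ℤˣ) :
    Rel p q (pw u A) (pw u B) (pw u C) := by
  rcases Int.units_eq_one_or u with rfl | rfl
  · simpa only [pw_one] using h
  · simpa only [pw_neg, pw_one] using h.inv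

/-- A chain `Z 0, …, Z k`. -/
def Ch (p q : ℕ → ℤ) (k : ℕ) (Z : ℕ → G) : Prop :=
  (∀ j < k, Z j * Z (j + 1) = Z (j + 1) * Z j) ∧
    ∀ j, j + 2 ≤ k → Z (j + 1) ^ p (j + 1) = (Z j * Z (j + 2)) ^ q (j + 1)

theorem Ch.rel {p q : ℕ → ℤ} {k : ℕ} {Z : ℕ → G} (h : Ch p q k Z) (j : ℕ) (hj : j + 2 ≤ k) :
    Rel (p (j + 1)) (q (j + 1)) (Z j) (Z (j + 1)) (Z (j + 2)) :=
  ⟨h.1 j (by omega), h.1 (j + 1) (by omega), h.2 j hj⟩

/-- There is a chain `Z 0, …, Z (k+1)` with `st (Z 0) (Z 1)` that ends with `A, E`. -/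
def Reach (st : G → G → Prop) (p q : ℕ → ℤ) (k : ℕ) (A E : G) : Prop :=
  ∃ Z : ℕ → G, Ch p q (k + 1) Z ∧ st (Z 0) (Z 1) ∧ Z k = A ∧ Z (k + 1) = E

theorem Reach.start {st : G → G → Prop} (p q : ℕ → ℤ) {A E : G} (h : st A E)
    (hc : A * E = E * A) : Reach st p q 0 A E := by
  refine ⟨fun j => if j = 0 then A else E, ⟨?_, ?_⟩, by simpa using h, by simp, by simp⟩
  · intro j hj
    have : j = 0 := by omega
    subst this; simpa using hc
  · intro j hj; omega

theorem Reach.step {st : G → G → Prop} {p q : ℕ → ℤ} {k : ℕ} {A E : G}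
    (h : Reach st p q k A E) (X : G) (hc : E * X = X * E)
    (hX : E ^ p (k + 1) = X ^ q (k + 1)) : Reach st p q (k + 1) E (A⁻¹ * X) := by
  obtain ⟨Z, hZ, hst, rfl, rfl⟩ := h
  refine ⟨fun j => if j ≤ k + 1 then Z j else (Z k)⁻¹ * X, ⟨?_, ?_⟩, ?_, ?_, ?_⟩
  · intro j hj
    by_cases h1 : j < k + 1
    · have h2 : j ≤ k + 1 := h1.le
      have h3 : j + 1 ≤ k + 1 := h1
      simp only [h2, h3, if_true]
      exact hZ.1 j h1
    · have h1 : j = k + 1 := by omega
      subst h1
      simp only [le_refl, if_true, show ¬ (k + 1 + 1 ≤ k + 1) by omega, if_false]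
      have h2 : Commute (Z (k + 1)) (Z k) := (hZ.1 k (by omega)).symm
      have h3 : Commute (Z (k + 1)) X := hc
      exact (h2.inv_right.mul_right h3).eq
  · intro j hj
    by_cases h1 : j < k
    · have h2 : j ≤ k + 1 := by omega
      have h3 : j + 1 ≤ k + 1 := by omega
      have h4 : j + 2 ≤ k + 1 := by omega
      simp only [h2, h3, h4, if_true]
      exact hZ.2 j h4
    · have h1 : j = k := by omega
      subst h1
      simp only [show j ≤ j + 1 by omega, le_refl, if_true, show ¬ (j + 2 ≤ j + 1) by omega,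
        if_false]
      rw [mul_inv_cancel_left, hX]
  · simpa using hst
  · simp
  · simp

theorem Reach.map {st : G → G → Prop} {p q : ℕ → ℤ} {k : ℕ} {A E : G}
    (h : Reach st p q k A E) (f : G →* G) (hst : ∀ a b, st a b → st (f a) (f b)) :
    Reach st p q k (f A) (f E) := by
  obtain ⟨Z, hZ, h0, rfl, rfl⟩ := h
  refine ⟨fun j => f (Z j), ⟨?_, ?_⟩, hst _ _ h0, rfl, rfl⟩
  · intro j hj
    simp only [← map_mul]; rw [hZ.1 j hj]
  · intro j hj
    simp only [← map_mul, ← map_zpow]; rw [hZ.2 j hj]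

/-- The condition at a centre of a reflection that fixes the chain. -/
def stP (p q : ℤ) (A E : G) : Prop := A ^ p = (E * E) ^ q

/-- The condition at a centre of a reflection that inverts the chain. -/
def stM (A _E : G) : Prop := A = 1

theorem stP_map (p q : ℤ) (f : G →* G) (a b : G) (h : stP p q a b) : stP p q (f a) (f b) := by
  unfold stP at *; rw [← map_mul, ← map_zpow, ← map_zpow, h]

theorem stM_map (f : G →* G) (a b : G) (h : stM a b) : stM (f a) (f b) := by
  unfold stM at *; rw [h, map_one]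

/-- Two chains with matching ends can be joined. -/
theorem join {st st' : G → G → Prop} {p q p' q' : ℕ → ℤ} {k k' n : ℕ} {A E : G}
    (h : Reach st p q k A E) (h' : Reach st' p' q' k' E A) (hn : n = k + k' + 1)
    (hp : ∀ j, j ≤ n → p' (n - j) = p j) (hq : ∀ j, j ≤ n → q' (n - j) = q j) :
    ∃ Z : ℕ → G, Ch p q n Z ∧ st (Z 0) (Z 1) ∧ st' (Z n) (Z (n - 1)) ∧ Z k = A := by
  obtain ⟨Z, hZ, h0, rfl, rfl⟩ := h
  obtain ⟨Y, hY, h0', e1, e2⟩ := h'
  set F : ℕ → G := fun j => if j ≤ k + 1 then Z j else Y (n - j) with hF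
  have F1 : ∀ j, j ≤ k + 1 → F j = Z j := by
    intro j hj; simp only [hF, hj, if_true]
  have F2 : ∀ j, k ≤ j → F j = Y (n - j) := by
    intro j hj
    by_cases h1 : j ≤ k + 1
    · rw [F1 j h1]
      rcases Nat.lt_or_ge k j with h2 | h2
      · have h3 : j = k + 1 := by omega
        subst h3
        rw [← e1]; congr 1; omega
      · have h3 : j = k := by omega
        subst h3
        rw [← e2]; congr 1; omega
    · simp only [hF, h1, if_false]
  refine ⟨F, ⟨?_, ?_⟩, ?_, ?_, F1 k (by omega)⟩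
  · intro j hj
    by_cases h1 : j < k + 1
    · rw [F1 j (by omega), F1 (j + 1) (by omega)]
      exact hZ.1 j h1
    · rw [F2 j (by omega), F2 (j + 1) (by omega)]
      have := hY.1 (n - (j + 1)) (by omega)
      have e : n - (j + 1) + 1 = n - j := by omega
      rw [e] at this
      exact this.symm
  · intro j hj
    by_cases h1 : j < k
    · rw [F1 j (by omega), F1 (j + 1) (by omega), F1 (j + 2) (by omega)]
      exact hZ.2 j (by omega)
    · rw [F2 j (by omega), F2 (j + 1) (by omega), F2 (j + 2) (by omega)]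
      have := (hY.rel (n - (j + 2)) (by omega)).symm
      have e1 : n - (j + 2) + 1 = n - (j + 1) := by omega
      have e2 : n - (j + 2) + 2 = n - j := by omega
      rw [e1, e2, hp (j + 1) (by omega), hq (j + 1) (by omega)] at this
      exact this.pow
  · rw [F1 0 (by omega), F1 1 (by omega)]; exact h0
  · rw [F2 n (by omega), F2 (n - 1) (by omega)]
    have e1 : n - n = 0 := by omega
    have e2 : n - (n - 1) = 1 := by omega
    rw [e1, e2]; exact h0'

/-- The sequence on `0, …, 2 n` obtained by reflection at `n`. -/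
def refl (n : ℕ) (ε : ℤˣ) (Z : ℕ → G) (r : ℕ) : G := if r ≤ n then Z r else pw ε (Z (2 * n - r))

/-- The two-sided sequence obtained by reflections; `δ` is the sign of the period. -/
def unfolded (n : ℕ) (ε δ : ℤˣ) (Z : ℕ → G) (j : ℤ) : G :=
  pw (δ ^ (j / (2 * n : ℤ))) (refl n ε Z (j % (2 * n : ℤ)).toNat)

theorem unfolded_apply {n : ℕ} (hn : 0 < n) {ε δ : ℤˣ} {Z : ℕ → G}
    (h00 : pw δ (Z 0) = pw ε (Z 0)) (q : ℤ) (r : ℕ) (hr : r ≤ 2 * n) :
    unfolded n ε δ Z (2 * n * q + r) = pw (δ ^ q) (refl n ε Z r) := by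
  have hn' : (2 * (n : ℤ)) ≠ 0 := by positivity
  rcases hr.lt_or_eq with hr | rfl
  · unfold unfolded
    have h1 : (2 * (n : ℤ) * q + r) / (2 * n) = q := by
      rw [Int.add_comm, Int.add_mul_ediv_left _ _ hn', Int.ediv_eq_zero_of_lt (by positivity)
        (by exact_mod_cast hr), zero_add]
    have h2 : (2 * (n : ℤ) * q + r) % (2 * n) = r := by
      rw [Int.add_comm, Int.add_mul_emod_self_left, Int.emod_eq_of_lt (by positivity)
        (by exact_mod_cast hr)]
    rw [h1, h2, Int.toNat_natCast]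
  · unfold unfolded
    have h0 : (2 * (n : ℤ) * q + ((2 * n : ℕ) : ℤ)) = 2 * n * (q + 1) := by push_cast; ring
    rw [h0, Int.mul_ediv_cancel_left _ hn', Int.mul_emod_right, zpow_add_one, pw_mul]
    congr 1
    unfold refl
    simp only [Int.toNat_zero, Nat.zero_le, if_true, Nat.sub_self]
    rw [if_neg (by omega), h00]

theorem unfolded_period {n : ℕ} (hn : 0 < n) (ε δ : ℤˣ) (Z : ℕ → G) (j : ℤ) :
    unfolded n ε δ Z (j + 2 * n) = pw δ (unfolded n ε δ Z j) := by
  have hn' : (2 * (n : ℤ)) ≠ 0 := by positivity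
  unfold unfolded
  have h1 : (j + 2 * n) / (2 * n : ℤ) = j / (2 * n) + 1 := by
    rw [Int.add_ediv_of_dvd_right (dvd_refl _), Int.ediv_self hn']
  have h2 : (j + 2 * n) % (2 * n : ℤ) = j % (2 * n) := by
    rw [Int.add_emod_right]
  rw [h1, h2, zpow_add_one, mul_comm, pw_mul]

theorem per_mul {n : ℕ} {f : ℤ → ℤ} (hf : ∀ j, f (j + 2 * n) = f j) (c j : ℤ) :
    f (2 * n * c + j) = f j := by
  induction c using Int.induction_on with
  | zero => simp
  | succ c ih =>
    have e : 2 * (n : ℤ) * ((c : ℤ) + 1) + j = (2 * n * c + j) + 2 * n := by ring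
    rw [e, hf, ih]
  | pred c ih =>
    have e := hf (2 * (n : ℤ) * (-(c : ℤ) - 1) + j)
    have e2 : 2 * (n : ℤ) * (-(c : ℤ) - 1) + j + 2 * n = 2 * n * (-c) + j := by ring
    rw [e2, ih] at e
    exact e.symm

theorem unfolded_rel {n : ℕ} (hn : 1 < n) {ε δ : ℤˣ} {Z : ℕ → G} {p q : ℤ → ℤ}
    (hp : ∀ j, p (-j) = p j) (hq : ∀ j, q (-j) = q j)
    (hp' : ∀ j, p (j + 2 * n) = p j) (hq' : ∀ j, q (j + 2 * n) = q j)
    (hZ : Ch (fun j => p j) (fun j => q j) n Z)
    (h00 : pw δ (Z 0) = pw ε (Z 0))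
    (h0 : Z 0 ^ p 0 = (pw (δ * ε) (Z 1) * Z 1) ^ q 0)
    (hend : pw ε (Z n) = Z n)
    (h1 : Z n ^ p n = (Z (n - 1) * pw ε (Z (n - 1))) ^ q n)  (j : ℤ) :
    Rel (p j) (q j) (unfolded n ε δ Z (j - 1)) (unfolded n ε δ Z j)
      (unfolded n ε δ Z (j + 1)) := by
  have hn0 : 0 < n := by omega
  have hn' : (0 : ℤ) < 2 * n := by positivity
  obtain ⟨c, r, hr, rfl⟩ : ∃ (c : ℤ) (r : ℕ), r < 2 * n ∧ j = 2 * n * c + r := by
    refine ⟨j / (2 * n), (j % (2 * n)).toNat, ?_, ?_⟩
    · have h2 := Int.emod_lt_of_pos j hn'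
      have h3 := Int.emod_nonneg j hn'.ne'
      omega
    · rw [Int.toNat_of_nonneg (Int.emod_nonneg j hn'.ne')]
      exact (Int.mul_ediv_add_emod j (2 * n)).symm
  rw [per_mul hp', per_mul hq']
  have c0 : Rel (p 0) (q 0) (pw (δ * ε) (Z 1)) (Z 0) (Z 1) := by
    have h2 := hZ.1 0 (by omega)
    simp only [zero_add] at h2
    refine ⟨?_, h2, h0⟩
    unfold pw
    exact ((show Commute (Z 1) (Z 0) from h2.symm).zpow_left _).eq
  rcases Nat.eq_zero_or_pos r with rfl | hr0
  · -- `r = 0`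
    have e1 : 2 * (n : ℤ) * c + ((0 : ℕ) : ℤ) - 1 = 2 * n * (c - 1) + ((2 * n - 1 : ℕ) : ℤ) := by
      rw [Nat.cast_sub (by omega)]; push_cast; ring
    have e2 : 2 * (n : ℤ) * c + ((0 : ℕ) : ℤ) + 1 = 2 * n * c + ((1 : ℕ) : ℤ) := by
      push_cast; ring
    rw [e1, e2, unfolded_apply hn0 h00 _ _ (by omega), unfolded_apply hn0 h00 _ _ (by omega),
      unfolded_apply hn0 h00 _ _ (by omega)]
    have e3 : refl n ε Z 1 = Z 1 := by unfold refl; rw [if_pos (by omega)]
    have e4 : refl n ε Z 0 = Z 0 := by unfold refl; rw [if_pos (by omega)]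
    have e5 : refl n ε Z (2 * n - 1) = pw ε (Z 1) := by
      unfold refl; rw [if_neg (by omega)]
      congr 2; omega
    have e6 : δ ^ (c - 1) * ε = δ ^ c * (δ * ε) := by
      have hδ : δ⁻¹ = δ := Int.units_inv_eq_self δ
      rw [zpow_sub_one, hδ, mul_assoc]
    rw [e3, e4, e5, ← pw_mul, e6, pw_mul]
    exact c0.pw _
  · obtain ⟨s, rfl⟩ : ∃ s, r = s + 1 := ⟨r - 1, by omega⟩
    have e1 : 2 * (n : ℤ) * c + ((s + 1 : ℕ) : ℤ) - 1 = 2 * n * c + (s : ℤ) := by
      push_cast; ring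
    have e2 : 2 * (n : ℤ) * c + ((s + 1 : ℕ) : ℤ) + 1 = 2 * n * c + ((s + 2 : ℕ) : ℤ) := by
      push_cast; ring
    rw [e1, e2, unfolded_apply hn0 h00 _ _ (by omega), unfolded_apply hn0 h00 _ _ (by omega),
      unfolded_apply hn0 h00 _ _ (by omega)]
    apply Rel.pw
    rcases lt_trichotomy (s + 1) n with hs | hs | hs
    · unfold refl
      rw [if_pos (by omega), if_pos (by omega), if_pos (by omega)]
      exact hZ.rel s (by omega)
    · unfold refl
      rw [if_pos (by omega), if_pos (by omega), if_neg (by omega)]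
      have e3 : 2 * n - (s + 2) = s := by omega
      rw [e3]
      have e4 : n - 1 = s := by omega
      rw [e4, ← hs] at h1
      rw [← hs] at hend
      have c : Z s * Z (s + 1) = Z (s + 1) * Z s := hZ.1 s (by omega)
      refine ⟨c, ?_, h1⟩
      unfold pw
      have c' : Commute (Z (s + 1)) (Z s) := c.symm
      exact (c'.zpow_right _).eq
    · have h3 : ¬ (s + 1 ≤ n) := by omega
      have h4 : ¬ (s + 2 ≤ n) := by omega
      have key : ∀ t, n ≤ t → refl n ε Z t = pw ε (Z (2 * n - t)) := by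
        intro t ht
        unfold refl
        rcases ht.lt_or_eq with h | h
        · rw [if_neg (by omega)]
        · subst h
          have : 2 * n - n = n := by omega
          rw [if_pos (le_refl _), this, hend]
      rw [key s (by omega), key (s + 1) (by omega), key (s + 2) (by omega)]
      apply Rel.pw
      have := (hZ.rel (2 * n - (s + 2)) (by omega)).symm
      have e1 : 2 * n - (s + 2) + 1 = 2 * n - (s + 1) := by omega
      have e2 : 2 * n - (s + 2) + 2 = 2 * n - s := by omega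
      rw [e1, e2] at this
      have e3 : ((2 * n - (s + 1) : ℕ) : ℤ) = -((s + 1 : ℕ) : ℤ) + 2 * n := by
        rw [Nat.cast_sub (by omega)]
        push_cast; ring
      have e4 : p ((2 * n - (s + 1) : ℕ) : ℤ) = p ((s + 1 : ℕ) : ℤ) := by
        rw [e3, hp', hp]
      have e5 : q ((2 * n - (s + 1) : ℕ) : ℤ) = q ((s + 1 : ℕ) : ℤ) := by
        rw [e3, hq', hq]
      simp only [e4, e5] at this
      exact this

end Pool.Agent.H828.QCh
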