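import Pool.Agent.H828.Pieces
import Pool.Agent.H828.BorLift
import Pool.Agent.H828.QChain

set_option autoImplicit false

/-!
# The ends and the steps of chains of order automorphisms with rational slopes
-/

namespace Pool.Agent.H828.QEnds

open Real Pool.Agent.H828.Lift Pool.Agent.H828.QCh

/-- Conjugation. -/
def cj (W : H) : H →* H := (MulAut.conj W).toMonoidHom

theorem cj_apply (W F : H) : cj W F = W * F * W⁻¹ := rfl

theorem cj_z {W : H} (hW : W * z = z * W) : cj W z = z := by
  rw [cj_apply, hW, mul_inv_cancel_right]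

/-- The start conditions are preserved by homomorphisms. -/
def Nat' (st : H → H → Prop) : Prop := ∀ (f : H →* H) a b, st a b → st (f a) (f b)

theorem nat_stP (p q : ℤ) : Nat' (stP p q) := fun f a b h => stP_map p q f a b h

theorem nat_stM : Nat' stM := fun f a b h => stM_map f a b h

/-- Conjugation by `θ ↦ -θ`. -/
noncomputable def rhoFun (f : H) : H :=
  StrictMono.orderIsoOfRightInverse (fun θ => -f (-θ))
    (fun θ θ' h => by
      have := f.strictMono (neg_lt_neg h)
      show -f (-θ) < -f (-θ')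
      linarith)
    (fun θ => -f⁻¹ (-θ))
    (fun θ => by
      show -f (- -f⁻¹ (-θ)) = θ
      rw [neg_neg, ← mul_apply, mul_inv_cancel, one_apply, neg_neg])

theorem rhoFun_apply (f : H) (θ : ℝ) : rhoFun f θ = -f (-θ) := rfl

/-- Conjugation by `θ ↦ -θ`. -/
noncomputable def rho : H →* H where
  toFun := rhoFun
  map_one' := by apply ext_H; intro θ; rw [rhoFun_apply, one_apply, one_apply, neg_neg]
  map_mul' f g := by
    apply ext_H; intro θ
    rw [mul_apply, rhoFun_apply, rhoFun_apply, rhoFun_apply, mul_apply, neg_neg]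

theorem rho_apply (f : H) (θ : ℝ) : rho f θ = -f (-θ) := rfl

theorem rho_z : rho z = z⁻¹ := by
  rw [eq_inv_iff_mul_eq_one]
  apply ext_H; intro θ
  rw [mul_apply, rho_apply, z_apply, z_apply, one_apply]; ring

theorem rho_z_inv : rho z⁻¹ = z := by rw [map_inv, rho_z, inv_inv]

theorem rho_D (l : ℝ) (hl : 0 < l) : rho (D l hl) = D l hl := by
  apply ext_H; intro θ
  rw [rho_apply]
  show -affFun l 0 (-θ) = affFun l 0 θ
  rcases cases θ with ⟨k, rfl⟩ | ⟨k, u, rfl⟩
  · have : -((k : ℝ) * π - π / 2) = ((-k + 1 : ℤ) : ℝ) * π - π / 2 := by push_cast; ring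
    rw [this, affFun_end, affFun_end]; push_cast; ring
  · have : -((k : ℝ) * π + arctan u) = ((-k : ℤ) : ℝ) * π + arctan (-u) := by
      rw [arctan_neg]; push_cast; ring
    rw [this, affFun_mid', affFun_mid']
    have : l * -u + 0 = -(l * u + 0) := by ring
    rw [this, arctan_neg]; push_cast; ring

theorem rho_g : rho g = g := rho_D _ _

/-- Powers of conjugates of translations. -/
theorem conjT_zpow (C : H) (x : ℝ) (n : ℤ) : (C * T x * C⁻¹) ^ n = C * T (n * x) * C⁻¹ := by
  rw [conj_zpow, T_zpow]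

theorem conjT_comm {C : H} {x : ℝ} (hC : C * T x = T x * C) (y : ℝ) :
    T x * (C * T y * C⁻¹) = (C * T y * C⁻¹) * T x := by
  have h1 : Commute (T x) C := hC.symm
  have h2 : Commute (T x) (T y) := T_comm _ _
  exact ((h1.mul_right h2).mul_right h1.inv_right).eq

section reach
variable {st : H → H → Prop} {p q : ℕ → ℤ} {k : ℕ}

theorem Reach_rho (hst : Nat' st) {A E : H} (h : Reach st p q k A E) :
    Reach st p q k (rho A) (rho E) := h.map rho (hst rho)

theorem Reach_cj (hst : Nat' st) {A E : H} (h : Reach st p q k A E) (W : H) :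
    Reach st p q k (cj W A) (cj W E) := h.map (cj W) (hst _)

/-- The slope. -/
noncomputable def sl (p q : ℕ → ℤ) (j : ℕ) : ℝ := (p j : ℝ) / q j

/-- The step at a translation. -/
theorem stepC {x : ℝ} (hq : q (k + 1) ≠ 0) {A C : H} (hC : C * T x = T x * C)
    (h : Reach st p q k A (T x)) :
    Reach st p q (k + 1) (T x) (A⁻¹ * (C * T (sl p q (k + 1) * x) * C⁻¹)) := by
  apply h.step
  · exact conjT_comm hC _
  · have hq' : (q (k + 1) : ℝ) ≠ 0 := by exact_mod_cast hq
    rw [conjT_zpow, T_zpow]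
    have e : (q (k + 1) : ℝ) * (sl p q (k + 1) * x) = p (k + 1) * x := by
      unfold sl; field_simp
    have e2 : C * T (p (k + 1) * x) = T (p (k + 1) * x) * C := by
      rw [← T_zpow]
      exact ((show Commute C (T x) from hC).zpow_right _).eq
    rw [e, e2, mul_inv_cancel_right]

/-- The step at a translation, with a translation. -/
theorem stepT {a b : ℝ} (hq : q (k + 1) ≠ 0) (h : Reach st p q k (T a) (T b)) :
    Reach st p q (k + 1) (T b) (T (sl p q (k + 1) * b - a)) := by
  have h1 := stepC (C := 1) hq (by rw [one_mul, mul_one]) h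
  rw [one_mul, inv_one, mul_one, ← T_neg, ← T_add] at h1
  have e : -a + sl p q (k + 1) * b = sl p q (k + 1) * b - a := by ring
  rwa [e] at h1

theorem g_eq : g = E (log 4) := by
  unfold g E
  exact Aff_congr _ _ (by rw [exp_log (by norm_num)]) rfl

/-- The fast step, for an arbitrary slope. -/
theorem fast (hst : Nat' st) (hq : q (k + 1) ≠ 0) (h : Reach st p q k z⁻¹ g) :
    Reach st p q (k + 1) g z := by
  have hq' : (q (k + 1) : ℝ) ≠ 0 := by exact_mod_cast hq
  have h1 := h.step (E (sl p q (k + 1) * log 4))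
    (by rw [g_eq, ← E_add, ← E_add, add_comm])
    (by
      rw [g_eq, E_zpow, E_zpow]
      congr 1
      unfold sl
      field_simp)
  obtain ⟨φ, hφ, hφD⟩ := glue (exp (sl p q (k + 1) * log 4)) (exp_pos _)
  have h2 := Reach_cj hst h1 φ
  rw [cj_apply, cj_apply, inv_inv] at h2
  have h3 : φ * g * φ⁻¹ = g := hφD 4 (by norm_num)
  rw [h3] at h2
  have h4 : φ * (z * E (sl p q (k + 1) * log 4)) * φ⁻¹ = z := hφ
  rwa [h4] at h2

/-- The inverse of the standard hyperbolic element is conjugate to it. -/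
theorem g_inv_conj : ∃ W : H, W * z = z * W ∧ W * g⁻¹ * W⁻¹ = g := by
  apply hyp (inv_z g_z) (p := 2) (q := 0) (r := 0) (s := 1 / 2)
  · unfold g
    rw [D_inv]
    exact ((lifts_D _ _).smul (a := 2) (by norm_num)).congr (by ring) (by ring) (by ring)
      (by norm_num)
  · norm_num
  · norm_num
  · intro θ
    have h : θ - π < g⁻¹ θ ∧ g⁻¹ θ < θ + π := by
      unfold g
      rw [D_inv]
      exact Aff_disp _ _ _ _
    have := pi_pos
    constructor <;> linarith [h.1, h.2]

/-- The slow step, for a slope of absolute value less than `1`. -/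
theorem slow (hst : Nat' st) (hq : q (k + 1) ≠ 0) (hs : |sl p q (k + 1)| < 1)
    (h : Reach st p q k g z) : Reach st p q (k + 1) z⁻¹ g := by
  have hp := pi_pos
  obtain ⟨hs1, hs2⟩ := abs_lt.mp hs
  obtain ⟨C, W, hC, hW, hWF⟩ : ∃ C W : H, C * z = z * C ∧ W * z = z * W ∧
      W * (g⁻¹ * (C * T (sl p q (k + 1) * π) * C⁻¹)) * W⁻¹ = g := by
    by_cases h0 : sl p q (k + 1) = 0
    · obtain ⟨W, hW, hWg⟩ := g_inv_conj
      refine ⟨1, W, by rw [one_mul, mul_one], hW, ?_⟩
      rw [h0, zero_mul, T_zero]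
      simpa using hWg
    · apply P3
      · exact mul_ne_zero h0 hp.ne'
      · nlinarith
      · nlinarith
  have h2 := stepC (x := π) hq hC h
  have h3 := Reach_cj hst h2 W
  have e1 : cj W (T π) = z := cj_z hW
  rw [e1, cj_apply, hWF] at h3
  have h4 := Reach_rho hst h3
  rwa [rho_z, rho_g] at h4

/-- A step from two translations to a hyperbolic element of translation number zero. -/
theorem kinkA (hst : Nat' st) (hq : q (k + 1) ≠ 0) {x : ℝ} (hx : 0 < x) (hx' : x < π)
    (hs : 0 < sl p q (k + 1)) (hs' : sl p q (k + 1) < 1)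
    (h : Reach st p q k (T x) z) : Reach st p q (k + 1) z⁻¹ g := by
  have hp := pi_pos
  set s := sl p q (k + 1) with hsd
  obtain ⟨C, W, hC, hW, hWF⟩ := P1 (α := s * π) (β := x) (mul_pos hs hp) (by nlinarith) hx hx'
  have hCi : C⁻¹ * T π = T π * C⁻¹ := inv_z hC
  have h2 := stepC (x := π) hq hCi h
  have h3 := Reach_cj hst h2 (W * C * T x)
  have hW' : (W * C * T x) * z = z * (W * C * T x) := mul_z (mul_z hW hC) (T_z _)
  have e1 : cj (W * C * T x) (T π) = z := cj_z hW'
  have e2 : cj (W * C * T x) ((T x)⁻¹ * (C⁻¹ * T (s * π) * C⁻¹⁻¹)) = g := by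
    rw [← hWF, cj_apply, T_neg]; group
  rw [e1, e2] at h3
  have h4 := Reach_rho hst h3
  rwa [rho_z, rho_g] at h4

/-- A step from two translations to a hyperbolic element of translation number one. -/
theorem kinkB (hst : Nat' st) (hq : q (k + 1) ≠ 0) {x : ℝ} (hx : 0 < x) (hx' : x < π)
    (hs : 0 < sl p q (k + 1)) (hs' : sl p q (k + 1) < 1)
    (h : Reach st p q k (T (-x)) z) : Reach st p q (k + 1) z (z * g) := by
  have hp := pi_pos
  set s := sl p q (k + 1) with hsd
  obtain ⟨C, W, hC, hW, hWF⟩ := P1 (α := x) (β := (1 - s) * π) hx hx'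
    (mul_pos (by linarith) hp) (by nlinarith)
  have h2 := stepC (x := π) hq hC h
  have h3 := Reach_cj hst h2 W
  have e1 : cj W (T π) = z := cj_z hW
  have e2 : cj W ((T (-x))⁻¹ * (C * T (s * π) * C⁻¹)) = z * g := by
    have e3 : T (s * π) = z * T (-((1 - s) * π)) := by
      have : s * π = π + -((1 - s) * π) := by ring
      rw [this, T_add]; rfl
    have e4 : (T (-x))⁻¹ * (C * T (s * π) * C⁻¹) = z * (T x * (C * T (-((1 - s) * π)) * C⁻¹)) := by
      rw [e3, ← T_neg, neg_neg]
      calc T x * (C * (z * T (-((1 - s) * π))) * C⁻¹)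
          = T x * ((C * z) * T (-((1 - s) * π)) * C⁻¹) := by group
        _ = (T x * z) * (C * T (-((1 - s) * π)) * C⁻¹) := by rw [hC]; group
        _ = _ := by rw [T_z]; group
    rw [e4, map_mul, cj_z hW, cj_apply, hWF]
  rwa [e1, e2] at h3

/-- The step after the previous one. -/
theorem tail (hst : Nat' st) (hq : q (k + 1) ≠ 0)
    (hs : 0 < sl p q (k + 1)) (hs' : sl p q (k + 1) < 1)
    (h : Reach st p q k z (z * g)) : Reach st p q (k + 1) z⁻¹ g := by
  have hp := pi_pos
  set s := sl p q (k + 1) with hsd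
  obtain ⟨φ, hφ, hφD⟩ := glue (4 : ℝ) (by norm_num)
  have e1 : cj φ (z * g) = z := hφ
  have e2 : cj φ g = g := hφD 4 (by norm_num)
  have e3 : cj φ z = z * g⁻¹ := by
    have : z = (z * g) * g⁻¹ := by group
    nth_rewrite 1 [this]
    rw [map_mul, e1, map_inv, e2]
  have h1 := Reach_cj hst h φ
  rw [e1, e3] at h1
  obtain ⟨C, W, hC, hW, hWF⟩ := P3' (γ := -((1 - s) * π)) (by
    have : 0 < (1 - s) * π := mul_pos (by linarith) hp
    linarith) (by nlinarith) (by nlinarith)
  have h2 := stepC (x := π) hq hC h1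
  have h3 := Reach_cj hst h2 W
  have f1 : cj W (T π) = z := cj_z hW
  have f2 : cj W ((z * g⁻¹)⁻¹ * (C * T (s * π) * C⁻¹)) = g := by
    have e3 : T (s * π) = z * T (-((1 - s) * π)) := by
      have : s * π = π + -((1 - s) * π) := by ring
      rw [this, T_add]; rfl
    have e4 : (z * g⁻¹)⁻¹ * (C * T (s * π) * C⁻¹) = g * (C * T (-((1 - s) * π)) * C⁻¹) := by
      rw [e3]
      calc (z * g⁻¹)⁻¹ * (C * (z * T (-((1 - s) * π))) * C⁻¹)
          = g * z⁻¹ * ((C * z) * T (-((1 - s) * π)) * C⁻¹) := by group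
        _ = _ := by rw [hC]; group
    rw [e4, cj_apply, hWF]
  rw [f1, f2] at h3
  have h4 := Reach_rho hst h3
  rwa [rho_z, rho_g] at h4

/-- The short end. -/
theorem gendShort (hst : Nat' st) {h : ℝ} (hh : 1 < h)
    (hs : ∀ c : ℝ, Reach st p q k (T c) (T (c * h)))
    (hq1 : q (k + 1) ≠ 0) (h1 : 0 < sl p q (k + 1)) (h1' : sl p q (k + 1) < 1) :
    Reach st p q (k + 1) z⁻¹ g := by
  have hp := pi_pos
  have h2 := hs (π / h)
  have e : π / h * h = π := by field_simp
  rw [e] at h2
  exact kinkA hst hq1 (x := π / h) (by positivity) (div_lt_self hp hh) h1 h1' h2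

/-- The long end. -/
theorem gendLong (hst : Nat' st) {h : ℝ} (hh : 0 < h)
    (hs : ∀ c : ℝ, Reach st p q k (T c) (T (c * h)))
    (hq1 : q (k + 1) ≠ 0) (h1 : 0 < sl p q (k + 1)) (h1' : sl p q (k + 1) < 1)
    (hq2 : q (k + 2) ≠ 0) (h2 : 0 < sl p q (k + 2))
    (hq3 : q (k + 3) ≠ 0) (h3 : 0 < sl p q (k + 3)) (h3' : sl p q (k + 3) < 1) :
    Reach st p q (k + 3) z⁻¹ g := by
  have hp := pi_pos
  rcases lt_or_ge 1 h with h0 | h0
  · have a1 := gendShort hst h0 hs hq1 h1 h1'
    have a2 := fast hst hq2 a1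
    exact slow hst hq3 (abs_lt.mpr ⟨by linarith, h3'⟩) a2
  · set s1 := sl p q (k + 1) with hs1
    set s2 := sl p q (k + 2) with hs2
    set s3 := sl p q (k + 3) with hs3
    set X := 1 - h * s1 with hX
    have hX0 : 0 < X := by nlinarith
    have step1 : ∀ c : ℝ, Reach st p q (k + 1) (T (c * h)) (T (-(c * X))) := by
      intro c
      have := stepT hq1 (hs c)
      have e : s1 * (c * h) - c = -(c * X) := by rw [hX]; ring
      rwa [← hs1, e] at this
    have step2 : ∀ c : ℝ, Reach st p q (k + 2) (T (-(c * X))) (T (-(c * (s2 * X + h)))) := by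
      intro c
      have := stepT hq2 (step1 c)
      have e : s2 * -(c * X) - c * h = -(c * (s2 * X + h)) := by ring
      rwa [← hs2, e] at this
    by_cases hA : X < s2 * X + h
    · have hY : 0 < s2 * X + h := by positivity
      have h4 := step2 (-(π / (s2 * X + h)))
      have e1 : -(-(π / (s2 * X + h)) * (s2 * X + h)) = π := by field_simp
      have e2 : -(-(π / (s2 * X + h)) * X) = π * (X / (s2 * X + h)) := by ring
      rw [e1, e2] at h4
      refine kinkA hst hq3 (x := π * (X / (s2 * X + h))) (by positivity) ?_ h3 h3' h4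
      have : X / (s2 * X + h) < 1 := by rw [div_lt_one hY]; exact hA
      nlinarith
    · have hs2' : s2 < 1 := by
        by_contra hcon
        push Not at hcon
        apply hA
        nlinarith
      have hhX : h < X := by
        by_contra hcon
        push Not at hcon
        apply hA
        nlinarith [mul_pos h2 hX0]
      have h4 := step1 (-(π / X))
      have e1 : -(-(π / X) * X) = π := by field_simp
      have e2 : -(π / X) * h = -(π * (h / X)) := by ring
      rw [e1, e2] at h4
      have h5 := kinkB hst hq2 (x := π * (h / X)) (by positivity) (by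
        have : h / X < 1 := by rw [div_lt_one hX0]; exact hhX
        nlinarith) h2 hs2' h4
      exact tail hst hq3 h3 h3' h5

end reach

end Pool.Agent.H828.QEnds
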