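import Pool.Graph.R_seed8.Results.MP_3d425c_gt.ChainLinks
import Pool.Agent.H828.QFull

set_option autoImplicit false

/-!
# Chains and surgeries on chain links
-/

namespace Pool.Agent.H828.QLink

open Pool.Agent.H828.Lift Pool.Agent.H828.QCh
open Pool.Agent.Results.MP_3d425c_gt.ChainLinks (o m crossing outer inner longitude SurgeryGroup)

variable {N : ℕ}

/-- The sign of a clasp. -/
def sg (e : ZMod N → Bool) (i : ZMod N) : ℤˣ := if e i then 1 else -1

theorem prod_cast [NeZero N] (F : ZMod N → ℤˣ) :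
    ∏ i ∈ Finset.range N, F (i : ZMod N) = ∏ x, F x := by
  symm
  refine Finset.prod_bij' (fun x _ => x.val) (fun i _ => (i : ZMod N)) ?_ ?_ ?_ ?_ ?_
  · intro x _; exact Finset.mem_range.mpr x.val_lt
  · intro i _; exact Finset.mem_univ _
  · intro x _; exact ZMod.natCast_zmod_val x
  · intro i hi; exact ZMod.val_cast_of_lt (Finset.mem_range.mp hi)
  · intro x _; rw [ZMod.natCast_zmod_val]

/-- The signs along the chain. -/
def sgn (e : ZMod N → Bool) (δ : ℤˣ) (j : ℕ) : ℤˣ :=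
  ∏ i ∈ Finset.range j, (-δ * sg e (i : ZMod N))

theorem sgn_succ (e : ZMod N → Bool) (δ : ℤˣ) (j : ℕ) :
    sgn e δ (j + 1) = -δ * sg e (j : ZMod N) * sgn e δ j := by
  unfold sgn; rw [Finset.prod_range_succ, mul_comm]

theorem sgn_add (e : ZMod N → Bool) (δ : ℤˣ) (j : ℕ) :
    sgn e δ (j + N) = sgn e δ N * sgn e δ j := by
  induction j with
  | zero => rw [zero_add]; unfold sgn; simp
  | succ j ih =>
    have e1 : j + 1 + N = (j + N) + 1 := by ring
    rw [e1, sgn_succ, ih, sgn_succ]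
    have e2 : ((j + N : ℕ) : ZMod N) = (j : ZMod N) := by
      push_cast; rw [ZMod.natCast_self, add_zero]
    rw [e2]
    ac_rfl

theorem sgn_period [NeZero N] {n : ℕ} (hN : N = 2 * n) (e : ZMod N → Bool) (δ : ℤˣ)
    (he : Even ((Finset.univ.filter fun i => e i = true).card + n)) :
    sgn e δ N = (-1) ^ n := by
  unfold sgn
  rw [prod_cast (fun i => -δ * sg e i), Finset.prod_mul_distrib, Finset.prod_const,
    Finset.card_univ, ZMod.card]
  have h1 : (-δ) ^ N = 1 := by rw [hN, pow_mul]; simp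
  have h2 : ∏ x : ZMod N, sg e x =
      (-1) ^ (Finset.univ.filter fun i : ZMod N => ¬ e i = true).card := by
    unfold sg
    rw [Finset.prod_ite]
    simp
  have h3 : (Finset.univ.filter fun i : ZMod N => e i = true).card +
      (Finset.univ.filter fun i : ZMod N => ¬ e i = true).card = N := by
    rw [Finset.card_filter_add_card_filter_not, Finset.card_univ, ZMod.card]
  rw [h1, h2, one_mul]
  set k := (Finset.univ.filter fun i : ZMod N => e i = true).card with hk
  set k' := (Finset.univ.filter fun i : ZMod N => ¬ e i = true).card with hk'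
  obtain ⟨c, hc⟩ := he
  have h4 : (-1 : ℤˣ) ^ k' * (-1) ^ n = 1 := by
    rw [← pow_add, Even.neg_one_pow]
    refine ⟨k' + c - n, ?_⟩
    omega
  have h5 : (-1 : ℤˣ) ^ n * (-1) ^ n = 1 := by rw [← mul_pow]; simp
  calc (-1 : ℤˣ) ^ k' = (-1) ^ k' * ((-1) ^ n * (-1) ^ n) := by rw [h5, mul_one]
    _ = ((-1) ^ k' * (-1) ^ n) * (-1) ^ n := by rw [mul_assoc]
    _ = _ := by rw [h4, one_mul]

theorem comm_crossing {G : Type*} [Group G] {a c : G} (h : a * c = c * a) (ε : ℤ) :
    c ^ (-ε) * a * c ^ ε * a⁻¹ = 1 := by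
  have h1 : Commute a c := h
  have h2 : a * c ^ ε = c ^ ε * a := (h1.zpow_right ε).eq
  rw [mul_assoc (c ^ (-ε)), h2, ← mul_assoc, ← zpow_add, neg_add_cancel, zpow_zero, one_mul,
    mul_inv_cancel]

/-- A periodic chain gives a homomorphism. -/
theorem exists_hom [NeZero N] {n : ℕ} (hN : N = 2 * n) {e : ZMod N → Bool} {p q : ZMod N → ℤ}
    {δ : ℤˣ} (he : Even ((Finset.univ.filter fun i => e i = true).card + n)) {F : ℤ → H}
    (hF : ∀ j : ℤ, Rel (δ * p (j : ZMod N)) (q (j : ZMod N)) (F (j - 1)) (F j) (F (j + 1)))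
    (hF' : ∀ j, F (j + 2 * n) = pw ((-1) ^ n) (F j)) (hne : ∃ j, F j ≠ 1) :
    ∃ f : SurgeryGroup e p q →* H,
      (∀ i, f (PresentedGroup.of (i, false)) = f (PresentedGroup.of (i, true))) ∧
        ∃ γ, f γ ≠ 1 := by
  set u : ℕ → H := fun j => pw (sgn e δ j) (F j) with hu
  have hper : Function.Periodic u N := by
    intro j
    show pw (sgn e δ (j + N)) (F ((j + N : ℕ) : ℤ)) = pw (sgn e δ j) (F j)
    have e1 : ((j + N : ℕ) : ℤ) = (j : ℤ) + 2 * n := by rw [hN]; push_cast; ring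
    rw [e1, hF', sgn_add, sgn_period hN e δ he, ← pw_mul]
    congr 1
    have h5 : (-1 : ℤˣ) ^ n * (-1) ^ n = 1 := by rw [← mul_pow]; simp
    calc (-1 : ℤˣ) ^ n * sgn e δ j * (-1) ^ n = ((-1) ^ n * (-1) ^ n) * sgn e δ j := by ac_rfl
      _ = _ := by rw [h5, one_mul]
  set U : ZMod N → H := fun i => u i.val with hU
  have hUj : ∀ j : ℕ, U (j : ZMod N) = u j := by
    intro j
    show u ((j : ZMod N)).val = u j
    rw [ZMod.val_natCast, hper.map_mod_nat]
  have hrep : ∀ i : ZMod N, ∃ j : ℕ, i = ((j + 1 : ℕ) : ZMod N) := by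
    intro i
    refine ⟨i.val + (N - 1), ?_⟩
    have hN1 : 1 ≤ N := NeZero.one_le
    have e2 : i.val + (N - 1) + 1 = i.val + N := by omega
    rw [e2]; push_cast; rw [ZMod.natCast_zmod_val, ZMod.natCast_self, add_zero]
  have hRel : ∀ j : ℕ, Rel (δ * p ((j + 1 : ℕ) : ZMod N)) (q ((j + 1 : ℕ) : ZMod N))
      (F (j : ℤ)) (F ((j + 1 : ℕ) : ℤ)) (F ((j + 2 : ℕ) : ℤ)) := by
    intro j
    have h1 := hF ((j : ℤ) + 1)
    have e1 : (j : ℤ) + 1 - 1 = (j : ℤ) := by ring
    have e2 : (j : ℤ) + 1 + 1 = ((j + 2 : ℕ) : ℤ) := by push_cast; ring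
    have e3 : (j : ℤ) + 1 = ((j + 1 : ℕ) : ℤ) := by push_cast; ring
    rw [e1, e2, e3] at h1
    simpa using h1
  have hcomm : ∀ i : ZMod N, U i * U (i + 1) = U (i + 1) * U i := by
    intro i
    obtain ⟨j, rfl⟩ := hrep i
    have e1 : ((j + 1 : ℕ) : ZMod N) + 1 = ((j + 2 : ℕ) : ZMod N) := by push_cast; ring
    rw [e1, hUj, hUj]
    simp only [hu, pw]
    have h1 : Commute (F ((j + 1 : ℕ) : ℤ)) (F ((j + 2 : ℕ) : ℤ)) := (hRel j).right
    exact ((h1.zpow_right _).zpow_left _).eq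
  -- the map on the generators
  set φ : FreeGroup (ZMod N × Bool) →* H := FreeGroup.lift (fun a => U a.1) with hφ
  have ho : ∀ i, φ (o i) = U i := fun i => FreeGroup.lift_apply_of
  have hm : ∀ i, φ (m i) = U i := fun i => FreeGroup.lift_apply_of
  have hcr : ∀ (ε : ℤ) (c a b : FreeGroup (ZMod N × Bool)) (x y : H), φ c = x → φ a = y →
      φ b = y → y * x = x * y → φ (crossing ε c a b) = 1 := by
    intro ε c a b x y h1 h2 h3 h4
    unfold crossing
    rw [map_mul, map_mul, map_mul, map_inv, map_zpow, map_zpow, h1, h2, h3]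
    exact comm_crossing h4 ε
  have hlon : ∀ j : ℕ, φ (longitude e ((j + 1 : ℕ) : ZMod N)) =
      pw (-δ * sgn e δ (j + 1)) (F ((j + 2 : ℕ) : ℤ)) *
        pw (-δ * sgn e δ (j + 1)) (F (j : ℤ)) := by
    intro j
    have e1 : ((j + 1 : ℕ) : ZMod N) + 1 = ((j + 2 : ℕ) : ZMod N) := by push_cast; ring
    have e2 : ((j + 1 : ℕ) : ZMod N) - 1 = (j : ZMod N) := by push_cast; ring
    have hδ : δ * δ = 1 := Int.units_mul_self δ
    have hsg : ∀ i, sg e i * sg e i = 1 := fun i => Int.units_mul_self _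
    have k1 : φ (if e ((j + 1 : ℕ) : ZMod N) then m ((j + 2 : ℕ) : ZMod N)
        else (o ((j + 2 : ℕ) : ZMod N))⁻¹) = pw (-δ * sgn e δ (j + 1)) (F ((j + 2 : ℕ) : ℤ)) := by
      have h1 : φ (if e ((j + 1 : ℕ) : ZMod N) then m ((j + 2 : ℕ) : ZMod N)
        else (o ((j + 2 : ℕ) : ZMod N))⁻¹) = pw (sg e ((j + 1 : ℕ) : ZMod N))
          (U ((j + 2 : ℕ) : ZMod N)) := by
        unfold sg
        split_ifs
        · rw [hm, pw_one]
        · rw [map_inv, ho, pw_neg, pw_one]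
      rw [h1, hUj]
      show pw _ (pw (sgn e δ (j + 2)) _) = _
      rw [← pw_mul]
      congr 1
      have : sgn e δ (j + 2) = -δ * sg e ((j + 1 : ℕ) : ZMod N) * sgn e δ (j + 1) :=
        sgn_succ e δ (j + 1)
      rw [this]
      calc sg e ((j + 1 : ℕ) : ZMod N) * (-δ * sg e ((j + 1 : ℕ) : ZMod N) * sgn e δ (j + 1))
          = (sg e ((j + 1 : ℕ) : ZMod N) * sg e ((j + 1 : ℕ) : ZMod N)) *
            (-δ * sgn e δ (j + 1)) := by ac_rfl
        _ = _ := by rw [hsg, one_mul]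
    have k2 : φ (if e (j : ZMod N) then o (j : ZMod N)
        else (m (j : ZMod N))⁻¹) = pw (-δ * sgn e δ (j + 1)) (F (j : ℤ)) := by
      have h1 : φ (if e (j : ZMod N) then o (j : ZMod N)
        else (m (j : ZMod N))⁻¹) = pw (sg e (j : ZMod N)) (U (j : ZMod N)) := by
        unfold sg
        split_ifs
        · rw [ho, pw_one]
        · rw [map_inv, hm, pw_neg, pw_one]
      rw [h1, hUj]
      show pw _ (pw (sgn e δ j) _) = _
      rw [← pw_mul]
      congr 1
      rw [sgn_succ]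
      have hnn : -δ * -δ = 1 := by rw [neg_mul_neg, hδ]
      calc sg e (j : ZMod N) * sgn e δ j = (-δ * -δ) * (sg e (j : ZMod N) * sgn e δ j) := by
            rw [hnn, one_mul]
        _ = _ := by ac_rfl
    unfold longitude
    rw [e1, e2, map_mul, k1, k2]
  have hrel : ∀ w ∈ (Set.range (outer e) ∪ Set.range (inner e) ∪
      Set.range fun i => o i ^ p i * longitude e i ^ q i), φ w = 1 := by
    rintro w ((⟨i, rfl⟩ | ⟨i, rfl⟩) | ⟨i, rfl⟩)
    · unfold outer
      split_ifs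
      · exact hcr _ _ _ _ _ _ (ho i) (hm _) (ho _) (hcomm i).symm
      · exact hcr _ _ _ _ _ _ (ho _) (ho _) (hm _) (hcomm i)
    · unfold Pool.Agent.Results.MP_3d425c_gt.ChainLinks.inner
      split_ifs
      · exact hcr _ _ _ _ _ _ (hm _) (ho _) (hm _) (hcomm i)
      · exact hcr _ _ _ _ _ _ (hm _) (hm _) (ho _) (hcomm i).symm
    · obtain ⟨j, rfl⟩ := hrep i
      show φ (o ((j + 1 : ℕ) : ZMod N) ^ p ((j + 1 : ℕ) : ZMod N) *
        longitude e ((j + 1 : ℕ) : ZMod N) ^ q ((j + 1 : ℕ) : ZMod N)) = 1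
      rw [map_mul, map_zpow, map_zpow, ho, hUj, hlon]
      have h1 := ((hRel j).symm.pw (-δ * sgn e δ (j + 1))).pow
      rw [← h1]
      show (pw (sgn e δ (j + 1)) (F ((j + 1 : ℕ) : ℤ))) ^ _ * _ = 1
      unfold pw
      rw [← zpow_mul, ← zpow_mul, ← zpow_add]
      have e3 : ((sgn e δ (j + 1) : ℤˣ) : ℤ) * p ((j + 1 : ℕ) : ZMod N) +
          ((-δ * sgn e δ (j + 1) : ℤˣ) : ℤ) * ((δ : ℤ) * p ((j + 1 : ℕ) : ZMod N)) = 0 := by
        have hδ : (δ : ℤ) * δ = 1 := by
          rw [← Units.val_mul, Int.units_mul_self]; rfl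
        rw [Units.val_mul, Units.val_neg]
        linear_combination (-((sgn e δ (j + 1) : ℤˣ) : ℤ) * p ((j + 1 : ℕ) : ZMod N)) * hδ
      rw [e3, zpow_zero]
  refine ⟨PresentedGroup.toGroup hrel, ?_, ?_⟩
  · intro i
    rw [PresentedGroup.toGroup.of, PresentedGroup.toGroup.of]
  · obtain ⟨j, hj⟩ := hne
    -- a natural representative
    obtain ⟨k, hk⟩ : ∃ k : ℕ, F (k : ℤ) ≠ 1 := by
      have hn0 : 0 < n := by
        have : N ≠ 0 := NeZero.ne N
        omega
      have hper' : ∀ (c : ℕ) (i : ℤ), F i ≠ 1 → F (i + 2 * n * c) ≠ 1 := by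
        intro c
        induction c with
        | zero => intro i hi; simpa using hi
        | succ c ih =>
          intro i hi
          have e1 : i + 2 * (n : ℤ) * ((c + 1 : ℕ) : ℤ) = (i + 2 * n * c) + 2 * n := by
            push_cast; ring
          rw [e1, hF']
          intro h
          apply ih i hi
          rcases Int.units_eq_one_or ((-1 : ℤˣ) ^ n) with h1 | h1 <;> rw [h1] at h
          · rwa [pw_one] at h
          · rw [pw_neg, pw_one] at h
            exact inv_eq_one.mp h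
      refine ⟨(j + 2 * n * (j.natAbs : ℕ)).toNat, ?_⟩
      have h0 : 0 ≤ j + 2 * n * (j.natAbs : ℤ) := by
        have h1 : -j ≤ (j.natAbs : ℤ) := by omega
        have h2 : (1 : ℤ) ≤ 2 * n := by omega
        nlinarith [Int.natCast_nonneg j.natAbs]
      rw [Int.toNat_of_nonneg h0]
      exact hper' _ _ hj
    refine ⟨PresentedGroup.of ((k : ZMod N), false), ?_⟩
    rw [PresentedGroup.toGroup.of]
    show U (k : ZMod N) ≠ 1
    rw [hUj]
    intro h
    apply hk
    have h' : pw (sgn e δ k) (F (k : ℤ)) = 1 := h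
    rcases Int.units_eq_one_or (sgn e δ k) with h1 | h1 <;> rw [h1] at h'
    · rwa [pw_one] at h'
    · rw [pw_neg, pw_one] at h'
      exact inv_eq_one.mp h'

end Pool.Agent.H828.QLink
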