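import Pool.Agent.H828.QSign
import Pool.Agent.H828.QLink

set_option autoImplicit false

/-!
# Periodic chains with general ends
-/

namespace Pool.Agent.H828.QGen

open Real Pool.Agent.H828.Lift Pool.Agent.H828.QCh Pool.Agent.H828.QEnds Pool.Agent.H828.QSign

/-- The ratios `x 0 = s 0 / 2` (type `σ = 1`) or `x 0 = ∞` (type `σ = -1`, the inverse of `∞` is
`0`), `x (k + 1) = s (k + 1) - 1 / x k`. -/
noncomputable def ratio (σ : ℤˣ) (s : ℕ → ℝ) : ℕ → ℝ
  | 0 => if σ = 1 then s 0 / 2 else 0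
  | k + 1 => s (k + 1) - (ratio σ s k)⁻¹

/-- The ratios before the index `k` do not vanish. -/
def NonZero (σ : ℤˣ) (s : ℕ → ℝ) (k : ℕ) : Prop :=
  ∀ j < k, ratio σ s j = 0 → σ = -1 ∧ j = 0

/-- The conditions on the slopes near a centre of the reflection. -/
def EndG (σ : ℤˣ) (s : ℕ → ℝ) (a : ℕ) : Prop :=
  ∃ k, NonZero σ s k ∧
    ((a = k + 1 ∧ 1 < ratio σ s k ∧ Small (s (k + 1))) ∨
      (a = k + 3 ∧ 0 < ratio σ s k ∧ Small (s (k + 1)) ∧ 0 < s (k + 2) ∧ Small (s (k + 3))))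

theorem start_step {st : H → H → Prop} {p q : ℕ → ℤ} {k : ℕ} {h : ℝ} (hq : q (k + 1) ≠ 0)
    (h0 : h ≠ 0) (hs : ∀ c : ℝ, Reach st p q k (T c) (T (c * h))) (c : ℝ) :
    Reach st p q (k + 1) (T c) (T (c * (sl p q (k + 1) - h⁻¹))) := by
  have h1 := stepT hq (hs (c / h))
  have e1 : c / h * h = c := by field_simp
  rw [e1] at h1
  have e2 : sl p q (k + 1) * c - c / h = c * (sl p q (k + 1) - h⁻¹) := by
    rw [div_eq_mul_inv]; ring
  rwa [e2] at h1

theorem start_gen {p q : ℕ → ℤ} (σ : ℤˣ) (hq : ∀ j, q j ≠ 0) :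
    ∃ st : H → H → Prop, Nat' st ∧
      (∀ A E, st A E → pw σ A = A ∧ A ^ p 0 = (E * pw σ E) ^ q 0) ∧
      ∀ k, NonZero σ (sl p q) k → ratio σ (sl p q) k ≠ 0 →
        ∀ c : ℝ, Reach st p q k (T c) (T (c * ratio σ (sl p q) k)) := by
  rcases Int.units_eq_one_or σ with rfl | rfl
  · refine ⟨stP (p 0) (q 0), nat_stP _ _, ?_, ?_⟩
    · intro A E hAE
      rw [pw_one, pw_one]
      exact ⟨rfl, hAE⟩
    · intro k
      induction k with
      | zero =>
        intro _ _ c
        exact start_P (hq 0) c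
      | succ k ih =>
        intro hk _ c
        have h0 : ratio 1 (sl p q) k ≠ 0 := by
          intro h
          have := (hk k (by omega) h).1
          exact absurd this (by decide)
        exact start_step (hq _) h0 (ih (fun j hj => hk j (by omega)) h0) c
  · refine ⟨stM, nat_stM, ?_, ?_⟩
    · intro A E hAE
      have hAE' : A = 1 := hAE
      rw [hAE', pw_id, pw_neg, pw_one, mul_inv_cancel, one_zpow, one_zpow]
      exact ⟨rfl, rfl⟩
    · intro k
      induction k with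
      | zero =>
        intro _ h0
        exact absurd (by unfold ratio; exact if_neg (by decide)) h0
      | succ k ih =>
        intro hk _ c
        rcases Nat.eq_zero_or_pos k with rfl | hk0
        · have h1 := start_M (q := q) (p := p) (hq 1) c
          have e : ratio (-1) (sl p q) (0 + 1) = sl p q 1 := by
            show sl p q (0 + 1) - (ratio (-1) (sl p q) 0)⁻¹ = _
            have : ratio (-1) (sl p q) 0 = 0 := by unfold ratio; exact if_neg (by decide)
            rw [this, inv_zero, sub_zero, zero_add]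
          rw [e]; exact h1
        · have h0 : ratio (-1) (sl p q) k ≠ 0 := by
            intro h
            have := (hk k (by omega) h).2
            omega
          exact start_step (hq _) h0 (ih (fun j hj => hk j (by omega)) h0) c

theorem end_gen {p q : ℕ → ℤ} {a : ℕ} (σ : ℤˣ) (hq : ∀ j, q j ≠ 0) (h : EndG σ (sl p q) a) :
    ∃ st : H → H → Prop, Nat' st ∧
      (∀ A E, st A E → pw σ A = A ∧ A ^ p 0 = (E * pw σ E) ^ q 0) ∧ Reach st p q a z⁻¹ g := by
  obtain ⟨st, hst, h1, h2⟩ := start_gen (p := p) (q := q) σ hq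
  refine ⟨st, hst, h1, ?_⟩
  obtain ⟨k, hk, ⟨rfl, h3, h4⟩ | ⟨rfl, h3, h4, h5, h6⟩⟩ := h
  · exact gendShort hst h3 (h2 k hk (by linarith)) (hq _) h4.1 h4.2
  · exact gendLong hst h3 (h2 k hk h3.ne') (hq _) h4.1 h4.2 (hq _) h5 (hq _) h6.1 h6.2

/-- The ends, with a sign. -/
theorem end_gen_sign {p q : ℕ → ℤ} {a : ℕ} (σ δ : ℤˣ) (hq : ∀ j, q j ≠ 0)
    (h : EndG σ (fun j => (((δ : ℤ) * p j : ℤ) : ℝ) / q j) a) :
    ∃ st : H → H → Prop, Nat' st ∧
      (∀ A E, st A E → pw σ A = A ∧ A ^ p 0 = (E * pw σ E) ^ q 0) ∧ Reach st p q a z⁻¹ g := by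
  rcases Int.units_eq_one_or δ with rfl | rfl
  · have h2 : EndG σ (fun j => (p j : ℝ) / q j) a := by simpa using h
    exact end_gen σ hq h2
  · have h2 : EndG σ (fun j => ((-p j : ℤ) : ℝ) / q j) a := by simpa using h
    obtain ⟨st, hst, s0, R0⟩ := end_gen (p := fun j => -p j) (q := q) σ hq h2
    have R1 := Reach_neg (p' := p) (fun j => (neg_neg _).symm) R0
    have hst' : Nat' (fun a e => st a e⁻¹) := by
      intro f a e hae
      show st (f a) (f e)⁻¹
      rw [← map_inv]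
      exact hst f a e⁻¹ hae
    refine ⟨fun a e => st a e⁻¹, hst', ?_, ?_⟩
    · intro A E hAE
      obtain ⟨h1, h2⟩ := s0 A E⁻¹ hAE
      refine ⟨h1, ?_⟩
      have h3 : A ^ p 0 = ((E⁻¹ * pw σ E⁻¹) ^ q 0)⁻¹ := by
        rw [← h2, zpow_neg, inv_inv]
      rw [h3, ← inv_zpow]
      congr 1
      have e1 : pw σ E⁻¹ = (pw σ E)⁻¹ := by
        unfold pw; rw [inv_zpow]
      have e2 : E * pw σ E = pw σ E * E := by
        unfold pw; exact ((Commute.refl E).zpow_right _).eq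
      rw [e1, e2, mul_inv_rev, inv_inv, inv_inv]
    · rcases Nat.even_or_odd a with ha | ha
      · obtain ⟨W, hW, hWg⟩ := g_inv_conj
        have R2 := Reach_cj hst' R1 W
        rw [ha.neg_one_pow, ha.add_one.neg_one_pow, pw_one, pw_neg, pw_one, map_inv, cj_z hW,
          cj_apply, hWg] at R2
        exact R2
      · have R2 := Reach_rho hst' R1
        rw [ha.neg_one_pow, ha.add_one.neg_one_pow, pw_one, pw_neg, pw_one, inv_inv, rho_z,
          rho_g] at R2
        exact R2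

/-- The periodic chain. -/
theorem full_gen {p q : ℤ → ℤ} {n a b t : ℕ} (σ σ' δ δ' : ℤˣ) (hn : n = a + b + 2 + 2 * t)
    (hq0 : ∀ j, q j ≠ 0)
    (hp : ∀ j, p (-j) = p j) (hq : ∀ j, q (-j) = q j)
    (hp' : ∀ j, p (j + 2 * n) = p j) (hq' : ∀ j, q (j + 2 * n) = q j)
    (ha : EndG σ (fun j => (((δ : ℤ) * p j : ℤ) : ℝ) / q j) a)
    (hb : EndG σ' (fun j => (((δ' : ℤ) * p ((n : ℤ) - j) : ℤ) : ℝ) / q ((n : ℤ) - j)) b)
    (ht : ∀ i < t, |(p (a + 2 * i + 2 : ℕ) : ℝ) / q (a + 2 * i + 2 : ℕ)| < 1) :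
    ∃ F : ℤ → H, (∀ j, Rel (p j) (q j) (F (j - 1)) (F j) (F (j + 1))) ∧
      (∀ j, F (j + 2 * n) = pw (σ * σ') (F j)) ∧ ∃ j, F j ≠ 1 := by
  obtain ⟨st, hst, s1, R1⟩ := end_gen_sign (p := fun j => p j) (q := fun j => q j) σ δ
    (fun j => hq0 _) ha
  obtain ⟨st', hst', s2, R2⟩ := end_gen_sign (p := fun j : ℕ => p ((n : ℤ) - j))
    (q := fun j : ℕ => q ((n : ℤ) - j)) σ' δ' (fun j => hq0 _) hb
  have R3 := middle hst (fun j => hq0 _) R1 t ht
  have R4 := fast hst (hq0 _) R3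
  have R5 := Reach_rho hst' R2
  rw [rho_z_inv, rho_g] at R5
  have hpn : ∀ (f : ℤ → ℤ) (j : ℕ), j ≤ n → f ((n : ℤ) - ((n - j : ℕ) : ℤ)) = f (j : ℤ) := by
    intro f j hj
    rw [Nat.cast_sub hj]; congr 1; ring
  obtain ⟨Z, hZ, a1, a2, a3⟩ := join R4 R5 (n := n) (by omega)
    (fun j hj => hpn p j hj) (fun j hj => hpn q j hj)
  obtain ⟨b1, b2⟩ := s1 _ _ a1
  obtain ⟨c1, c2⟩ := s2 _ _ a2
  simp only [Nat.cast_zero, sub_zero] at b2 c2
  have hn0 : 0 < n := by omega
  have h00 : pw (σ * σ') (Z 0) = pw σ' (Z 0) := by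
    rw [mul_comm, pw_mul, b1]
  have hrel := unfolded_rel (n := n) (by omega) (ε := σ') (δ := σ * σ') (Z := Z)
    hp hq hp' hq' hZ h00 (by
      have e : σ * σ' * σ' = σ := by rw [mul_assoc, Int.units_mul_self, mul_one]
      rw [e, b2]
      congr 1
      unfold pw
      exact ((Commute.refl (Z 1)).zpow_right _).eq) c1 c2
  refine ⟨unfolded n σ' (σ * σ') Z, hrel, unfolded_period hn0 _ _ _,
    ((a + 2 * t + 1 : ℕ) : ℤ), ?_⟩
  have h1 := unfolded_apply hn0 h00 0 (a + 2 * t + 1) (by omega)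
  rw [mul_zero, zero_add, zpow_zero, pw_one] at h1
  rw [h1]
  unfold QCh.refl
  rw [if_pos (by omega), a3]
  exact g_ne

end Pool.Agent.H828.QGen

namespace Pool.Agent.H828.QLink

open Pool.Agent.H828.Lift Pool.Agent.H828.QCh
open Pool.Agent.Results.MP_3d425c_gt.ChainLinks (o m crossing outer inner longitude SurgeryGroup)

variable {N : ℕ}

theorem sgn_period_gen [NeZero N] {n : ℕ} (hN : N = 2 * n) (e : ZMod N → Bool) (δ : ℤˣ) :
    sgn e δ N = (-1) ^ (Finset.univ.filter fun i => e i = true).card := by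
  unfold sgn
  rw [prod_cast (fun i => -δ * sg e i), Finset.prod_mul_distrib, Finset.prod_const,
    Finset.card_univ, ZMod.card]
  have h1 : (-δ) ^ N = 1 := by rw [hN, pow_mul]; simp
  have h2 : ∏ x : ZMod N, sg e x =
      (-1) ^ (Finset.univ.filter fun i : ZMod N => ¬ e i = true).card := by
    unfold sg
    rw [Finset.prod_ite]
    simp
  have h3 : (Finset.univ.filter fun i : ZMod N => e i = true).card +
      (Finset.univ.filter fun i : ZMod N => ¬ e i = true).card = N := by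
    rw [Finset.card_filter_add_card_filter_not, Finset.card_univ, ZMod.card]
  rw [h1, h2, one_mul]
  set k := (Finset.univ.filter fun i : ZMod N => e i = true).card with hk
  set k' := (Finset.univ.filter fun i : ZMod N => ¬ e i = true).card with hk'
  have h4 : (-1 : ℤˣ) ^ k' * (-1) ^ k = 1 := by
    rw [← pow_add, Even.neg_one_pow]
    refine ⟨n, ?_⟩
    omega
  have h5 : (-1 : ℤˣ) ^ k * (-1) ^ k = 1 := by rw [← mul_pow]; simp
  calc (-1 : ℤˣ) ^ k' = (-1) ^ k' * ((-1) ^ k * (-1) ^ k) := by rw [h5, mul_one]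
    _ = ((-1) ^ k' * (-1) ^ k) * (-1) ^ k := by rw [mul_assoc]
    _ = _ := by rw [h4, one_mul]

/-- A periodic chain gives a homomorphism. -/
theorem exists_hom_gen [NeZero N] {n : ℕ} (hN : N = 2 * n) {e : ZMod N → Bool} {p q : ZMod N → ℤ}
    {δ τ : ℤˣ} (he : (-1) ^ (Finset.univ.filter fun i => e i = true).card = τ) {F : ℤ → H}
    (hF : ∀ j : ℤ, Rel (δ * p (j : ZMod N)) (q (j : ZMod N)) (F (j - 1)) (F j) (F (j + 1)))
    (hF' : ∀ j, F (j + 2 * n) = pw τ (F j)) (hne : ∃ j, F j ≠ 1) :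
    ∃ f : SurgeryGroup e p q →* H,
      (∀ i, f (PresentedGroup.of (i, false)) = f (PresentedGroup.of (i, true))) ∧
        ∃ γ, f γ ≠ 1 := by
  set u : ℕ → H := fun j => pw (sgn e δ j) (F j) with hu
  have hper : Function.Periodic u N := by
    intro j
    show pw (sgn e δ (j + N)) (F ((j + N : ℕ) : ℤ)) = pw (sgn e δ j) (F j)
    have e1 : ((j + N : ℕ) : ℤ) = (j : ℤ) + 2 * n := by rw [hN]; push_cast; ring
    rw [e1, hF', sgn_add, sgn_period_gen hN e δ, he, ← pw_mul]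
    congr 1
    have h5 : τ * τ = 1 := Int.units_mul_self τ
    calc τ * sgn e δ j * τ = (τ * τ) * sgn e δ j := by ac_rfl
      _ = _ := by rw [h5, one_mul]
  set U : ZMod N → H := fun i => u i.val with hU
  have hUj : ∀ j : ℕ, U (j : ZMod N) = u j := by
    intro j
    show u ((j : ZMod N)).val = u j
    rw [ZMod.val_natCast, hper.map_mod_nat]
  have hrep : ∀ i : ZMod N, ∃ j : ℕ, i = ((j + 1 : ℕ) : ZMod N) := by
    intro i
    refine ⟨i.val + (N - 1), ?_⟩
    have hN1 : 1 ≤ N := NeZero.one_le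
    have e2 : i.val + (N - 1) + 1 = i.val + N := by omega
    rw [e2]; push_cast; rw [ZMod.natCast_zmod_val, ZMod.natCast_self, add_zero]
  have hRel : ∀ j : ℕ, Rel (δ * p ((j + 1 : ℕ) : ZMod N)) (q ((j + 1 : ℕ) : ZMod N))
      (F (j : ℤ)) (F ((j + 1 : ℕ) : ℤ)) (F ((j + 2 : ℕ) : ℤ)) := by
    intro j
    have h1 := hF ((j : ℤ) + 1)
    have e1 : (j : ℤ) + 1 - 1 = (j : ℤ) := by ring
    have e2 : (j : ℤ) + 1 + 1 = ((j + 2 : ℕ) : ℤ) := by push_cast; ring
    have e3 : (j : ℤ) + 1 = ((j + 1 : ℕ) : ℤ) := by push_cast; ring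
    rw [e1, e2, e3] at h1
    simpa using h1
  have hcomm : ∀ i : ZMod N, U i * U (i + 1) = U (i + 1) * U i := by
    intro i
    obtain ⟨j, rfl⟩ := hrep i
    have e1 : ((j + 1 : ℕ) : ZMod N) + 1 = ((j + 2 : ℕ) : ZMod N) := by push_cast; ring
    rw [e1, hUj, hUj]
    simp only [hu, pw]
    have h1 : Commute (F ((j + 1 : ℕ) : ℤ)) (F ((j + 2 : ℕ) : ℤ)) := (hRel j).right
    exact ((h1.zpow_right _).zpow_left _).eq
  -- the map on the generators
  set φ : FreeGroup (ZMod N × Bool) →* H := FreeGroup.lift (fun a => U a.1) with hφ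
  have ho : ∀ i, φ (o i) = U i := fun i => FreeGroup.lift_apply_of
  have hm : ∀ i, φ (m i) = U i := fun i => FreeGroup.lift_apply_of
  have hcr : ∀ (ε : ℤ) (c a b : FreeGroup (ZMod N × Bool)) (x y : H), φ c = x → φ a = y →
      φ b = y → y * x = x * y → φ (crossing ε c a b) = 1 := by
    intro ε c a b x y h1 h2 h3 h4
    unfold crossing
    rw [map_mul, map_mul, map_mul, map_inv, map_zpow, map_zpow, h1, h2, h3]
    exact comm_crossing h4 ε
  have hlon : ∀ j : ℕ, φ (longitude e ((j + 1 : ℕ) : ZMod N)) =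
      pw (-δ * sgn e δ (j + 1)) (F ((j + 2 : ℕ) : ℤ)) *
        pw (-δ * sgn e δ (j + 1)) (F (j : ℤ)) := by
    intro j
    have e1 : ((j + 1 : ℕ) : ZMod N) + 1 = ((j + 2 : ℕ) : ZMod N) := by push_cast; ring
    have e2 : ((j + 1 : ℕ) : ZMod N) - 1 = (j : ZMod N) := by push_cast; ring
    have hδ : δ * δ = 1 := Int.units_mul_self δ
    have hsg : ∀ i, sg e i * sg e i = 1 := fun i => Int.units_mul_self _
    have k1 : φ (if e ((j + 1 : ℕ) : ZMod N) then m ((j + 2 : ℕ) : ZMod N)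
        else (o ((j + 2 : ℕ) : ZMod N))⁻¹) = pw (-δ * sgn e δ (j + 1)) (F ((j + 2 : ℕ) : ℤ)) := by
      have h1 : φ (if e ((j + 1 : ℕ) : ZMod N) then m ((j + 2 : ℕ) : ZMod N)
        else (o ((j + 2 : ℕ) : ZMod N))⁻¹) = pw (sg e ((j + 1 : ℕ) : ZMod N))
          (U ((j + 2 : ℕ) : ZMod N)) := by
        unfold sg
        split_ifs
        · rw [hm, pw_one]
        · rw [map_inv, ho, pw_neg, pw_one]
      rw [h1, hUj]
      show pw _ (pw (sgn e δ (j + 2)) _) = _
      rw [← pw_mul]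
      congr 1
      have : sgn e δ (j + 2) = -δ * sg e ((j + 1 : ℕ) : ZMod N) * sgn e δ (j + 1) :=
        sgn_succ e δ (j + 1)
      rw [this]
      calc sg e ((j + 1 : ℕ) : ZMod N) * (-δ * sg e ((j + 1 : ℕ) : ZMod N) * sgn e δ (j + 1))
          = (sg e ((j + 1 : ℕ) : ZMod N) * sg e ((j + 1 : ℕ) : ZMod N)) *
            (-δ * sgn e δ (j + 1)) := by ac_rfl
        _ = _ := by rw [hsg, one_mul]
    have k2 : φ (if e (j : ZMod N) then o (j : ZMod N)
        else (m (j : ZMod N))⁻¹) = pw (-δ * sgn e δ (j + 1)) (F (j : ℤ)) := by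
      have h1 : φ (if e (j : ZMod N) then o (j : ZMod N)
        else (m (j : ZMod N))⁻¹) = pw (sg e (j : ZMod N)) (U (j : ZMod N)) := by
        unfold sg
        split_ifs
        · rw [ho, pw_one]
        · rw [map_inv, hm, pw_neg, pw_one]
      rw [h1, hUj]
      show pw _ (pw (sgn e δ j) _) = _
      rw [← pw_mul]
      congr 1
      rw [sgn_succ]
      have hnn : -δ * -δ = 1 := by rw [neg_mul_neg, hδ]
      calc sg e (j : ZMod N) * sgn e δ j = (-δ * -δ) * (sg e (j : ZMod N) * sgn e δ j) := by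
            rw [hnn, one_mul]
        _ = _ := by ac_rfl
    unfold longitude
    rw [e1, e2, map_mul, k1, k2]
  have hrel : ∀ w ∈ (Set.range (outer e) ∪ Set.range (inner e) ∪
      Set.range fun i => o i ^ p i * longitude e i ^ q i), φ w = 1 := by
    rintro w ((⟨i, rfl⟩ | ⟨i, rfl⟩) | ⟨i, rfl⟩)
    · unfold outer
      split_ifs
      · exact hcr _ _ _ _ _ _ (ho i) (hm _) (ho _) (hcomm i).symm
      · exact hcr _ _ _ _ _ _ (ho _) (ho _) (hm _) (hcomm i)
    · unfold Pool.Agent.Results.MP_3d425c_gt.ChainLinks.inner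
      split_ifs
      · exact hcr _ _ _ _ _ _ (hm _) (ho _) (hm _) (hcomm i)
      · exact hcr _ _ _ _ _ _ (hm _) (hm _) (ho _) (hcomm i).symm
    · obtain ⟨j, rfl⟩ := hrep i
      show φ (o ((j + 1 : ℕ) : ZMod N) ^ p ((j + 1 : ℕ) : ZMod N) *
        longitude e ((j + 1 : ℕ) : ZMod N) ^ q ((j + 1 : ℕ) : ZMod N)) = 1
      rw [map_mul, map_zpow, map_zpow, ho, hUj, hlon]
      have h1 := ((hRel j).symm.pw (-δ * sgn e δ (j + 1))).pow
      rw [← h1]
      show (pw (sgn e δ (j + 1)) (F ((j + 1 : ℕ) : ℤ))) ^ _ * _ = 1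
      unfold pw
      rw [← zpow_mul, ← zpow_mul, ← zpow_add]
      have e3 : ((sgn e δ (j + 1) : ℤˣ) : ℤ) * p ((j + 1 : ℕ) : ZMod N) +
          ((-δ * sgn e δ (j + 1) : ℤˣ) : ℤ) * ((δ : ℤ) * p ((j + 1 : ℕ) : ZMod N)) = 0 := by
        have hδ : (δ : ℤ) * δ = 1 := by
          rw [← Units.val_mul, Int.units_mul_self]; rfl
        rw [Units.val_mul, Units.val_neg]
        linear_combination (-((sgn e δ (j + 1) : ℤˣ) : ℤ) * p ((j + 1 : ℕ) : ZMod N)) * hδ
      rw [e3, zpow_zero]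
  refine ⟨PresentedGroup.toGroup hrel, ?_, ?_⟩
  · intro i
    rw [PresentedGroup.toGroup.of, PresentedGroup.toGroup.of]
  · obtain ⟨j, hj⟩ := hne
    -- a natural representative
    obtain ⟨k, hk⟩ : ∃ k : ℕ, F (k : ℤ) ≠ 1 := by
      have hn0 : 0 < n := by
        have : N ≠ 0 := NeZero.ne N
        omega
      have hper' : ∀ (c : ℕ) (i : ℤ), F i ≠ 1 → F (i + 2 * n * c) ≠ 1 := by
        intro c
        induction c with
        | zero => intro i hi; simpa using hi
        | succ c ih =>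
          intro i hi
          have e1 : i + 2 * (n : ℤ) * ((c + 1 : ℕ) : ℤ) = (i + 2 * n * c) + 2 * n := by
            push_cast; ring
          rw [e1, hF']
          intro h
          apply ih i hi
          rcases Int.units_eq_one_or τ with h1 | h1 <;> rw [h1] at h
          · rwa [pw_one] at h
          · rw [pw_neg, pw_one] at h
            exact inv_eq_one.mp h
      refine ⟨(j + 2 * n * (j.natAbs : ℕ)).toNat, ?_⟩
      have h0 : 0 ≤ j + 2 * n * (j.natAbs : ℤ) := by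
        have h1 : -j ≤ (j.natAbs : ℤ) := by omega
        have h2 : (1 : ℤ) ≤ 2 * n := by omega
        nlinarith [Int.natCast_nonneg j.natAbs]
      rw [Int.toNat_of_nonneg h0]
      exact hper' _ _ hj
    refine ⟨PresentedGroup.of ((k : ZMod N), false), ?_⟩
    rw [PresentedGroup.toGroup.of]
    show U (k : ZMod N) ≠ 1
    rw [hUj]
    intro h
    apply hk
    have h' : pw (sgn e δ k) (F (k : ℤ)) = 1 := h
    rcases Int.units_eq_one_or (sgn e δ k) with h1 | h1 <;> rw [h1] at h'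
    · rwa [pw_one] at h'
    · rw [pw_neg, pw_one] at h'
      exact inv_eq_one.mp h'

end Pool.Agent.H828.QLink
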