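import Pool.Agent.H828.QFull

set_option autoImplicit false

/-!
# Periodic chains whose ends have slopes of given signs
-/

namespace Pool.Agent.H828.QSign

open Real Pool.Agent.H828.Lift Pool.Agent.H828.QCh Pool.Agent.H828.QEnds

theorem pw_pw_comm {x y : H} (h : x * y = y * x) (u v : ℤˣ) :
    pw u x * pw v y = pw v y * pw u x := by
  unfold pw
  exact (((show Commute x y from h).zpow_right _).zpow_left _).eq

/-- A chain for the negative slopes. -/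
theorem Reach_neg {st : H → H → Prop} {p q p' : ℕ → ℤ} {k : ℕ} {A E : H}
    (hp : ∀ j, p' j = -p j) (h : Reach st p q k A E) :
    Reach (fun a e => st a e⁻¹) p' q k (pw ((-1) ^ k) A) (pw ((-1) ^ (k + 1)) E) := by
  obtain ⟨Z, hZ, h0, rfl, rfl⟩ := h
  refine ⟨fun j => pw ((-1) ^ j) (Z j), ⟨?_, ?_⟩, ?_, rfl, rfl⟩
  · intro j hj
    exact pw_pw_comm (hZ.1 j hj) _ _
  · intro j hj
    have h1 := ((hZ.rel j hj).pw ((-1) ^ j)).pow
    have e2 : ((-1 : ℤˣ) ^ (j + 2)) = (-1) ^ j := by rw [pow_add]; simp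
    have e1 : ((-1 : ℤˣ) ^ (j + 1)) = -(-1) ^ j := by rw [pow_succ]; simp
    show pw ((-1) ^ (j + 1)) (Z (j + 1)) ^ p' (j + 1) =
      (pw ((-1) ^ j) (Z j) * pw ((-1) ^ (j + 2)) (Z (j + 2))) ^ q (j + 1)
    rw [e2, e1, ← h1, hp, pw_neg, inv_zpow, zpow_neg, inv_inv]
  · show st (pw ((-1) ^ 0) (Z 0)) (pw ((-1) ^ 1) (Z 1))⁻¹
    rw [pow_zero, pow_one, pw_one, pw_neg, pw_one, inv_inv]
    exact h0

/-- The ends. -/
theorem end_sign {p q : ℕ → ℤ} {a : ℕ} (δ : ℤˣ) (hq : ∀ j, q j ≠ 0)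
    (h : End (fun j => (((δ : ℤ) * p j : ℤ) : ℝ) / q j) a) :
    ∃ st : H → H → Prop, Nat' st ∧
      (∀ A E, st A E → pw ((-1) ^ (a + 1)) A = A ∧
        A ^ p 0 = (E * pw ((-1) ^ (a + 1)) E) ^ q 0) ∧ Reach st p q a z⁻¹ g := by
  rcases Int.units_eq_one_or δ with rfl | rfl
  · have h2 : End (fun j => (p j : ℝ) / q j) a := by simpa using h
    exact end_reach hq h2
  · obtain ⟨st, hst, s0, R0⟩ := end_reach (p := fun j => -p j) (q := q) hq (by
      unfold sl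
      simpa using h)
    have R1 := Reach_neg (p' := p) (fun j => (neg_neg _).symm) R0
    have hst' : Nat' (fun a e => st a e⁻¹) := by
      intro f a e hae
      show st (f a) (f e)⁻¹
      rw [← map_inv]
      exact hst f a e⁻¹ hae
    refine ⟨fun a e => st a e⁻¹, hst', ?_, ?_⟩
    · intro A E hAE
      obtain ⟨h1, h2⟩ := s0 A E⁻¹ hAE
      refine ⟨h1, ?_⟩
      have h3 : A ^ p 0 = ((E⁻¹ * pw ((-1) ^ (a + 1)) E⁻¹) ^ q 0)⁻¹ := by
        rw [← h2, zpow_neg, inv_inv]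
      rw [h3, ← inv_zpow]
      congr 1
      have e1 : pw ((-1) ^ (a + 1)) E⁻¹ = (pw ((-1) ^ (a + 1)) E)⁻¹ := by
        unfold pw; rw [inv_zpow]
      have e2 : E * pw ((-1) ^ (a + 1)) E = pw ((-1) ^ (a + 1)) E * E := by
        unfold pw; exact ((Commute.refl E).zpow_right _).eq
      rw [e1, e2, mul_inv_rev, inv_inv, inv_inv]
    · rcases Nat.even_or_odd a with ha | ha
      · obtain ⟨W, hW, hWg⟩ := g_inv_conj
        have R2 := Reach_cj hst' R1 W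
        rw [ha.neg_one_pow, ha.add_one.neg_one_pow, pw_one, pw_neg, pw_one, map_inv, cj_z hW,
          cj_apply, hWg] at R2
        exact R2
      · have R2 := Reach_rho hst' R1
        rw [ha.neg_one_pow, ha.add_one.neg_one_pow, pw_one, pw_neg, pw_one, inv_inv, rho_z,
          rho_g] at R2
        exact R2

/-- The periodic chain. -/
theorem full_sign {p q : ℤ → ℤ} {n a b t : ℕ} (δ δ' : ℤˣ) (hn : n = a + b + 2 + 2 * t)
    (hq0 : ∀ j, q j ≠ 0)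
    (hp : ∀ j, p (-j) = p j) (hq : ∀ j, q (-j) = q j)
    (hp' : ∀ j, p (j + 2 * n) = p j) (hq' : ∀ j, q (j + 2 * n) = q j)
    (ha : End (fun j => (((δ : ℤ) * p j : ℤ) : ℝ) / q j) a)
    (hb : End (fun j => (((δ' : ℤ) * p ((n : ℤ) - j) : ℤ) : ℝ) / q ((n : ℤ) - j)) b)
    (ht : ∀ i < t, |(p (a + 2 * i + 2 : ℕ) : ℝ) / q (a + 2 * i + 2 : ℕ)| < 1) :
    ∃ F : ℤ → H, (∀ j, Rel (p j) (q j) (F (j - 1)) (F j) (F (j + 1))) ∧
      (∀ j, F (j + 2 * n) = pw ((-1) ^ n) (F j)) ∧ ∃ j, F j ≠ 1 := by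
  obtain ⟨st, hst, s1, R1⟩ := end_sign (p := fun j => p j) (q := fun j => q j) δ
    (fun j => hq0 _) ha
  obtain ⟨st', hst', s2, R2⟩ := end_sign (p := fun j : ℕ => p ((n : ℤ) - j))
    (q := fun j : ℕ => q ((n : ℤ) - j)) δ' (fun j => hq0 _) hb
  have R3 := middle hst (fun j => hq0 _) R1 t ht
  have R4 := fast hst (hq0 _) R3
  have R5 := Reach_rho hst' R2
  rw [rho_z_inv, rho_g] at R5
  have hpn : ∀ (f : ℤ → ℤ) (j : ℕ), j ≤ n → f ((n : ℤ) - ((n - j : ℕ) : ℤ)) = f (j : ℤ) := by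
    intro f j hj
    rw [Nat.cast_sub hj]; congr 1; ring
  obtain ⟨Z, hZ, a1, a2, a3⟩ := join R4 R5 (n := n) (by omega)
    (fun j hj => hpn p j hj) (fun j hj => hpn q j hj)
  obtain ⟨b1, b2⟩ := s1 _ _ a1
  obtain ⟨c1, c2⟩ := s2 _ _ a2
  simp only [Nat.cast_zero, sub_zero] at b2 c2
  have hsign : ((-1 : ℤˣ) ^ n) = (-1) ^ (a + 1) * (-1) ^ (b + 1) := by
    rw [← pow_add, hn]
    have e : a + b + 2 + 2 * t = (a + 1 + (b + 1)) + 2 * t := by ring
    rw [e, pow_add _ _ (2 * t), pow_mul]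
    simp
  have hsq : ∀ m : ℕ, ((-1 : ℤˣ) ^ m) * (-1) ^ m = 1 := by
    intro m; rw [← mul_pow]; simp
  have hn0 : 0 < n := by omega
  have h00 : pw ((-1) ^ n) (Z 0) = pw ((-1) ^ (b + 1)) (Z 0) := by
    rw [hsign, mul_comm, pw_mul, b1]
  have hrel := unfolded_rel (n := n) (by omega) (ε := (-1) ^ (b + 1)) (δ := (-1) ^ n) (Z := Z)
    hp hq hp' hq' hZ h00 (by
      have e : ((-1 : ℤˣ) ^ n) * (-1) ^ (b + 1) = (-1) ^ (a + 1) := by
        rw [hsign, mul_assoc, hsq, mul_one]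
      rw [e, b2]
      congr 1
      unfold pw
      exact ((Commute.refl (Z 1)).zpow_right _).eq) c1 c2
  refine ⟨unfolded n ((-1) ^ (b + 1)) ((-1) ^ n) Z, hrel, unfolded_period hn0 _ _ _,
    ((a + 2 * t + 1 : ℕ) : ℤ), ?_⟩
  have h1 := unfolded_apply hn0 h00 0 (a + 2 * t + 1) (by omega)
  rw [mul_zero, zero_add, zpow_zero, pw_one] at h1
  rw [h1]
  unfold QCh.refl
  rw [if_pos (by omega), a3]
  exact g_ne

end Pool.Agent.H828.QSign
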