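import Mathlib
import Pool.Agent.H770.GS.UQ

/-!
# Project UQ, task 15: multiplicities in a maximizing list
-/

set_option autoImplicit false

open Pool.Agent.H770.GS

namespace Pool.Agent.H828.UQ15

/-- counts in a doubled list are even -/
theorem count_dup [BEq ℝ] [LawfulBEq ℝ] (x : ℝ) (C : List ℝ) :
    (dup C).count x = 2 * C.count x := by
  induction C with
  | nil => simp [dup]
  | cons c C ih =>
    simp only [dup, List.count_cons, ih]
    ring

/-- peeling the pairs off a decreasing list -/
theorem peel (hperm : S_perm)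
    (NS : ∀ (r : ℝ) (n : ℕ) (L : List ℝ) (x y : ℝ) (S C : List ℝ), 0 < r → r ≤ 2 → MaxL r n L →
      L.Perm (x :: y :: (S ++ dup C)) → y < x → (∀ z ∈ S, z ≤ y) → False)
    (r : ℝ) (n : ℕ) (hr : 0 < r) (hr2 : r ≤ 2) :
    ∀ (m : ℕ) (L' C : List ℝ), L'.length ≤ m → MaxL r n (dup C ++ L') → L'.Pairwise (· ≥ ·) →
      ∃ C' T : List ℝ, L' = dup C' ++ T ∧ (T = [] ∨ ∃ z, T = [z]) := by
  intro m
  induction m with
  | zero =>
    intro L' C hm _ _
    have h1 : L' = [] := List.length_eq_zero_iff.1 (Nat.le_zero.1 hm)
    exact ⟨[], [], by simp [h1, dup], Or.inl rfl⟩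
  | succ m ih =>
    intro L' C hm hmax hsort
    match L', hm, hmax, hsort with
    | [], _, _, _ => exact ⟨[], [], by simp [dup], Or.inl rfl⟩
    | [z], _, _, _ => exact ⟨[], [z], by simp [dup], Or.inr ⟨z, rfl⟩⟩
    | x :: y :: S, hm, hmax, hsort =>
      rw [List.pairwise_cons, List.pairwise_cons] at hsort
      obtain ⟨h1, h2, h3⟩ := hsort
      have hyx : y ≤ x := h1 y (by simp)
      have hp : (dup C ++ x :: y :: S).Perm (x :: y :: (S ++ dup C)) := by
        have h4 : (dup C ++ x :: y :: S).Perm ((x :: y :: S) ++ dup C) := List.perm_append_comm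
        exact h4
      have hxy : y = x := by
        by_contra hne
        exact NS r n _ x y S C hr hr2 hmax hp (lt_of_le_of_ne hyx hne) (fun z hz => h2 z hz)
      subst hxy
      have hp2 : (dup C ++ y :: y :: S).Perm (dup (y :: C) ++ S) := by
        refine hp.trans ?_
        have h5 : (S ++ dup C).Perm (dup C ++ S) := List.perm_append_comm
        exact (h5.cons y).cons y
      obtain ⟨C', T, hC, hT⟩ := ih S (y :: C) (by simp only [List.length_cons] at hm; omega)
        (hperm r n _ _ hr hp2 hmax) h3
      exact ⟨y :: C', T, by simp [dup, hC], hT⟩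

theorem t_odd : S_odd := by
  intro hperm NS r n L hr hr2 hmax
  refine ⟨?_, ?_⟩
  · intro x hodd y hy
    obtain ⟨L', hL', hs⟩ : ∃ L' : List ℝ, L.Perm L' ∧ L'.Pairwise (· ≥ ·) := by
      refine ⟨L.insertionSort (· ≥ ·), (List.perm_insertionSort (· ≥ ·) L).symm, ?_⟩
      exact List.pairwise_insertionSort (· ≥ ·) L
    obtain ⟨C, T, hC, hT⟩ := peel hperm NS r n hr hr2 L'.length L' [] le_rfl
      (by simpa [dup] using hperm r n L L' hr hL' hmax) hs
    have hcount : L.count x = 2 * C.count x + T.count x := by
      rw [hL'.count_eq, hC, List.count_append, count_dup]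
    have hTx : T = [x] := by
      rcases hT with hT | ⟨z, hT⟩
      · rw [hcount, hT] at hodd
        simp at hodd
        exact absurd hodd (by rw [Nat.not_odd_iff_even]; exact even_two_mul _)
      · by_cases hzx : z = x
        · rw [hT, hzx]
        · exfalso
          rw [hcount, hT, List.count_cons_of_ne hzx] at hodd
          simp at hodd
          exact absurd hodd (by rw [Nat.not_odd_iff_even]; exact even_two_mul _)
    have hy' : y ∈ dup C ++ [x] := by
      rw [← hTx, ← hC]
      exact hL'.mem_iff.1 hy
    rw [hC, hTx, List.pairwise_append] at hs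
    rcases List.mem_append.1 hy' with h | h
    · exact hs.2.2 y h x (by simp)
    · rw [List.mem_singleton] at h
      exact h.ge
  · intro hs
    exact peel hperm NS r n hr hr2 L.length L [] le_rfl (by simpa [dup] using hmax) hs

end Pool.Agent.H828.UQ15
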